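import Pool.Agent.IIC.Defs

set_option autoImplicit false
set_option linter.unusedVariables false
set_option linter.unusedSectionVars false

/-!
# Zero density of the incipient infinite cluster: definitions

`Γ` is a group, `S` a finite set (symmetric, generating, in the theorem).  Bond percolation on the
Cayley graph `cay S` is modelled on configurations `Cfg Γ = Sym2 Γ → Bool`; only the bits at edges
of the Cayley graph are used.
-/

namespace Pool.Agent.IIC
open MeasureTheory ProbabilityTheory
open scoped ENNReal NNReal
variable {Γ : Type} [Group Γ]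


/-- a cluster reaching distance `n` has at least `n + 1` vertices -/
theorem R_of_sz {S : Finset Γ} (n : ℕ) (x : Γ) (ω : Cfg Γ) (h : R S n x ω) :
    ((n + 1 : ℕ) : ℝ≥0∞) ≤ sz S ω x := by
  classical
  obtain ⟨y, hy, hn⟩ := h
  obtain ⟨p, hp⟩ := (show (opn S ω).Reachable x y from hy).exists_isPath
  have hle : opn S ω ≤ cay S := fun a b hab => hab.1
  have h1 : (cay S).dist x y ≤ p.length := by
    have := SimpleGraph.dist_le (p.mapLe hle)
    simpa using this
  have hsub : ((p.support.toFinset : Finset Γ) : Set Γ) ⊆ clus S ω x := by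
    intro z hz
    have hz' : z ∈ p.support := by simpa using hz
    exact ⟨p.takeUntil z hz'⟩
  have hcard : p.support.toFinset.card = p.length + 1 := by
    rw [List.toFinset_card_of_nodup hp.support_nodup, SimpleGraph.Walk.length_support]
  have h2 : ((n + 1 : ℕ) : ℕ∞) ≤ (clus S ω x).encard := by
    calc ((n + 1 : ℕ) : ℕ∞) ≤ ((p.support.toFinset.card : ℕ) : ℕ∞) := by
          rw [hcard]; exact_mod_cast (by omega : n + 1 ≤ p.length + 1)
      _ = ((p.support.toFinset : Finset Γ) : Set Γ).encard := (Set.encard_coe_eq_coe_finsetCard _).symm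
      _ ≤ _ := Set.encard_le_encard hsub
  unfold sz
  have h3 : (((n + 1 : ℕ) : ℕ∞) : ℝ≥0∞) ≤ ((clus S ω x).encard : ℝ≥0∞) := by
    exact_mod_cast h2
  simpa using h3

end Pool.Agent.IIC
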