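import Pool.Agent.IIC.Defs

set_option autoImplicit false
set_option linter.unusedVariables false
set_option linter.unusedSectionVars false

/-!
# Zero density of the incipient infinite cluster: definitions

`Γ` is a group, `S` a finite set (symmetric, generating, in the theorem).  Bond percolation on the
Cayley graph `cay S` is modelled on configurations `Cfg Γ = Sym2 Γ → Bool`; only the bits at edges
of the Cayley graph are used.
-/

namespace Pool.Agent.IIC
open MeasureTheory ProbabilityTheory
open scoped ENNReal NNReal
variable {Γ : Type} [Group Γ]


theorem cay_smul {S : Finset Γ} (g x y : Γ) :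
    (cay S).Adj (g * x) (g * y) ↔ (cay S).Adj x y := by
  unfold cay
  simp only [SimpleGraph.fromRel_adj, mul_inv_rev, ne_eq, mul_right_inj]
  have e : ∀ a b : Γ, a⁻¹ * g⁻¹ * (g * b) = a⁻¹ * b := fun a b => by group
  simp only [e]

end Pool.Agent.IIC
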