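import Pool.Agent.IIC.Defs
import Pool.Agent.IIC.P_cay_smul

set_option autoImplicit false
set_option linter.unusedVariables false
set_option linter.unusedSectionVars false

/-!
# Zero density of the incipient infinite cluster: definitions

`Γ` is a group, `S` a finite set (symmetric, generating, in the theorem).  Bond percolation on the
Cayley graph `cay S` is modelled on configurations `Cfg Γ = Sym2 Γ → Bool`; only the bits at edges
of the Cayley graph are used.
-/

namespace Pool.Agent.IIC
open MeasureTheory ProbabilityTheory
open scoped ENNReal NNReal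
variable {Γ : Type} [Group Γ]


theorem dist_smul {S : Finset Γ} (g x y : Γ) :
    (cay S).dist (g * x) (g * y) = (cay S).dist x y := by
  have key : ∀ (g x y : Γ), Set.range (SimpleGraph.Walk.length : (cay S).Walk x y → ℕ) ⊆
      Set.range (SimpleGraph.Walk.length : (cay S).Walk (g * x) (g * y) → ℕ) := by
    rintro g x y _ ⟨p, rfl⟩
    let f : cay S →g cay S := ⟨fun z => g * z, fun {a b} h => (cay_smul g a b).2 h⟩
    exact ⟨p.map f, SimpleGraph.Walk.length_map f p⟩
  have h2 := key g⁻¹ (g * x) (g * y)
  rw [inv_mul_cancel_left, inv_mul_cancel_left] at h2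
  rw [SimpleGraph.dist_eq_sInf, SimpleGraph.dist_eq_sInf,
    Set.Subset.antisymm h2 (key g x y)]

end Pool.Agent.IIC
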