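import Pool.Agent.IIC.Defs
import Pool.Agent.IIC.P_cay_smul

set_option autoImplicit false
set_option linter.unusedVariables false
set_option linter.unusedSectionVars false

/-!
# Zero density of the incipient infinite cluster: definitions

`Γ` is a group, `S` a finite set (symmetric, generating, in the theorem).  Bond percolation on the
Cayley graph `cay S` is modelled on configurations `Cfg Γ = Sym2 Γ → Bool`; only the bits at edges
of the Cayley graph are used.
-/

namespace Pool.Agent.IIC
open MeasureTheory ProbabilityTheory
open scoped ENNReal NNReal
variable {Γ : Type} [Group Γ]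


theorem opn_shift {S : Finset Γ} (g : Γ) (ω : Cfg Γ) (x y : Γ) :
    (opn S (shift g ω)).Adj (g * x) (g * y) ↔ (opn S ω).Adj x y := by
  change ((cay S).Adj (g * x) (g * y) ∧ shift g ω s(g * x, g * y) = true) ↔
    ((cay S).Adj x y ∧ ω s(x, y) = true)
  rw [cay_smul]
  unfold shift
  rw [Sym2.map_mk]
  simp

end Pool.Agent.IIC
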