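import Pool.Agent.IIC.Defs
import Pool.Agent.IIC.P_opn_shift

set_option autoImplicit false
set_option linter.unusedVariables false
set_option linter.unusedSectionVars false

/-!
# Zero density of the incipient infinite cluster: definitions

`Γ` is a group, `S` a finite set (symmetric, generating, in the theorem).  Bond percolation on the
Cayley graph `cay S` is modelled on configurations `Cfg Γ = Sym2 Γ → Bool`; only the bits at edges
of the Cayley graph are used.
-/

namespace Pool.Agent.IIC
open MeasureTheory ProbabilityTheory
open scoped ENNReal NNReal
variable {Γ : Type} [Group Γ]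


theorem mem_clus_shift {S : Finset Γ} (g : Γ) (ω : Cfg Γ) (x y : Γ) :
    g * y ∈ clus S (shift g ω) (g * x) ↔ y ∈ clus S ω x := by
  let φ : opn S ω ≃g opn S (shift g ω) := ⟨Equiv.mulLeft g, fun {a b} => opn_shift g ω a b⟩
  exact φ.reachable_iff (u := x) (v := y)

end Pool.Agent.IIC
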