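import Pool.Agent.IIC.Defs
import Pool.Agent.IIC.P_dist_smul
import Pool.Agent.IIC.P_mem_clus_shift

set_option autoImplicit false
set_option linter.unusedVariables false
set_option linter.unusedSectionVars false

/-!
# Zero density of the incipient infinite cluster: definitions

`Γ` is a group, `S` a finite set (symmetric, generating, in the theorem).  Bond percolation on the
Cayley graph `cay S` is modelled on configurations `Cfg Γ = Sym2 Γ → Bool`; only the bits at edges
of the Cayley graph are used.
-/

namespace Pool.Agent.IIC
open MeasureTheory ProbabilityTheory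
open scoped ENNReal NNReal
variable {Γ : Type} [Group Γ]


theorem R_shift {S : Finset Γ} (n : ℕ) (g : Γ) (ω : Cfg Γ) (x : Γ) :
    R S n (g * x) (shift g ω) ↔ R S n x ω := by
  constructor
  · rintro ⟨y, hy, hn⟩
    have e : y = g * (g⁻¹ * y) := by group
    rw [e] at hy hn
    rw [mem_clus_shift] at hy
    rw [dist_smul] at hn
    exact ⟨_, hy, hn⟩
  · rintro ⟨y, hy, hn⟩
    exact ⟨g * y, (mem_clus_shift g ω x y).mpr hy, by rw [dist_smul]; exact hn⟩

end Pool.Agent.IIC
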