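import Pool.Agent.IIC.Defs

set_option autoImplicit false
set_option linter.unusedVariables false
set_option linter.unusedSectionVars false

/-!
# Zero density of the incipient infinite cluster: definitions

`Γ` is a group, `S` a finite set (symmetric, generating, in the theorem).  Bond percolation on the
Cayley graph `cay S` is modelled on configurations `Cfg Γ = Sym2 Γ → Bool`; only the bits at edges
of the Cayley graph are used.
-/

namespace Pool.Agent.IIC
open MeasureTheory ProbabilityTheory
open scoped ENNReal NNReal
variable {Γ : Type} [Group Γ]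


theorem cay_adj {S : Finset Γ} (hS : Symm S) (x y : Γ) :
    (cay S).Adj x y ↔ x ≠ y ∧ x⁻¹ * y ∈ S := by
  unfold cay
  rw [SimpleGraph.fromRel_adj]
  constructor
  · rintro ⟨h1, h2 | h2⟩
    · exact ⟨h1, h2⟩
    · refine ⟨h1, ?_⟩
      have h3 := hS _ h2
      rw [mul_inv_rev, inv_inv] at h3
      exact h3
  · rintro ⟨h1, h2⟩
    exact ⟨h1, Or.inl h2⟩

end Pool.Agent.IIC
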