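import Pool.Agent.IIC.Defs
import Pool.Agent.IIC.P_cay_adj

set_option autoImplicit false
set_option linter.unusedVariables false
set_option linter.unusedSectionVars false

/-!
# Zero density of the incipient infinite cluster: definitions

`Γ` is a group, `S` a finite set (symmetric, generating, in the theorem).  Bond percolation on the
Cayley graph `cay S` is modelled on configurations `Cfg Γ = Sym2 Γ → Bool`; only the bits at edges
of the Cayley graph are used.
-/

namespace Pool.Agent.IIC
open MeasureTheory ProbabilityTheory
open scoped ENNReal NNReal
variable {Γ : Type} [Group Γ]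


theorem cay_conn {S : Finset Γ} (hS : Symm S) (hg : Gen S) : (cay S).Connected := by
  have hr : ∀ (x s : Γ), s ∈ S → (cay S).Reachable x (x * s) := by
    intro x s hs
    by_cases h1 : x = x * s
    · rw [← h1]
    · exact ((cay_adj hS x (x * s)).2 ⟨h1, by simpa using hs⟩).reachable
  have key : ∀ g : Γ, g ∈ Subgroup.closure (S : Set Γ) → ∀ x : Γ, (cay S).Reachable x (x * g) := by
    intro g hgm
    induction hgm using Subgroup.closure_induction with
    | mem s hs => exact fun x => hr x s (by simpa using hs)
    | one => intro x; simp
    | mul a b _ _ iha ihb =>
      intro x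
      rw [← mul_assoc]
      exact (iha x).trans (ihb (x * a))
    | inv a _ iha =>
      intro x
      have := iha (x * a⁻¹)
      rw [inv_mul_cancel_right] at this
      exact this.symm
  haveI : Nonempty Γ := ⟨1⟩
  refine SimpleGraph.Connected.mk ?_
  intro x y
  have := key (x⁻¹ * y) (by rw [show Subgroup.closure (S : Set Γ) = ⊤ from hg]; trivial) x
  simpa using this

end Pool.Agent.IIC
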