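import Pool.Agent.IIC.Defs
import Pool.Agent.IIC.P_cay_adj

set_option autoImplicit false
set_option linter.unusedVariables false
set_option linter.unusedSectionVars false

/-!
# Zero density of the incipient infinite cluster: definitions

`Γ` is a group, `S` a finite set (symmetric, generating, in the theorem).  Bond percolation on the
Cayley graph `cay S` is modelled on configurations `Cfg Γ = Sym2 Γ → Bool`; only the bits at edges
of the Cayley graph are used.
-/

namespace Pool.Agent.IIC
open MeasureTheory ProbabilityTheory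
open scoped ENNReal NNReal
variable {Γ : Type} [Group Γ]


theorem mem_T {S : Finset Γ} (hS : Symm S) (H : Finset Γ) (e : Sym2 Γ) :
    e ∈ T S H ↔ e ∈ (cay S).edgeSet ∧ ∃ v ∈ e, v ∈ H := by
  classical
  unfold T
  rw [Finset.mem_filter, Finset.mem_image]
  constructor
  · rintro ⟨⟨⟨h, s⟩, hhs, rfl⟩, he⟩
    rw [Finset.mem_product] at hhs
    exact ⟨he, h, Sym2.mem_mk_left _ _, hhs.1⟩
  · rintro ⟨he, v, hv, hvH⟩
    refine ⟨?_, he⟩
    obtain ⟨w, rfl⟩ := Sym2.mem_iff_exists.1 hv
    have hadj : (cay S).Adj v w := he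
    rw [cay_adj hS] at hadj
    refine ⟨(v, v⁻¹ * w), ?_, ?_⟩
    · rw [Finset.mem_product]
      exact ⟨hvH, hadj.2⟩
    · simp only [mul_inv_cancel_left]
end Pool.Agent.IIC
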