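import Pool.Agent.IIC.Defs
import Pool.Agent.IIC.P_mem_T

set_option autoImplicit false
set_option linter.unusedVariables false
set_option linter.unusedSectionVars false

/-!
# Zero density of the incipient infinite cluster: definitions

`Γ` is a group, `S` a finite set (symmetric, generating, in the theorem).  Bond percolation on the
Cayley graph `cay S` is modelled on configurations `Cfg Γ = Sym2 Γ → Bool`; only the bits at edges
of the Cayley graph are used.
-/

namespace Pool.Agent.IIC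
open MeasureTheory ProbabilityTheory
open scoped ENNReal NNReal
variable {Γ : Type} [Group Γ]


theorem opn_cl {S : Finset Γ} (hS : Symm S) (H : Finset Γ) (ω : Cfg Γ) (x y : Γ) :
    (opn S (cl S H ω)).Adj x y ↔ (opn S ω).Adj x y ∧ x ∉ H ∧ y ∉ H := by
  show ((cay S).Adj x y ∧ (cl S H ω) s(x, y) = true) ↔
    ((cay S).Adj x y ∧ ω s(x, y) = true) ∧ x ∉ H ∧ y ∉ H
  have hT : s(x, y) ∈ T S H ↔ (cay S).Adj x y ∧ (x ∈ H ∨ y ∈ H) := by
    rw [mem_T hS]
    constructor
    · rintro ⟨h1, v, hv, hvH⟩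
      refine ⟨h1, ?_⟩
      rcases Sym2.mem_iff.1 hv with rfl | rfl
      · exact Or.inl hvH
      · exact Or.inr hvH
    · rintro ⟨h1, h2 | h2⟩
      · exact ⟨h1, x, Sym2.mem_mk_left x y, h2⟩
      · exact ⟨h1, y, Sym2.mem_mk_right x y, h2⟩
  have hcl : (cl S H ω) s(x, y) = true ↔ s(x, y) ∉ T S H ∧ ω s(x, y) = true := by
    unfold cl
    by_cases h : s(x, y) ∈ T S H
    · simp [h]
    · simp [h]
  rw [hcl, hT]
  constructor
  · rintro ⟨h1, h2, h3⟩
    exact ⟨⟨h1, h3⟩, fun hx => h2 ⟨h1, Or.inl hx⟩, fun hy => h2 ⟨h1, Or.inr hy⟩⟩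
  · rintro ⟨⟨h1, h3⟩, hx, hy⟩
    exact ⟨h1, fun h => h.2.elim hx hy, h3⟩

end Pool.Agent.IIC
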