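import Pool.Agent.IIC.Defs
import Pool.Agent.IIC.P_opn_cl

set_option autoImplicit false
set_option linter.unusedVariables false
set_option linter.unusedSectionVars false

/-!
# Zero density of the incipient infinite cluster: definitions

`Γ` is a group, `S` a finite set (symmetric, generating, in the theorem).  Bond percolation on the
Cayley graph `cay S` is modelled on configurations `Cfg Γ = Sym2 Γ → Bool`; only the bits at edges
of the Cayley graph are used.
-/

namespace Pool.Agent.IIC
open MeasureTheory ProbabilityTheory
open scoped ENNReal NNReal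
variable {Γ : Type} [Group Γ]


theorem clus_cl {S : Finset Γ} (hS : Symm S) (H : Finset Γ) (ω : Cfg Γ) (x v : Γ)
    (h : clus S ω x = ↑H) (hv : v ∉ H) : clus S (cl S H ω) v = clus S ω v := by
  have hle : opn S (cl S H ω) ≤ opn S ω := fun a b hab => ((opn_cl hS H ω a b).1 hab).1
  ext y
  simp only [clus, Set.mem_setOf_eq]
  refine ⟨fun hy => hy.mono hle, fun hy => ?_⟩
  have key : ∀ z, (opn S ω).Reachable v z → z ∉ H ∧ (opn S (cl S H ω)).Reachable v z := by
    intro z hz
    rw [SimpleGraph.reachable_iff_reflTransGen] at hz
    induction hz with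
    | refl => exact ⟨hv, SimpleGraph.Reachable.refl _⟩
    | @tail a b hab hadj ih =>
      obtain ⟨ha, hra⟩ := ih
      have hb : b ∉ H := by
        intro hb
        apply ha
        have h1 : b ∈ clus S ω x := by rw [h]; exact_mod_cast hb
        have h2 : a ∈ clus S ω x := by
          have h3 : (opn S ω).Reachable x b := h1
          exact h3.trans hadj.symm.reachable
        rw [h] at h2
        exact_mod_cast h2
      exact ⟨hb, hra.trans ((opn_cl hS H ω a b).2 ⟨hadj, ha, hb⟩ : (opn S (cl S H ω)).Adj a b).reachable⟩
  exact (key y hy).2

end Pool.Agent.IIC
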