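import Pool.Agent.IIC.Defs
import Pool.Agent.IIC.P_mem_T

set_option autoImplicit false
set_option linter.unusedVariables false
set_option linter.unusedSectionVars false

/-!
# Zero density of the incipient infinite cluster: definitions

`Γ` is a group, `S` a finite set (symmetric, generating, in the theorem).  Bond percolation on the
Cayley graph `cay S` is modelled on configurations `Cfg Γ = Sym2 Γ → Bool`; only the bits at edges
of the Cayley graph are used.
-/

namespace Pool.Agent.IIC
open MeasureTheory ProbabilityTheory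
open scoped ENNReal NNReal
variable {Γ : Type} [Group Γ]


/-- between vertices, one of which is in `H`, `kp S H ω` and `ω` have the same open edges -/
theorem opn_kp {S : Finset Γ} (hS : Symm S) (H : Finset Γ) (ω : Cfg Γ) (x y : Γ) :
    (opn S (kp S H ω)).Adj x y ↔ (opn S ω).Adj x y ∧ (x ∈ H ∨ y ∈ H) := by
  have h1 : (opn S (kp S H ω)).Adj x y ↔ (cay S).Adj x y ∧ kp S H ω s(x, y) = true := Iff.rfl
  have h2 : (opn S ω).Adj x y ↔ (cay S).Adj x y ∧ ω s(x, y) = true := Iff.rfl
  rw [h1, h2]
  have h3 : s(x, y) ∈ T S H ↔ (cay S).Adj x y ∧ (x ∈ H ∨ y ∈ H) := by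
    rw [mem_T hS, SimpleGraph.mem_edgeSet]
    constructor
    · rintro ⟨h, v, hv, hvH⟩
      refine ⟨h, ?_⟩
      rcases Sym2.mem_iff.1 hv with rfl | rfl
      · exact Or.inl hvH
      · exact Or.inr hvH
    · rintro ⟨h, h' | h'⟩
      · exact ⟨h, x, Sym2.mem_mk_left x y, h'⟩
      · exact ⟨h, y, Sym2.mem_mk_right x y, h'⟩
  unfold kp
  by_cases h : s(x, y) ∈ T S H
  · simp only [if_pos h]
    have := h3.1 h
    tauto
  · simp only [if_neg h]
    constructor
    · rintro ⟨_, h'⟩
      exact absurd h' (by simp)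
    · rintro ⟨⟨ha, _⟩, hH⟩
      exact absurd (h3.2 ⟨ha, hH⟩) h

end Pool.Agent.IIC
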