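import Pool.Agent.IIC.Defs
import Pool.Agent.IIC.P_opn_kp

set_option autoImplicit false
set_option linter.unusedVariables false
set_option linter.unusedSectionVars false

/-!
# Zero density of the incipient infinite cluster: definitions

`Γ` is a group, `S` a finite set (symmetric, generating, in the theorem).  Bond percolation on the
Cayley graph `cay S` is modelled on configurations `Cfg Γ = Sym2 Γ → Bool`; only the bits at edges
of the Cayley graph are used.
-/

namespace Pool.Agent.IIC
open MeasureTheory ProbabilityTheory
open scoped ENNReal NNReal
variable {Γ : Type} [Group Γ]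


theorem clus_kp {S : Finset Γ} (hS : Symm S) (H : Finset Γ) (ω : Cfg Γ) (x : Γ) :
    clus S ω x = ↑H ↔ clus S (kp S H ω) x = ↑H := by
  have hmono : ∀ y, y ∈ clus S (kp S H ω) x → y ∈ clus S ω x := by
    intro y hy
    have hy' : (opn S (kp S H ω)).Reachable x y := hy
    rw [SimpleGraph.reachable_iff_reflTransGen] at hy'
    show (opn S ω).Reachable x y
    rw [SimpleGraph.reachable_iff_reflTransGen]
    induction hy' with
    | refl => exact Relation.ReflTransGen.refl
    | @tail b c hb hbc ih =>
      have hb' : b ∈ clus S (kp S H ω) x := (SimpleGraph.reachable_iff_reflTransGen _ _).mpr hb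
      exact Relation.ReflTransGen.tail (ih hb') ((opn_kp hS H ω b c).mp hbc).1
  constructor
  · intro h
    apply Set.Subset.antisymm
    · intro y hy
      rw [← h]
      exact hmono y hy
    · intro y hy
      rw [← h] at hy
      have hy' : (opn S ω).Reachable x y := hy
      rw [SimpleGraph.reachable_iff_reflTransGen] at hy'
      show (opn S (kp S H ω)).Reachable x y
      rw [SimpleGraph.reachable_iff_reflTransGen]
      clear hy
      induction hy' with
      | refl => exact Relation.ReflTransGen.refl
      | @tail b c hb hbc ih =>
        have hbH : b ∈ H := by
          have : b ∈ clus S ω x := (SimpleGraph.reachable_iff_reflTransGen _ _).mpr hb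
          rw [h] at this
          exact this
        exact Relation.ReflTransGen.tail ih ((opn_kp hS H ω b c).mpr ⟨hbc, Or.inl hbH⟩)
  · intro h
    apply Set.Subset.antisymm
    · intro y hy
      have hy' : (opn S ω).Reachable x y := hy
      rw [SimpleGraph.reachable_iff_reflTransGen] at hy'
      clear hy
      rw [← h]
      show (opn S (kp S H ω)).Reachable x y
      rw [SimpleGraph.reachable_iff_reflTransGen]
      induction hy' with
      | refl => exact Relation.ReflTransGen.refl
      | @tail b c hb hbc ih =>
        have hbH : b ∈ H := by
          have : b ∈ clus S (kp S H ω) x := (SimpleGraph.reachable_iff_reflTransGen _ _).mpr ih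
          rw [h] at this
          exact this
        exact Relation.ReflTransGen.tail ih ((opn_kp hS H ω b c).mpr ⟨hbc, Or.inl hbH⟩)
    · intro y hy
      rw [← h] at hy
      exact hmono y hy

end Pool.Agent.IIC
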