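import Pool.Agent.IIC.Defs

set_option autoImplicit false
set_option linter.unusedVariables false
set_option linter.unusedSectionVars false

/-!
# Zero density of the incipient infinite cluster: definitions

`Γ` is a group, `S` a finite set (symmetric, generating, in the theorem).  Bond percolation on the
Cayley graph `cay S` is modelled on configurations `Cfg Γ = Sym2 Γ → Bool`; only the bits at edges
of the Cayley graph are used.
-/

namespace Pool.Agent.IIC
open MeasureTheory ProbabilityTheory
open scoped ENNReal NNReal
variable {Γ : Type} [Group Γ]


theorem clus_mono {S : Finset Γ} {ω ω' : Cfg Γ} (h : ∀ e, ω e = true → ω' e = true) (x : Γ) :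
    clus S ω x ⊆ clus S ω' x := by
  intro y hy
  have hle : opn S ω ≤ opn S ω' := by
    intro a b hab
    exact ⟨hab.1, h _ hab.2⟩
  exact SimpleGraph.Reachable.mono hle hy

end Pool.Agent.IIC
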