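import Pool.Agent.IIC.Defs

set_option autoImplicit false
set_option linter.unusedVariables false
set_option linter.unusedSectionVars false

/-!
# Zero density of the incipient infinite cluster: definitions

`Γ` is a group, `S` a finite set (symmetric, generating, in the theorem).  Bond percolation on the
Cayley graph `cay S` is modelled on configurations `Cfg Γ = Sym2 Γ → Bool`; only the bits at edges
of the Cayley graph are used.
-/

namespace Pool.Agent.IIC
open MeasureTheory ProbabilityTheory
open scoped ENNReal NNReal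
variable {Γ : Type} [Group Γ]

theorem upd_same (ω : Cfg Γ) (e : Sym2 Γ) (b : Bool) : upd ω e b e = b := by
  unfold upd ovr
  simp

theorem upd_ne (ω : Cfg Γ) {e e' : Sym2 Γ} (b : Bool) (h : e' ≠ e) : upd ω e b e' = ω e' := by
  unfold upd ovr
  simp [h]

theorem opn_upd_le {S : Finset Γ} (ω : Cfg Γ) (e : Sym2 Γ) :
    opn S (upd ω e false) ≤ opn S (upd ω e true) := by
  intro y z h
  refine ⟨h.1, ?_⟩
  by_cases he : s(y, z) = e
  · rw [he, upd_same]
  · rw [upd_ne _ _ he]
    have h2 := h.2
    rwa [upd_ne _ _ he] at h2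

theorem clus_upd_walk {S : Finset Γ} (a b : Γ) (ω : Cfg Γ) (A : Set Γ)
    (hA : ∀ y z, (opn S (upd ω s(a, b) false)).Adj y z → y ∈ A → z ∈ A) (ha : a ∈ A) (hb : b ∈ A)
    {u v : Γ} (w : (opn S (upd ω s(a, b) true)).Walk u v) (hu : u ∈ A) : v ∈ A := by
  induction w with
  | nil => exact hu
  | cons h p ih =>
    rename_i u v' w'
    refine ih ?_
    by_cases he : s(u, v') = s(a, b)
    · rcases Sym2.eq_iff.1 he with ⟨_, h2⟩ | ⟨_, h2⟩
      · rw [h2]; exact hb
      · rw [h2]; exact ha
    · refine hA u v' ⟨h.1, ?_⟩ hu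
      have h2 := h.2
      rw [upd_ne _ _ he] at h2
      rwa [upd_ne _ _ he]

/-- opening the edge `s(a,b)` when `a` is in the cluster of `x` adds the cluster of `b` -/
theorem clus_upd_bridge {S : Finset Γ} (a b x : Γ) (hab : (cay S).Adj a b) (ω : Cfg Γ)
    (ha : a ∈ clus S (upd ω s(a, b) false) x) :
    clus S (upd ω s(a, b) true) x =
      clus S (upd ω s(a, b) false) x ∪ clus S (upd ω s(a, b) false) b := by
  apply Set.Subset.antisymm
  · rintro y ⟨w⟩
    refine clus_upd_walk a b ω (clus S (upd ω s(a, b) false) x ∪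
      clus S (upd ω s(a, b) false) b) ?_ (Or.inl ha) (Or.inr (SimpleGraph.Reachable.refl b)) w
      (Or.inl (SimpleGraph.Reachable.refl x))
    rintro y z hyz (hy | hy)
    · exact Or.inl (SimpleGraph.Reachable.trans hy hyz.reachable)
    · exact Or.inr (SimpleGraph.Reachable.trans hy hyz.reachable)
  · rintro y (hy | hy)
    · exact SimpleGraph.Reachable.mono (opn_upd_le ω _) hy
    · have h1 : (opn S (upd ω s(a, b) true)).Reachable x a :=
        SimpleGraph.Reachable.mono (opn_upd_le ω _) ha
      have h2 : (opn S (upd ω s(a, b) true)).Adj a b := ⟨hab, upd_same _ _ _⟩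
      have h3 : (opn S (upd ω s(a, b) true)).Reachable b y :=
        SimpleGraph.Reachable.mono (opn_upd_le ω _) hy
      exact (h1.trans h2.reachable).trans h3

end Pool.Agent.IIC
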