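import Pool.Agent.IIC.Defs

set_option autoImplicit false
set_option linter.unusedVariables false
set_option linter.unusedSectionVars false

/-!
# Zero density of the incipient infinite cluster: definitions

`Γ` is a group, `S` a finite set (symmetric, generating, in the theorem).  Bond percolation on the
Cayley graph `cay S` is modelled on configurations `Cfg Γ = Sym2 Γ → Bool`; only the bits at edges
of the Cayley graph are used.
-/

namespace Pool.Agent.IIC
open MeasureTheory ProbabilityTheory
open scoped ENNReal NNReal
variable {Γ : Type} [Group Γ]


theorem clus_upd_far_same (ω : Cfg Γ) (e f : Sym2 Γ) (b : Bool) (h : f ≠ e) :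
    upd ω e b f = ω f := by
  unfold upd ovr
  rw [if_neg]
  rw [Finset.mem_singleton]
  exact h

theorem clus_upd_far_self (ω : Cfg Γ) (e : Sym2 Γ) (b : Bool) : upd ω e b e = b := by
  unfold upd ovr
  rw [if_pos]
  rw [Finset.mem_singleton]

/-- opening an edge that does not touch the cluster of `x` does not change it -/
theorem clus_upd_far {S : Finset Γ} (e : Sym2 Γ) (x : Γ) (ω : Cfg Γ)
    (h : ∀ v ∈ e, v ∉ clus S (upd ω e false) x) :
    clus S (upd ω e true) x = clus S (upd ω e false) x := by
  apply Set.Subset.antisymm
  · intro y hy
    have hy' : (opn S (upd ω e true)).Reachable x y := hy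
    rw [SimpleGraph.reachable_iff_reflTransGen] at hy'
    show (opn S (upd ω e false)).Reachable x y
    induction hy' with
    | refl => exact SimpleGraph.Reachable.refl _
    | @tail b c hab hbc ih =>
      have hb : (opn S (upd ω e false)).Reachable x b :=
        ih ((SimpleGraph.reachable_iff_reflTransGen _ _).2 hab)
      have hne : s(b, c) ≠ e := by
        intro he
        exact h b (by rw [← he]; exact Sym2.mem_mk_left b c) hb
      have hadj : (opn S (upd ω e false)).Adj b c := by
        refine ⟨hbc.1, ?_⟩
        have h2 := hbc.2
        rw [clus_upd_far_same ω e _ _ hne] at h2 ⊢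
        exact h2
      exact hb.trans hadj.reachable
  · intro y hy
    have hy' : (opn S (upd ω e false)).Reachable x y := hy
    refine SimpleGraph.Reachable.mono (G := opn S (upd ω e false)) (G' := opn S (upd ω e true)) ?_ hy'
    intro b c hbc
    have hne : s(b, c) ≠ e := by
      intro he
      have h2 := hbc.2
      rw [he, clus_upd_far_self] at h2
      exact Bool.false_ne_true h2
    refine ⟨hbc.1, ?_⟩
    have h2 := hbc.2
    rw [clus_upd_far_same ω e _ _ hne] at h2 ⊢
    exact h2

end Pool.Agent.IIC
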