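import Pool.Agent.IIC.Defs

set_option autoImplicit false
set_option linter.unusedVariables false
set_option linter.unusedSectionVars false

/-!
# Zero density of the incipient infinite cluster: definitions

`Γ` is a group, `S` a finite set (symmetric, generating, in the theorem).  Bond percolation on the
Cayley graph `cay S` is modelled on configurations `Cfg Γ = Sym2 Γ → Bool`; only the bits at edges
of the Cayley graph are used.
-/

namespace Pool.Agent.IIC
open MeasureTheory ProbabilityTheory
open scoped ENNReal NNReal
variable {Γ : Type} [Group Γ]


theorem countable_of_gen {S : Finset Γ} (hg : Gen S) : Countable Γ := by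
  have h1 : (FreeGroup.lift (Subtype.val : S → Γ)).range = ⊤ := by
    rw [FreeGroup.range_lift_eq_closure, Subtype.range_coe_subtype]
    exact hg
  have h2 : Function.Surjective (FreeGroup.lift (Subtype.val : S → Γ)) :=
    MonoidHom.range_eq_top.mp h1
  have h3 : Countable (FreeGroup S) := by
    have : Function.Surjective (FreeGroup.mk : List (S × Bool) → FreeGroup S) := Quot.mk_surjective
    exact this.countable
  exact h2.countable

end Pool.Agent.IIC
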