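import Pool.Agent.IIC.Defs

set_option autoImplicit false
set_option linter.unusedVariables false
set_option linter.unusedSectionVars false

/-!
# Zero density of the incipient infinite cluster: definitions

`Γ` is a group, `S` a finite set (symmetric, generating, in the theorem).  Bond percolation on the
Cayley graph `cay S` is modelled on configurations `Cfg Γ = Sym2 Γ → Bool`; only the bits at edges
of the Cayley graph are used.
-/

namespace Pool.Agent.IIC
open MeasureTheory ProbabilityTheory
open scoped ENNReal NNReal
variable {Γ : Type} [Group Γ]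


/-- probability that the edges of the finite set `E` have exactly the open edges `A` -/
theorem cyl_prob (p : ℝ≥0) (hp : p ≤ 1) (E A : Finset (Sym2 Γ)) (hA : A ⊆ E) :
    bP Γ p hp {ω | ∀ e ∈ E, (ω e = true ↔ e ∈ A)}
      = (p : ℝ≥0∞) ^ A.card * ((1 - p : ℝ≥0) : ℝ≥0∞) ^ (E.card - A.card) := by
  classical
  have hset : {ω : Cfg Γ | ∀ e ∈ E, (ω e = true ↔ e ∈ A)} =
      Set.pi (E : Set (Sym2 Γ)) (fun e => {decide (e ∈ A)}) := by
    ext ω
    simp only [Set.mem_setOf_eq, Set.mem_pi, Finset.mem_coe, Set.mem_singleton_iff]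
    refine forall_congr' fun e => forall_congr' fun _ => ?_
    by_cases h : e ∈ A
    · simp [h]
    · simp [h]
  rw [hset]
  unfold bP
  rw [Measure.infinitePi_pi _ (fun _ _ => MeasurableSet.singleton _)]
  have hterm : ∀ e ∈ E, (PMF.bernoulli p hp).toMeasure {decide (e ∈ A)} =
      if e ∈ A then (p : ℝ≥0∞) else ((1 - p : ℝ≥0) : ℝ≥0∞) := by
    intro e _
    rw [PMF.toMeasure_apply_singleton _ _ (MeasurableSet.singleton _)]
    by_cases h : e ∈ A
    · simp only [h, decide_true, if_true]
      rfl
    · simp only [h, decide_false, if_false]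
      rfl
  rw [Finset.prod_congr rfl hterm, Finset.prod_ite, Finset.prod_const, Finset.prod_const]
  have h1 : E.filter (fun e => e ∈ A) = A := by
    ext e
    simp only [Finset.mem_filter]
    exact ⟨fun h => h.2, fun h => ⟨hA h, h⟩⟩
  have h2 : E.filter (fun e => e ∉ A) = E \ A := by
    ext e
    simp
  rw [h1, h2, Finset.card_sdiff_of_subset hA]

end Pool.Agent.IIC
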