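import Pool.Agent.IIC.Defs

set_option autoImplicit false
set_option linter.unusedVariables false
set_option linter.unusedSectionVars false

/-!
# Zero density of the incipient infinite cluster: definitions

`Γ` is a group, `S` a finite set (symmetric, generating, in the theorem).  Bond percolation on the
Cayley graph `cay S` is modelled on configurations `Cfg Γ = Sym2 Γ → Bool`; only the bits at edges
of the Cayley graph are used.
-/

namespace Pool.Agent.IIC
open MeasureTheory ProbabilityTheory
open scoped ENNReal NNReal
variable {Γ : Type} [Group Γ]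


/-- vertices of a cluster with fewer than `n + 1` vertices are at distance less than `n` -/
theorem dist_lt_of_sz {S : Finset Γ} (n : ℕ) (x y : Γ) (ω : Cfg Γ) (h : y ∈ clus S ω x)
    (h2 : sz S ω x ≤ n) : (cay S).dist x y < n := by
  classical
  obtain ⟨w0⟩ := h
  obtain ⟨w, hw⟩ := w0.toPath
  have hsub : ((w.support.toFinset : Finset Γ) : Set Γ) ⊆ clus S ω x := by
    intro z hz
    rw [Finset.mem_coe, List.mem_toFinset] at hz
    exact ⟨w.takeUntil z hz⟩
  have hcard : w.support.toFinset.card = w.length + 1 := by
    rw [List.toFinset_card_of_nodup hw.support_nodup, SimpleGraph.Walk.length_support]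
  have h3 : ((w.length + 1 : ℕ) : ℕ∞) ≤ (clus S ω x).encard := by
    rw [← hcard, ← Set.encard_coe_eq_coe_finsetCard]
    exact Set.encard_le_encard hsub
  have h4 : ((clus S ω x).encard : ℕ∞) ≤ (n : ℕ∞) := by
    unfold sz at h2
    rw [← ENat.toENNReal_coe, ENat.toENNReal_le] at h2
    exact h2
  have h5 : w.length + 1 ≤ n := by
    have := h3.trans h4
    exact_mod_cast this
  have hle : opn S ω ≤ cay S := fun a b hab => hab.1
  have h6 : (cay S).dist x y ≤ w.length := by
    have := SimpleGraph.dist_le (w.map (SimpleGraph.Hom.ofLE hle))
    rw [SimpleGraph.Walk.length_map] at this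
    exact this
  omega

end Pool.Agent.IIC
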