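import Pool.Agent.IIC.Defs
import Pool.Agent.IIC.P_cay_adj
import Pool.Agent.IIC.P_cay_conn

set_option autoImplicit false
set_option linter.unusedVariables false
set_option linter.unusedSectionVars false

/-!
# Zero density of the incipient infinite cluster: definitions

`Γ` is a group, `S` a finite set (symmetric, generating, in the theorem).  Bond percolation on the
Cayley graph `cay S` is modelled on configurations `Cfg Γ = Sym2 Γ → Bool`; only the bits at edges
of the Cayley graph are used.
-/

namespace Pool.Agent.IIC
open MeasureTheory ProbabilityTheory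
open scoped ENNReal NNReal
variable {Γ : Type} [Group Γ]


theorem h400_fin {S : Finset Γ} (hS : Symm S) (hg : Gen S) (x : Γ) (n : ℕ) :
    {y | (cay S).dist x y ≤ n}.Finite := by
  classical
  have hc := cay_conn hS hg
  induction n with
  | zero =>
    apply (Set.finite_singleton x).subset
    intro y hy
    have h1 : (cay S).dist x y = 0 := Nat.le_zero.mp hy
    rw [hc.dist_eq_zero_iff] at h1
    exact h1.symm
  | succ n ih =>
    apply (ih.union ((ih.prod S.finite_toSet).image (fun q : Γ × Γ => q.1 * q.2))).subset
    intro y hy
    have hy' : (cay S).dist x y ≤ n + 1 := hy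
    obtain ⟨w, hw⟩ := hc.exists_walk_length_eq_dist y x
    cases w with
    | nil =>
      left
      show (cay S).dist x x ≤ n
      rw [SimpleGraph.dist_self]
      exact Nat.zero_le n
    | cons h p =>
      rename_i z
      right
      refine ⟨(z, z⁻¹ * y), ⟨?_, ?_⟩, ?_⟩
      · show (cay S).dist x z ≤ n
        rw [SimpleGraph.dist_comm]
        have h2 := SimpleGraph.dist_le p
        rw [SimpleGraph.Walk.length_cons, SimpleGraph.dist_comm] at hw
        omega
      · exact ((cay_adj hS z y).mp h.symm).2
      · show z * (z⁻¹ * y) = y
        rw [mul_inv_cancel_left]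

theorem mem_ball {S : Finset Γ} (hS : Symm S) (hg : Gen S) (x y : Γ) (n : ℕ) :
    y ∈ ball S x n ↔ (cay S).dist x y ≤ n := by
  have h := h400_fin hS hg x n
  unfold ball
  rw [dif_pos h, Set.Finite.mem_toFinset]
  exact Iff.rfl

end Pool.Agent.IIC
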