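import Pool.Agent.IIC.Defs
import Pool.Agent.IIC.P_cay_adj
import Pool.Agent.IIC.P_cay_conn
import Pool.Agent.IIC.P_mem_ball

set_option autoImplicit false
set_option linter.unusedVariables false
set_option linter.unusedSectionVars false

/-!
# Zero density of the incipient infinite cluster: definitions

`Γ` is a group, `S` a finite set (symmetric, generating, in the theorem).  Bond percolation on the
Cayley graph `cay S` is modelled on configurations `Cfg Γ = Sym2 Γ → Bool`; only the bits at edges
of the Cayley graph are used.
-/

namespace Pool.Agent.IIC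
open MeasureTheory ProbabilityTheory
open scoped ENNReal NNReal
variable {Γ : Type} [Group Γ]


theorem exists_sphere {S : Finset Γ} (hS : Symm S) (hg : Gen S) [Infinite Γ] (n : ℕ) :
    ∃ x : Γ, (cay S).dist 1 x = n := by
  obtain ⟨y, hy⟩ := Infinite.exists_notMem_finset (ball S (1 : Γ) n)
  rw [mem_ball hS hg, not_le] at hy
  have hc := cay_conn hS hg
  obtain ⟨w, hw⟩ := hc.exists_walk_length_eq_dist 1 y
  refine ⟨w.getVert n, ?_⟩
  have h1 : (cay S).dist 1 (w.getVert n) ≤ n := by
    refine (SimpleGraph.dist_le (w.take n)).trans ?_
    simp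
  have h2 : (cay S).dist (w.getVert n) y ≤ (cay S).dist 1 y - n := by
    refine (SimpleGraph.dist_le (w.drop n)).trans ?_
    simp [hw]
  have h3 := hc.dist_triangle (u := 1) (v := w.getVert n) (w := y)
  omega

end Pool.Agent.IIC
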