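import Pool.Agent.IIC.Defs

set_option autoImplicit false
set_option linter.unusedVariables false
set_option linter.unusedSectionVars false

/-!
# Zero density of the incipient infinite cluster: definitions

`Γ` is a group, `S` a finite set (symmetric, generating, in the theorem).  Bond percolation on the
Cayley graph `cay S` is modelled on configurations `Cfg Γ = Sym2 Γ → Bool`; only the bits at edges
of the Cayley graph are used.
-/

namespace Pool.Agent.IIC
open MeasureTheory ProbabilityTheory
open scoped ENNReal NNReal
variable {Γ : Type} [Group Γ]


theorem meas_cl (S : Finset Γ) (H : Finset Γ) : Measurable (fun ω : Cfg Γ => cl S H ω) := by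
  classical
  rw [measurable_pi_iff]
  intro e
  unfold cl
  by_cases h : e ∈ T S H
  · simp only [h, if_true]
    exact measurable_const
  · simp only [h, if_false]
    exact measurable_pi_apply e

end Pool.Agent.IIC
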