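import Pool.Agent.IIC.Defs

set_option autoImplicit false
set_option linter.unusedVariables false
set_option linter.unusedSectionVars false

/-!
# Zero density of the incipient infinite cluster: definitions

`Γ` is a group, `S` a finite set (symmetric, generating, in the theorem).  Bond percolation on the
Cayley graph `cay S` is modelled on configurations `Cfg Γ = Sym2 Γ → Bool`; only the bits at edges
of the Cayley graph are used.
-/

namespace Pool.Agent.IIC
open MeasureTheory ProbabilityTheory
open scoped ENNReal NNReal
variable {Γ : Type} [Group Γ]


/-- every function of `kp S H ω` is measurable -/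
theorem meas_kp {α : Type} [MeasurableSpace α] (S : Finset Γ) (H : Finset Γ) (Φ : Cfg Γ → α) :
    Measurable (fun ω : Cfg Γ => Φ (kp S H ω)) := by
  classical
  have hr : Measurable (fun (ω : Cfg Γ) (e : {e // e ∈ T S H}) => ω e.1) :=
    measurable_pi_lambda _ fun e => measurable_pi_apply _
  have he : Measurable (fun f : {e // e ∈ T S H} → Bool =>
      Φ (fun e => if h : e ∈ T S H then f ⟨e, h⟩ else false)) := measurable_of_finite _
  have h2 := he.comp hr
  convert h2 using 2
  simp only [Function.comp_def]
  congr 1

end Pool.Agent.IIC
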