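import Pool.Agent.IIC.Defs
import Pool.Agent.IIC.P_meas_cl
import Pool.Agent.IIC.P_meas_kp

set_option autoImplicit false
set_option linter.unusedVariables false
set_option linter.unusedSectionVars false

/-!
# Zero density of the incipient infinite cluster: definitions

`Γ` is a group, `S` a finite set (symmetric, generating, in the theorem).  Bond percolation on the
Cayley graph `cay S` is modelled on configurations `Cfg Γ = Sym2 Γ → Bool`; only the bits at edges
of the Cayley graph are used.
-/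

namespace Pool.Agent.IIC
open MeasureTheory ProbabilityTheory
open scoped ENNReal NNReal
variable {Γ : Type} [Group Γ]


/-- the edges touching `H` are independent of the other ones -/
theorem ind_kp_cl (p : ℝ≥0) (hp : p ≤ 1) (S : Finset Γ) (H : Finset Γ)
    (Φ Ψ : Cfg Γ → ℝ≥0∞) (hΨ : Measurable Ψ) :
    ∫⁻ ω, Φ (kp S H ω) * Ψ (cl S H ω) ∂(bP Γ p hp)
      = (∫⁻ ω, Φ (kp S H ω) ∂(bP Γ p hp)) * ∫⁻ ω, Ψ (cl S H ω) ∂(bP Γ p hp) := by
  classical
  let m : Sym2 Γ → MeasurableSpace (Cfg Γ) := fun e =>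
    MeasurableSpace.comap (fun ω : Cfg Γ => ω e) inferInstance
  have hle : ∀ e, m e ≤ (inferInstance : MeasurableSpace (Cfg Γ)) := fun e =>
    (measurable_pi_apply e).comap_le
  have hi : iIndepFun (fun (e : Sym2 Γ) (ω : Cfg Γ) => ω e) (bP Γ p hp) := by
    unfold bP
    exact iIndepFun_infinitePi (X := fun _ b => b) (fun _ => measurable_id)
  have him : iIndep m (bP Γ p hp) := hi
  have hdisj : Disjoint (T S H : Set (Sym2 Γ)) ((T S H : Set (Sym2 Γ))ᶜ) := disjoint_compl_right
  have hind := indep_iSup_of_disjoint hle him hdisj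
  have hm1 : ∀ e ∈ (T S H : Set (Sym2 Γ)), m e ≤ ⨆ e ∈ (T S H : Set (Sym2 Γ)), m e := fun e he =>
    le_iSup₂ (f := fun e (_ : e ∈ (T S H : Set (Sym2 Γ))) => m e) e he
  have hm2 : ∀ e ∈ ((T S H : Set (Sym2 Γ))ᶜ), m e ≤ ⨆ e ∈ ((T S H : Set (Sym2 Γ))ᶜ), m e := fun e he =>
    le_iSup₂ (f := fun e (_ : e ∈ ((T S H : Set (Sym2 Γ))ᶜ)) => m e) e he
  apply lintegral_mul_eq_lintegral_mul_lintegral_of_independent_measurableSpace
    (iSup₂_le (fun e _ => hle e)) (iSup₂_le (fun e _ => hle e)) hind
  · have hr : @Measurable (Cfg Γ) ({e // e ∈ T S H} → Bool) (⨆ e ∈ (T S H : Set (Sym2 Γ)), m e) _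
        (fun ω e => ω e.1) := by
      refine @measurable_pi_lambda _ _ _ (⨆ e ∈ (T S H : Set (Sym2 Γ)), m e) _ _ ?_
      intro e
      exact (comap_measurable (fun ω : Cfg Γ => ω e.1)).mono (hm1 e.1 e.2) le_rfl
    have hF : Measurable (fun b : {e // e ∈ T S H} → Bool =>
        Φ (fun e => if h : e ∈ T S H then b ⟨e, h⟩ else false)) := measurable_of_finite _
    have hcomp := hF.comp hr
    have e1 : (fun ω : Cfg Γ => Φ (kp S H ω)) = (fun b : {e // e ∈ T S H} → Bool =>
        Φ (fun e => if h : e ∈ T S H then b ⟨e, h⟩ else false)) ∘ (fun ω e => ω e.1) := by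
      funext ω
      change Φ (kp S H ω) = Φ (fun e => if h : e ∈ T S H then ω e else false)
      congr 1
    rw [e1]
    exact hcomp
  · have hcl : @Measurable (Cfg Γ) (Cfg Γ) (⨆ e ∈ ((T S H : Set (Sym2 Γ))ᶜ), m e) _
        (fun ω => cl S H ω) := by
      refine @measurable_pi_lambda _ _ _ (⨆ e ∈ ((T S H : Set (Sym2 Γ))ᶜ), m e) _ _ ?_
      intro e
      by_cases he : e ∈ T S H
      · have : (fun ω : Cfg Γ => cl S H ω e) = fun _ => false := by
          funext ω
          unfold cl
          simp [he]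
        rw [this]
        exact measurable_const
      · have : (fun ω : Cfg Γ => cl S H ω e) = fun ω => ω e := by
          funext ω
          unfold cl
          simp [he]
        rw [this]
        exact (comap_measurable (fun ω : Cfg Γ => ω e)).mono (hm2 e (by simpa using he)) le_rfl
    exact hΨ.comp hcl

end Pool.Agent.IIC
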