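import Pool.Agent.IIC.Defs
import Pool.Agent.IIC.P_clus_kp
import Pool.Agent.IIC.P_meas_cl
import Pool.Agent.IIC.P_ind_kp_cl

set_option autoImplicit false
set_option linter.unusedVariables false
set_option linter.unusedSectionVars false

/-!
# Zero density of the incipient infinite cluster: definitions

`Γ` is a group, `S` a finite set (symmetric, generating, in the theorem).  Bond percolation on the
Cayley graph `cay S` is modelled on configurations `Cfg Γ = Sym2 Γ → Bool`; only the bits at edges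
of the Cayley graph are used.
-/

namespace Pool.Agent.IIC
open MeasureTheory ProbabilityTheory
open scoped ENNReal NNReal
variable {Γ : Type} [Group Γ]


theorem explore_meas (S : Finset Γ) (H : Finset Γ) (P : Cfg Γ → Prop) :
    MeasurableSet {ω : Cfg Γ | P (kp S H ω)} := by
  classical
  let ρ : Cfg Γ → (T S H → Bool) := fun ω e => ω e
  have hρ : Measurable ρ := measurable_pi_iff.2 fun e => measurable_pi_apply _
  have hkp : ∀ ω ω' : Cfg Γ, ρ ω = ρ ω' → kp S H ω = kp S H ω' := by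
    intro ω ω' h
    funext e
    unfold kp
    by_cases he : e ∈ T S H
    · rw [if_pos he, if_pos he]
      exact congrFun h ⟨e, he⟩
    · rw [if_neg he, if_neg he]
  have hA : {ω : Cfg Γ | P (kp S H ω)} = ρ ⁻¹' (ρ '' {ω : Cfg Γ | P (kp S H ω)}) := by
    refine Set.Subset.antisymm (Set.subset_preimage_image _ _) ?_
    rintro ω ⟨ω', h1, h2⟩
    have h3 := hkp _ _ h2
    change P (kp S H ω)
    rw [← h3]
    exact h1
  rw [hA]
  exact hρ (Set.toFinite _).measurableSet

/-- given the cluster of `x`, an increasing functional of the other clusters is at most its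
unconditional expectation -/
theorem explore_le [Countable Γ] (p : ℝ≥0) (hp : p ≤ 1) (S : Finset Γ) (hS : Symm S) (x : Γ)
    (H : Finset Γ) (Φ Ψ : Cfg Γ → ℝ≥0∞) (hΨ : Measurable Ψ)
    (hinc : ∀ ω ω' : Cfg Γ, (∀ e, ω e = true → ω' e = true) → Ψ ω ≤ Ψ ω') :
    ∫⁻ ω in {ω | clus S ω x = ↑H}, Φ (kp S H ω) * Ψ (cl S H ω) ∂(bP Γ p hp)
      ≤ (∫⁻ ω in {ω | clus S ω x = ↑H}, Φ (kp S H ω) ∂(bP Γ p hp))
        * ∫⁻ ω, Ψ ω ∂(bP Γ p hp) := by
  classical
  have hA : {ω : Cfg Γ | clus S ω x = ↑H} = {ω | clus S (kp S H ω) x = ↑H} := by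
    ext ω
    exact clus_kp hS H ω x
  have hm : MeasurableSet {ω : Cfg Γ | clus S ω x = ↑H} := by
    rw [hA]
    exact explore_meas S H (fun η => clus S η x = ↑H)
  let Φ' : Cfg Γ → ℝ≥0∞ := fun η => if clus S η x = ↑H then Φ η else 0
  have h1 : ∫⁻ ω in {ω | clus S ω x = ↑H}, Φ (kp S H ω) * Ψ (cl S H ω) ∂(bP Γ p hp)
      = ∫⁻ ω, Φ' (kp S H ω) * Ψ (cl S H ω) ∂(bP Γ p hp) := by
    rw [← lintegral_indicator hm]
    refine lintegral_congr fun ω => ?_
    by_cases h : clus S ω x = ↑H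
    · rw [Set.indicator_of_mem (show ω ∈ {ω : Cfg Γ | clus S ω x = ↑H} from h)]
      simp only [Φ', if_pos ((clus_kp hS H ω x).1 h)]
    · rw [Set.indicator_of_notMem (show ω ∉ {ω : Cfg Γ | clus S ω x = ↑H} from h)]
      simp only [Φ', if_neg (fun h' => h ((clus_kp hS H ω x).2 h')), zero_mul]
  have h2 : ∫⁻ ω, Φ' (kp S H ω) ∂(bP Γ p hp)
      = ∫⁻ ω in {ω | clus S ω x = ↑H}, Φ (kp S H ω) ∂(bP Γ p hp) := by
    rw [← lintegral_indicator hm]
    refine lintegral_congr fun ω => ?_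
    by_cases h : clus S ω x = ↑H
    · rw [Set.indicator_of_mem (show ω ∈ {ω : Cfg Γ | clus S ω x = ↑H} from h)]
      simp only [Φ', if_pos ((clus_kp hS H ω x).1 h)]
    · rw [Set.indicator_of_notMem (show ω ∉ {ω : Cfg Γ | clus S ω x = ↑H} from h)]
      simp only [Φ', if_neg (fun h' => h ((clus_kp hS H ω x).2 h'))]
  rw [h1, ind_kp_cl p hp S H Φ' Ψ hΨ, h2]
  refine mul_le_mul_right (lintegral_mono fun ω => hinc _ _ fun e he => ?_) _
  unfold cl at he
  by_cases h : e ∈ T S H
  · rw [if_pos h] at he; exact absurd he (by simp)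
  · rwa [if_neg h] at he

end Pool.Agent.IIC
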