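import Pool.Agent.IIC.Defs
import Pool.Agent.IIC.P_meas_shift

set_option autoImplicit false
set_option linter.unusedVariables false
set_option linter.unusedSectionVars false

/-!
# Zero density of the incipient infinite cluster: definitions

`Γ` is a group, `S` a finite set (symmetric, generating, in the theorem).  Bond percolation on the
Cayley graph `cay S` is modelled on configurations `Cfg Γ = Sym2 Γ → Bool`; only the bits at edges
of the Cayley graph are used.
-/

namespace Pool.Agent.IIC
open MeasureTheory ProbabilityTheory
open scoped ENNReal NNReal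
variable {Γ : Type} [Group Γ]


theorem shift_mp (p : ℝ≥0) (hp : p ≤ 1) (g : Γ) :
    MeasurePreserving (shift g) (bP Γ p hp) (bP Γ p hp) := by
  let e : Sym2 Γ ≃ Sym2 Γ :=
    { toFun := Sym2.map (fun x => g * x)
      invFun := Sym2.map (fun x => g⁻¹ * x)
      left_inv := fun s => by
        rw [Sym2.map_map]
        convert! congrFun Sym2.map_id s using 2
        simp
      right_inv := fun s => by
        rw [Sym2.map_map]
        convert! congrFun Sym2.map_id s using 2
        simp }
  refine ⟨meas_shift g, ?_⟩
  have h1 : (shift g : Cfg Γ → Cfg Γ) = MeasurableEquiv.piCongrLeft (fun _ : Sym2 Γ => Bool) e := by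
    funext ω i
    obtain ⟨j, rfl⟩ := e.surjective i
    rw [MeasurableEquiv.coe_piCongrLeft, Equiv.piCongrLeft_apply_apply]
    show ω (e.symm (e j)) = ω j
    rw [Equiv.symm_apply_apply]
  rw [h1]
  unfold bP
  exact Measure.infinitePi_map_piCongrLeft
    (fun _ : Sym2 Γ => (PMF.bernoulli p hp).toMeasure) e

end Pool.Agent.IIC
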