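import Pool.Agent.IIC.Defs
import Pool.Agent.IIC.P_mem_clus_shift
import Pool.Agent.IIC.P_shift_mp

set_option autoImplicit false
set_option linter.unusedVariables false
set_option linter.unusedSectionVars false

/-!
# Zero density of the incipient infinite cluster: definitions

`Γ` is a group, `S` a finite set (symmetric, generating, in the theorem).  Bond percolation on the
Cayley graph `cay S` is modelled on configurations `Cfg Γ = Sym2 Γ → Bool`; only the bits at edges
of the Cayley graph are used.
-/

namespace Pool.Agent.IIC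
open MeasureTheory ProbabilityTheory
open scoped ENNReal NNReal
variable {Γ : Type} [Group Γ]


/-- if the cluster of `1` is a.s. finite then so is the cluster of every vertex -/
theorem fin_all [Countable Γ] (p : ℝ≥0) (hp : p ≤ 1) (S : Finset Γ) (hfin : Fin0 S p hp) :
    ∀ᵐ ω ∂(bP Γ p hp), ∀ x : Γ, (clus S ω x).Finite := by
  rw [ae_all_iff]
  intro x
  have h1 : bP Γ p hp (shift x⁻¹ ⁻¹' {ω | (clus S ω 1).Infinite}) = 0 :=
    (shift_mp p hp x⁻¹).quasiMeasurePreserving.preimage_null hfin
  rw [ae_iff]
  apply measure_mono_null _ h1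
  intro ω hω
  show (clus S (shift x⁻¹ ω) 1).Infinite
  intro hf
  apply hω
  have h2 : clus S ω x = (fun y => x⁻¹ * y) ⁻¹' clus S (shift x⁻¹ ω) 1 := by
    ext y
    have := mem_clus_shift (S := S) x⁻¹ ω x y
    rw [inv_mul_cancel] at this
    exact this.symm
  rw [h2]
  exact hf.preimage (mul_right_injective x⁻¹).injOn

end Pool.Agent.IIC
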