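import Pool.Agent.IIC.Defs
import Pool.Agent.IIC.P_meas_ovr

set_option autoImplicit false
set_option linter.unusedVariables false
set_option linter.unusedSectionVars false

/-!
# Zero density of the incipient infinite cluster: definitions

`Γ` is a group, `S` a finite set (symmetric, generating, in the theorem).  Bond percolation on the
Cayley graph `cay S` is modelled on configurations `Cfg Γ = Sym2 Γ → Bool`; only the bits at edges
of the Cayley graph are used.
-/

namespace Pool.Agent.IIC
open MeasureTheory ProbabilityTheory
open scoped ENNReal NNReal
variable {Γ : Type} [Group Γ]


theorem meas_upd (e : Sym2 Γ) (b : Bool) : Measurable (fun ω : Cfg Γ => upd ω e b) := by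
  exact meas_ovr {e} (fun _ => b)

end Pool.Agent.IIC
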