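import Pool.Agent.IIC.Defs
import Pool.Agent.IIC.P_meas_upd

set_option autoImplicit false
set_option linter.unusedVariables false
set_option linter.unusedSectionVars false

/-!
# Zero density of the incipient infinite cluster: definitions

`Γ` is a group, `S` a finite set (symmetric, generating, in the theorem).  Bond percolation on the
Cayley graph `cay S` is modelled on configurations `Cfg Γ = Sym2 Γ → Bool`; only the bits at edges
of the Cayley graph are used.
-/

namespace Pool.Agent.IIC
open MeasureTheory ProbabilityTheory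
open scoped ENNReal NNReal
variable {Γ : Type} [Group Γ]


theorem fi_upd (ω : Cfg Γ) (e : Sym2 Γ) (b : Bool) (i : Sym2 Γ) :
    (i = e → upd ω e b i = b) ∧ (i ≠ e → upd ω e b i = ω i) := by
  classical
  unfold upd ovr
  constructor
  · intro h; simp [h]
  · intro h; simp [h]

theorem fi_bern (p : ℝ≥0) (hp : p ≤ 1) (t : Set Bool) :
    (PMF.bernoulli p hp).toMeasure t =
      p * (t.indicator (fun _ => (1 : ℝ≥0∞)) true) +
        (1 - p : ℝ≥0) * (t.indicator (fun _ => (1 : ℝ≥0∞)) false) := by
  classical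
  rw [PMF.toMeasure_apply_fintype _ _, Fintype.sum_bool]
  simp only [Set.indicator_apply, PMF.bernoulli_apply, cond_true, cond_false]
  split_ifs <;> simp

theorem fi_one (p : ℝ≥0) (hp : p ≤ 1) : (p : ℝ≥0∞) + ((1 - p : ℝ≥0) : ℝ≥0∞) = 1 := by
  rw [← ENNReal.coe_add, add_tsub_cancel_of_le hp, ENNReal.coe_one]

theorem fi_pre (p : ℝ≥0) (hp : p ≤ 1) (e : Sym2 Γ) (b : Bool) (s : Finset (Sym2 Γ))
    (t : Sym2 Γ → Set Bool) (ht : ∀ i, MeasurableSet (t i)) [DecidableEq (Sym2 Γ)] :
    (bP Γ p hp) ((fun ω : Cfg Γ => upd ω e b) ⁻¹' (Set.pi s t)) =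
      (if e ∈ s then ((t e).indicator (fun _ => (1 : ℝ≥0∞)) b) else 1) *
        ∏ i ∈ s.erase e, (PMF.bernoulli p hp).toMeasure (t i) := by
  have hpi : (bP Γ p hp) (Set.pi ((s.erase e : Finset (Sym2 Γ)) : Set (Sym2 Γ)) t) =
      ∏ i ∈ s.erase e, (PMF.bernoulli p hp).toMeasure (t i) := by
    unfold bP
    exact Measure.infinitePi_pi _ (fun i _ => ht i)
  by_cases he : e ∈ s
  · rw [if_pos he]
    by_cases hb : b ∈ t e
    · rw [Set.indicator_of_mem hb, one_mul, ← hpi]
      congr 1
      ext ω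
      simp only [Set.mem_preimage, Set.mem_pi, Finset.mem_coe, Finset.mem_erase]
      constructor
      · intro h i hi
        have := h i hi.2
        rwa [(fi_upd ω e b i).2 hi.1] at this
      · intro h i hi
        by_cases hie : i = e
        · rw [(fi_upd ω e b i).1 hie, hie]; exact hb
        · rw [(fi_upd ω e b i).2 hie]; exact h i ⟨hie, hi⟩
    · rw [Set.indicator_of_notMem hb, zero_mul]
      have : (fun ω : Cfg Γ => upd ω e b) ⁻¹' (Set.pi s t) = ∅ := by
        ext ω
        simp only [Set.mem_preimage, Set.mem_pi, Finset.mem_coe, Set.mem_empty_iff_false, iff_false]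
        intro h
        have := h e he
        rw [(fi_upd ω e b e).1 rfl] at this
        exact hb this
      rw [this, measure_empty]
  · rw [if_neg he, one_mul, ← hpi]
    congr 1
    ext ω
    simp only [Set.mem_preimage, Set.mem_pi, Finset.mem_coe, Finset.mem_erase]
    constructor
    · intro h i hi
      have := h i hi.2
      rwa [(fi_upd ω e b i).2 hi.1] at this
    · intro h i hi
      have hie : i ≠ e := fun hh => he (hh ▸ hi)
      rw [(fi_upd ω e b i).2 hie]; exact h i ⟨hie, hi⟩

theorem fi_meas (p : ℝ≥0) (hp : p ≤ 1) (e : Sym2 Γ) :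
    bP Γ p hp = (p : ℝ≥0∞) • (bP Γ p hp).map (fun ω => upd ω e true) +
      ((1 - p : ℝ≥0) : ℝ≥0∞) • (bP Γ p hp).map (fun ω => upd ω e false) := by
  classical
  have key : (p : ℝ≥0∞) • (bP Γ p hp).map (fun ω => upd ω e true) +
      ((1 - p : ℝ≥0) : ℝ≥0∞) • (bP Γ p hp).map (fun ω => upd ω e false) =
      Measure.infinitePi (fun _ : Sym2 Γ => (PMF.bernoulli p hp).toMeasure) := by
    apply Measure.eq_infinitePi
    intro s t ht
    have hms : MeasurableSet (Set.pi (s : Set (Sym2 Γ)) t) :=
      MeasurableSet.pi s.countable_toSet (fun i _ => ht i)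
    rw [Measure.add_apply, Measure.smul_apply, Measure.smul_apply,
      Measure.map_apply (meas_upd e true) hms, Measure.map_apply (meas_upd e false) hms,
      fi_pre p hp e true s t ht, fi_pre p hp e false s t ht, smul_eq_mul, smul_eq_mul,
      ← mul_assoc, ← mul_assoc, ← add_mul]
    by_cases he : e ∈ s
    · rw [if_pos he, if_pos he, ← fi_bern p hp,
        Finset.mul_prod_erase s (fun i => (PMF.bernoulli p hp).toMeasure (t i)) he]
    · rw [if_neg he, if_neg he, mul_one, mul_one, fi_one p hp, one_mul, Finset.erase_eq_of_notMem he]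
  rw [key]
  rfl

theorem flip_int (p : ℝ≥0) (hp : p ≤ 1) (e : Sym2 Γ) (G : Cfg Γ → ℝ≥0∞) (hG : Measurable G) :
    ∫⁻ ω, G ω ∂(bP Γ p hp) = p * ∫⁻ ω, G (upd ω e true) ∂(bP Γ p hp)
      + (1 - p : ℝ≥0) * ∫⁻ ω, G (upd ω e false) ∂(bP Γ p hp) := by
  conv_lhs => rw [fi_meas p hp e]
  rw [lintegral_add_measure, lintegral_smul_measure, lintegral_smul_measure,
    lintegral_map hG (meas_upd e true), lintegral_map hG (meas_upd e false), smul_eq_mul,
    smul_eq_mul]

end Pool.Agent.IIC
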