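import Pool.Agent.IIC.Defs
import Pool.Agent.IIC.P_meas_upd
import Pool.Agent.IIC.P_flip_int

set_option autoImplicit false
set_option linter.unusedVariables false
set_option linter.unusedSectionVars false

/-!
# Zero density of the incipient infinite cluster: definitions

`Γ` is a group, `S` a finite set (symmetric, generating, in the theorem).  Bond percolation on the
Cayley graph `cay S` is modelled on configurations `Cfg Γ = Sym2 Γ → Bool`; only the bits at edges
of the Cayley graph are used.
-/

namespace Pool.Agent.IIC
open MeasureTheory ProbabilityTheory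
open scoped ENNReal NNReal
variable {Γ : Type} [Group Γ]


theorem flip_false (p : ℝ≥0) (hp : p ≤ 1) (e : Sym2 Γ) (G : Cfg Γ → ℝ≥0∞) (hG : Measurable G) :
    ∫⁻ ω in {ω | ω e = false}, G ω ∂(bP Γ p hp)
      = (1 - p : ℝ≥0) * ∫⁻ ω, G (upd ω e false) ∂(bP Γ p hp) := by
  have hms : MeasurableSet {ω : Cfg Γ | ω e = false} :=
    (measurable_pi_apply (X := fun _ : Sym2 Γ => Bool) e) (measurableSet_singleton false)
  rw [← lintegral_indicator hms]
  rw [flip_int p hp e _ (hG.indicator hms)]
  have ht : ∀ ω : Cfg Γ, ({ω : Cfg Γ | ω e = false}.indicator G) (upd ω e true) = 0 := by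
    intro ω
    apply Set.indicator_of_notMem
    simp [upd, ovr]
  have hf : ∀ ω : Cfg Γ, ({ω : Cfg Γ | ω e = false}.indicator G) (upd ω e false)
      = G (upd ω e false) := by
    intro ω
    apply Set.indicator_of_mem
    simp [upd, ovr]
  simp only [ht, hf, lintegral_zero, mul_zero, zero_add]

end Pool.Agent.IIC
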