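import Pool.Agent.IIC.Defs
import Pool.Agent.IIC.P_meas_upd
import Pool.Agent.IIC.P_flip_int

set_option autoImplicit false
set_option linter.unusedVariables false
set_option linter.unusedSectionVars false

/-!
# Zero density of the incipient infinite cluster: definitions

`Γ` is a group, `S` a finite set (symmetric, generating, in the theorem).  Bond percolation on the
Cayley graph `cay S` is modelled on configurations `Cfg Γ = Sym2 Γ → Bool`; only the bits at edges
of the Cayley graph are used.
-/

namespace Pool.Agent.IIC
open MeasureTheory ProbabilityTheory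
open scoped ENNReal NNReal
variable {Γ : Type} [Group Γ]


theorem ft21557_self (ω : Cfg Γ) (e : Sym2 Γ) (b : Bool) : upd ω e b e = b := by
  unfold upd ovr
  simp

theorem flip_true (p : ℝ≥0) (hp : p ≤ 1) (e : Sym2 Γ) (G : Cfg Γ → ℝ≥0∞) (hG : Measurable G) :
    ∫⁻ ω in {ω | ω e = true}, G ω ∂(bP Γ p hp) = p * ∫⁻ ω, G (upd ω e true) ∂(bP Γ p hp) := by
  have hme : Measurable (fun ω : Cfg Γ => ω e) := measurable_pi_apply e
  have hE : MeasurableSet {ω : Cfg Γ | ω e = true} :=
    hme (MeasurableSet.singleton true)
  rw [← lintegral_indicator hE, flip_int p hp e _ (hG.indicator hE)]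
  have h1 : ∀ ω : Cfg Γ, Set.indicator {ω : Cfg Γ | ω e = true} G (upd ω e true)
      = G (upd ω e true) := by
    intro ω
    apply Set.indicator_of_mem
    exact ft21557_self ω e true
  have h2 : ∀ ω : Cfg Γ, Set.indicator {ω : Cfg Γ | ω e = true} G (upd ω e false) = 0 := by
    intro ω
    apply Set.indicator_of_notMem
    intro h
    have h' : upd ω e false e = true := h
    rw [ft21557_self] at h'
    exact absurd h' (by simp)
  simp only [h1, h2, lintegral_zero, mul_zero, add_zero]

end Pool.Agent.IIC
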