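import Pool.Agent.IIC.Defs

set_option autoImplicit false
set_option linter.unusedVariables false
set_option linter.unusedSectionVars false

/-!
# Zero density of the incipient infinite cluster: definitions

`Γ` is a group, `S` a finite set (symmetric, generating, in the theorem).  Bond percolation on the
Cayley graph `cay S` is modelled on configurations `Cfg Γ = Sym2 Γ → Bool`; only the bits at edges
of the Cayley graph are used.
-/

namespace Pool.Agent.IIC
open MeasureTheory ProbabilityTheory
open scoped ENNReal NNReal
variable {Γ : Type} [Group Γ]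


theorem infinite_of_nonam {S : Finset Γ} (hna : Nonamenable S) : Infinite Γ := by
  by_contra hf
  rw [not_infinite_iff_finite] at hf
  haveI := Fintype.ofFinite Γ
  obtain ⟨ι, hι, h⟩ := hna
  have h1 := h Finset.univ ⟨1, Finset.mem_univ _⟩
  have h2 : ({e ∈ (cay S).edgeSet | ∃ x ∈ (Finset.univ : Finset Γ), ∃ y ∉ (Finset.univ : Finset Γ),
      e = s(x, y)}) = ∅ := by
    ext e
    constructor
    · rintro ⟨_, x, _, y, hy, _⟩
      exact absurd (Finset.mem_univ y) hy
    · intro he
      exact absurd he (Set.notMem_empty e)
  rw [h2, Set.ncard_empty, Nat.cast_zero] at h1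
  have h3 : (0 : ℝ) < (Finset.univ : Finset Γ).card := by
    have : 0 < (Finset.univ : Finset Γ).card := Finset.card_pos.2 ⟨1, Finset.mem_univ _⟩
    exact_mod_cast this
  have := mul_pos hι h3
  linarith

end Pool.Agent.IIC
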