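import Pool.Agent.IIC.Defs
import Pool.Agent.IIC.P_cyl_prob

set_option autoImplicit false
set_option linter.unusedVariables false
set_option linter.unusedSectionVars false

/-!
# Zero density of the incipient infinite cluster: definitions

`Γ` is a group, `S` a finite set (symmetric, generating, in the theorem).  Bond percolation on the
Cayley graph `cay S` is modelled on configurations `Cfg Γ = Sym2 Γ → Bool`; only the bits at edges
of the Cayley graph are used.
-/

namespace Pool.Agent.IIC
open MeasureTheory ProbabilityTheory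
open scoped ENNReal NNReal
variable {Γ : Type} [Group Γ]


/-- cylinder sets are measurable -/
theorem cylA_meas (E B : Finset (Sym2 Γ)) :
    MeasurableSet {ω : Cfg Γ | ∀ e ∈ E, (ω e = true ↔ e ∈ B)} := by
  have : {ω : Cfg Γ | ∀ e ∈ E, (ω e = true ↔ e ∈ B)}
      = ⋂ e ∈ E, (fun ω : Cfg Γ => ω e) ⁻¹' {b : Bool | b = true ↔ e ∈ B} := by
    ext ω; simp
  rw [this]
  refine Finset.measurableSet_biInter _ (fun e _ => ?_)
  exact measurable_pi_apply e (MeasurableSet.of_discrete)

/-- the probability of a local event is a polynomial in `p` -/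
theorem local_prob (E : Finset (Sym2 Γ)) (A : Set (Cfg Γ))
    (hA : ∀ ω ω' : Cfg Γ, (∀ e ∈ E, ω e = ω' e) → (ω ∈ A ↔ ω' ∈ A)) :
    ∃ q : Polynomial ℝ, ∀ (p : ℝ≥0) (hp : p ≤ 1), (bP Γ p hp A).toReal = q.eval (p : ℝ) := by
  classical
  set F : Finset (Finset (Sym2 Γ)) :=
    E.powerset.filter (fun B => (fun e => decide (e ∈ B) : Cfg Γ) ∈ A) with hF
  have hAU : A = ⋃ B ∈ F, {ω : Cfg Γ | ∀ e ∈ E, (ω e = true ↔ e ∈ B)} := by
    ext ω
    simp only [Set.mem_iUnion, Set.mem_setOf_eq, exists_prop]
    constructor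
    · intro h
      refine ⟨E.filter (fun e => ω e = true), ?_, ?_⟩
      · rw [hF, Finset.mem_filter, Finset.mem_powerset]
        refine ⟨Finset.filter_subset _ _, ?_⟩
        refine (hA ω _ ?_).1 h
        intro e he
        simp only [Finset.mem_filter, he, true_and]
        cases h' : ω e <;> simp [h']
      · intro e he
        simp [he]
    · rintro ⟨B, hB, h⟩
      rw [hF, Finset.mem_filter, Finset.mem_powerset] at hB
      refine (hA ω _ ?_).2 hB.2
      intro e he
      have := h e he
      cases h' : ω e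
      · have : e ∉ B := fun hh => by simp [h'] at this; exact this hh
        simp [this]
      · have : e ∈ B := this.1 h'
        simp [this]
  refine ⟨∑ B ∈ F, Polynomial.X ^ B.card * (1 - Polynomial.X) ^ (E.card - B.card), ?_⟩
  intro p hp
  have hdis : Set.PairwiseDisjoint (F : Set (Finset (Sym2 Γ)))
      (fun B => {ω : Cfg Γ | ∀ e ∈ E, (ω e = true ↔ e ∈ B)}) := by
    intro B hB C hC hne
    rw [Function.onFun, Set.disjoint_left]
    intro ω h1 h2
    apply hne
    have hB' := (Finset.mem_powerset.1 (Finset.mem_filter.1 (Finset.mem_coe.1 hB)).1)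
    have hC' := (Finset.mem_powerset.1 (Finset.mem_filter.1 (Finset.mem_coe.1 hC)).1)
    ext e
    constructor
    · intro he
      exact ((h2 e (hB' he)).1 ((h1 e (hB' he)).2 he))
    · intro he
      exact ((h1 e (hC' he)).1 ((h2 e (hC' he)).2 he))
  have h1 : bP Γ p hp A = ∑ B ∈ F, bP Γ p hp {ω : Cfg Γ | ∀ e ∈ E, (ω e = true ↔ e ∈ B)} := by
    conv_lhs => rw [hAU]
    exact measure_biUnion_finset hdis (fun B _ => cylA_meas E B)
  rw [h1, ENNReal.toReal_sum (fun B _ => measure_ne_top _ _), Polynomial.eval_finset_sum]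
  refine Finset.sum_congr rfl (fun B hB => ?_)
  have hB' := (Finset.mem_powerset.1 (Finset.mem_filter.1 hB).1)
  rw [cyl_prob p hp E B hB']
  have h2 : ((1 - p : ℝ≥0) : ℝ) = 1 - (p : ℝ) := by
    rw [NNReal.coe_sub hp]; simp
  rw [ENNReal.toReal_mul, ENNReal.toReal_pow, ENNReal.toReal_pow, ENNReal.coe_toReal,
    ENNReal.coe_toReal, h2]
  simp

end Pool.Agent.IIC
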