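import Pool.Agent.IIC.Defs

set_option autoImplicit false
set_option linter.unusedVariables false
set_option linter.unusedSectionVars false

/-!
# Zero density of the incipient infinite cluster: definitions

`Γ` is a group, `S` a finite set (symmetric, generating, in the theorem).  Bond percolation on the
Cayley graph `cay S` is modelled on configurations `Cfg Γ = Sym2 Γ → Bool`; only the bits at edges
of the Cayley graph are used.
-/

namespace Pool.Agent.IIC
open MeasureTheory ProbabilityTheory
open scoped ENNReal NNReal
variable {Γ : Type} [Group Γ]


theorem meas_opn (S : Finset Γ) (x y : Γ) : MeasurableSet {ω : Cfg Γ | (opn S ω).Adj x y} := by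
  by_cases h : (cay S).Adj x y
  · have : {ω : Cfg Γ | (opn S ω).Adj x y} = (fun ω : Cfg Γ => ω s(x, y)) ⁻¹' {true} := by
      ext ω
      exact ⟨fun h => h.2, fun h' => ⟨h, h'⟩⟩
    rw [this]
    exact (measurable_pi_apply _) (measurableSet_singleton _)
  · have : {ω : Cfg Γ | (opn S ω).Adj x y} = ∅ := by
      ext ω
      exact ⟨fun h' => h h'.1, fun h' => h'.elim⟩
    rw [this]
    exact MeasurableSet.empty

end Pool.Agent.IIC
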