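import Pool.Agent.IIC.Defs
import Pool.Agent.IIC.P_meas_opn

set_option autoImplicit false
set_option linter.unusedVariables false
set_option linter.unusedSectionVars false

/-!
# Zero density of the incipient infinite cluster: definitions

`Γ` is a group, `S` a finite set (symmetric, generating, in the theorem).  Bond percolation on the
Cayley graph `cay S` is modelled on configurations `Cfg Γ = Sym2 Γ → Bool`; only the bits at edges
of the Cayley graph are used.
-/

namespace Pool.Agent.IIC
open MeasureTheory ProbabilityTheory
open scoped ENNReal NNReal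
variable {Γ : Type} [Group Γ]


theorem meas_clus [Countable Γ] (S : Finset Γ) (x y : Γ) :
    MeasurableSet {ω : Cfg Γ | y ∈ clus S ω x} := by
  have key : ∀ n : ℕ, ∀ x y : Γ,
      MeasurableSet {ω : Cfg Γ | ∃ w : (opn S ω).Walk x y, w.length = n} := by
    intro n
    induction n with
    | zero =>
      intro x y
      by_cases h : x = y
      · subst h
        have h1 : {ω : Cfg Γ | ∃ w : (opn S ω).Walk x x, w.length = 0} = Set.univ :=
          Set.eq_univ_of_forall fun ω => ⟨SimpleGraph.Walk.nil, rfl⟩
        rw [h1]
        exact MeasurableSet.univ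
      · have h1 : {ω : Cfg Γ | ∃ w : (opn S ω).Walk x y, w.length = 0} = ∅ := by
          refine Set.eq_empty_of_forall_notMem fun ω hω => ?_
          obtain ⟨w, hw⟩ := hω
          exact h (SimpleGraph.Walk.eq_of_length_eq_zero hw)
        rw [h1]
        exact MeasurableSet.empty
    | succ n ih =>
      intro x y
      have h1 : {ω : Cfg Γ | ∃ w : (opn S ω).Walk x y, w.length = n + 1} =
          ⋃ z : Γ, {ω : Cfg Γ | (opn S ω).Adj x z} ∩
            {ω : Cfg Γ | ∃ w : (opn S ω).Walk z y, w.length = n} := by
        ext ω
        simp only [Set.mem_iUnion]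
        constructor
        · rintro ⟨w, hw⟩
          cases w with
          | nil => simp at hw
          | cons h w' =>
            rw [SimpleGraph.Walk.length_cons] at hw
            exact ⟨_, h, w', by omega⟩
        · rintro ⟨z, h, w', hw⟩
          exact ⟨SimpleGraph.Walk.cons h w', by rw [SimpleGraph.Walk.length_cons, hw]⟩
      rw [h1]
      exact MeasurableSet.iUnion fun z => (meas_opn S x z).inter (ih z y)
  have h : {ω : Cfg Γ | y ∈ clus S ω x} =
      ⋃ n : ℕ, {ω : Cfg Γ | ∃ w : (opn S ω).Walk x y, w.length = n} := by
    ext ω
    simp only [Set.mem_iUnion]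
    constructor
    · rintro ⟨w⟩
      exact ⟨w.length, w, rfl⟩
    · rintro ⟨n, w, -⟩
      exact ⟨w⟩
  rw [h]
  exact MeasurableSet.iUnion fun n => key n x y

end Pool.Agent.IIC
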