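import Pool.Agent.IIC.Defs
import Pool.Agent.IIC.P_meas_clus

set_option autoImplicit false
set_option linter.unusedVariables false
set_option linter.unusedSectionVars false

/-!
# Zero density of the incipient infinite cluster: definitions

`Γ` is a group, `S` a finite set (symmetric, generating, in the theorem).  Bond percolation on the
Cayley graph `cay S` is modelled on configurations `Cfg Γ = Sym2 Γ → Bool`; only the bits at edges
of the Cayley graph are used.
-/

namespace Pool.Agent.IIC
open MeasureTheory ProbabilityTheory
open scoped ENNReal NNReal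
variable {Γ : Type} [Group Γ]


theorem meas_R [Countable Γ] (S : Finset Γ) (n : ℕ) (x : Γ) :
    MeasurableSet {ω : Cfg Γ | R S n x ω} := by
  have h : {ω : Cfg Γ | R S n x ω} = ⋃ y : Γ, {ω : Cfg Γ | y ∈ clus S ω x ∧ n ≤ (cay S).dist x y} := by
    ext ω
    simp [R]
  rw [h]
  apply MeasurableSet.iUnion
  intro y
  by_cases hn : n ≤ (cay S).dist x y
  · simpa [hn] using meas_clus S x y
  · simp [hn]

end Pool.Agent.IIC
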