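import Pool.Agent.IIC.Defs
import Pool.Agent.IIC.P_clus_kp
import Pool.Agent.IIC.P_meas_kp

set_option autoImplicit false
set_option linter.unusedVariables false
set_option linter.unusedSectionVars false

/-!
# Zero density of the incipient infinite cluster: definitions

`Γ` is a group, `S` a finite set (symmetric, generating, in the theorem).  Bond percolation on the
Cayley graph `cay S` is modelled on configurations `Cfg Γ = Sym2 Γ → Bool`; only the bits at edges
of the Cayley graph are used.
-/

namespace Pool.Agent.IIC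
open MeasureTheory ProbabilityTheory
open scoped ENNReal NNReal
variable {Γ : Type} [Group Γ]


/-- an event determined by the finite cluster of `x` (and the states of the edges touching it)
is measurable on the event that the cluster is finite -/
theorem meas_pattern [Countable Γ] (S : Finset Γ) (hS : Symm S) (x : Γ) (Q : Cfg Γ → Prop)
    (hQ : ∀ (H : Finset Γ) (ω : Cfg Γ), clus S ω x = ↑H → (Q ω ↔ Q (kp S H ω))) :
    MeasurableSet {ω : Cfg Γ | (clus S ω x).Finite ∧ Q ω} := by
  have heq : {ω : Cfg Γ | (clus S ω x).Finite ∧ Q ω} =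
      ⋃ H : Finset Γ, {ω : Cfg Γ | clus S (kp S H ω) x = ↑H ∧ Q (kp S H ω)} := by
    ext ω
    simp only [Set.mem_setOf_eq, Set.mem_iUnion]
    constructor
    · rintro ⟨hf, hq⟩
      have h1 : clus S ω x = ↑(hf.toFinset) := by simp
      exact ⟨hf.toFinset, (clus_kp hS _ ω x).1 h1, (hQ _ ω h1).1 hq⟩
    · rintro ⟨H, h1, h2⟩
      have h3 : clus S ω x = ↑H := (clus_kp hS H ω x).2 h1
      refine ⟨?_, (hQ H ω h3).2 h2⟩
      rw [h3]
      exact H.finite_toSet
  rw [heq]
  refine MeasurableSet.iUnion fun H => ?_
  have hm : Measurable (fun ω : Cfg Γ =>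
      (clus S (kp S H ω) x = (↑H : Set Γ) ∧ Q (kp S H ω) : Prop)) :=
    meas_kp S H (fun ω' : Cfg Γ => (clus S ω' x = (↑H : Set Γ) ∧ Q ω' : Prop))
  exact measurableSet_setOf.2 hm

end Pool.Agent.IIC
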