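import Pool.Agent.IIC.Defs
import Pool.Agent.IIC.P_meas_clus

set_option autoImplicit false
set_option linter.unusedVariables false
set_option linter.unusedSectionVars false

/-!
# Zero density of the incipient infinite cluster: definitions

`Γ` is a group, `S` a finite set (symmetric, generating, in the theorem).  Bond percolation on the
Cayley graph `cay S` is modelled on configurations `Cfg Γ = Sym2 Γ → Bool`; only the bits at edges
of the Cayley graph are used.
-/

namespace Pool.Agent.IIC
open MeasureTheory ProbabilityTheory
open scoped ENNReal NNReal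
variable {Γ : Type} [Group Γ]


theorem meas_sz [Countable Γ] (S : Finset Γ) (x : Γ) :
    Measurable (fun ω : Cfg Γ => sz S ω x) := by
  have h1 : (fun ω : Cfg Γ => sz S ω x) =
      fun ω : Cfg Γ => ∑' y : Γ, ({ω : Cfg Γ | y ∈ clus S ω x}.indicator
        (fun _ => (1 : ℝ≥0∞)) ω) := by
    funext ω
    unfold sz
    rw [← ENNReal.tsum_set_one, tsum_subtype (clus S ω x) (fun _ => (1 : ℝ≥0∞))]
    refine tsum_congr ?_
    intro y
    by_cases hy : y ∈ clus S ω x
    · rw [Set.indicator_of_mem hy,
        Set.indicator_of_mem (show ω ∈ {ω : Cfg Γ | y ∈ clus S ω x} from hy)]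
    · rw [Set.indicator_of_notMem hy,
        Set.indicator_of_notMem (show ω ∉ {ω : Cfg Γ | y ∈ clus S ω x} from hy)]
  rw [h1]
  refine Measurable.ennreal_tsum ?_
  intro y
  exact measurable_const.indicator (meas_clus S x y)

end Pool.Agent.IIC
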