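import Pool.Agent.IIC.Defs

set_option autoImplicit false
set_option linter.unusedVariables false
set_option linter.unusedSectionVars false

/-!
# Zero density of the incipient infinite cluster: definitions

`Γ` is a group, `S` a finite set (symmetric, generating, in the theorem).  Bond percolation on the
Cayley graph `cay S` is modelled on configurations `Cfg Γ = Sym2 Γ → Bool`; only the bits at edges
of the Cayley graph are used.
-/

namespace Pool.Agent.IIC
open MeasureTheory ProbabilityTheory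
open scoped ENNReal NNReal
variable {Γ : Type} [Group Γ]


/-- the uniform measure on `[0,1]` -/
noncomputable def mpU : Measure ℝ := volume.restrict (Set.Icc (0 : ℝ) 1)

instance mpU_prob : IsProbabilityMeasure mpU := ⟨by
  unfold mpU
  rw [Measure.restrict_apply_univ, Real.volume_Icc]
  simp⟩

open Classical in
/-- threshold function -/
noncomputable def mpF (p : ℝ≥0) (u : ℝ) : Bool := decide (u ≤ (p : ℝ))

theorem mpF_true (p : ℝ≥0) : mpF p ⁻¹' {true} = Set.Iic (p : ℝ) := by
  ext u
  simp [mpF]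

theorem mpF_false (p : ℝ≥0) : mpF p ⁻¹' {false} = Set.Ioi (p : ℝ) := by
  ext u
  simp [mpF]

theorem mpF_meas (p : ℝ≥0) : Measurable (mpF p) := by
  refine measurable_to_bool ?_
  rw [mpF_true]
  exact measurableSet_Iic

theorem mpF_map (p : ℝ≥0) (hp : p ≤ 1) : mpU.map (mpF p) = (PMF.bernoulli p hp).toMeasure := by
  have hp' : (p : ℝ) ≤ 1 := by exact_mod_cast hp
  refine Measure.ext_of_singleton ?_
  intro b
  rw [Measure.map_apply (mpF_meas p) (measurableSet_singleton b),
    PMF.toMeasure_apply_singleton _ _ (measurableSet_singleton b), PMF.bernoulli_apply]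
  cases b with
  | true =>
    rw [mpF_true, mpU, Measure.restrict_apply measurableSet_Iic]
    have h1 : Set.Iic (p : ℝ) ∩ Set.Icc 0 1 = Set.Icc 0 (p : ℝ) := by
      ext u
      simp only [Set.mem_inter_iff, Set.mem_Iic, Set.mem_Icc]
      constructor
      · rintro ⟨h1, h2, _⟩
        exact ⟨h2, h1⟩
      · rintro ⟨h1, h2⟩
        exact ⟨h2, h1, h2.trans hp'⟩
    rw [h1, Real.volume_Icc, sub_zero, ENNReal.ofReal_coe_nnreal]
    rfl
  | false =>
    rw [mpF_false, mpU, Measure.restrict_apply measurableSet_Ioi]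
    have h1 : Set.Ioi (p : ℝ) ∩ Set.Icc 0 1 = Set.Ioc (p : ℝ) 1 := by
      ext u
      simp only [Set.mem_inter_iff, Set.mem_Ioi, Set.mem_Icc, Set.mem_Ioc]
      constructor
      · rintro ⟨h1, _, h2⟩
        exact ⟨h1, h2⟩
      · rintro ⟨h1, h2⟩
        exact ⟨h1, p.2.trans h1.le, h2⟩
    rw [h1, Real.volume_Ioc]
    have h2 : (1 : ℝ) - (p : ℝ) = (((1 - p : ℝ≥0)) : ℝ) := by
      rw [NNReal.coe_sub hp]
      rfl
    rw [h2, ENNReal.ofReal_coe_nnreal]
    rfl

theorem mp_bP (p : ℝ≥0) (hp : p ≤ 1) : bP Γ p hp =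
    (Measure.infinitePi (fun _ : Sym2 Γ => mpU)).map (fun x e => mpF p (x e)) := by
  rw [Measure.infinitePi_map_pi (μ := fun _ : Sym2 Γ => mpU) (f := fun _ => mpF p)
    (fun _ => mpF_meas p)]
  unfold bP
  rw [mpF_map p hp]

/-- monotonicity in `p` of the probability of increasing events -/
theorem mono_prob (p q : ℝ≥0) (hp : p ≤ 1) (hq : q ≤ 1) (hpq : p ≤ q) (A : Set (Cfg Γ))
    (hA : MeasurableSet A)
    (hinc : ∀ ω ω' : Cfg Γ, (∀ e, ω e = true → ω' e = true) → ω ∈ A → ω' ∈ A) :
    bP Γ p hp A ≤ bP Γ q hq A := by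
  have hm : ∀ p : ℝ≥0, Measurable (fun (x : Sym2 Γ → ℝ) (e : Sym2 Γ) => mpF p (x e)) := by
    intro p
    exact measurable_pi_lambda _ (fun e => (mpF_meas p).comp (measurable_pi_apply e))
  rw [mp_bP p hp, mp_bP q hq, Measure.map_apply (hm p) hA, Measure.map_apply (hm q) hA]
  refine measure_mono ?_
  intro x hx
  refine hinc _ _ ?_ hx
  intro e he
  have h1 : x e ∈ mpF p ⁻¹' {true} := he
  rw [mpF_true] at h1
  have h2 : x e ∈ mpF q ⁻¹' {true} := by
    rw [mpF_true]
    have hpq' : (p : ℝ) ≤ q := by exact_mod_cast hpq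
    exact le_trans h1 hpq'
  exact h2

end Pool.Agent.IIC
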