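import Pool.Agent.IIC.Defs
import Pool.Agent.IIC.P_shift_mp

set_option autoImplicit false
set_option linter.unusedVariables false
set_option linter.unusedSectionVars false

/-!
# Zero density of the incipient infinite cluster: definitions

`Γ` is a group, `S` a finite set (symmetric, generating, in the theorem).  Bond percolation on the
Cayley graph `cay S` is modelled on configurations `Cfg Γ = Sym2 Γ → Bool`; only the bits at edges
of the Cayley graph are used.
-/

namespace Pool.Agent.IIC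
open MeasureTheory ProbabilityTheory
open scoped ENNReal NNReal
variable {Γ : Type} [Group Γ]


/-- the mass transport principle -/
theorem mtp [Countable Γ] (p : ℝ≥0) (hp : p ≤ 1) (F : Γ → Γ → Cfg Γ → ℝ≥0∞)
    (hF : ∀ x y, Measurable (F x y))
    (hinv : ∀ g x y ω, F (g * x) (g * y) (shift g ω) = F x y ω) :
    ∑' y, ∫⁻ ω, F 1 y ω ∂(bP Γ p hp) = ∑' y, ∫⁻ ω, F y 1 ω ∂(bP Γ p hp) := by
  have h1 : ∀ y, ∫⁻ ω, F 1 y ω ∂(bP Γ p hp) = ∫⁻ ω, F y⁻¹ 1 ω ∂(bP Γ p hp) := by
    intro y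
    have h2 : ∀ ω, F 1 y ω = F y⁻¹ 1 (shift y⁻¹ ω) := by
      intro ω
      rw [← hinv y⁻¹ 1 y ω, mul_one, inv_mul_cancel]
    simp_rw [h2]
    exact (shift_mp p hp y⁻¹).lintegral_comp (hF y⁻¹ 1)
  simp_rw [h1]
  exact (Equiv.inv Γ).tsum_eq (fun y => ∫⁻ ω, F y 1 ω ∂(bP Γ p hp))

end Pool.Agent.IIC
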