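import Pool.Agent.IIC.Defs
import Pool.Agent.IIC.P_meas_upd
import Pool.Agent.IIC.P_flip_true
import Pool.Agent.IIC.P_flip_false

set_option autoImplicit false
set_option linter.unusedVariables false
set_option linter.unusedSectionVars false

/-!
# Zero density of the incipient infinite cluster: definitions

`Γ` is a group, `S` a finite set (symmetric, generating, in the theorem).  Bond percolation on the
Cayley graph `cay S` is modelled on configurations `Cfg Γ = Sym2 Γ → Bool`; only the bits at edges
of the Cayley graph are used.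
-/

namespace Pool.Agent.IIC
open MeasureTheory ProbabilityTheory
open scoped ENNReal NNReal
variable {Γ : Type} [Group Γ]


theorem ovr_meas (E : Finset (Sym2 Γ)) (s : Cfg Γ) : Measurable (fun ω : Cfg Γ => ovr ω E s) := by
  classical
  rw [measurable_pi_iff]
  intro e
  unfold ovr
  by_cases h : e ∈ E
  · simp only [h, if_true]
    exact measurable_const
  · simp only [h, if_false]
    exact measurable_pi_apply e

theorem ovr_one (p : ℝ≥0) (hp : p ≤ 1) (e : Sym2 Γ) (b : Bool) (B : Set (Cfg Γ))
    (hB : MeasurableSet B) :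
    ((min p (1 - p) : ℝ≥0) : ℝ≥0∞) * bP Γ p hp {ω | upd ω e b ∈ B} ≤ bP Γ p hp B := by
  have hG : Measurable (B.indicator (fun _ => (1 : ℝ≥0∞)) : Cfg Γ → ℝ≥0∞) :=
    measurable_const.indicator hB
  have hpre : ∀ b : Bool, ∫⁻ ω, (B.indicator (fun _ => (1 : ℝ≥0∞))) (upd ω e b) ∂(bP Γ p hp)
      = bP Γ p hp {ω | upd ω e b ∈ B} := by
    intro b
    have hm : MeasurableSet {ω : Cfg Γ | upd ω e b ∈ B} := (meas_upd e b) hB
    have h1 : (fun ω => (B.indicator (fun _ => (1 : ℝ≥0∞))) (upd ω e b)) =
        ({ω : Cfg Γ | upd ω e b ∈ B}).indicator (fun _ => (1 : ℝ≥0∞)) := by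
      funext ω
      by_cases h : upd ω e b ∈ B
      · rw [Set.indicator_of_mem h, Set.indicator_of_mem (by exact h)]
      · rw [Set.indicator_of_notMem h, Set.indicator_of_notMem (by exact h)]
    rw [h1, lintegral_indicator hm, lintegral_const, one_mul, Measure.restrict_apply_univ]
  have hle : ∀ T : Set (Cfg Γ), ∫⁻ ω in T, (B.indicator (fun _ => (1 : ℝ≥0∞))) ω ∂(bP Γ p hp)
      ≤ bP Γ p hp B := by
    intro T
    refine (setLIntegral_le_lintegral _ _).trans ?_
    rw [lintegral_indicator hB, lintegral_const, one_mul, Measure.restrict_apply_univ]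
  cases b with
  | true =>
    have h1 := flip_true p hp e _ hG
    rw [hpre true] at h1
    have h2 := hle {ω | ω e = true}
    rw [h1] at h2
    refine le_trans ?_ h2
    gcongr
    exact_mod_cast min_le_left p (1 - p)
  | false =>
    have h1 := flip_false p hp e _ hG
    rw [hpre false] at h1
    have h2 := hle {ω | ω e = false}
    rw [h1] at h2
    refine le_trans ?_ h2
    gcongr
    exact min_le_right p (1 - p)

/-- finite energy: overwriting a finite set of edges costs at most `min p (1-p)` per edge -/
theorem ovr_le (p : ℝ≥0) (hp : p ≤ 1) (E : Finset (Sym2 Γ)) (s : Cfg Γ) (A : Set (Cfg Γ))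
    (hA : MeasurableSet A) :
    ((min p (1 - p) : ℝ≥0) : ℝ≥0∞) ^ E.card * bP Γ p hp {ω | ovr ω E s ∈ A} ≤ bP Γ p hp A := by
  classical
  induction E using Finset.induction_on with
  | empty =>
    have h : {ω : Cfg Γ | ovr ω ∅ s ∈ A} = A := by
      ext ω
      have : ovr ω ∅ s = ω := by
        funext e
        simp [ovr]
      show ovr ω ∅ s ∈ A ↔ ω ∈ A
      rw [this]
    rw [h, Finset.card_empty, pow_zero, one_mul]
  | insert e E he ih =>
    have hB : MeasurableSet {ω : Cfg Γ | ovr ω E s ∈ A} := (ovr_meas E s) hA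
    have h1 : {ω : Cfg Γ | ovr ω (insert e E) s ∈ A} =
        {ω | upd ω e (s e) ∈ {ω : Cfg Γ | ovr ω E s ∈ A}} := by
      ext ω
      have : ovr ω (insert e E) s = ovr (upd ω e (s e)) E s := by
        funext f
        unfold upd ovr
        by_cases hf : f ∈ E
        · simp [hf]
        · by_cases hfe : f = e
          · subst hfe
            simp [hf]
          · simp [hf, hfe]
      show ovr ω (insert e E) s ∈ A ↔ ovr (upd ω e (s e)) E s ∈ A
      rw [this]
    rw [h1, Finset.card_insert_of_notMem he, pow_succ, mul_assoc]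
    refine le_trans ?_ ih
    gcongr
    exact ovr_one p hp e (s e) _ hB

end Pool.Agent.IIC
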