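import Pool.Agent.IIC.Defs
import Pool.Agent.IIC.P_mem_clus_shift

set_option autoImplicit false
set_option linter.unusedVariables false
set_option linter.unusedSectionVars false

/-!
# Zero density of the incipient infinite cluster: definitions

`Γ` is a group, `S` a finite set (symmetric, generating, in the theorem).  Bond percolation on the
Cayley graph `cay S` is modelled on configurations `Cfg Γ = Sym2 Γ → Bool`; only the bits at edges
of the Cayley graph are used.
-/

namespace Pool.Agent.IIC
open MeasureTheory ProbabilityTheory
open scoped ENNReal NNReal
variable {Γ : Type} [Group Γ]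


theorem sz_shift {S : Finset Γ} (g : Γ) (ω : Cfg Γ) (x : Γ) :
    sz S (shift g ω) (g * x) = sz S ω x := by
  have e : clus S (shift g ω) (g * x) = (fun y => g * y) '' clus S ω x := by
    ext y
    constructor
    · intro hy
      refine ⟨g⁻¹ * y, ?_, by simp⟩
      rw [← mem_clus_shift g ω x (g⁻¹ * y), mul_inv_cancel_left]
      exact hy
    · rintro ⟨z, hz, rfl⟩
      exact (mem_clus_shift g ω x z).2 hz
  unfold sz
  rw [e, (mul_right_injective g).injOn.encard_image]
end Pool.Agent.IIC
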