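import Pool.Agent.IIC.Defs
import Pool.Agent.IIC.P_clus_upd_bridge
import Pool.Agent.IIC.P_clus_upd_far

set_option autoImplicit false
set_option linter.unusedVariables false
set_option linter.unusedSectionVars false

/-!
# Zero density of the incipient infinite cluster: definitions

`Γ` is a group, `S` a finite set (symmetric, generating, in the theorem).  Bond percolation on the
Cayley graph `cay S` is modelled on configurations `Cfg Γ = Sym2 Γ → Bool`; only the bits at edges
of the Cayley graph are used.
-/

namespace Pool.Agent.IIC
open MeasureTheory ProbabilityTheory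
open scoped ENNReal NNReal
variable {Γ : Type} [Group Γ]


theorem tch_iff {S : Finset Γ} (e : Sym2 Γ) (x : Γ) (ω : Cfg Γ) :
    (∃ v ∈ e, v ∈ clus S (upd ω e true) x) ↔ (∃ v ∈ e, v ∈ clus S (upd ω e false) x) := by
  constructor
  · rintro ⟨v, hv, hvc⟩
    by_contra hc
    push Not at hc
    rw [clus_upd_far e x ω hc] at hvc
    exact hc v hv hvc
  · rintro ⟨v, hv, hvc⟩
    refine ⟨v, hv, ?_⟩
    have hle : opn S (upd ω e false) ≤ opn S (upd ω e true) := by
      intro a b hab
      refine ⟨hab.1, ?_⟩
      have h2 := hab.2
      unfold upd ovr at h2 ⊢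
      by_cases h : s(a, b) ∈ ({e} : Finset (Sym2 Γ))
      · simp [h]
      · simp only [h, if_false] at h2 ⊢
        exact h2
    exact SimpleGraph.Reachable.mono hle hvc

end Pool.Agent.IIC
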