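import Pool.Agent.IIC.P_cay_adj
import Pool.Agent.IIC.P_cay_smul
import Pool.Agent.IIC.P_cay_conn
import Pool.Agent.IIC.P_dist_smul
import Pool.Agent.IIC.P_mem_T
import Pool.Agent.IIC.P_card_T
import Pool.Agent.IIC.P_mem_ball
import Pool.Agent.IIC.P_infinite_of_nonam
import Pool.Agent.IIC.P_exists_sphere
import Pool.Agent.IIC.P_countable_of_gen
import Pool.Agent.IIC.P_opn_kp
import Pool.Agent.IIC.P_opn_cl
import Pool.Agent.IIC.P_opn_shift
import Pool.Agent.IIC.P_mem_clus_shift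
import Pool.Agent.IIC.P_sz_shift
import Pool.Agent.IIC.P_R_shift
import Pool.Agent.IIC.P_clus_mono
import Pool.Agent.IIC.P_clus_kp
import Pool.Agent.IIC.P_clus_cl
import Pool.Agent.IIC.P_clus_upd_bridge
import Pool.Agent.IIC.P_clus_upd_far
import Pool.Agent.IIC.P_tch_iff
import Pool.Agent.IIC.P_R_of_sz
import Pool.Agent.IIC.P_dist_lt_of_sz
import Pool.Agent.IIC.P_meas_opn
import Pool.Agent.IIC.P_meas_clus
import Pool.Agent.IIC.P_meas_R
import Pool.Agent.IIC.P_meas_sz
import Pool.Agent.IIC.P_meas_ovr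
import Pool.Agent.IIC.P_meas_upd
import Pool.Agent.IIC.P_meas_cl
import Pool.Agent.IIC.P_meas_kp
import Pool.Agent.IIC.P_meas_shift
import Pool.Agent.IIC.P_flip_int
import Pool.Agent.IIC.P_flip_true
import Pool.Agent.IIC.P_flip_false
import Pool.Agent.IIC.P_ovr_le
import Pool.Agent.IIC.P_shift_mp
import Pool.Agent.IIC.P_ind_kp_cl
import Pool.Agent.IIC.P_mtp
import Pool.Agent.IIC.P_cyl_prob
import Pool.Agent.IIC.P_local_prob
import Pool.Agent.IIC.P_mono_prob
import Pool.Agent.IIC.P_lint_pattern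
import Pool.Agent.IIC.P_fin_all
import Pool.Agent.IIC.P_explore_le
import Pool.Agent.IIC.P_meas_pattern
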