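import Mathlib

set_option autoImplicit false
set_option linter.unusedVariables false
set_option linter.unusedSectionVars false

/-!
# Zero density of the incipient infinite cluster: definitions

`Γ` is a group, `S` a finite set (symmetric, generating, in the theorem).  Bond percolation on the
Cayley graph `cay S` is modelled on configurations `Cfg Γ = Sym2 Γ → Bool`; only the bits at edges
of the Cayley graph are used.
-/

namespace Pool.Agent.IIC

open MeasureTheory ProbabilityTheory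
open scoped ENNReal NNReal

variable {Γ : Type} [Group Γ]

/-- The Cayley graph of `Γ` with respect to `S`. -/
def cay (S : Finset Γ) : SimpleGraph Γ := SimpleGraph.fromRel (fun g h => g⁻¹ * h ∈ S)

/-- Configurations. -/
abbrev Cfg (Γ : Type) : Type := Sym2 Γ → Bool

/-- The subgraph of open edges of the Cayley graph. -/
def opn (S : Finset Γ) (ω : Cfg Γ) : SimpleGraph Γ where
  Adj x y := (cay S).Adj x y ∧ ω s(x, y) = true
  symm := ⟨by
    intro x y h
    exact ⟨h.1.symm, by rw [Sym2.eq_swap]; exact h.2⟩⟩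
  loopless := ⟨fun x h => (cay S).loopless.irrefl x h.1⟩

/-- The open cluster of `x`. -/
def clus (S : Finset Γ) (ω : Cfg Γ) (x : Γ) : Set Γ := {y | (opn S ω).Reachable x y}

/-- Bernoulli bond percolation with parameter `p`: the product over all pairs of Bernoulli(`p`). -/
noncomputable def bP (Γ : Type) (p : ℝ≥0) (hp : p ≤ 1) : Measure (Cfg Γ) :=
  Measure.infinitePi (fun _ : Sym2 Γ => (PMF.bernoulli p hp).toMeasure)

instance (p : ℝ≥0) (hp : p ≤ 1) : IsProbabilityMeasure (bP Γ p hp) := by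
  unfold bP; infer_instance

/-- The critical parameter. -/
noncomputable def pc (S : Finset Γ) : ℝ≥0 :=
  sSup {p : ℝ≥0 | ∃ hp : p ≤ 1, bP Γ p hp {ω | (clus S ω 1).Infinite} = 0}

/-- the cluster of `x` reaches distance at least `n` from `x` -/
def R (S : Finset Γ) (n : ℕ) (x : Γ) (ω : Cfg Γ) : Prop :=
  ∃ y ∈ clus S ω x, n ≤ (cay S).dist x y

/-- nonamenability of the Cayley graph: positive edge isoperimetric constant -/
def Nonamenable (S : Finset Γ) : Prop :=
  ∃ ι : ℝ, 0 < ι ∧ ∀ K : Finset Γ, K.Nonempty →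
    ι * K.card ≤ ({e ∈ (cay S).edgeSet | ∃ x ∈ K, ∃ y ∉ K, e = s(x, y)}).ncard

/-- `S` is symmetric -/
def Symm (S : Finset Γ) : Prop := ∀ s ∈ S, s⁻¹ ∈ S

/-- `S` generates `Γ` -/
def Gen (S : Finset Γ) : Prop := Subgroup.closure (S : Set Γ) = ⊤

/-! ## the incipient infinite cluster -/

/-- size of the cluster of `x`, as an extended real -/
noncomputable def sz (S : Finset Γ) (ω : Cfg Γ) (x : Γ) : ℝ≥0∞ := (clus S ω x).encard

/-- A subgraph of the Cayley graph, as indicator functions of its vertex set and of its edge set. -/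
abbrev SubG (Γ : Type) : Type := (Γ → Bool) × (Sym2 Γ → Bool)

/-- The open cluster of `1` in `ω` (vertices and open edges), translated by `ρ⁻¹`, i.e. rerooted
at `ρ`. -/
noncomputable def reroot (S : Finset Γ) (ρ : Γ) (ω : Cfg Γ) : SubG Γ := by
  classical
  exact (fun v => decide (ρ * v ∈ clus S ω 1),
    fun e => decide (e.map (fun x => ρ * x) ∈ (opn S ω).edgeSet ∧
      ∀ v ∈ e, ρ * v ∈ clus S ω 1))

/-- The law of the cluster of `1`, conditioned to reach distance `n`, and rerooted at a uniformly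
chosen vertex `ρ` of the cluster. -/
noncomputable def law (S : Finset Γ) (p : ℝ≥0) (hp : p ≤ 1) (n : ℕ) : Measure (SubG Γ) :=
  (bP Γ p hp {ω | R S n 1 ω})⁻¹ •
    Measure.sum (fun ρ : Γ =>
      (((bP Γ p hp).restrict {ω | R S n 1 ω ∧ ρ ∈ clus S ω 1}).withDensity
        (fun ω => (sz S ω 1)⁻¹)).map (reroot S ρ))

/-! ## auxiliary definitions for the proof -/

/-- The finite set of edges of the Cayley graph that touch the finite set `H`
(for symmetric `S`). -/
noncomputable def T (S : Finset Γ) (H : Finset Γ) : Finset (Sym2 Γ) := by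
  classical
  exact ((H ×ˢ S).image (fun q => s(q.1, q.1 * q.2))).filter (fun e => e ∈ (cay S).edgeSet)

/-- keep only the bits at the Cayley edges touching `H`, all other bits are `false` -/
noncomputable def kp (S : Finset Γ) (H : Finset Γ) (ω : Cfg Γ) : Cfg Γ := by
  classical
  exact fun e => if e ∈ T S H then ω e else false

/-- close all the Cayley edges touching `H` -/
noncomputable def cl (S : Finset Γ) (H : Finset Γ) (ω : Cfg Γ) : Cfg Γ := by
  classical
  exact fun e => if e ∈ T S H then false else ω e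

/-- overwrite `ω` on the finite set `E` by `s` -/
noncomputable def ovr (ω : Cfg Γ) (E : Finset (Sym2 Γ)) (s : Cfg Γ) : Cfg Γ := by
  classical
  exact fun e => if e ∈ E then s e else ω e

/-- force the edge `e` to have value `b` -/
noncomputable def upd (ω : Cfg Γ) (e : Sym2 Γ) (b : Bool) : Cfg Γ := ovr ω {e} (fun _ => b)

/-- translate a configuration by `g`: the edge `g e` of `shift g ω` has the state of `e` in `ω` -/
def shift (g : Γ) (ω : Cfg Γ) : Cfg Γ := fun e => ω (e.map (fun x => g⁻¹ * x))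

/-- the averaging operator of the simple random walk, iterated `k` times -/
noncomputable def avg (S : Finset Γ) : ℕ → (Γ → ℝ≥0∞) → Γ → ℝ≥0∞
  | 0, f => f
  | k + 1, f => fun x => (∑ s ∈ S, avg S k f (x * s)) / S.card

/-- `y` is connected to `x` by an open path inside the finite set `L` -/
def clusIn (S : Finset Γ) (L : Finset Γ) (ω : Cfg Γ) (x : Γ) : Set Γ :=
  {y | ∃ w : (opn S ω).Walk x y, ∀ z ∈ w.support, z ∈ L}

/-- ball of radius `n` about `x` (for finite symmetric generating `S` the set is finite) -/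
noncomputable def ball (S : Finset Γ) (x : Γ) (n : ℕ) : Finset Γ := by
  classical
  exact if h : {y | (cay S).dist x y ≤ n}.Finite then h.toFinset else ∅

/-- the core with respect to the far set `F`: vertices on a simple open path from `1` to `F` -/
def coreF (S : Finset Γ) (F : Set Γ) (ω : Cfg Γ) : Set Γ :=
  {x | ∃ t ∈ F, ∃ w : (opn S ω).Walk 1 t, w.IsPath ∧ x ∈ w.support}

/-- one-arm probability -/
noncomputable def Z (S : Finset Γ) (p : ℝ≥0) (hp : p ≤ 1) (n : ℕ) : ℝ≥0∞ :=
  bP Γ p hp {ω | R S n 1 ω}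

/-- tail of the cluster size -/
noncomputable def psi (S : Finset Γ) (p : ℝ≥0) (hp : p ≤ 1) (K : ℕ) : ℝ≥0∞ :=
  bP Γ p hp {ω | (K : ℝ≥0∞) < sz S ω 1}

/-- almost surely all clusters are finite -/
def Fin0 (S : Finset Γ) (p : ℝ≥0) (hp : p ≤ 1) : Prop :=
  bP Γ p hp {ω | (clus S ω 1).Infinite} = 0

/-- `e` is an edge of the Cayley graph that is pivotal for `R n x` -/
def piv (S : Finset Γ) (n : ℕ) (x : Γ) (e : Sym2 Γ) (ω : Cfg Γ) : Prop :=
  e ∈ (cay S).edgeSet ∧ R S n x (upd ω e true) ∧ ¬ R S n x (upd ω e false)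

/-- `E[ #(open pivotal edges for R n 1) / |C(1)| ]` -/
noncomputable def PI (S : Finset Γ) (p : ℝ≥0) (hp : p ≤ 1) (n : ℕ) : ℝ≥0∞ :=
  ∑' e : Sym2 Γ, ∫⁻ ω in {ω | piv S n 1 e ω ∧ ω e = true}, (sz S ω 1)⁻¹ ∂(bP Γ p hp)

/-- number of open (`b = true`) resp. closed (`b = false`) Cayley edges touching the cluster
of `1` -/
noncomputable def ne (S : Finset Γ) (b : Bool) (ω : Cfg Γ) : ℝ≥0∞ :=
  ∑' e : Sym2 Γ, Set.indicator
    {e | e ∈ (cay S).edgeSet ∧ (∃ v ∈ e, v ∈ clus S ω 1) ∧ ω e = b} (fun _ => (1 : ℝ≥0∞)) e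

/-- `P(ρ v ∈ C)` for the rerooted cluster, times `Z n` -/
noncomputable def phiZ (S : Finset Γ) (p : ℝ≥0) (hp : p ≤ 1) (n : ℕ) (v : Γ) : ℝ≥0∞ :=
  ∑' ρ : Γ, ∫⁻ ω in {ω | R S n 1 ω ∧ ρ ∈ clus S ω 1 ∧ ρ * v ∈ clus S ω 1},
    (sz S ω 1)⁻¹ ∂(bP Γ p hp)

/-- the fraction of the vertices `z` of the finite cluster of `x` for which `R n z` holds -/
noncomputable def frac (S : Finset Γ) (n : ℕ) (x : Γ) (ω : Cfg Γ) : ℝ≥0∞ :=
  ({z | z ∈ clus S ω x ∧ R S n z ω}.encard : ℝ≥0∞) / sz S ω x

/-- two-point function -/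
noncomputable def tau (S : Finset Γ) (p : ℝ≥0) (hp : p ≤ 1) (x y : Γ) : ℝ≥0∞ :=
  bP Γ p hp {ω | y ∈ clus S ω x}

/-- integer level of a vertex: `p ^ (lev x + 1) < tau 1 x ≤ p ^ (lev x)` -/
noncomputable def lev (S : Finset Γ) (p : ℝ≥0) (hp : p ≤ 1) (x : Γ) : ℕ :=
  ⌊Real.log (tau S p hp 1 x).toReal / Real.log p⌋₊

/-- the vertices of the walk with steps `w` from `h` -/
def vv (h : Γ) (w : List Γ) (i : ℕ) : Γ := h * (w.take i).prod

/-- the edges of this walk -/
noncomputable def pe (h : Γ) (w : List Γ) : Finset (Sym2 Γ) := by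
  classical
  exact (Finset.range w.length).image (fun i => s(vv h w i, vv h w (i + 1)))

/-- the edges changed by the surgery: all edges touching the vertices with index in `A`, and the
edges of the walk -/
noncomputable def E0 (S : Finset Γ) (h : Γ) (w : List Γ) (A : Finset ℕ) : Finset (Sym2 Γ) := by
  classical
  exact T S (A.image (vv h w)) ∪ pe h w

/-- the surgery: isolate the vertices with index in `A`, then open the walk -/
noncomputable def surg (S : Finset Γ) (h : Γ) (w : List Γ) (A : Finset ℕ) (ω : Cfg Γ) : Cfg Γ := by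
  classical
  exact ovr ω (E0 S h w A) (fun e => decide (e ∈ pe h w))

/-- `z` is a non-core vertex of the cluster of `1` that hangs at the core vertex `h` -/
def Good (S : Finset Γ) (F : Set Γ) (ω : Cfg Γ) (z h : Γ) : Prop :=
  h ∈ coreF S F ω ∧ z ∈ clus S ω 1 ∧ z ∉ coreF S F ω ∧
    (∃ q : (opn S ω).Walk z h, ∀ y ∈ q.support, y ∈ coreF S F ω → y = h) ∧
    (∀ h' ∈ coreF S F ω, ∀ q : (opn S ω).Walk z h',
      (∀ y ∈ q.support, y ∈ coreF S F ω → y = h') → h' = h)

/-- expected truncated cluster size -/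
noncomputable def XM (S : Finset Γ) (p : ℝ≥0) (hp : p ≤ 1) (M : ℕ) : ℝ≥0∞ :=
  ∫⁻ ω, min (sz S ω 1) M ∂(bP Γ p hp)

/-- expected number of vertices at distance exactly `j` connected to `1` inside the ball -/
noncomputable def phi (S : Finset Γ) (p : ℝ≥0) (hp : p ≤ 1) (j : ℕ) : ℝ≥0∞ :=
  ∑ x ∈ (ball S 1 j).filter (fun x => (cay S).dist 1 x = j),
    bP Γ p hp {ω | x ∈ clusIn S (ball S 1 j) ω 1}

/-- `f(C) = (open edges)/p - (closed edges)/(1-p)` is at least `lam |C|` (upper tail event) -/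
def BadU (S : Finset Γ) (p lam : ℝ≥0) (ω : Cfg Γ) : Prop :=
  (1 - p : ℝ≥0)⁻¹ * ne S false ω + lam * sz S ω 1 ≤ (p : ℝ≥0∞)⁻¹ * ne S true ω

/-- `f(C)` is at most `- lam |C|` (lower tail event) -/
def BadL (S : Finset Γ) (p lam : ℝ≥0) (ω : Cfg Γ) : Prop :=
  (p : ℝ≥0∞)⁻¹ * ne S true ω + lam * sz S ω 1 ≤ (1 - p : ℝ≥0)⁻¹ * ne S false ω

end Pool.Agent.IIC
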