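import Pool.Agent.IIC.Defs
import Pool.Agent.IIC.P_meas_clus
import Pool.Agent.IIC.P_meas_R
import Pool.Agent.IIC.P_meas_sz
import Pool.Agent.IIC.P_meas_opn
import Pool.Agent.IIC.P_R_of_sz

set_option autoImplicit false
set_option linter.unusedVariables false
set_option linter.unusedSectionVars false

namespace Pool.Agent.IIC

open MeasureTheory ProbabilityTheory Filter
open scoped ENNReal NNReal Topology

variable {Γ : Type} [Group Γ]

theorem Z_tendsto [Countable Γ] {S : Finset Γ} (p : ℝ≥0) (hp : p ≤ 1) (hfin : Fin0 S p hp) :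
    Tendsto (fun n => Z S p hp n) atTop (𝓝 0) := by
  have hanti : Antitone (fun n : ℕ => {ω : Cfg Γ | R S n 1 ω}) := by
    intro m n hmn ω hω
    obtain ⟨y, hy, hd⟩ := hω
    exact ⟨y, hy, hmn.trans hd⟩
  have h := tendsto_measure_iInter_atTop (μ := bP Γ p hp)
    (s := fun n : ℕ => {ω : Cfg Γ | R S n 1 ω})
    (fun n => (meas_R S n 1).nullMeasurableSet) hanti ⟨0, measure_ne_top _ _⟩
  have h0 : bP Γ p hp (⋂ n : ℕ, {ω : Cfg Γ | R S n 1 ω}) = 0 := by
    refine measure_mono_null ?_ hfin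
    intro ω hω
    simp only [Set.mem_iInter, Set.mem_ofPred_eq] at hω ⊢
    intro hf
    have h1 : ∀ n : ℕ, ((n + 1 : ℕ) : ℝ≥0∞) ≤ sz S ω 1 := fun n => R_of_sz n 1 ω (hω n)
    have h2 : sz S ω 1 < ⊤ := by
      unfold sz
      rw [← Set.Finite.cast_ncard_eq hf]
      exact ENNReal.natCast_lt_top _
    obtain ⟨n, hn⟩ := ENNReal.exists_nat_gt h2.ne
    have := h1 n
    exact absurd (this.trans_lt hn) (by simp)
  rw [h0] at h
  exact h

theorem psi_tendsto0 [Countable Γ] {S : Finset Γ} (p : ℝ≥0) (hp : p ≤ 1) (hfin : Fin0 S p hp) :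
    Tendsto (fun n => psi S p hp n) atTop (𝓝 0) := by
  have hanti : Antitone (fun n : ℕ => {ω : Cfg Γ | (n : ℝ≥0∞) < sz S ω 1}) := by
    intro m n hmn ω hω
    have h1 : (n : ℝ≥0∞) < sz S ω 1 := hω
    have h2 : (m : ℝ≥0∞) ≤ n := by exact_mod_cast hmn
    exact lt_of_le_of_lt h2 h1
  have h := tendsto_measure_iInter_atTop (μ := bP Γ p hp)
    (s := fun n : ℕ => {ω : Cfg Γ | (n : ℝ≥0∞) < sz S ω 1})
    (fun n => (measurableSet_lt measurable_const (meas_sz S 1)).nullMeasurableSet) hanti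
    ⟨0, measure_ne_top _ _⟩
  have h0 : bP Γ p hp (⋂ n : ℕ, {ω : Cfg Γ | (n : ℝ≥0∞) < sz S ω 1}) = 0 := by
    refine measure_mono_null ?_ hfin
    intro ω hω
    simp only [Set.mem_iInter, Set.mem_ofPred_eq] at hω ⊢
    intro hf
    have h2 : sz S ω 1 < ⊤ := by
      unfold sz
      rw [← Set.Finite.cast_ncard_eq hf]
      exact ENNReal.natCast_lt_top _
    obtain ⟨n, hn⟩ := ENNReal.exists_nat_gt h2.ne
    exact absurd ((hω n).trans hn) (lt_irrefl _)
  rw [h0] at h
  exact h

theorem meas_reroot [Countable Γ] (S : Finset Γ) (ρ : Γ) : Measurable (reroot S ρ) := by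
  classical
  unfold reroot
  refine Measurable.prodMk ?_ ?_
  · refine measurable_pi_lambda _ (fun v => ?_)
    refine measurable_to_bool ?_
    have : (fun ω : Cfg Γ => decide (ρ * v ∈ clus S ω 1)) ⁻¹' {true}
        = {ω | ρ * v ∈ clus S ω 1} := by
      ext ω; simp
    rw [this]
    exact meas_clus S 1 (ρ * v)
  · refine measurable_pi_lambda _ (fun e => ?_)
    refine measurable_to_bool ?_
    have : (fun ω : Cfg Γ => decide (e.map (fun x => ρ * x) ∈ (opn S ω).edgeSet ∧
      ∀ v ∈ e, ρ * v ∈ clus S ω 1)) ⁻¹' {true}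
        = {ω | e.map (fun x => ρ * x) ∈ (opn S ω).edgeSet} ∩
          ⋂ v ∈ {v | v ∈ e}, {ω | ρ * v ∈ clus S ω 1} := by
      ext ω; simp
    rw [this]
    refine MeasurableSet.inter ?_ ?_
    · induction e using Sym2.ind with
      | _ a b =>
        simpa using meas_opn S (ρ * a) (ρ * b)
    · exact MeasurableSet.biInter (Set.to_countable _) (fun v _ => meas_clus S 1 (ρ * v))

theorem law_apply [Countable Γ] (S : Finset Γ) (p : ℝ≥0) (hp : p ≤ 1) (n : ℕ) (v : Γ) :
    law S p hp n {x : SubG Γ | x.1 v = true} = (Z S p hp n)⁻¹ * phiZ S p hp n v := by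
  classical
  have hm : MeasurableSet {x : SubG Γ | x.1 v = true} := by
    have h1 : Measurable (fun x : SubG Γ => x.1 v) := by fun_prop
    exact h1 (measurableSet_singleton true)
  unfold law phiZ
  rw [Measure.smul_apply, Measure.sum_apply _ hm, smul_eq_mul]
  congr 1
  refine tsum_congr (fun ρ => ?_)
  rw [Measure.map_apply (meas_reroot S ρ) hm]
  have hpre : reroot S ρ ⁻¹' {x : SubG Γ | x.1 v = true} = {ω | ρ * v ∈ clus S ω 1} := by
    ext ω; simp [reroot]
  rw [hpre, withDensity_apply _ (meas_clus S 1 (ρ * v)), Measure.restrict_restrict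
    (meas_clus S 1 (ρ * v))]
  congr 2
  ext ω
  simp only [Set.mem_inter_iff, Set.mem_ofPred_eq]
  tauto

end Pool.Agent.IIC
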