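import Pool.Agent.IIC.Defs
import Pool.Agent.IIC.P_cay_conn
import Pool.Agent.IIC.P_mem_ball
import Pool.Agent.IIC.P_meas_R

set_option autoImplicit false
set_option linter.unusedVariables false
set_option linter.unusedSectionVars false

/-!
# Zero density of the incipient infinite cluster: definitions

`Γ` is a group, `S` a finite set (symmetric, generating, in the theorem).  Bond percolation on the
Cayley graph `cay S` is modelled on configurations `Cfg Γ = Sym2 Γ → Bool`; only the bits at edges
of the Cayley graph are used.
-/

namespace Pool.Agent.IIC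
open MeasureTheory ProbabilityTheory
open scoped ENNReal NNReal
variable {Γ : Type} [Group Γ]


theorem fin_of_Z [Countable Γ] {S : Finset Γ} (hS : Symm S) (hg : Gen S) (p : ℝ≥0) (hp : p ≤ 1)
    (h : Filter.Tendsto (fun n => Z S p hp n) Filter.atTop (nhds 0)) : Fin0 S p hp := by
  have h1 : ∀ n, bP Γ p hp {ω | (clus S ω 1).Infinite} ≤ Z S p hp n := by
    intro n
    unfold Z
    apply measure_mono
    intro ω hω
    by_contra hcon
    apply hω
    refine (ball S 1 n).finite_toSet.subset ?_
    intro y hy
    rw [Finset.mem_coe, mem_ball hS hg]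
    by_contra hlt
    exact hcon ⟨y, hy, (not_le.1 hlt).le⟩
  unfold Fin0
  exact le_antisymm (ge_of_tendsto' h h1) bot_le

end Pool.Agent.IIC
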