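import Pool.Agent.IIC.Defs
import Pool.Agent.IIC.P_cay_conn
import Pool.Agent.IIC.P_dist_smul
import Pool.Agent.IIC.P_mem_ball
import Pool.Agent.IIC.P_opn_cl
import Pool.Agent.IIC.P_R_shift
import Pool.Agent.IIC.P_clus_cl
import Pool.Agent.IIC.P_meas_clus
import Pool.Agent.IIC.P_meas_R
import Pool.Agent.IIC.P_meas_cl
import Pool.Agent.IIC.P_meas_kp
import Pool.Agent.IIC.P_shift_mp
import Pool.Agent.IIC.P_ind_kp_cl

set_option autoImplicit false
set_option linter.unusedVariables false
set_option linter.unusedSectionVars false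

/-!
# Zero density of the incipient infinite cluster: definitions

`Γ` is a group, `S` a finite set (symmetric, generating, in the theorem).  Bond percolation on the
Cayley graph `cay S` is modelled on configurations `Cfg Γ = Sym2 Γ → Bool`; only the bits at edges
of the Cayley graph are used.
-/

namespace Pool.Agent.IIC
open MeasureTheory ProbabilityTheory
open scoped ENNReal NNReal
variable {Γ : Type} [Group Γ]


theorem simon_T {S : Finset Γ} (hS : Symm S) {K : Finset Γ} {y x : Γ} (hy : y ∈ K)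
    (h : (cay S).Adj y x) : s(y, x) ∈ T S K := by
  classical
  have hs : y⁻¹ * x ∈ S := by
    have h' := h
    unfold cay at h'
    rw [SimpleGraph.fromRel_adj] at h'
    rcases h'.2 with h1 | h1
    · exact h1
    · have h2 := hS _ h1
      rwa [mul_inv_rev, inv_inv] at h2
  unfold T
  rw [Finset.mem_filter, Finset.mem_image]
  refine ⟨⟨(y, y⁻¹ * x), Finset.mem_product.2 ⟨hy, hs⟩, ?_⟩, h⟩
  show s(y, y * (y⁻¹ * x)) = s(y, x)
  rw [mul_inv_cancel_left]

theorem simon_kp_adj {S : Finset Γ} (hS : Symm S) {K : Finset Γ} {ω : Cfg Γ} {y x : Γ}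
    (hy : y ∈ K) : (opn S (kp S K ω)).Adj y x ↔ (opn S ω).Adj y x := by
  constructor
  · rintro ⟨h1, h2⟩
    refine ⟨h1, ?_⟩
    unfold kp at h2
    rwa [if_pos (simon_T hS hy h1)] at h2
  · rintro ⟨h1, h2⟩
    refine ⟨h1, ?_⟩
    unfold kp
    rwa [if_pos (simon_T hS hy h1)]

theorem simon_kp_le {S : Finset Γ} {K : Finset Γ} {ω : Cfg Γ} {y x : Γ}
    (h : (opn S (kp S K ω)).Adj y x) : (opn S ω).Adj y x := by
  classical
  obtain ⟨h1, h2⟩ := h
  refine ⟨h1, ?_⟩
  unfold kp at h2
  by_cases h3 : s(y, x) ∈ T S K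
  · rwa [if_pos h3] at h2
  · rw [if_neg h3] at h2
    exact absurd h2 (by decide)

theorem simon_nil {S : Finset Γ} {L : Finset Γ} {ω : Cfg Γ} {x : Γ} (hx : x ∈ L) :
    x ∈ clusIn S L ω x := by
  refine ⟨SimpleGraph.Walk.nil, fun z hz => ?_⟩
  rw [SimpleGraph.Walk.support_nil, List.mem_singleton] at hz
  rw [hz]
  exact hx

theorem simon_snoc {S : Finset Γ} {L : Finset Γ} {ω : Cfg Γ} {x y z : Γ}
    (hy : y ∈ clusIn S L ω x) (h : (opn S ω).Adj y z) (hz : z ∈ L) : z ∈ clusIn S L ω x := by
  obtain ⟨w, hw⟩ := hy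
  refine ⟨w.concat h, fun u hu => ?_⟩
  rw [SimpleGraph.Walk.support_concat] at hu
  simp only [List.concat_eq_append, List.mem_append, List.mem_singleton] at hu
  rcases hu with hu | hu
  · exact hw u hu
  · rw [hu]
    exact hz

theorem simon_ind {S : Finset Γ} {L : Finset Γ} {ω : Cfg Γ} {x : Γ} (P : Γ → Prop)
    (h0 : x ∈ L → P x)
    (hs : ∀ y z, y ∈ clusIn S L ω x → P y → (opn S ω).Adj y z → z ∈ L → P z) :
    ∀ z ∈ clusIn S L ω x, P z := by
  have key : ∀ (u v : Γ) (w : (opn S ω).Walk u v), (∀ z ∈ w.support, z ∈ L) →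
      u ∈ clusIn S L ω x → P u → P v := by
    intro u v w
    induction w with
    | nil => intro _ _ h; exact h
    | cons h w ih =>
      intro hsup hu hP
      have hu' := hsup _ (List.mem_cons_of_mem _ w.start_mem_support)
      exact ih (fun z hz => hsup z (List.mem_cons_of_mem _ hz)) (simon_snoc hu h hu')
        (hs _ _ hu hP h hu')
  rintro z ⟨w, hw⟩
  have hx : x ∈ L := hw x w.start_mem_support
  exact key x z w hw (simon_nil hx) (h0 hx)

theorem simon_mono {S : Finset Γ} {L L' : Finset Γ} {ω ω' : Cfg Γ} {x : Γ} (hL : L ⊆ L')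
    (hω : ∀ y z, (opn S ω).Adj y z → (opn S ω').Adj y z) :
    clusIn S L ω x ⊆ clusIn S L' ω' x :=
  fun z hz => simon_ind (fun z => z ∈ clusIn S L' ω' x) (fun hx => simon_nil (hL hx))
    (fun _ _ _ hy h hz => simon_snoc hy (hω _ _ h) (hL hz)) z hz

theorem simon_sub {S : Finset Γ} {L : Finset Γ} {ω : Cfg Γ} {x z : Γ}
    (hz : z ∈ clusIn S L ω x) : z ∈ L := by
  obtain ⟨w, hw⟩ := hz
  exact hw z w.end_mem_support

theorem simon_kp {S : Finset Γ} (hS : Symm S) {B K : Finset Γ} {ω : Cfg Γ} :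
    clusIn S B (kp S K ω) 1 = ↑K ↔ clusIn S B ω 1 = ↑K := by
  constructor
  · intro h
    apply Set.Subset.antisymm
    · intro z hz
      refine simon_ind (fun z => z ∈ (↑K : Set Γ)) ?_ ?_ z hz
      · intro h1
        rw [← h]
        exact simon_nil h1
      · intro y z _ hy hadj hz
        have hy' : y ∈ clusIn S B (kp S K ω) 1 := by
          rw [h]
          exact hy
        have hz' : z ∈ clusIn S B (kp S K ω) 1 :=
          simon_snoc hy' ((simon_kp_adj hS hy).2 hadj) hz
        rw [h] at hz'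
        exact hz'
    · intro z hz
      have hz' : z ∈ clusIn S B (kp S K ω) 1 := by
        rw [h]
        exact hz
      exact simon_mono (Finset.Subset.refl B) (fun y z h => simon_kp_le h) hz'
  · intro h
    apply Set.Subset.antisymm
    · intro z hz
      rw [← h]
      exact simon_mono (Finset.Subset.refl B) (fun y z h => simon_kp_le h) hz
    · intro z hz
      have hz' : z ∈ clusIn S B ω 1 := by
        rw [h]
        exact hz
      refine simon_ind (fun z => z ∈ clusIn S B (kp S K ω) 1) (fun h1 => simon_nil h1) ?_ z hz'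
      intro y z hyc hy hadj hz
      rw [h] at hyc
      exact simon_snoc hy ((simon_kp_adj hS hyc).2 hadj) hz

theorem simon_last {G : SimpleGraph Γ} (K : Set Γ) {u t : Γ} (w : G.Walk u t) (ht : t ∉ K) :
    (∀ z ∈ w.support, z ∉ K) ∨ ∃ y x, y ∈ K ∧ x ∉ K ∧ G.Adj y x ∧
      ∃ w' : G.Walk x t, ∀ z ∈ w'.support, z ∉ K := by
  induction w with
  | nil =>
    left
    intro z hz
    rw [SimpleGraph.Walk.support_nil, List.mem_singleton] at hz
    rw [hz]
    exact ht
  | @cons u v t h w ih =>
    rcases ih ht with h1 | h1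
    · by_cases hu : u ∈ K
      · right
        exact ⟨u, v, hu, h1 _ w.start_mem_support, h, w, h1⟩
      · left
        intro z hz
        rw [SimpleGraph.Walk.support_cons, List.mem_cons] at hz
        rcases hz with rfl | hz
        · exact hu
        · exact h1 z hz
    · right
      exact h1

theorem simon_reach {S : Finset Γ} (hS : Symm S) {K : Finset Γ} {ω : Cfg Γ} {x t : Γ}
    (w : (opn S ω).Walk x t) (hw : ∀ z ∈ w.support, z ∉ K) :
    (opn S (cl S K ω)).Reachable x t := by
  induction w with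
  | nil => exact SimpleGraph.Reachable.refl _
  | cons h w ih =>
    have hx := hw _ (List.mem_cons_self)
    have hv := hw _ (List.mem_cons_of_mem _ w.start_mem_support)
    have hadj := (opn_cl hS K ω _ _).2 ⟨h, hx, hv⟩
    exact hadj.reachable.trans (ih (fun z hz => hw z (List.mem_cons_of_mem _ hz)))

theorem simon_det {S : Finset Γ} (hS : Symm S) (hg : Gen S) {j n : ℕ} (hj : 1 ≤ j) {ω : Cfg Γ}
    (hR : R S (j + n) 1 ω) (K : Finset Γ) (hK : clusIn S (ball S 1 (j - 1)) ω 1 = ↑K) :
    ∃ x, (cay S).dist 1 x = j ∧ (∃ y ∈ K, (opn S ω).Adj y x) ∧ R S n x (cl S K ω) := by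
  obtain ⟨t, ht, hd⟩ := hR
  obtain ⟨w⟩ := ht
  have hconn := cay_conn hS hg
  have h1B : (1 : Γ) ∈ ball S 1 (j - 1) := (mem_ball hS hg 1 1 _).2 (by
    rw [SimpleGraph.dist_self]
    exact Nat.zero_le _)
  have h1K : (1 : Γ) ∈ (↑K : Set Γ) := by
    rw [← hK]
    exact simon_nil h1B
  have htK : t ∉ (↑K : Set Γ) := by
    rw [← hK]
    intro h
    have := (mem_ball hS hg 1 t _).1 (simon_sub h)
    omega
  rcases simon_last (↑K : Set Γ) w htK with h | ⟨y, x, hy, hx, hadj, w', hw'⟩
  · exact absurd h1K (h 1 w.start_mem_support)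
  · have hyc : y ∈ clusIn S (ball S 1 (j - 1)) ω 1 := by
      rw [hK]
      exact hy
    have hyB : (cay S).dist 1 y ≤ j - 1 := (mem_ball hS hg 1 y _).1 (simon_sub hyc)
    have hxB : ¬ (cay S).dist 1 x ≤ j - 1 := by
      intro hle
      apply hx
      rw [← hK]
      exact simon_snoc hyc hadj ((mem_ball hS hg 1 x _).2 hle)
    have hyx : (cay S).dist y x = 1 := SimpleGraph.dist_eq_one_iff_adj.2 hadj.1
    have htri := hconn.dist_triangle (u := (1 : Γ)) (v := y) (w := x)
    have hdx : (cay S).dist 1 x = j := by omega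
    refine ⟨x, hdx, ⟨y, hy, hadj⟩, t, simon_reach hS w' (fun z hz => hw' z hz), ?_⟩
    have := hconn.dist_triangle (u := (1 : Γ)) (v := x) (w := t)
    omega

theorem simon [Countable Γ] {S : Finset Γ} (hS : Symm S) (hg : Gen S) (p : ℝ≥0) (hp : p ≤ 1)
    (j n : ℕ) :
    Z S p hp (j + n) ≤ phi S p hp j * Z S p hp n := by
  classical
  rcases Nat.eq_zero_or_pos j with rfl | hj
  · have hphi : 1 ≤ phi S p hp 0 := by
      unfold phi
      have h1 : (1 : Γ) ∈ (ball S 1 0).filter (fun x => (cay S).dist 1 x = 0) := by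
        rw [Finset.mem_filter]
        exact ⟨(mem_ball hS hg 1 1 0).2 (by rw [SimpleGraph.dist_self]), SimpleGraph.dist_self⟩
      refine le_trans ?_ (Finset.single_le_sum
        (f := fun x => bP Γ p hp {ω | x ∈ clusIn S (ball S 1 0) ω 1}) (fun _ _ => zero_le) h1)
      have h2 : {ω : Cfg Γ | (1 : Γ) ∈ clusIn S (ball S 1 0) ω 1} = Set.univ := by
        ext ω
        constructor
        · intro _
          trivial
        · intro _
          exact simon_nil ((mem_ball hS hg 1 1 0).2 (by rw [SimpleGraph.dist_self]))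
      show 1 ≤ bP Γ p hp {ω | (1 : Γ) ∈ clusIn S (ball S 1 0) ω 1}
      rw [h2, measure_univ]
    rw [Nat.zero_add]
    calc Z S p hp n = 1 * Z S p hp n := (one_mul _).symm
      _ ≤ phi S p hp 0 * Z S p hp n := by gcongr
  · obtain ⟨B, hB⟩ : ∃ B, B = ball S 1 (j - 1) := ⟨_, rfl⟩
    obtain ⟨X, hX⟩ : ∃ X, X = (ball S 1 j).filter (fun x => (cay S).dist 1 x = j) := ⟨_, rfl⟩
    obtain ⟨Q, hQ⟩ : ∃ Q : Finset Γ → Γ → Cfg Γ → Prop, ∀ K x ω, Q K x ω ↔
      clusIn S B ω 1 = ↑K ∧ ∃ y ∈ K, (opn S ω).Adj y x := ⟨fun K x ω => clusIn S B ω 1 = ↑K ∧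
        ∃ y ∈ K, (opn S ω).Adj y x, fun _ _ _ => Iff.rfl⟩
    have hQkp : ∀ K x ω, Q K x (kp S K ω) ↔ Q K x ω := by
      intro K x ω
      rw [hQ, hQ, simon_kp hS]
      constructor
      · rintro ⟨h1, y, hy, h2⟩
        exact ⟨h1, y, hy, (simon_kp_adj hS hy).1 h2⟩
      · rintro ⟨h1, y, hy, h2⟩
        exact ⟨h1, y, hy, (simon_kp_adj hS hy).2 h2⟩
    have hQm : ∀ K x, MeasurableSet {ω | Q K x ω} := by
      intro K x
      have h1 : {ω | Q K x ω} = {ω | Q K x (kp S K ω)} := by
        ext ω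
        exact (hQkp K x ω).symm
      rw [h1]
      exact measurableSet_setOf.2 (meas_kp S K (fun ω => Q K x ω))
    have hRx : ∀ x, bP Γ p hp {ω | R S n x ω} = Z S p hp n := by
      intro x
      have h1 := (shift_mp p hp x).measure_preimage (meas_R S n x).nullMeasurableSet
      rw [← h1]
      unfold Z
      congr 1
      ext ω
      have h2 := R_shift (S := S) n x ω 1
      rw [mul_one] at h2
      exact h2
    have hRcl : ∀ K x, bP Γ p hp {ω | R S n x (cl S K ω)} ≤ Z S p hp n := by
      intro K x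
      rw [← hRx x]
      apply measure_mono
      rintro ω ⟨y, hy, hd⟩
      exact ⟨y, SimpleGraph.Reachable.mono
        (fun a b h => ((opn_cl hS K ω a b).1 h).1) hy, hd⟩
    have hprod : ∀ K x, bP Γ p hp {ω | Q K x ω ∧ R S n x (cl S K ω)} ≤
        bP Γ p hp {ω | Q K x ω} * Z S p hp n := by
      intro K x
      have hRm : MeasurableSet {ω : Cfg Γ | R S n x (cl S K ω)} := (meas_cl S K) (meas_R S n x)
      have e := ind_kp_cl p hp S K (Set.indicator {ω | Q K x ω} 1) (Set.indicator {ω | R S n x ω} 1)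
        (measurable_one.indicator (meas_R S n x))
      have e1 : ∀ ω : Cfg Γ, (Set.indicator {ω | Q K x ω} (1 : Cfg Γ → ℝ≥0∞)) (kp S K ω) =
          Set.indicator {ω | Q K x ω} (1 : Cfg Γ → ℝ≥0∞) ω := by
        intro ω
        by_cases h : Q K x ω
        · rw [Set.indicator_of_mem (show ω ∈ {ω | Q K x ω} from h),
            Set.indicator_of_mem (show kp S K ω ∈ {ω | Q K x ω} from (hQkp K x ω).2 h)]
          rfl
        · rw [Set.indicator_of_notMem (show ω ∉ {ω | Q K x ω} from h),
            Set.indicator_of_notMem (show kp S K ω ∉ {ω | Q K x ω} from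
              fun h' => h ((hQkp K x ω).1 h'))]
      have e2 : ∀ ω : Cfg Γ, (Set.indicator {ω | R S n x ω} (1 : Cfg Γ → ℝ≥0∞)) (cl S K ω) =
          Set.indicator {ω | R S n x (cl S K ω)} (1 : Cfg Γ → ℝ≥0∞) ω := by
        intro ω
        by_cases h : R S n x (cl S K ω)
        · rw [Set.indicator_of_mem (show ω ∈ {ω | R S n x (cl S K ω)} from h),
            Set.indicator_of_mem (show cl S K ω ∈ {ω | R S n x ω} from h)]
          rfl
        · rw [Set.indicator_of_notMem (show ω ∉ {ω | R S n x (cl S K ω)} from h),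
            Set.indicator_of_notMem (show cl S K ω ∉ {ω | R S n x ω} from h)]
      simp only [e1, e2] at e
      have e3 : ∀ ω : Cfg Γ, Set.indicator {ω | Q K x ω} (1 : Cfg Γ → ℝ≥0∞) ω *
          Set.indicator {ω | R S n x (cl S K ω)} (1 : Cfg Γ → ℝ≥0∞) ω =
          Set.indicator {ω | Q K x ω ∧ R S n x (cl S K ω)} (1 : Cfg Γ → ℝ≥0∞) ω := by
        intro ω
        by_cases h : Q K x ω
        · by_cases h' : R S n x (cl S K ω)
          · rw [Set.indicator_of_mem (show ω ∈ {ω | Q K x ω} from h),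
              Set.indicator_of_mem (show ω ∈ {ω | R S n x (cl S K ω)} from h'),
              Set.indicator_of_mem (show ω ∈ {ω | Q K x ω ∧ R S n x (cl S K ω)} from ⟨h, h'⟩)]
            show (1 : ℝ≥0∞) * 1 = 1
            rw [one_mul]
          · rw [Set.indicator_of_notMem (show ω ∉ {ω | R S n x (cl S K ω)} from h'), mul_zero,
              Set.indicator_of_notMem
                (show ω ∉ {ω | Q K x ω ∧ R S n x (cl S K ω)} from fun h'' => h' h''.2)]
        · rw [Set.indicator_of_notMem (show ω ∉ {ω | Q K x ω} from h), zero_mul,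
            Set.indicator_of_notMem
              (show ω ∉ {ω | Q K x ω ∧ R S n x (cl S K ω)} from fun h'' => h h''.1)]
      simp only [e3] at e
      have hQRm : MeasurableSet {ω : Cfg Γ | Q K x ω ∧ R S n x (cl S K ω)} := (hQm K x).inter hRm
      rw [lintegral_indicator_one hQRm, lintegral_indicator_one (hQm K x),
        lintegral_indicator_one hRm] at e
      rw [e]
      exact mul_le_mul_right (hRcl K x) _
    have hsumK : ∀ x ∈ X, ∑ K ∈ B.powerset, bP Γ p hp {ω | Q K x ω} ≤
        bP Γ p hp {ω | x ∈ clusIn S (ball S 1 j) ω 1} := by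
      intro x hx
      rw [hX, Finset.mem_filter] at hx
      rw [← measure_biUnion_finset]
      · apply measure_mono
        intro ω hω
        simp only [Set.mem_iUnion] at hω
        obtain ⟨K, hK, hω⟩ := hω
        have hω' : Q K x ω := hω
        rw [hQ] at hω'
        obtain ⟨h1, y, hy, h2⟩ := hω'
        have hyc : y ∈ clusIn S B ω 1 := by
          rw [h1]
          exact hy
        have hBj : B ⊆ ball S 1 j := by
          intro z hz
          rw [hB] at hz
          have := (mem_ball hS hg 1 z _).1 hz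
          exact (mem_ball hS hg 1 z _).2 (by omega)
        exact simon_snoc (simon_mono hBj (fun _ _ h => h) hyc) h2 hx.1
      · intro K _ K' _ hne
        rw [Function.onFun, Set.disjoint_left]
        intro ω h1 h2
        have h1' : Q K x ω := h1
        have h2' : Q K' x ω := h2
        rw [hQ] at h1' h2'
        apply hne
        have : (↑K : Set Γ) = ↑K' := h1'.1.symm.trans h2'.1
        exact_mod_cast this
      · intro K _
        exact hQm K x
    calc Z S p hp (j + n)
        ≤ bP Γ p hp (⋃ K ∈ B.powerset, ⋃ x ∈ X, {ω | Q K x ω ∧ R S n x (cl S K ω)}) := by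
          apply measure_mono
          intro ω hω
          have hω' : R S (j + n) 1 ω := hω
          obtain ⟨K, hKd⟩ : ∃ K, K = B.filter (fun z => z ∈ clusIn S B ω 1) := ⟨_, rfl⟩
          have hK : clusIn S B ω 1 = ↑K := by
            ext z
            rw [hKd, Finset.mem_coe, Finset.mem_filter]
            exact ⟨fun h => ⟨simon_sub h, h⟩, fun h => h.2⟩
          have hK' := hK
          rw [hB] at hK'
          obtain ⟨x, hx1, hx2, hx3⟩ := simon_det hS hg hj hω' K hK'
          simp only [Set.mem_iUnion]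
          refine ⟨K, ?_, x, ?_, (hQ K x ω).2 ⟨hK, hx2⟩, hx3⟩
          · rw [Finset.mem_powerset, hKd]
            exact Finset.filter_subset _ _
          · rw [hX, Finset.mem_filter]
            exact ⟨(mem_ball hS hg 1 x _).2 hx1.le, hx1⟩
      _ ≤ ∑ K ∈ B.powerset, bP Γ p hp (⋃ x ∈ X, {ω | Q K x ω ∧ R S n x (cl S K ω)}) :=
          measure_biUnion_finset_le _ _
      _ ≤ ∑ K ∈ B.powerset, ∑ x ∈ X, bP Γ p hp {ω | Q K x ω ∧ R S n x (cl S K ω)} :=
          Finset.sum_le_sum fun K _ => measure_biUnion_finset_le _ _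
      _ ≤ ∑ K ∈ B.powerset, ∑ x ∈ X, bP Γ p hp {ω | Q K x ω} * Z S p hp n :=
          Finset.sum_le_sum fun K _ => Finset.sum_le_sum fun x _ => hprod K x
      _ = ∑ x ∈ X, (∑ K ∈ B.powerset, bP Γ p hp {ω | Q K x ω}) * Z S p hp n := by
          rw [Finset.sum_comm]
          exact Finset.sum_congr rfl fun x _ => (Finset.sum_mul _ _ _).symm
      _ ≤ ∑ x ∈ X, bP Γ p hp {ω | x ∈ clusIn S (ball S 1 j) ω 1} * Z S p hp n :=
          Finset.sum_le_sum fun x hx => mul_le_mul_left (hsumK x hx) _
      _ = phi S p hp j * Z S p hp n := by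
          unfold phi
          rw [← hX, Finset.sum_mul]

end Pool.Agent.IIC
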