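import Pool.Agent.IIC.Defs
import Pool.Agent.IIC.P_mem_ball
import Pool.Agent.IIC.P_meas_clus
import Pool.Agent.IIC.P_local_prob
import Pool.Agent.IIC.P_mono_prob
import Pool.Agent.IIC.P_pc_le_one
import Pool.Agent.IIC.P_theta_pc
import Pool.Agent.IIC.P_simon
import Pool.Agent.IIC.P_fin_of_Z

set_option autoImplicit false
set_option linter.unusedVariables false
set_option linter.unusedSectionVars false

/-!
# Zero density of the incipient infinite cluster: definitions

`Γ` is a group, `S` a finite set (symmetric, generating, in the theorem).  Bond percolation on the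
Cayley graph `cay S` is modelled on configurations `Cfg Γ = Sym2 Γ → Bool`; only the bits at edges
of the Cayley graph are used.
-/

namespace Pool.Agent.IIC
open MeasureTheory ProbabilityTheory
open scoped ENNReal NNReal
variable {Γ : Type} [Group Γ]


theorem pp_countable {S : Finset Γ} (hS : Symm S) (hg : Gen S) : Countable Γ := by
  have hsurj : Function.Surjective (fun L : List S => (L.map Subtype.val).prod) := by
    intro g
    have hmem : g ∈ Subgroup.closure (S : Set Γ) := by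
      rw [hg]; trivial
    induction hmem using Subgroup.closure_induction with
    | mem x hx => exact ⟨[⟨x, hx⟩], by simp⟩
    | one => exact ⟨[], by simp⟩
    | mul x y _ _ hx hy =>
      obtain ⟨L1, h1⟩ := hx
      obtain ⟨L2, h2⟩ := hy
      refine ⟨L1 ++ L2, ?_⟩
      simp only at h1 h2 ⊢
      rw [List.map_append, List.prod_append, h1, h2]
    | inv x _ hx =>
      obtain ⟨L1, h1⟩ := hx
      refine ⟨(L1.map (fun s : S => (⟨(s : Γ)⁻¹, hS _ s.2⟩ : S))).reverse, ?_⟩
      simp only at h1 ⊢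
      rw [← h1, List.prod_inv_reverse, List.map_reverse, List.map_map, List.map_map]
      rfl
  exact hsurj.countable

theorem pp_Z_le_one (S : Finset Γ) (p : ℝ≥0) (hp : p ≤ 1) (n : ℕ) : Z S p hp n ≤ 1 := by
  unfold Z; exact prob_le_one

theorem pp_Z_anti (S : Finset Γ) (p : ℝ≥0) (hp : p ≤ 1) {m n : ℕ} (h : m ≤ n) :
    Z S p hp n ≤ Z S p hp m := by
  unfold Z
  refine measure_mono ?_
  rintro ω ⟨y, hy, hd⟩
  exact ⟨y, hy, h.trans hd⟩

theorem pp_iter [Countable Γ] {S : Finset Γ} (hS : Symm S) (hg : Gen S) (p : ℝ≥0) (hp : p ≤ 1)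
    (j m : ℕ) : Z S p hp (m * j) ≤ phi S p hp j ^ m := by
  induction m with
  | zero => simpa using pp_Z_le_one S p hp 0
  | succ m ih =>
    have h1 := simon hS hg p hp j (m * j)
    have h2 : (m + 1) * j = j + m * j := by ring
    rw [h2, pow_succ']
    exact h1.trans (by gcongr)

theorem pp_fin [Countable Γ] {S : Finset Γ} (hS : Symm S) (hg : Gen S) (p : ℝ≥0) (hp : p ≤ 1)
    (j : ℕ) (hj : 1 ≤ j) (h : phi S p hp j < 1) : Fin0 S p hp := by
  apply fin_of_Z hS hg p hp
  have h1 : Filter.Tendsto (fun n : ℕ => phi S p hp j ^ (n / j)) Filter.atTop (nhds 0) :=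
    (ENNReal.tendsto_pow_atTop_nhds_zero_of_lt_one h).comp
      (Nat.tendsto_div_const_atTop (by omega : j ≠ 0))
  refine tendsto_of_tendsto_of_tendsto_of_le_of_le tendsto_const_nhds h1
    (fun n => zero_le) (fun n => ?_)
  refine (pp_Z_anti S p hp (Nat.div_mul_le_self n j)).trans (pp_iter hS hg p hp j (n / j))

theorem pp_local (S L : Finset Γ) (x : Γ) :
    ∃ q : Polynomial ℝ, ∀ (p : ℝ≥0) (hp : p ≤ 1),
      (bP Γ p hp {ω | x ∈ clusIn S L ω 1}).toReal = q.eval (p : ℝ) := by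
  classical
  apply local_prob ((L ×ˢ L).image (fun q => s(q.1, q.2)))
  have key : ∀ ω ω' : Cfg Γ, (∀ e ∈ (L ×ˢ L).image (fun q => s(q.1, q.2)), ω e = ω' e) →
      x ∈ clusIn S L ω 1 → x ∈ clusIn S L ω' 1 := by
    rintro ω ω' h ⟨w, hw⟩
    have hE : ∀ e ∈ w.edges, e ∈ (opn S ω').edgeSet := by
      intro e he
      have he2 := w.edges_subset_edgeSet he
      induction e using Sym2.ind with
      | _ a b =>
        have ha := hw a (w.fst_mem_support_of_mem_edges he)
        have hb := hw b (w.snd_mem_support_of_mem_edges he)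
        rw [SimpleGraph.mem_edgeSet] at he2 ⊢
        refine ⟨he2.1, ?_⟩
        rw [← h s(a, b) (Finset.mem_image.mpr ⟨(a, b), Finset.mem_product.mpr ⟨ha, hb⟩, rfl⟩)]
        exact he2.2
    refine ⟨w.transfer _ hE, ?_⟩
    intro z hz
    rw [SimpleGraph.Walk.support_transfer] at hz
    exact hw z hz
  intro ω ω' h
  exact ⟨key ω ω' h, key ω' ω fun e he => (h e he).symm⟩

theorem pp_phi_poly (S : Finset Γ) (j : ℕ) :
    ∃ q : Polynomial ℝ, ∀ (p : ℝ≥0) (hp : p ≤ 1), (phi S p hp j).toReal = q.eval (p : ℝ) := by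
  choose q hq using fun x : Γ => pp_local S (ball S 1 j) x
  refine ⟨∑ x ∈ (ball S 1 j).filter (fun x => (cay S).dist 1 x = j), q x, fun p hp => ?_⟩
  unfold phi
  rw [ENNReal.toReal_sum (fun x _ => measure_ne_top _ _), Polynomial.eval_finsetSum]
  exact Finset.sum_congr rfl fun x _ => hq x p hp

theorem pp_phi_ne_top (S : Finset Γ) (p : ℝ≥0) (hp : p ≤ 1) (j : ℕ) : phi S p hp j ≠ ⊤ := by
  unfold phi
  exact ENNReal.sum_ne_top.mpr fun x _ => measure_ne_top _ _

theorem phi_pc {S : Finset Γ} (hS : Symm S) (hg : Gen S) (hna : Nonamenable S) (j : ℕ)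
    (hj : 1 ≤ j) : 1 ≤ phi S (pc S) (pc_le_one S) j := by
  have := pp_countable hS hg
  by_contra hcon
  rw [not_le] at hcon
  obtain ⟨P, hP⟩ := pp_phi_poly S j
  have h1 : P.eval ((pc S : ℝ≥0) : ℝ) < 1 := by
    rw [← hP (pc S) (pc_le_one S)]
    have := (ENNReal.toReal_lt_toReal (pp_phi_ne_top S _ _ j) ENNReal.one_ne_top).mpr hcon
    simpa using this
  have hc : Continuous fun t : ℝ => P.eval t := P.continuous
  obtain ⟨δ, hδ, hball⟩ := Metric.eventually_nhds_iff.mp
    ((hc.tendsto ((pc S : ℝ≥0) : ℝ)).eventually (gt_mem_nhds h1))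
  have hpc1 : ((pc S : ℝ≥0) : ℝ) < 1 := by exact_mod_cast (theta_pc hS hg hna).2.2
  have hpc0 : (0 : ℝ) ≤ ((pc S : ℝ≥0) : ℝ) := NNReal.coe_nonneg _
  set t : ℝ := min (((pc S : ℝ≥0) : ℝ) + δ / 2) 1 with ht
  have ht1 : t ≤ 1 := min_le_right _ _
  have htpc : ((pc S : ℝ≥0) : ℝ) < t := lt_min (by linarith) hpc1
  have ht0 : 0 ≤ t := hpc0.trans htpc.le
  have htd : dist t ((pc S : ℝ≥0) : ℝ) < δ := by
    rw [Real.dist_eq, abs_of_pos (by linarith)]
    have : t ≤ ((pc S : ℝ≥0) : ℝ) + δ / 2 := min_le_left _ _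
    linarith
  have h2 := hball htd
  set q : ℝ≥0 := ⟨t, ht0⟩ with hq
  have hq1 : q ≤ 1 := by
    rw [← NNReal.coe_le_coe]; exact ht1
  have h3 : phi S q hq1 j < 1 := by
    rw [← ENNReal.toReal_lt_toReal (pp_phi_ne_top S _ _ j) ENNReal.one_ne_top, hP q hq1,
      ENNReal.toReal_one]
    exact h2
  have h4 := pp_fin hS hg q hq1 j hj h3
  have h5 : q ≤ pc S := by
    unfold pc
    refine le_csSup ⟨1, ?_⟩ ⟨hq1, h4⟩
    rintro x ⟨hx, _⟩
    exact hx
  have h6 : t ≤ ((pc S : ℝ≥0) : ℝ) := by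
    have := NNReal.coe_le_coe.mpr h5
    exact this
  linarith

end Pool.Agent.IIC
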