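import Pool.Agent.IIC.Defs
import Pool.Agent.IIC.P_mem_ball
import Pool.Agent.IIC.P_meas_clus
import Pool.Agent.IIC.P_meas_sz
import Pool.Agent.IIC.P_pc_le_one
import Pool.Agent.IIC.P_phi_pc

set_option autoImplicit false
set_option linter.unusedVariables false
set_option linter.unusedSectionVars false

/-!
# Zero density of the incipient infinite cluster: definitions

`Γ` is a group, `S` a finite set (symmetric, generating, in the theorem).  Bond percolation on the
Cayley graph `cay S` is modelled on configurations `Cfg Γ = Sym2 Γ → Bool`; only the bits at edges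
of the Cayley graph are used.
-/

namespace Pool.Agent.IIC
open MeasureTheory ProbabilityTheory
open scoped ENNReal NNReal
variable {Γ : Type} [Group Γ]


theorem XM_pc_aux {S : Finset Γ} [Countable Γ] (hS : Symm S) (hg : Gen S)
    (hna : Nonamenable S) (J : ℕ) :
    (J : ℝ≥0∞) ≤ ∫⁻ ω, sz S ω 1 ∂(bP Γ (pc S) (pc_le_one S)) := by
  classical
  set F : Finset Γ := (ball S 1 J).filter (fun x => 1 ≤ (cay S).dist 1 x) with hF
  have h1 : (J : ℝ≥0∞) ≤ ∑ j ∈ Finset.Icc 1 J, phi S (pc S) (pc_le_one S) j := by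
    calc (J : ℝ≥0∞) = ∑ j ∈ Finset.Icc 1 J, (1 : ℝ≥0∞) := by simp
      _ ≤ _ := Finset.sum_le_sum fun j hj => phi_pc hS hg hna j (Finset.mem_Icc.1 hj).1
  have h2 : ∑ j ∈ Finset.Icc 1 J, phi S (pc S) (pc_le_one S) j ≤
      ∑ j ∈ Finset.Icc 1 J, ∑ x ∈ F with (cay S).dist 1 x = j,
        bP Γ (pc S) (pc_le_one S) {ω | x ∈ clus S ω 1} := by
    refine Finset.sum_le_sum fun j hj => ?_
    have hj' := Finset.mem_Icc.1 hj
    unfold phi
    have e : (ball S 1 j).filter (fun x => (cay S).dist 1 x = j) =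
        F.filter (fun x => (cay S).dist 1 x = j) := by
      ext x
      simp only [hF, Finset.mem_filter, mem_ball hS hg]
      constructor
      · rintro ⟨ha, hb⟩
        exact ⟨⟨by omega, by omega⟩, hb⟩
      · rintro ⟨ha, hb⟩
        exact ⟨by omega, hb⟩
    rw [e]
    refine Finset.sum_le_sum fun x _ => measure_mono ?_
    rintro ω ⟨w, _⟩
    exact w.reachable
  have h3 : ∑ j ∈ Finset.Icc 1 J, ∑ x ∈ F with (cay S).dist 1 x = j,
        bP Γ (pc S) (pc_le_one S) {ω | x ∈ clus S ω 1} =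
      ∑ x ∈ F, bP Γ (pc S) (pc_le_one S) {ω | x ∈ clus S ω 1} := by
    refine Finset.sum_fiberwise_of_maps_to (fun x hx => ?_) _
    simp only [hF, Finset.mem_filter, mem_ball hS hg] at hx
    exact Finset.mem_Icc.2 ⟨hx.2, hx.1⟩
  have h4 : ∑ x ∈ F, bP Γ (pc S) (pc_le_one S) {ω | x ∈ clus S ω 1} =
      ∫⁻ ω, ∑ x ∈ F, Set.indicator {ω : Cfg Γ | x ∈ clus S ω 1} (fun _ => (1 : ℝ≥0∞)) ω
        ∂(bP Γ (pc S) (pc_le_one S)) := by
    rw [lintegral_finsetSum]
    · refine Finset.sum_congr rfl fun x _ => ?_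
      rw [lintegral_indicator (meas_clus S 1 x)]
      simp
    · intro x _
      exact measurable_const.indicator (meas_clus S 1 x)
  have h5 : ∀ ω : Cfg Γ, ∑ x ∈ F, Set.indicator {ω : Cfg Γ | x ∈ clus S ω 1}
      (fun _ => (1 : ℝ≥0∞)) ω ≤ sz S ω 1 := by
    intro ω
    have e : ∑ x ∈ F, Set.indicator {ω : Cfg Γ | x ∈ clus S ω 1}
        (fun _ => (1 : ℝ≥0∞)) ω = ((F.filter (fun x => x ∈ clus S ω 1)).card : ℝ≥0∞) := by
      rw [Finset.card_filter]
      push_cast
      refine Finset.sum_congr rfl fun x _ => ?_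
      by_cases h : x ∈ clus S ω 1
      · rw [Set.indicator_of_mem (by exact h), if_pos h]
      · rw [Set.indicator_of_notMem (by exact h), if_neg h]
    rw [e]
    unfold sz
    have h6 : ((F.filter (fun x => x ∈ clus S ω 1)).card : ℕ∞) ≤ (clus S ω 1).encard := by
      rw [← Set.encard_coe_eq_coe_finsetCard]
      refine Set.encard_le_encard ?_
      intro x hx
      exact (Finset.mem_filter.1 (Finset.mem_coe.1 hx)).2
    have h7 := ENat.toENNReal_le.2 h6
    simpa using h7
  calc (J : ℝ≥0∞) ≤ _ := h1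
    _ ≤ _ := h2
    _ = _ := h3
    _ = _ := h4
    _ ≤ _ := lintegral_mono h5

theorem XM_pc {S : Finset Γ} (hS : Symm S) (hg : Gen S) (hna : Nonamenable S) :
    Filter.Tendsto (fun M : ℕ => XM S (pc S) (pc_le_one S) M) Filter.atTop (nhds ⊤) := by
  classical
  have hc : Countable Γ := by
    rw [← Set.countable_univ_iff]
    have : (Set.univ : Set Γ) = ⋃ n, (ball S 1 n : Set Γ) := by
      ext y
      simp only [Set.mem_univ, Set.mem_iUnion, Finset.mem_coe, true_iff]
      exact ⟨_, (mem_ball hS hg 1 y _).2 le_rfl⟩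
    rw [this]
    exact Set.countable_iUnion fun n => Finset.countable_toSet _
  have hmono : Monotone fun (M : ℕ) (ω : Cfg Γ) => min (sz S ω 1) (M : ℝ≥0∞) := by
    intro M N h ω
    exact min_le_min le_rfl (by exact_mod_cast h)
  have hXm : Monotone fun M : ℕ => XM S (pc S) (pc_le_one S) M := by
    intro M N h
    exact lintegral_mono (hmono h)
  have hsup : ⨆ M : ℕ, XM S (pc S) (pc_le_one S) M = ⊤ := by
    have h1 : ⨆ M : ℕ, XM S (pc S) (pc_le_one S) M =
        ∫⁻ ω, ⨆ M : ℕ, min (sz S ω 1) (M : ℝ≥0∞) ∂(bP Γ (pc S) (pc_le_one S)) := by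
      unfold XM
      rw [lintegral_iSup (fun M => (meas_sz S 1).min measurable_const) hmono]
    have h2 : ∀ ω : Cfg Γ, ⨆ M : ℕ, min (sz S ω 1) (M : ℝ≥0∞) = sz S ω 1 := by
      intro ω
      have := inf_iSup_eq (sz S ω 1) (fun M : ℕ => (M : ℝ≥0∞))
      rw [ENNReal.iSup_natCast, inf_top_eq] at this
      exact this.symm
    rw [h1]
    simp only [h2]
    refine ENNReal.eq_top_of_forall_nnreal_le fun r => ?_
    obtain ⟨J, hJ⟩ := exists_nat_ge r
    refine le_trans ?_ (XM_pc_aux hS hg hna J)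
    exact_mod_cast hJ
  rw [← hsup]
  exact tendsto_atTop_iSup hXm

end Pool.Agent.IIC
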