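import Pool.Agent.IIC.Defs

set_option autoImplicit false
set_option linter.unusedVariables false
set_option linter.unusedSectionVars false

namespace Pool.Agent.IIC

open MeasureTheory ProbabilityTheory
open scoped ENNReal NNReal

variable {Γ : Type} [Group Γ]

/-- the fraction of the vertices of the set `C` that are at distance at least `n` from some vertex
of `C` -/
noncomputable def fr (S : Finset Γ) (n : ℕ) (C : Set Γ) : ℝ≥0∞ :=
  ({z | z ∈ C ∧ ∃ y ∈ C, n ≤ (cay S).dist z y}.encard : ℝ≥0∞) / (C.encard : ℝ≥0∞)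

/-- the three error terms of the covariance bound -/
noncomputable def t1 (S : Finset Γ) (n K L : ℕ) (v x y : Γ) (ω : Cfg Γ) : ℝ≥0∞ :=
  Set.indicator {ω | x ∈ clus S ω v ∧ y ∉ clus S ω v} (fun ω =>
    frac S n v ω * (Set.indicator {ω | (K : ℝ≥0∞) < sz S ω y} (fun _ => 1) ω + (K : ℝ≥0∞) / L)) ω

noncomputable def t2 (S : Finset Γ) (n : ℕ) (v x y : Γ) (ω : Cfg Γ) : ℝ≥0∞ :=
  Set.indicator {ω | x ∈ clus S ω v ∧ y ∉ clus S ω v} (fun ω => frac S n y ω) ω

noncomputable def t3 (S : Finset Γ) (n : ℕ) (x y : Γ) (ω : Cfg Γ) : ℝ≥0∞ :=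
  ({z | z ∈ clus S ω x ∧ piv S n z s(x, y) ω}.encard : ℝ≥0∞) / sz S ω x

end Pool.Agent.IIC
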