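import Pool.Agent.IIC.Defs
import Pool.Agent.IIC.P_mem_T
import Pool.Agent.IIC.P_mem_ball

set_option autoImplicit false
set_option linter.unusedVariables false
set_option linter.unusedSectionVars false

/-!
# Zero density of the incipient infinite cluster: definitions

`Γ` is a group, `S` a finite set (symmetric, generating, in the theorem).  Bond percolation on the
Cayley graph `cay S` is modelled on configurations `Cfg Γ = Sym2 Γ → Bool`; only the bits at edges
of the Cayley graph are used.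
-/

namespace Pool.Agent.IIC
open MeasureTheory ProbabilityTheory
open scoped ENNReal NNReal
variable {Γ : Type} [Group Γ]


theorem R_local_aux {S : Finset Γ} (hS : Symm S) (hg : Gen S) (r : ℕ) (ω ω' : Cfg Γ)
    (h : ∀ e ∈ T S (ball S 1 r), ω e = ω' e) : ∀ (x y : Γ) (w : (opn S ω).Walk x y),
    x ∈ clus S ω' 1 → r ≤ (cay S).dist 1 y → ∃ y' ∈ clus S ω' 1, r ≤ (cay S).dist 1 y' := by
  intro x y w
  induction w with
  | nil => intro hx hy; exact ⟨_, hx, hy⟩
  | @cons u v z hadj p ih =>
    intro hx hy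
    by_cases hr : r ≤ (cay S).dist 1 u
    · exact ⟨u, hx, hr⟩
    refine ih ?_ hy
    have hu : u ∈ ball S 1 r := (mem_ball hS hg 1 u r).2 (by omega)
    have hT : s(u, v) ∈ T S (ball S 1 r) :=
      (mem_T hS _ _).2 ⟨hadj.1, u, Sym2.mem_mk_left u v, hu⟩
    have hadj' : (opn S ω').Adj u v := ⟨hadj.1, by rw [← h _ hT]; exact hadj.2⟩
    have hx' : (opn S ω').Reachable 1 u := hx
    exact hx'.trans hadj'.reachable

theorem R_local {S : Finset Γ} (hS : Symm S) (hg : Gen S) (r : ℕ) (ω ω' : Cfg Γ)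
    (h : ∀ e ∈ T S (ball S 1 r), ω e = ω' e) : R S r 1 ω ↔ R S r 1 ω' := by
  constructor
  · rintro ⟨y, ⟨w⟩, hy⟩
    exact R_local_aux hS hg r ω ω' h 1 y w (SimpleGraph.Reachable.refl 1) hy
  · rintro ⟨y, ⟨w⟩, hy⟩
    exact R_local_aux hS hg r ω' ω (fun e he => (h e he).symm) 1 y w
      (SimpleGraph.Reachable.refl 1) hy

end Pool.Agent.IIC
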