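import Pool.Agent.IIC.Defs
import Pool.Agent.IIC.P_mem_clus_shift
import Pool.Agent.IIC.P_sz_shift
import Pool.Agent.IIC.P_R_shift
import Pool.Agent.IIC.P_meas_clus
import Pool.Agent.IIC.P_meas_R
import Pool.Agent.IIC.P_meas_sz
import Pool.Agent.IIC.P_mtp

set_option autoImplicit false
set_option linter.unusedVariables false
set_option linter.unusedSectionVars false

/-!
# Zero density of the incipient infinite cluster: definitions

`Γ` is a group, `S` a finite set (symmetric, generating, in the theorem).  Bond percolation on the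
Cayley graph `cay S` is modelled on configurations `Cfg Γ = Sym2 Γ → Bool`; only the bits at edges
of the Cayley graph are used.
-/

namespace Pool.Agent.IIC
open MeasureTheory ProbabilityTheory
open scoped ENNReal NNReal
variable {Γ : Type} [Group Γ]


theorem j22083_tsum {α : Type} (C : Set α) (c : ℝ≥0∞) (P : α → Prop) [DecidablePred P]
    (hP : ∀ y, P y ↔ y ∈ C) :
    ∑' y, (if P y then c else 0) = (C.encard : ℝ≥0∞) * c := by
  have h1 : (fun y => if P y then c else 0) = C.indicator (fun _ => c) := by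
    funext y
    by_cases hy : P y
    · rw [if_pos hy, Set.indicator_of_mem ((hP y).1 hy)]
    · rw [if_neg hy, Set.indicator_of_notMem (fun h => hy ((hP y).2 h))]
  rw [h1, ← tsum_subtype, ENNReal.tsum_set_const]

theorem Z_mtp [Countable Γ] {S : Finset Γ} (hS : Symm S) (p : ℝ≥0) (hp : p ≤ 1)
    (hfin : Fin0 S p hp) (n : ℕ) :
    ∫⁻ ω, frac S n 1 ω ∂(bP Γ p hp) = Z S p hp n := by
  classical
  let F : Γ → Γ → Cfg Γ → ℝ≥0∞ := fun x y ω =>
    if R S n x ω ∧ y ∈ clus S ω x then (sz S ω x)⁻¹ else 0
  have hF : ∀ x y, Measurable (F x y) := fun x y =>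
    Measurable.ite ((meas_R S n x).inter (meas_clus S x y)) (meas_sz S x).inv measurable_const
  have hinv : ∀ g x y ω, F (g * x) (g * y) (shift g ω) = F x y ω := by
    intro g x y ω
    simp only [F, R_shift, mem_clus_shift, sz_shift]
  have hm := mtp p hp F hF hinv
  rw [← lintegral_tsum (fun y => (hF 1 y).aemeasurable),
    ← lintegral_tsum (fun y => (hF y 1).aemeasurable)] at hm
  have hR : ∀ ω, ∑' y, F y 1 ω = frac S n 1 ω := by
    intro ω
    have h1 : ∀ y, F y 1 ω =
        if (y ∈ clus S ω 1 ∧ R S n y ω) then (sz S ω 1)⁻¹ else 0 := by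
      intro y
      have h2 : (1 : Γ) ∈ clus S ω y ↔ y ∈ clus S ω 1 :=
        ⟨fun h => SimpleGraph.Reachable.symm h, fun h => SimpleGraph.Reachable.symm h⟩
      simp only [F, h2]
      by_cases hy : y ∈ clus S ω 1 ∧ R S n y ω
      · rw [if_pos hy, if_pos ⟨hy.2, hy.1⟩]
        have h3 : clus S ω y = clus S ω 1 := by
          ext z
          exact ⟨fun h => SimpleGraph.Reachable.trans hy.1 h,
            fun h => SimpleGraph.Reachable.trans (SimpleGraph.Reachable.symm hy.1) h⟩
        unfold sz
        rw [h3]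
      · rw [if_neg hy, if_neg (fun h => hy ⟨h.2, h.1⟩)]
    simp only [h1]
    exact j22083_tsum {z | z ∈ clus S ω 1 ∧ R S n z ω} (sz S ω 1)⁻¹
      (fun y => y ∈ clus S ω 1 ∧ R S n y ω) (fun y => Iff.rfl)
  have hL : ∀ᵐ ω ∂(bP Γ p hp), ∑' y, F 1 y ω = Set.indicator {ω | R S n 1 ω} 1 ω := by
    have hae : ∀ᵐ ω ∂(bP Γ p hp), ¬ (clus S ω 1).Infinite := by
      rw [ae_iff]
      simp only [not_not]
      exact hfin
    filter_upwards [hae] with ω hω
    by_cases hRω : R S n 1 ω
    · rw [Set.indicator_of_mem (show ω ∈ {ω | R S n 1 ω} from hRω)]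
      have h1 : ∀ y, F 1 y ω = if y ∈ clus S ω 1 then (sz S ω 1)⁻¹ else 0 := by
        intro y
        simp only [F, hRω, true_and]
      simp only [h1]
      rw [j22083_tsum (clus S ω 1) (sz S ω 1)⁻¹ (fun y => y ∈ clus S ω 1) (fun y => Iff.rfl)]
      have h2 : sz S ω 1 ≠ 0 := by
        unfold sz
        have h3 : (clus S ω 1).Nonempty := ⟨1, SimpleGraph.Reachable.refl 1⟩
        have h4 := Set.encard_ne_zero.2 h3
        simpa using h4
      have h5 : sz S ω 1 ≠ ⊤ := by
        unfold sz
        have h6 := Set.encard_ne_top_iff.2 (Set.not_infinite.1 hω)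
        simpa using h6
      exact ENNReal.mul_inv_cancel h2 h5
    · rw [Set.indicator_of_notMem (show ω ∉ {ω | R S n 1 ω} from hRω)]
      have h1 : ∀ y, F 1 y ω = 0 := by
        intro y
        simp only [F, hRω, false_and, if_false]
      simp only [h1, tsum_zero]
  rw [lintegral_congr_ae hL, lintegral_congr hR] at hm
  rw [← hm, lintegral_indicator_one (meas_R S n 1)]
  rfl

end Pool.Agent.IIC
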