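import Pool.Agent.IIC.Defs
import Pool.Agent.IIC.P_meas_upd
import Pool.Agent.IIC.P_flip_int

set_option autoImplicit false
set_option linter.unusedVariables false
set_option linter.unusedSectionVars false

/-!
# Zero density of the incipient infinite cluster: definitions

`Γ` is a group, `S` a finite set (symmetric, generating, in the theorem).  Bond percolation on the
Cayley graph `cay S` is modelled on configurations `Cfg Γ = Sym2 Γ → Bool`; only the bits at edges
of the Cayley graph are used.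
-/

namespace Pool.Agent.IIC
open MeasureTheory ProbabilityTheory
open scoped ENNReal NNReal
variable {Γ : Type} [Group Γ]


/-- decoupling of a local event, one edge at a time -/
theorem cov_ineq (p : ℝ≥0) (hp : p ≤ 1) (E : Finset (Sym2 Γ)) (A : Set (Cfg Γ))
    (hA : MeasurableSet A)
    (hloc : ∀ ω ω' : Cfg Γ, (∀ e ∈ E, ω e = ω' e) → (ω ∈ A ↔ ω' ∈ A))
    (F : Cfg Γ → ℝ≥0∞) (hF : Measurable F) (D : Sym2 Γ → Cfg Γ → ℝ≥0∞)
    (hD : ∀ e, Measurable (D e))
    (h1 : ∀ e ∈ E, ∀ ω, F (upd ω e true) ≤ F (upd ω e false) + D e ω)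
    (h2 : ∀ e ∈ E, ∀ ω, F (upd ω e false) ≤ F (upd ω e true) + D e ω) :
    ∫⁻ ω in A, F ω ∂(bP Γ p hp)
      ≤ bP Γ p hp A * ∫⁻ ω, F ω ∂(bP Γ p hp) + ∑ e ∈ E, ∫⁻ ω, D e ω ∂(bP Γ p hp) := by
  classical
  induction E using Finset.induction_on generalizing A with
  | empty =>
    rcases Set.eq_empty_or_nonempty A with h0 | ⟨ω₀, h0⟩
    · rw [h0]
      simp
    · have hu : A = Set.univ := by
        ext ω
        simp only [Set.mem_univ, iff_true]
        exact (hloc ω₀ ω (fun e he => absurd he (Finset.notMem_empty e))).mp h0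
      rw [hu]
      simp
  | insert e E' heE ih =>
    have hself : ∀ (ω : Cfg Γ) (b : Bool), ω e = b → upd ω e b = ω := by
      intro ω b hb
      funext x
      unfold upd ovr
      by_cases hx : x = e
      · subst hx
        simp [hb]
      · simp [hx]
    have hmeas : ∀ b : Bool, MeasurableSet ((fun ω : Cfg Γ => upd ω e b) ⁻¹' A) := fun b =>
      meas_upd e b hA
    have hlocb : ∀ b : Bool, ∀ ω ω' : Cfg Γ, (∀ x ∈ E', ω x = ω' x) →
        (ω ∈ (fun ω : Cfg Γ => upd ω e b) ⁻¹' A ↔ ω' ∈ (fun ω : Cfg Γ => upd ω e b) ⁻¹' A) := by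
      intro b ω ω' hω
      apply hloc
      intro x hx
      unfold upd ovr
      by_cases hxe : x = e
      · simp [hxe]
      · have hx' : x ∈ E' := by
          rcases Finset.mem_insert.mp hx with h | h
          · exact absurd h hxe
          · exact h
        simp [hxe, hω x hx']
    have hFb : ∀ b : Bool, ∀ ω, F (upd ω e b) ≤ F ω + D e ω := by
      intro b ω
      have he : e ∈ insert e E' := Finset.mem_insert_self e E'
      cases b with
      | true =>
        cases hω : ω e with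
        | true =>
          rw [hself ω true hω]
          exact le_self_add
        | false =>
          have := h1 e he ω
          rwa [hself ω false hω] at this
      | false =>
        cases hω : ω e with
        | true =>
          have := h2 e he ω
          rwa [hself ω true hω] at this
        | false =>
          rw [hself ω false hω]
          exact le_self_add
    have hflip : ∀ G : Cfg Γ → ℝ≥0∞, Measurable G →
        ∫⁻ ω in A, G ω ∂(bP Γ p hp)
          = p * ∫⁻ ω in ((fun ω : Cfg Γ => upd ω e true) ⁻¹' A), G (upd ω e true) ∂(bP Γ p hp)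
          + (1 - p : ℝ≥0) *
            ∫⁻ ω in ((fun ω : Cfg Γ => upd ω e false) ⁻¹' A), G (upd ω e false) ∂(bP Γ p hp) := by
      intro G hG
      rw [← lintegral_indicator hA, flip_int p hp e (A.indicator G) (hG.indicator hA),
        ← lintegral_indicator (hmeas true), ← lintegral_indicator (hmeas false)]
      rfl
    have hPA : bP Γ p hp A = p * bP Γ p hp ((fun ω : Cfg Γ => upd ω e true) ⁻¹' A)
        + (1 - p : ℝ≥0) * bP Γ p hp ((fun ω : Cfg Γ => upd ω e false) ⁻¹' A) := by
      have := hflip (fun _ => 1) measurable_const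
      simpa using this
    have hb : ∀ b : Bool, ∫⁻ ω in ((fun ω : Cfg Γ => upd ω e b) ⁻¹' A), F (upd ω e b) ∂(bP Γ p hp)
        ≤ bP Γ p hp ((fun ω : Cfg Γ => upd ω e b) ⁻¹' A) * ∫⁻ ω, F ω ∂(bP Γ p hp)
          + ∑ x ∈ insert e E', ∫⁻ ω, D x ω ∂(bP Γ p hp) := by
      intro b
      calc ∫⁻ ω in ((fun ω : Cfg Γ => upd ω e b) ⁻¹' A), F (upd ω e b) ∂(bP Γ p hp)
          ≤ ∫⁻ ω in ((fun ω : Cfg Γ => upd ω e b) ⁻¹' A), (F ω + D e ω) ∂(bP Γ p hp) :=
            lintegral_mono (hFb b)
        _ = ∫⁻ ω in ((fun ω : Cfg Γ => upd ω e b) ⁻¹' A), F ω ∂(bP Γ p hp)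
            + ∫⁻ ω in ((fun ω : Cfg Γ => upd ω e b) ⁻¹' A), D e ω ∂(bP Γ p hp) :=
            lintegral_add_left hF _
        _ ≤ (bP Γ p hp ((fun ω : Cfg Γ => upd ω e b) ⁻¹' A) * ∫⁻ ω, F ω ∂(bP Γ p hp)
            + ∑ x ∈ E', ∫⁻ ω, D x ω ∂(bP Γ p hp)) + ∫⁻ ω, D e ω ∂(bP Γ p hp) :=
            add_le_add (ih _ (hmeas b) (hlocb b)
              (fun x hx => h1 x (Finset.mem_insert_of_mem hx))
              (fun x hx => h2 x (Finset.mem_insert_of_mem hx)))
              (setLIntegral_le_lintegral _ _)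
        _ = _ := by
            rw [Finset.sum_insert heE, add_assoc]
            congr 1
            rw [add_comm]
    have hone : (p : ℝ≥0∞) + ((1 - p : ℝ≥0) : ℝ≥0∞) = 1 := by
      rw [← ENNReal.coe_add, add_tsub_cancel_of_le hp, ENNReal.coe_one]
    rw [hflip F hF]
    refine (add_le_add (mul_le_mul_right (hb true) _) (mul_le_mul_right (hb false) _)).trans ?_
    refine le_of_eq ?_
    rw [hPA]
    generalize bP Γ p hp ((fun ω : Cfg Γ => upd ω e true) ⁻¹' A) = a
    generalize bP Γ p hp ((fun ω : Cfg Γ => upd ω e false) ⁻¹' A) = b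
    generalize ∫⁻ ω, F ω ∂(bP Γ p hp) = f
    generalize ∑ x ∈ insert e E', ∫⁻ ω, D x ω ∂(bP Γ p hp) = d
    calc (p : ℝ≥0∞) * (a * f + d) + ((1 - p : ℝ≥0) : ℝ≥0∞) * (b * f + d)
        = (p * a + ((1 - p : ℝ≥0) : ℝ≥0∞) * b) * f + (p + ((1 - p : ℝ≥0) : ℝ≥0∞)) * d := by ring
      _ = _ := by rw [hone, one_mul]

end Pool.Agent.IIC
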