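import Pool.Agent.IIC.Defs
import Pool.Agent.IIC.P_CovDefs

set_option autoImplicit false
set_option linter.unusedVariables false
set_option linter.unusedSectionVars false

/-!
# Zero density of the incipient infinite cluster: definitions

`Γ` is a group, `S` a finite set (symmetric, generating, in the theorem).  Bond percolation on the
Cayley graph `cay S` is modelled on configurations `Cfg Γ = Sym2 Γ → Bool`; only the bits at edges
of the Cayley graph are used.
-/

namespace Pool.Agent.IIC
open MeasureTheory ProbabilityTheory
open scoped ENNReal NNReal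
variable {Γ : Type} [Group Γ]


theorem frac_eq (S : Finset Γ) (n : ℕ) (x : Γ) (ω : Cfg Γ) :
    frac S n x ω = fr S n (clus S ω x) := by
  have hset : {z | z ∈ clus S ω x ∧ R S n z ω} =
      {z | z ∈ clus S ω x ∧ ∃ y ∈ clus S ω x, n ≤ (cay S).dist z y} := by
    ext z
    simp only [Set.mem_setOf_eq]
    constructor
    · rintro ⟨hz, y, hy, hd⟩
      exact ⟨hz, y, SimpleGraph.Reachable.trans hz hy, hd⟩
    · rintro ⟨hz, y, hy, hd⟩
      exact ⟨hz, y, SimpleGraph.Reachable.trans (SimpleGraph.Reachable.symm hz) hy, hd⟩
  unfold frac fr sz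
  rw [hset]

end Pool.Agent.IIC
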