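import Pool.Agent.IIC.Defs
import Pool.Agent.IIC.P_clus_mono
import Pool.Agent.IIC.P_clus_upd_bridge
import Pool.Agent.IIC.P_clus_upd_far
import Pool.Agent.IIC.P_dist_lt_of_sz
import Pool.Agent.IIC.P_CovDefs
import Pool.Agent.IIC.P_frac_eq

set_option autoImplicit false
set_option linter.unusedVariables false
set_option linter.unusedSectionVars false

/-!

`Γ` is a group, `S` a finite set (symmetric, generating, in the theorem).  Bond percolation on the
Cayley graph `cay S` is modelled on configurations `Cfg Γ = Sym2 Γ → Bool`; only the bits at edges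
of the Cayley graph are used.
-/

namespace Pool.Agent.IIC
open MeasureTheory ProbabilityTheory
open scoped ENNReal NNReal
variable {Γ : Type} [Group Γ]


theorem inv_split_22604 {a b : ℝ≥0∞} (ha0 : a ≠ 0) (ha : a ≠ ⊤) (hb : b ≠ ⊤) :
    a⁻¹ = (a + b)⁻¹ + a⁻¹ * (b / (a + b)) := by
  have h1 : a⁻¹ * (a / (a + b)) = (a + b)⁻¹ := by
    rw [div_eq_mul_inv, ← mul_assoc, ENNReal.inv_mul_cancel ha0 ha, one_mul]
  have hs0 : a + b ≠ 0 := by
    intro h
    exact ha0 (add_eq_zero.1 h).1
  have hs : a + b ≠ ⊤ := ENNReal.add_ne_top.2 ⟨ha, hb⟩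
  rw [← h1, ← mul_add, ENNReal.div_add_div_same, ENNReal.div_self hs0 hs, mul_one]

theorem flip_aux_22604 {S : Finset Γ} (n K L : ℕ) (v x y : Γ) (hxy : (cay S).Adj x y)
    (hx : L ≤ (cay S).dist v x) (ω : Cfg Γ)
    (hxC : x ∈ clus S (upd ω s(x, y) false) v) (hyC : y ∉ clus S (upd ω s(x, y) false) v) :
    frac S n v (upd ω s(x, y) false) ≤ frac S n v (upd ω s(x, y) true)
      + t1 S n K L v x y (upd ω s(x, y) false) := by
  have hbr := clus_upd_bridge x y v hxy ω hxC
  have hmono : ∀ e, upd ω s(x, y) false e = true → upd ω s(x, y) true e = true := by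
    intro e he
    unfold upd ovr at he ⊢
    by_cases h : e ∈ ({s(x, y)} : Finset (Sym2 Γ))
    · simp [h]
    · simp only [h, if_false] at he ⊢
      exact he
  set ω0 := upd ω s(x, y) false with hω0
  set ω1 := upd ω s(x, y) true with hω1
  have ht : t1 S n K L v x y ω0 =
      frac S n v ω0 * (Set.indicator {ω | (K : ℝ≥0∞) < sz S ω y} (fun _ => 1) ω0 + (K : ℝ≥0∞) / L) := by
    unfold t1
    rw [Set.indicator_of_mem]
    exact ⟨hxC, hyC⟩
  rw [ht]
  set a : ℝ≥0∞ := sz S ω0 v with ha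
  set b : ℝ≥0∞ := sz S ω0 y with hb
  set N1 : ℝ≥0∞ := ({z | z ∈ clus S ω0 v ∧ R S n z ω0}.encard : ℝ≥0∞) with hN1
  have hf0 : frac S n v ω0 = N1 / a := rfl
  have hN : N1 ≤ ({z | z ∈ clus S ω1 v ∧ R S n z ω1}.encard : ℝ≥0∞) := by
    have h1 : {z | z ∈ clus S ω0 v ∧ R S n z ω0} ⊆ {z | z ∈ clus S ω1 v ∧ R S n z ω1} := by
      rintro z ⟨hz1, w, hw, hn⟩
      exact ⟨clus_mono hmono v hz1, w, clus_mono hmono z hw, hn⟩
    have h2 := Set.encard_le_encard h1
    rw [hN1]
    exact_mod_cast h2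
  have hC : sz S ω1 v ≤ a + b := by
    have h2 : (clus S ω1 v).encard ≤ (clus S ω0 v).encard + (clus S ω0 y).encard := by
      rw [hbr]
      exact Set.encard_union_le _ _
    have h3 : (((clus S ω1 v).encard : ℕ∞) : ℝ≥0∞) ≤
        (((clus S ω0 v).encard + (clus S ω0 y).encard : ℕ∞) : ℝ≥0∞) := by exact_mod_cast h2
    rw [ENat.toENNReal_add] at h3
    exact h3
  have hf1 : N1 / (a + b) ≤ frac S n v ω1 := ENNReal.div_le_div hN hC
  rw [hf0]
  by_cases haT : a = ⊤
  · rw [haT, ENNReal.div_top]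
    exact zero_le
  have ha0 : a ≠ 0 := by
    intro h
    have h1 : (clus S ω0 v).encard = 0 := by
      have : (((clus S ω0 v).encard : ℕ∞) : ℝ≥0∞) = 0 := h
      exact_mod_cast this
    rw [Set.encard_eq_zero] at h1
    have h2 : v ∈ clus S ω0 v := SimpleGraph.Reachable.refl v
    rw [h1] at h2
    exact h2
  by_cases hK : (K : ℝ≥0∞) < b
  · have h1 : Set.indicator {ω | (K : ℝ≥0∞) < sz S ω y} (fun _ => (1 : ℝ≥0∞)) ω0 = 1 := by
      rw [Set.indicator_of_mem]
      exact hK
    rw [h1]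
    calc N1 / a = N1 / a * 1 := (mul_one _).symm
      _ ≤ N1 / a * (1 + (K : ℝ≥0∞) / L) := mul_le_mul' le_rfl le_self_add
      _ ≤ _ := le_add_self
  · have hbK : b ≤ K := not_lt.1 hK
    have hbT : b ≠ ⊤ := ne_top_of_le_ne_top (ENNReal.natCast_ne_top K) hbK
    have hLa : (L : ℝ≥0∞) ≤ a := by
      by_contra hcon
      have h1 := dist_lt_of_sz L v x ω0 hxC (not_le.1 hcon).le
      omega
    have h2 : b / (a + b) ≤ (K : ℝ≥0∞) / L :=
      ENNReal.div_le_div hbK (hLa.trans le_self_add)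
    calc N1 / a = N1 * a⁻¹ := div_eq_mul_inv _ _
      _ = N1 * ((a + b)⁻¹ + a⁻¹ * (b / (a + b))) := by rw [← inv_split_22604 ha0 haT hbT]
      _ = N1 / (a + b) + N1 / a * (b / (a + b)) := by
          rw [mul_add, ← mul_assoc N1 a⁻¹, ← div_eq_mul_inv N1, ← div_eq_mul_inv N1]
      _ ≤ frac S n v ω1 + N1 / a *
          (Set.indicator {ω | (K : ℝ≥0∞) < sz S ω y} (fun _ => 1) ω0 + (K : ℝ≥0∞) / L) :=
          add_le_add hf1 (mul_le_mul' le_rfl (h2.trans le_add_self))

theorem flip_down {S : Finset Γ} (n K L : ℕ) (v x y : Γ) (hxy : (cay S).Adj x y)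
    (hx : L ≤ (cay S).dist v x) (hy : L ≤ (cay S).dist v y) (ω : Cfg Γ) :
    frac S n v (upd ω s(x, y) false) ≤ frac S n v (upd ω s(x, y) true)
      + t1 S n K L v x y (upd ω s(x, y) false) + t1 S n K L v y x (upd ω s(x, y) false) := by
  by_cases hxC : x ∈ clus S (upd ω s(x, y) false) v
  · by_cases hyC : y ∈ clus S (upd ω s(x, y) false) v
    · have hbr := clus_upd_bridge x y v hxy ω hxC
      have h1 : clus S (upd ω s(x, y) false) y ⊆ clus S (upd ω s(x, y) false) v := by
        intro z hz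
        exact SimpleGraph.Reachable.trans hyC hz
      rw [Set.union_eq_self_of_subset_right h1] at hbr
      rw [frac_eq, frac_eq, hbr, add_assoc]
      exact le_self_add
    · exact (flip_aux_22604 n K L v x y hxy hx ω hxC hyC).trans le_self_add
  · by_cases hyC : y ∈ clus S (upd ω s(x, y) false) v
    · have h := flip_aux_22604 n K L v y x hxy.symm hy ω
        (by rw [Sym2.eq_swap]; exact hyC) (by rw [Sym2.eq_swap]; exact hxC)
      rw [Sym2.eq_swap (a := y) (b := x)] at h
      refine h.trans ?_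
      rw [add_right_comm]
      exact le_self_add
    · have hfar := clus_upd_far s(x, y) v ω (by
        intro w hw
        rcases Sym2.mem_iff.1 hw with rfl | rfl
        · exact hxC
        · exact hyC)
      rw [frac_eq, frac_eq, hfar, add_assoc]
      exact le_self_add

end Pool.Agent.IIC

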