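import Pool.Agent.IIC.Defs
import Pool.Agent.IIC.P_clus_mono
import Pool.Agent.IIC.P_clus_upd_bridge
import Pool.Agent.IIC.P_clus_upd_far
import Pool.Agent.IIC.P_CovDefs
import Pool.Agent.IIC.P_frac_eq

set_option autoImplicit false
set_option linter.unusedVariables false
set_option linter.unusedSectionVars false

/-!
# Zero density of the incipient infinite cluster: definitions

`Γ` is a group, `S` a finite set (symmetric, generating, in the theorem).  Bond percolation on the
Cayley graph `cay S` is modelled on configurations `Cfg Γ = Sym2 Γ → Bool`; only the bits at edges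
of the Cayley graph are used.
-/

namespace Pool.Agent.IIC
open MeasureTheory ProbabilityTheory
open scoped ENNReal NNReal
variable {Γ : Type} [Group Γ]


theorem upd_upd258 (ω : Cfg Γ) (e : Sym2 Γ) (b b' : Bool) :
    upd (upd ω e b) e b' = upd ω e b' := by
  funext f
  unfold upd ovr
  by_cases h : f ∈ ({e} : Finset (Sym2 Γ)) <;> simp [h]

theorem clus_eq_of_mem258 {S : Finset Γ} {ω : Cfg Γ} {v x : Γ} (h : x ∈ clus S ω v) :
    clus S ω x = clus S ω v := by
  ext z
  exact ⟨fun hz => SimpleGraph.Reachable.trans h hz,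
    fun hz => SimpleGraph.Reachable.trans (SimpleGraph.Reachable.symm h) hz⟩

theorem flip_caseB258 {S : Finset Γ} (n : ℕ) (v x y : Γ) (hxy : (cay S).Adj x y) (ω : Cfg Γ)
    (hx : x ∈ clus S (upd ω s(x, y) false) v) :
    frac S n v (upd ω s(x, y) true) ≤ frac S n v (upd ω s(x, y) false)
      + (frac S n y (upd ω s(x, y) false) + t3 S n x y (upd ω s(x, y) true)) := by
  have hC := clus_upd_bridge x y v hxy ω hx
  have hmem : x ∈ clus S (upd ω s(x, y) true) v := by
    rw [hC]
    exact Or.inl hx
  have hCx := clus_eq_of_mem258 hmem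
  set ω0 := upd ω s(x, y) false with hω0
  set ω1 := upd ω s(x, y) true with hω1
  have hsub : {z | z ∈ clus S ω1 v ∧ R S n z ω1} ⊆
      {z | z ∈ clus S ω0 v ∧ R S n z ω0} ∪ ({z | z ∈ clus S ω0 y ∧ R S n z ω0} ∪
        {z | z ∈ clus S ω1 x ∧ piv S n z s(x, y) ω1}) := by
    rintro z ⟨hz, hR⟩
    by_cases hR0 : R S n z ω0
    · have hz' := hz
      rw [hC] at hz'
      rcases hz' with h | h
      · exact Or.inl ⟨h, hR0⟩
      · exact Or.inr (Or.inl ⟨h, hR0⟩)
    · refine Or.inr (Or.inr ⟨hCx ▸ hz, ?_, ?_, ?_⟩)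
      · exact hxy
      · rw [hω1, upd_upd258, ← hω1]
        exact hR
      · rw [hω1, upd_upd258, ← hω0]
        exact hR0
  have hcard : (({z | z ∈ clus S ω1 v ∧ R S n z ω1}.encard : ℕ∞) : ℝ≥0∞) ≤
      ({z | z ∈ clus S ω0 v ∧ R S n z ω0}.encard : ℝ≥0∞) +
      (({z | z ∈ clus S ω0 y ∧ R S n z ω0}.encard : ℝ≥0∞) +
        ({z | z ∈ clus S ω1 x ∧ piv S n z s(x, y) ω1}.encard : ℝ≥0∞)) := by
    rw [← ENat.toENNReal_add, ← ENat.toENNReal_add]
    refine ENat.toENNReal_le.mpr ?_
    refine (Set.encard_le_encard hsub).trans ((Set.encard_union_le _ _).trans ?_)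
    gcongr
    exact Set.encard_union_le _ _
  have hs0 : sz S ω0 v ≤ sz S ω1 v := by
    refine ENat.toENNReal_le.mpr (Set.encard_le_encard ?_)
    rw [hC]
    exact Set.subset_union_left
  have hsy : sz S ω0 y ≤ sz S ω1 v := by
    refine ENat.toENNReal_le.mpr (Set.encard_le_encard ?_)
    rw [hC]
    exact Set.subset_union_right
  have hsx : sz S ω1 x = sz S ω1 v := by
    unfold sz
    rw [hCx]
  unfold frac t3
  rw [hsx]
  refine (ENNReal.div_le_div_right hcard _).trans ?_
  rw [ENNReal.add_div, ENNReal.add_div]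
  gcongr

/-- opening the edge `s(x,y)`: the fraction increases by at most the error terms -/
theorem flip_up {S : Finset Γ} (n : ℕ) (v x y : Γ) (hxy : (cay S).Adj x y) (ω : Cfg Γ) :
    frac S n v (upd ω s(x, y) true) ≤ frac S n v (upd ω s(x, y) false)
      + (t2 S n v x y (upd ω s(x, y) false) + t3 S n x y (upd ω s(x, y) true))
      + (t2 S n v y x (upd ω s(x, y) false) + t3 S n y x (upd ω s(x, y) true)) := by
  by_cases hx : x ∈ clus S (upd ω s(x, y) false) v
  · by_cases hy : y ∈ clus S (upd ω s(x, y) false) v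
    · have hC := clus_upd_bridge x y v hxy ω hx
      rw [clus_eq_of_mem258 hy, Set.union_self] at hC
      rw [frac_eq, frac_eq, hC, add_assoc]
      exact le_self_add
    · have h1 := flip_caseB258 n v x y hxy ω hx
      have h2 : t2 S n v x y (upd ω s(x, y) false) = frac S n y (upd ω s(x, y) false) := by
        unfold t2
        rw [Set.indicator_of_mem]
        exact ⟨hx, hy⟩
      rw [h2]
      exact h1.trans le_self_add
  · by_cases hy : y ∈ clus S (upd ω s(x, y) false) v
    · have hsw : s(x, y) = s(y, x) := Sym2.eq_swap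
      rw [hsw] at hx hy ⊢
      have h1 := flip_caseB258 n v y x hxy.symm ω hy
      have h2 : t2 S n v y x (upd ω s(y, x) false) = frac S n x (upd ω s(y, x) false) := by
        unfold t2
        rw [Set.indicator_of_mem]
        exact ⟨hy, hx⟩
      rw [h2]
      refine h1.trans ?_
      gcongr
      exact le_self_add
    · have hC := clus_upd_far s(x, y) v ω (by
        intro u hu
        rw [Sym2.mem_iff] at hu
        rcases hu with rfl | rfl
        · exact hx
        · exact hy)
      rw [frac_eq, frac_eq, hC, add_assoc]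
      exact le_self_add

end Pool.Agent.IIC
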