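import Pool.Agent.IIC.Defs
import Pool.Agent.IIC.P_mem_clus_shift
import Pool.Agent.IIC.P_sz_shift
import Pool.Agent.IIC.P_R_shift

set_option autoImplicit false
set_option linter.unusedVariables false
set_option linter.unusedSectionVars false

/-!
# Zero density of the incipient infinite cluster: definitions

`Γ` is a group, `S` a finite set (symmetric, generating, in the theorem).  Bond percolation on the
Cayley graph `cay S` is modelled on configurations `Cfg Γ = Sym2 Γ → Bool`; only the bits at edges
of the Cayley graph are used.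
-/

namespace Pool.Agent.IIC
open MeasureTheory ProbabilityTheory
open scoped ENNReal NNReal
variable {Γ : Type} [Group Γ]


theorem frac_shift {S : Finset Γ} (n : ℕ) (g : Γ) (ω : Cfg Γ) (x : Γ) :
    frac S n (g * x) (shift g ω) = frac S n x ω := by
  unfold frac
  rw [sz_shift]
  have h : {z | z ∈ clus S (shift g ω) (g * x) ∧ R S n z (shift g ω)} =
      (fun z => g * z) '' {z | z ∈ clus S ω x ∧ R S n z ω} := by
    ext w
    constructor
    · rintro ⟨h1, h2⟩
      refine ⟨g⁻¹ * w, ⟨?_, ?_⟩, by simp⟩
      · rw [← mem_clus_shift g ω x (g⁻¹ * w), mul_inv_cancel_left]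
        exact h1
      · rw [← R_shift n g ω (g⁻¹ * w), mul_inv_cancel_left]
        exact h2
    · rintro ⟨z, ⟨h1, h2⟩, rfl⟩
      exact ⟨(mem_clus_shift g ω x z).2 h1, (R_shift n g ω z).2 h2⟩
  rw [h, (mul_right_injective g).encard_image]

end Pool.Agent.IIC
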