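import Pool.Agent.IIC.Defs
import Pool.Agent.IIC.P_meas_clus

set_option autoImplicit false
set_option linter.unusedVariables false
set_option linter.unusedSectionVars false

/-!
# Zero density of the incipient infinite cluster: definitions

`Γ` is a group, `S` a finite set (symmetric, generating, in the theorem).  Bond percolation on the
Cayley graph `cay S` is modelled on configurations `Cfg Γ = Sym2 Γ → Bool`; only the bits at edges
of the Cayley graph are used.
-/

namespace Pool.Agent.IIC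
open MeasureTheory ProbabilityTheory
open scoped ENNReal NNReal
variable {Γ : Type} [Group Γ]


theorem lp_meas_shift (g : Γ) : Measurable (fun ω : Cfg Γ => shift g ω) := by
  unfold shift
  exact measurable_pi_iff.mpr (fun e => measurable_pi_apply _)

theorem lp_shift_mp (p : ℝ≥0) (hp : p ≤ 1) (g : Γ) :
    MeasurePreserving (shift g) (bP Γ p hp) (bP Γ p hp) := by
  let e : Sym2 Γ ≃ Sym2 Γ :=
    { toFun := Sym2.map (fun x => g * x)
      invFun := Sym2.map (fun x => g⁻¹ * x)
      left_inv := fun s => by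
        rw [Sym2.map_map]
        convert! congrFun Sym2.map_id s using 2
        simp
      right_inv := fun s => by
        rw [Sym2.map_map]
        convert! congrFun Sym2.map_id s using 2
        simp }
  refine ⟨lp_meas_shift g, ?_⟩
  have h1 : (shift g : Cfg Γ → Cfg Γ) = MeasurableEquiv.piCongrLeft (fun _ : Sym2 Γ => Bool) e := by
    funext ω i
    obtain ⟨j, rfl⟩ := e.surjective i
    rw [MeasurableEquiv.coe_piCongrLeft, Equiv.piCongrLeft_apply_apply]
    show ω (e.symm (e j)) = ω j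
    rw [Equiv.symm_apply_apply]
  rw [h1]
  unfold bP
  exact Measure.infinitePi_map_piCongrLeft
    (fun _ : Sym2 Γ => (PMF.bernoulli p hp).toMeasure) e

theorem lp_cay_smul {S : Finset Γ} (g x y : Γ) :
    (cay S).Adj (g * x) (g * y) ↔ (cay S).Adj x y := by
  unfold cay
  simp only [SimpleGraph.fromRel_adj, mul_inv_rev, ne_eq, mul_right_inj]
  have h1 : ∀ a b : Γ, a⁻¹ * g⁻¹ * (g * b) = a⁻¹ * b := fun a b => by group
  rw [h1, h1]

theorem lp_opn_shift {S : Finset Γ} (g : Γ) (ω : Cfg Γ) (x y : Γ) :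
    (opn S (shift g ω)).Adj (g * x) (g * y) ↔ (opn S ω).Adj x y := by
  change ((cay S).Adj (g * x) (g * y) ∧ shift g ω s(g * x, g * y) = true) ↔
    ((cay S).Adj x y ∧ ω s(x, y) = true)
  rw [lp_cay_smul]
  unfold shift
  rw [Sym2.map_mk]
  simp

theorem lp_mem_clus_shift {S : Finset Γ} (g : Γ) (ω : Cfg Γ) (x y : Γ) :
    g * y ∈ clus S (shift g ω) (g * x) ↔ y ∈ clus S ω x := by
  let φ : opn S ω ≃g opn S (shift g ω) := ⟨Equiv.mulLeft g, fun {a b} => lp_opn_shift g ω a b⟩
  exact φ.reachable_iff (u := x) (v := y)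

theorem lp_fin (p : ℝ≥0) (hp : p ≤ 1) (S : Finset Γ) (hfin : Fin0 S p hp) (x : Γ) :
    ∀ᵐ ω ∂(bP Γ p hp), (clus S ω x).Finite := by
  have h1 : bP Γ p hp (shift x⁻¹ ⁻¹' {ω | (clus S ω 1).Infinite}) = 0 :=
    (lp_shift_mp p hp x⁻¹).quasiMeasurePreserving.preimage_null hfin
  rw [ae_iff]
  apply measure_mono_null _ h1
  intro ω hω
  show (clus S (shift x⁻¹ ω) 1).Infinite
  intro hf
  apply hω
  have h2 : clus S ω x = (fun y => x⁻¹ * y) ⁻¹' clus S (shift x⁻¹ ω) 1 := by
    ext y
    have := lp_mem_clus_shift (S := S) x⁻¹ ω x y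
    rw [inv_mul_cancel] at this
    exact this.symm
  rw [h2]
  exact hf.preimage (mul_right_injective x⁻¹).injOn

theorem lp_meas [Countable Γ] (S : Finset Γ) (x : Γ) (H : Finset Γ) :
    MeasurableSet {ω : Cfg Γ | clus S ω x = ↑H} := by
  have : {ω : Cfg Γ | clus S ω x = ↑H} = ⋂ y : Γ, {ω : Cfg Γ | y ∈ clus S ω x ↔ y ∈ H} := by
    ext ω
    simp only [Set.mem_iInter]
    show clus S ω x = ↑H ↔ ∀ y, (y ∈ clus S ω x ↔ y ∈ H)
    simp only [Set.ext_iff, Finset.mem_coe]
  rw [this]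
  refine MeasurableSet.iInter (fun y => ?_)
  by_cases hy : y ∈ H
  · simpa [hy] using meas_clus S x y
  · have h2 : {ω : Cfg Γ | y ∈ clus S ω x ↔ y ∈ H} = {ω : Cfg Γ | y ∈ clus S ω x}ᶜ := by
      ext ω
      show (y ∈ clus S ω x ↔ y ∈ H) ↔ ¬ (y ∈ clus S ω x)
      tauto
    rw [h2]
    exact (meas_clus S x y).compl

/-- an integral over the event that the cluster of `x` is finite, as a sum over clusters -/
theorem lint_pattern [Countable Γ] (p : ℝ≥0) (hp : p ≤ 1) (S : Finset Γ) (x : Γ)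
    (hfin : Fin0 S p hp) (G : Cfg Γ → ℝ≥0∞) (hG : Measurable G) :
    ∫⁻ ω, G ω ∂(bP Γ p hp)
      = ∑' H : Finset Γ, ∫⁻ ω in {ω | clus S ω x = ↑H}, G ω ∂(bP Γ p hp) := by
  have hdisj : Pairwise (Function.onFun Disjoint
      (fun H : Finset Γ => {ω : Cfg Γ | clus S ω x = ↑H})) := by
    intro H H' hne
    refine Set.disjoint_left.mpr ?_
    intro ω h1 h2
    apply hne
    have h3 : (H : Set Γ) = (H' : Set Γ) := by
      rw [← h1.out, ← h2.out]
    exact Finset.coe_injective h3
  rw [← lintegral_iUnion (fun H => lp_meas S x H) hdisj G]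
  have hae : ∀ᵐ ω ∂(bP Γ p hp), ω ∈ ⋃ H : Finset Γ, {ω : Cfg Γ | clus S ω x = ↑H} := by
    filter_upwards [lp_fin p hp S hfin x] with ω hω
    exact Set.mem_iUnion.mpr ⟨hω.toFinset, by simp⟩
  rw [Measure.restrict_eq_self_of_ae_mem hae]

end Pool.Agent.IIC
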