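import Pool.Agent.IIC.Defs
import Pool.Agent.IIC.P_meas_clus
import Pool.Agent.IIC.P_lint_pattern
import Pool.Agent.IIC.P_explore_le

set_option autoImplicit false
set_option linter.unusedVariables false
set_option linter.unusedSectionVars false

/-!
# Zero density of the incipient infinite cluster: definitions

`Γ` is a group, `S` a finite set (symmetric, generating, in the theorem).  Bond percolation on the
Cayley graph `cay S` is modelled on configurations `Cfg Γ = Sym2 Γ → Bool`; only the bits at edges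
of the Cayley graph are used.
-/

namespace Pool.Agent.IIC
open MeasureTheory ProbabilityTheory
open scoped ENNReal NNReal
variable {Γ : Type} [Group Γ]


/-- explore the cluster of `v`, then use monotonicity for what happens off the cluster -/
theorem explore_sum [Countable Γ] (p : ℝ≥0) (hp : p ≤ 1) (S : Finset Γ) (hS : Symm S)
    (hfin : Fin0 S p hp) (v : Γ) (f : Finset Γ → ℝ≥0∞) (Ψ G : Cfg Γ → ℝ≥0∞)
    (hΨ : Measurable Ψ) (hG : Measurable G)
    (hinc : ∀ ω ω' : Cfg Γ, (∀ e, ω e = true → ω' e = true) → Ψ ω ≤ Ψ ω')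
    (hGle : ∀ (H : Finset Γ) (ω : Cfg Γ), clus S ω v = ↑H → G ω ≤ f H * Ψ (cl S H ω)) :
    ∫⁻ ω, G ω ∂(bP Γ p hp)
      ≤ (∑' H : Finset Γ, f H * bP Γ p hp {ω | clus S ω v = ↑H}) * ∫⁻ ω, Ψ ω ∂(bP Γ p hp) := by
  classical
  rw [lint_pattern p hp S v hfin G hG, ← ENNReal.tsum_mul_right]
  refine ENNReal.tsum_le_tsum fun H => ?_
  have hA : MeasurableSet {ω : Cfg Γ | clus S ω v = ↑H} := by
    have e : {ω : Cfg Γ | clus S ω v = ↑H} = ⋂ y : Γ, {ω : Cfg Γ | y ∈ clus S ω v ↔ y ∈ H} := by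
      ext ω
      simp only [Set.mem_setOf_eq, Set.mem_iInter, Set.ext_iff, Finset.mem_coe]
    rw [e]
    refine MeasurableSet.iInter fun y => ?_
    by_cases hy : y ∈ H
    · simp only [hy, iff_true]
      exact meas_clus S v y
    · simp only [hy, iff_false]
      exact (meas_clus S v y).compl
  calc ∫⁻ ω in {ω | clus S ω v = ↑H}, G ω ∂(bP Γ p hp)
      ≤ ∫⁻ ω in {ω | clus S ω v = ↑H}, (fun _ : Cfg Γ => f H) (kp S H ω) * Ψ (cl S H ω)
          ∂(bP Γ p hp) :=
        setLIntegral_mono' hA (fun ω hω => hGle H ω hω)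
    _ ≤ (∫⁻ ω in {ω | clus S ω v = ↑H}, (fun _ : Cfg Γ => f H) (kp S H ω) ∂(bP Γ p hp)) *
          ∫⁻ ω, Ψ ω ∂(bP Γ p hp) := explore_le p hp S hS v H (fun _ => f H) Ψ hΨ hinc
    _ = f H * bP Γ p hp {ω | clus S ω v = ↑H} * ∫⁻ ω, Ψ ω ∂(bP Γ p hp) := by
        rw [setLIntegral_const]

end Pool.Agent.IIC
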