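import Pool.Agent.IIC.Defs
import Pool.Agent.IIC.P_meas_clus
import Pool.Agent.IIC.P_meas_R
import Pool.Agent.IIC.P_meas_sz

set_option autoImplicit false
set_option linter.unusedVariables false
set_option linter.unusedSectionVars false

/-!
# Zero density of the incipient infinite cluster: definitions

`Γ` is a group, `S` a finite set (symmetric, generating, in the theorem).  Bond percolation on the
Cayley graph `cay S` is modelled on configurations `Cfg Γ = Sym2 Γ → Bool`; only the bits at edges
of the Cayley graph are used.
-/

namespace Pool.Agent.IIC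
open MeasureTheory ProbabilityTheory
open scoped ENNReal NNReal
variable {Γ : Type} [Group Γ]


theorem meas_frac [Countable Γ] (S : Finset Γ) (n : ℕ) (x : Γ) :
    Measurable (fun ω : Cfg Γ => frac S n x ω) := by
  classical
  have h1 : Measurable (fun ω : Cfg Γ =>
      (({z | z ∈ clus S ω x ∧ R S n z ω}.encard : ℕ∞) : ℝ≥0∞)) := by
    have e : ∀ ω : Cfg Γ, (({z | z ∈ clus S ω x ∧ R S n z ω}.encard : ℕ∞) : ℝ≥0∞) =
        ∑' z : Γ, Set.indicator {ω : Cfg Γ | z ∈ clus S ω x ∧ R S n z ω}
          (fun _ => (1 : ℝ≥0∞)) ω := by
      intro ω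
      rw [← ENNReal.tsum_set_one, tsum_subtype {z | z ∈ clus S ω x ∧ R S n z ω}
        (fun _ => (1 : ℝ≥0∞))]
      refine tsum_congr fun z => ?_
      simp only [Set.indicator_apply, Set.mem_setOf_eq]
    simp only [e]
    refine Measurable.tsum ?_
    intro z
    exact measurable_const.indicator ((meas_clus S x z).inter (meas_R S n z))
  exact h1.div (meas_sz S x)

end Pool.Agent.IIC
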