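import Pool.Agent.IIC.Defs
import Pool.Agent.IIC.P_meas_clus
import Pool.Agent.IIC.P_meas_sz
import Pool.Agent.IIC.P_CovDefs
import Pool.Agent.IIC.P_meas_frac

set_option autoImplicit false
set_option linter.unusedVariables false
set_option linter.unusedSectionVars false

/-!
# Zero density of the incipient infinite cluster: definitions

`Γ` is a group, `S` a finite set (symmetric, generating, in the theorem).  Bond percolation on the
Cayley graph `cay S` is modelled on configurations `Cfg Γ = Sym2 Γ → Bool`; only the bits at edges
of the Cayley graph are used.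
-/

namespace Pool.Agent.IIC
open MeasureTheory ProbabilityTheory
open scoped ENNReal NNReal
variable {Γ : Type} [Group Γ]


theorem meas_t1 [Countable Γ] (S : Finset Γ) (n K L : ℕ) (v x y : Γ) :
    Measurable (t1 S n K L v x y) := by
  have hm : MeasurableSet {ω : Cfg Γ | x ∈ clus S ω v ∧ y ∉ clus S ω v} :=
    (meas_clus S v x).inter (meas_clus S v y).compl
  have hs : MeasurableSet {ω : Cfg Γ | (K : ℝ≥0∞) < sz S ω y} :=
    measurableSet_lt measurable_const (meas_sz S y)
  have h1 : Measurable (fun ω : Cfg Γ =>
      frac S n v ω * (Set.indicator {ω | (K : ℝ≥0∞) < sz S ω y} (fun _ => 1) ω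
        + (K : ℝ≥0∞) / L)) := by
    apply (meas_frac S n v).mul
    exact (measurable_const.indicator hs).add measurable_const
  exact h1.indicator hm

end Pool.Agent.IIC
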