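import Pool.Agent.IIC.Defs
import Pool.Agent.IIC.P_sz_shift
import Pool.Agent.IIC.P_meas_sz
import Pool.Agent.IIC.P_shift_mp

set_option autoImplicit false
set_option linter.unusedVariables false
set_option linter.unusedSectionVars false

/-!
# Zero density of the incipient infinite cluster: definitions

`Γ` is a group, `S` a finite set (symmetric, generating, in the theorem).  Bond percolation on the
Cayley graph `cay S` is modelled on configurations `Cfg Γ = Sym2 Γ → Bool`; only the bits at edges
of the Cayley graph are used.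
-/

namespace Pool.Agent.IIC
open MeasureTheory ProbabilityTheory
open scoped ENNReal NNReal
variable {Γ : Type} [Group Γ]


theorem psi_shiftC [Countable Γ] (p : ℝ≥0) (hp : p ≤ 1) (S : Finset Γ) (K : ℕ) (x : Γ) :
    bP Γ p hp {ω | (K : ℝ≥0∞) < sz S ω x} = psi S p hp K := by
  have h1 : MeasurableSet {ω : Cfg Γ | (K : ℝ≥0∞) < sz S ω x} :=
    measurableSet_lt measurable_const (meas_sz S x)
  have h2 := (shift_mp p hp x).measure_preimage h1.nullMeasurableSet
  rw [← h2]
  unfold psi
  congr 1
  ext ω
  show (K : ℝ≥0∞) < sz S (shift x ω) x ↔ (K : ℝ≥0∞) < sz S ω 1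
  have h3 := sz_shift (S := S) x ω 1
  rw [mul_one] at h3
  rw [h3]

end Pool.Agent.IIC
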