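import Pool.Agent.IIC.Defs
import Pool.Agent.IIC.P_meas_clus
import Pool.Agent.IIC.P_shift_mp
import Pool.Agent.IIC.P_lint_pattern
import Pool.Agent.IIC.P_Z_mtp
import Pool.Agent.IIC.P_CovDefs
import Pool.Agent.IIC.P_frac_eq
import Pool.Agent.IIC.P_meas_frac
import Pool.Agent.IIC.P_frac_shift

set_option autoImplicit false
set_option linter.unusedVariables false
set_option linter.unusedSectionVars false

/-!
# Zero density of the incipient infinite cluster: definitions

`Γ` is a group, `S` a finite set (symmetric, generating, in the theorem).  Bond percolation on the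
Cayley graph `cay S` is modelled on configurations `Cfg Γ = Sym2 Γ → Bool`; only the bits at edges
of the Cayley graph are used.
-/

namespace Pool.Agent.IIC
open MeasureTheory ProbabilityTheory
open scoped ENNReal NNReal
variable {Γ : Type} [Group Γ]


theorem sum_fr_meas [Countable Γ] (S : Finset Γ) (v : Γ) (H : Finset Γ) :
    MeasurableSet {ω : Cfg Γ | clus S ω v = ↑H} := by
  have e : {ω : Cfg Γ | clus S ω v = ↑H} = ⋂ y : Γ, {ω : Cfg Γ | y ∈ clus S ω v ↔ y ∈ H} := by
    ext ω
    simp only [Set.mem_setOf_eq, Set.mem_iInter, Set.ext_iff, Finset.mem_coe]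
  rw [e]
  refine MeasurableSet.iInter (fun y => ?_)
  by_cases hy : y ∈ H
  · simp only [hy, iff_true]
    exact meas_clus S v y
  · simp only [hy, iff_false]
    exact (meas_clus S v y).compl

theorem sum_fr [Countable Γ] (p : ℝ≥0) (hp : p ≤ 1) (S : Finset Γ) (hS : Symm S)
    (hfin : Fin0 S p hp) (n : ℕ) (v : Γ) :
    ∑' H : Finset Γ, fr S n (H : Set Γ) * bP Γ p hp {ω | clus S ω v = ↑H} = Z S p hp n := by
  have h1 : ∫⁻ ω, frac S n v ω ∂(bP Γ p hp) = Z S p hp n := by
    rw [← Z_mtp hS p hp hfin n, ← (shift_mp p hp v).lintegral_comp (meas_frac S n v)]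
    refine lintegral_congr (fun ω => ?_)
    have h2 := frac_shift (S := S) n v ω 1
    rw [mul_one] at h2
    exact h2
  rw [← h1, lint_pattern p hp S v hfin _ (meas_frac S n v)]
  refine tsum_congr (fun H => ?_)
  have h3 : ∫⁻ ω in {ω | clus S ω v = ↑H}, frac S n v ω ∂(bP Γ p hp) =
      ∫⁻ ω in {ω | clus S ω v = ↑H}, fr S n (H : Set Γ) ∂(bP Γ p hp) := by
    refine setLIntegral_congr_fun (sum_fr_meas S v H) (fun ω hω => ?_)
    have hω' : clus S ω v = ↑H := hω
    show frac S n v ω = fr S n (H : Set Γ)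
    rw [frac_eq, hω']
  rw [h3, setLIntegral_const]

end Pool.Agent.IIC
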