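import Pool.Agent.IIC.Defs
import Pool.Agent.IIC.P_clus_mono
import Pool.Agent.IIC.P_clus_cl
import Pool.Agent.IIC.P_meas_sz
import Pool.Agent.IIC.P_CovDefs
import Pool.Agent.IIC.P_frac_eq
import Pool.Agent.IIC.P_meas_t1
import Pool.Agent.IIC.P_explore_sum
import Pool.Agent.IIC.P_sum_fr
import Pool.Agent.IIC.P_psi_shift

set_option autoImplicit false
set_option linter.unusedVariables false
set_option linter.unusedSectionVars false

/-!
# Zero density of the incipient infinite cluster: definitions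

`Γ` is a group, `S` a finite set (symmetric, generating, in the theorem).  Bond percolation on the
Cayley graph `cay S` is modelled on configurations `Cfg Γ = Sym2 Γ → Bool`; only the bits at edges
of the Cayley graph are used.
-/

namespace Pool.Agent.IIC
open MeasureTheory ProbabilityTheory
open scoped ENNReal NNReal
variable {Γ : Type} [Group Γ]


theorem int_t1 [Countable Γ] (p : ℝ≥0) (hp : p ≤ 1) (S : Finset Γ) (hS : Symm S)
    (hfin : Fin0 S p hp) (n K L : ℕ) (v x y : Γ) :
    ∫⁻ ω, t1 S n K L v x y ω ∂(bP Γ p hp) ≤ Z S p hp n * (psi S p hp K + (K : ℝ≥0∞) / L) := by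
  classical
  obtain ⟨A, hA⟩ : ∃ A : Set (Cfg Γ), A = {ω | (K : ℝ≥0∞) < sz S ω y} := ⟨_, rfl⟩
  have hAm : ∀ ω, ω ∈ A ↔ (K : ℝ≥0∞) < sz S ω y := by
    intro ω
    rw [hA]
    exact Iff.rfl
  obtain ⟨Ψ, hΨ⟩ : ∃ Ψ : Cfg Γ → ℝ≥0∞, ∀ ω, Ψ ω =
      Set.indicator A (fun _ => 1) ω + (K : ℝ≥0∞) / L := ⟨_, fun _ => rfl⟩
  have hms : MeasurableSet A := by
    rw [hA]
    exact measurableSet_lt measurable_const (meas_sz S y)
  have hindm : Measurable (Set.indicator A (fun _ : Cfg Γ => (1 : ℝ≥0∞))) :=
    measurable_const.indicator hms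
  have hΨm : Measurable Ψ := by
    have h1 : Ψ = fun ω => Set.indicator A (fun _ => 1) ω + (K : ℝ≥0∞) / L := funext hΨ
    rw [h1]
    exact hindm.add measurable_const
  have hinc : ∀ ω ω' : Cfg Γ, (∀ e, ω e = true → ω' e = true) → Ψ ω ≤ Ψ ω' := by
    intro ω ω' h
    rw [hΨ, hΨ]
    refine add_le_add ?_ le_rfl
    by_cases h1 : ω ∈ A
    · have h2 : ω' ∈ A := by
        rw [hAm] at h1 ⊢
        refine lt_of_lt_of_le h1 ?_
        unfold sz
        exact_mod_cast Set.encard_mono (clus_mono h y)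
      rw [Set.indicator_of_mem h1, Set.indicator_of_mem h2]
    · rw [Set.indicator_of_notMem h1]
      exact bot_le
  have hGle : ∀ (H : Finset Γ) (ω : Cfg Γ), clus S ω v = ↑H →
      t1 S n K L v x y ω ≤ fr S n (H : Set Γ) * Ψ (cl S H ω) := by
    intro H ω hH
    unfold t1
    rw [← hA]
    by_cases h1 : ω ∈ {ω | x ∈ clus S ω v ∧ y ∉ clus S ω v}
    · rw [Set.indicator_of_mem h1]
      have hy : y ∉ H := by
        have h2 := h1.2
        rw [hH] at h2
        exact_mod_cast h2
      have hcl := clus_cl hS H ω v y hH hy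
      have hsz : sz S (cl S H ω) y = sz S ω y := by
        unfold sz
        rw [hcl]
      rw [frac_eq, hH, hΨ]
      have h3 : Set.indicator A (fun _ => (1 : ℝ≥0∞)) (cl S H ω) =
          Set.indicator A (fun _ => (1 : ℝ≥0∞)) ω := by
        by_cases h2 : ω ∈ A
        · have h4 : cl S H ω ∈ A := by
            rw [hAm] at h2 ⊢
            rwa [hsz]
          rw [Set.indicator_of_mem h2, Set.indicator_of_mem h4]
        · have h4 : cl S H ω ∉ A := by
            rw [hAm] at h2 ⊢
            rwa [hsz]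
          rw [Set.indicator_of_notMem h2, Set.indicator_of_notMem h4]
      rw [h3]
    · rw [Set.indicator_of_notMem h1]
      exact bot_le
  have hmain := explore_sum p hp S hS hfin v (fun H => fr S n (H : Set Γ)) Ψ
    (t1 S n K L v x y) hΨm (meas_t1 S n K L v x y) hinc hGle
  rw [sum_fr p hp S hS hfin n v] at hmain
  have hint : ∫⁻ ω, Ψ ω ∂(bP Γ p hp) = psi S p hp K + (K : ℝ≥0∞) / L := by
    simp only [hΨ]
    rw [lintegral_add_left hindm, lintegral_indicator_const hms, lintegral_const, measure_univ,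
      mul_one, one_mul, hA, psi_shiftC]
  rw [hint] at hmain
  exact hmain

end Pool.Agent.IIC
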