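import Pool.Agent.IIC.Defs
import Pool.Agent.IIC.P_R_shift
import Pool.Agent.IIC.P_meas_R
import Pool.Agent.IIC.P_shift_mp

set_option autoImplicit false
set_option linter.unusedVariables false
set_option linter.unusedSectionVars false

/-!
# Zero density of the incipient infinite cluster: definitions

`Γ` is a group, `S` a finite set (symmetric, generating, in the theorem).  Bond percolation on the
Cayley graph `cay S` is modelled on configurations `Cfg Γ = Sym2 Γ → Bool`; only the bits at edges
of the Cayley graph are used.
-/

namespace Pool.Agent.IIC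
open MeasureTheory ProbabilityTheory
open scoped ENNReal NNReal
variable {Γ : Type} [Group Γ]


theorem Z_shift [Countable Γ] (p : ℝ≥0) (hp : p ≤ 1) (S : Finset Γ) (n : ℕ) (x : Γ) :
    bP Γ p hp {ω | R S n x ω} = Z S p hp n := by
  have h := (shift_mp (Γ := Γ) p hp x).measure_preimage
    (meas_R (Γ := Γ) S n x).nullMeasurableSet
  rw [← h]
  unfold Z
  congr 1
  ext ω
  have h2 := R_shift (S := S) n x ω 1
  rw [mul_one] at h2
  exact h2

end Pool.Agent.IIC
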