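import Pool.Agent.IIC.Defs
import Pool.Agent.IIC.P_clus_mono
import Pool.Agent.IIC.P_clus_cl
import Pool.Agent.IIC.P_meas_R
import Pool.Agent.IIC.P_CovDefs
import Pool.Agent.IIC.P_frac_eq
import Pool.Agent.IIC.P_meas_t2
import Pool.Agent.IIC.P_explore_sum
import Pool.Agent.IIC.P_sum_fr
import Pool.Agent.IIC.P_Z_shift

set_option autoImplicit false
set_option linter.unusedVariables false
set_option linter.unusedSectionVars false

/-!
# Zero density of the incipient infinite cluster: definitions

`Γ` is a group, `S` a finite set (symmetric, generating, in the theorem).  Bond percolation on the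
Cayley graph `cay S` is modelled on configurations `Cfg Γ = Sym2 Γ → Bool`; only the bits at edges
of the Cayley graph are used.
-/

namespace Pool.Agent.IIC
open MeasureTheory ProbabilityTheory
open scoped ENNReal NNReal
variable {Γ : Type} [Group Γ]


theorem int_t2 [Countable Γ] (p : ℝ≥0) (hp : p ≤ 1) (S : Finset Γ) (hS : Symm S)
    (hfin : Fin0 S p hp) (n L : ℕ) (v x y : Γ) (hL : L ≤ (cay S).dist x v) :
    ∫⁻ ω, t2 S n v x y ω ∂(bP Γ p hp) ≤ Z S p hp n * Z S p hp L := by
  classical
  have hmR := meas_R S L x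
  have key := explore_sum p hp S hS hfin y (fun H => fr S n (H : Set Γ))
    (Set.indicator {ω : Cfg Γ | R S L x ω} (fun _ => (1 : ℝ≥0∞))) (t2 S n v x y)
    (measurable_const.indicator hmR) (meas_t2 S n v x y) ?_ ?_
  · rw [sum_fr p hp S hS hfin n y, lintegral_indicator hmR, lintegral_const,
      Measure.restrict_apply_univ, one_mul, Z_shift] at key
    exact key
  · intro ω ω' h
    by_cases hω : R S L x ω
    · have hω' : R S L x ω' := by
        obtain ⟨z, hz, hd⟩ := hω
        exact ⟨z, clus_mono h x hz, hd⟩
      rw [Set.indicator_of_mem (show ω ∈ {ω : Cfg Γ | R S L x ω} from hω),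
        Set.indicator_of_mem (show ω' ∈ {ω : Cfg Γ | R S L x ω} from hω')]
    · rw [Set.indicator_of_notMem (show ω ∉ {ω : Cfg Γ | R S L x ω} from hω)]
      exact zero_le
  · intro H ω hH
    unfold t2
    by_cases hω : x ∈ clus S ω v ∧ y ∉ clus S ω v
    · rw [Set.indicator_of_mem (show ω ∈ {ω : Cfg Γ | x ∈ clus S ω v ∧ y ∉ clus S ω v} from hω)]
      have hvH : v ∉ H := by
        intro hv
        apply hω.2
        have : v ∈ clus S ω y := by rw [hH]; exact_mod_cast hv
        exact SimpleGraph.Reachable.symm this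
      have hc := clus_cl hS H ω y v hH hvH
      have hR : R S L x (cl S H ω) := by
        refine ⟨v, ?_, hL⟩
        have h1 : x ∈ clus S (cl S H ω) v := by rw [hc]; exact hω.1
        exact SimpleGraph.Reachable.symm h1
      rw [Set.indicator_of_mem (show cl S H ω ∈ {ω : Cfg Γ | R S L x ω} from hR), mul_one,
        frac_eq, hH]
    · rw [Set.indicator_of_notMem (show ω ∉ {ω : Cfg Γ | x ∈ clus S ω v ∧ y ∉ clus S ω v} from hω)]
      exact zero_le

end Pool.Agent.IIC
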