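import Pool.Agent.IIC.Defs

set_option autoImplicit false
set_option linter.unusedVariables false
set_option linter.unusedSectionVars false

/-!
# Zero density of the incipient infinite cluster: definitions

`Γ` is a group, `S` a finite set (symmetric, generating, in the theorem).  Bond percolation on the
Cayley graph `cay S` is modelled on configurations `Cfg Γ = Sym2 Γ → Bool`; only the bits at edges
of the Cayley graph are used.
-/

namespace Pool.Agent.IIC
open MeasureTheory ProbabilityTheory
open scoped ENNReal NNReal
variable {Γ : Type} [Group Γ]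


theorem tsum_two {α β : Type} (m : α → β) (h : β → ℝ≥0∞)
    (hm : ∀ b : β, {a | m a = b}.encard ≤ 2) : ∑' a, h (m a) ≤ 2 * ∑' b, h b := by
  rw [← ENNReal.tsum_fiberwise (fun a => h (m a)) m, ← ENNReal.tsum_mul_left]
  refine ENNReal.tsum_le_tsum fun b => ?_
  have h1 : ∑' a : m ⁻¹' {b}, h (m a) = ∑' _ : m ⁻¹' {b}, h b := by
    refine tsum_congr fun a => ?_
    have : m a = b := a.2
    rw [this]
  rw [h1, ENNReal.tsum_set_const]
  refine mul_le_mul_left ?_ _
  have h2 : (m ⁻¹' {b}).encard ≤ 2 := hm b
  exact_mod_cast h2

end Pool.Agent.IIC
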