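import Pool.Agent.IIC.Defs
import Pool.Agent.IIC.P_cay_smul
import Pool.Agent.IIC.P_mem_clus_shift
import Pool.Agent.IIC.P_sz_shift
import Pool.Agent.IIC.P_R_shift
import Pool.Agent.IIC.P_meas_clus
import Pool.Agent.IIC.P_meas_R
import Pool.Agent.IIC.P_meas_sz
import Pool.Agent.IIC.P_meas_upd
import Pool.Agent.IIC.P_shift_mp
import Pool.Agent.IIC.P_CovDefs
import Pool.Agent.IIC.P_tsum_two

set_option autoImplicit false
set_option linter.unusedVariables false
set_option linter.unusedSectionVars false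

/-!
# Zero density of the incipient infinite cluster: definitions

`Γ` is a group, `S` a finite set (symmetric, generating, in the theorem).  Bond percolation on the
Cayley graph `cay S` is modelled on configurations `Cfg Γ = Sym2 Γ → Bool`; only the bits at edges
of the Cayley graph are used.
-/

namespace Pool.Agent.IIC
open MeasureTheory ProbabilityTheory
open scoped ENNReal NNReal
variable {Γ : Type} [Group Γ]


theorem it3_upd_shift (g : Γ) (ω : Cfg Γ) (x y : Γ) (b : Bool) :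
    upd (shift g ω) s(g * x, g * y) b = shift g (upd ω s(x, y) b) := by
  classical
  funext e
  have h : e ∈ ({s(g * x, g * y)} : Finset (Sym2 Γ)) ↔
      e.map (fun x => g⁻¹ * x) ∈ ({s(x, y)} : Finset (Sym2 Γ)) := by
    rw [Finset.mem_singleton, Finset.mem_singleton]
    induction e using Sym2.ind with
    | _ a c =>
      simp only [Sym2.map_mk, Sym2.eq_iff, inv_mul_eq_iff_eq_mul]
  unfold upd ovr shift
  by_cases h1 : e ∈ ({s(g * x, g * y)} : Finset (Sym2 Γ))
  · rw [if_pos h1]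
    exact (if_pos (h.1 h1)).symm
  · rw [if_neg h1]
    exact (if_neg (fun h2 => h1 (h.2 h2))).symm

theorem it3_clus_eq (S : Finset Γ) (ω : Cfg Γ) (x z : Γ) (h : z ∈ clus S ω x) :
    clus S ω z = clus S ω x := by
  have h' : (opn S ω).Reachable x z := h
  ext w
  exact ⟨fun hw => h'.trans hw, fun hw => h'.symm.trans hw⟩

theorem it3_piv_shift (S : Finset Γ) (n : ℕ) (g z x y : Γ) (ω : Cfg Γ) :
    piv S n (g * z) s(g * x, g * y) (shift g ω) ↔ piv S n z s(x, y) ω := by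
  unfold piv
  rw [it3_upd_shift, it3_upd_shift, R_shift, R_shift, SimpleGraph.mem_edgeSet,
    SimpleGraph.mem_edgeSet, cay_smul]

theorem it3_meas_piv [Countable Γ] (S : Finset Γ) (n : ℕ) (z : Γ) (e : Sym2 Γ) :
    MeasurableSet {ω : Cfg Γ | piv S n z e ω} := by
  unfold piv
  by_cases h : e ∈ (cay S).edgeSet
  · simp only [h, true_and]
    exact ((meas_upd e true) (meas_R S n z)).inter ((meas_upd e false) (meas_R S n z)).compl
  · simp only [h, false_and]
    exact MeasurableSet.const False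

theorem it3_meas_bit (e : Sym2 Γ) (b : Bool) : MeasurableSet {ω : Cfg Γ | ω e = b} :=
  measurable_pi_apply (X := fun _ : Sym2 Γ => Bool) e (MeasurableSet.singleton b)

theorem it3_pt (S : Finset Γ) (n : ℕ) (x y z : Γ) (ω : Cfg Γ) :
    Set.indicator {ω | ω s(x, y) = true ∧ z ∈ clus S ω x ∧ piv S n z s(x, y) ω}
      (fun ω => (sz S ω x)⁻¹) ω ≤
    Set.indicator {ω | piv S n 1 s(z⁻¹ * x, z⁻¹ * y) ω ∧ ω s(z⁻¹ * x, z⁻¹ * y) = true}
      (fun ω => (sz S ω 1)⁻¹) (shift z⁻¹ ω) := by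
  by_cases h : ω ∈ {ω : Cfg Γ | ω s(x, y) = true ∧ z ∈ clus S ω x ∧ piv S n z s(x, y) ω}
  · obtain ⟨h1, h2, h3⟩ := h
    have h4 : piv S n 1 s(z⁻¹ * x, z⁻¹ * y) (shift z⁻¹ ω) := by
      have := (it3_piv_shift S n z⁻¹ z x y ω).2 h3
      rwa [inv_mul_cancel] at this
    have h5 : shift z⁻¹ ω s(z⁻¹ * x, z⁻¹ * y) = true := by
      unfold shift
      rw [Sym2.map_mk]
      simp only [inv_inv, mul_inv_cancel_left]
      exact h1
    have h6 : sz S (shift z⁻¹ ω) 1 = sz S ω x := by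
      have h7 := sz_shift (S := S) z⁻¹ ω z
      rw [inv_mul_cancel] at h7
      rw [h7]
      unfold sz
      rw [it3_clus_eq S ω x z h2]
    rw [Set.indicator_of_mem (show ω ∈ {ω : Cfg Γ | ω s(x, y) = true ∧ z ∈ clus S ω x ∧
        piv S n z s(x, y) ω} from ⟨h1, h2, h3⟩),
      Set.indicator_of_mem (show shift z⁻¹ ω ∈ {ω : Cfg Γ | piv S n 1 s(z⁻¹ * x, z⁻¹ * y) ω ∧
        ω s(z⁻¹ * x, z⁻¹ * y) = true} from ⟨h4, h5⟩), h6]
  · rw [Set.indicator_of_notMem h]
    exact bot_le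

theorem it3_encard (A : Set Γ) : ((A.encard : ℕ∞) : ℝ≥0∞) =
    ∑' z : Γ, A.indicator (fun _ => (1 : ℝ≥0∞)) z := by
  rw [← tsum_subtype, ENNReal.tsum_set_one]

theorem int_t3 [Countable Γ] (p : ℝ≥0) (hp : p ≤ 1) (S : Finset Γ) (hS : Symm S)
    (n : ℕ) (x y : Γ) :
    ∫⁻ ω in {ω | ω s(x, y) = true}, t3 S n x y ω ∂(bP Γ p hp) ≤ 2 * PI S p hp n := by
  have hG : ∀ z : Γ, Measurable (Set.indicator
      {ω : Cfg Γ | ω s(x, y) = true ∧ z ∈ clus S ω x ∧ piv S n z s(x, y) ω}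
      (fun ω => (sz S ω x)⁻¹)) := fun z =>
    (meas_sz S x).inv.indicator
      ((it3_meas_bit s(x, y) true).inter ((meas_clus S x z).inter (it3_meas_piv S n z s(x, y))))
  have hH : ∀ e : Sym2 Γ, Measurable (Set.indicator
      {ω : Cfg Γ | piv S n 1 e ω ∧ ω e = true} (fun ω => (sz S ω 1)⁻¹)) := fun e =>
    (meas_sz S 1).inv.indicator ((it3_meas_piv S n 1 e).inter (it3_meas_bit e true))
  have h1 : ∫⁻ ω in {ω | ω s(x, y) = true}, t3 S n x y ω ∂(bP Γ p hp) =
      ∑' z : Γ, ∫⁻ ω, Set.indicator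
        {ω : Cfg Γ | ω s(x, y) = true ∧ z ∈ clus S ω x ∧ piv S n z s(x, y) ω}
        (fun ω => (sz S ω x)⁻¹) ω ∂(bP Γ p hp) := by
    rw [← lintegral_tsum fun z => (hG z).aemeasurable,
      ← lintegral_indicator (it3_meas_bit s(x, y) true)]
    congr 1
    funext ω
    by_cases h : ω s(x, y) = true
    · rw [Set.indicator_of_mem (show ω ∈ {ω : Cfg Γ | ω s(x, y) = true} from h)]
      unfold t3
      rw [it3_encard, div_eq_mul_inv, ← ENNReal.tsum_mul_right]
      refine tsum_congr fun z => ?_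
      by_cases h2 : z ∈ clus S ω x ∧ piv S n z s(x, y) ω
      · rw [Set.indicator_of_mem (show z ∈ {z | z ∈ clus S ω x ∧ piv S n z s(x, y) ω} from h2),
          Set.indicator_of_mem (show ω ∈ {ω : Cfg Γ | ω s(x, y) = true ∧ z ∈ clus S ω x ∧
            piv S n z s(x, y) ω} from ⟨h, h2⟩), one_mul]
      · rw [Set.indicator_of_notMem (show z ∉ {z | z ∈ clus S ω x ∧ piv S n z s(x, y) ω} from h2),
          Set.indicator_of_notMem (show ω ∉ {ω : Cfg Γ | ω s(x, y) = true ∧ z ∈ clus S ω x ∧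
            piv S n z s(x, y) ω} from fun hh => h2 hh.2), zero_mul]
    · rw [Set.indicator_of_notMem (show ω ∉ {ω : Cfg Γ | ω s(x, y) = true} from h)]
      symm
      rw [ENNReal.tsum_eq_zero]
      intro z
      exact Set.indicator_of_notMem (fun hh => h hh.1) _
  rw [h1]
  have h2 : ∀ z : Γ, ∫⁻ ω, Set.indicator
        {ω : Cfg Γ | ω s(x, y) = true ∧ z ∈ clus S ω x ∧ piv S n z s(x, y) ω}
        (fun ω => (sz S ω x)⁻¹) ω ∂(bP Γ p hp) ≤
      ∫⁻ ω in {ω | piv S n 1 s(z⁻¹ * x, z⁻¹ * y) ω ∧ ω s(z⁻¹ * x, z⁻¹ * y) = true},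
        (sz S ω 1)⁻¹ ∂(bP Γ p hp) := by
    intro z
    refine (lintegral_mono fun ω => it3_pt S n x y z ω).trans ?_
    rw [(shift_mp p hp z⁻¹).lintegral_comp (hH s(z⁻¹ * x, z⁻¹ * y))]
    exact (lintegral_indicator ((it3_meas_piv S n 1 _).inter (it3_meas_bit _ true)) _).le
  refine (ENNReal.tsum_le_tsum h2).trans ?_
  refine tsum_two (fun z : Γ => s(z⁻¹ * x, z⁻¹ * y)) (fun e =>
    ∫⁻ ω in {ω | piv S n 1 e ω ∧ ω e = true}, (sz S ω 1)⁻¹ ∂(bP Γ p hp)) ?_
  intro b
  induction b using Sym2.ind with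
  | _ c d =>
    have hsub : {a : Γ | s(a⁻¹ * x, a⁻¹ * y) = s(c, d)} ⊆ {x * c⁻¹, x * d⁻¹} := by
      intro a ha
      have ha' : s(a⁻¹ * x, a⁻¹ * y) = s(c, d) := ha
      rw [Sym2.eq_iff] at ha'
      rcases ha' with ⟨h3, -⟩ | ⟨h3, -⟩
      · left
        rw [← h3]; group
      · right
        rw [Set.mem_singleton_iff, ← h3]; group
    refine (Set.encard_le_encard hsub).trans ((Set.encard_insert_le _ _).trans ?_)
    rw [Set.encard_singleton]
    exact le_of_eq (by norm_num)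

end Pool.Agent.IIC
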