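import Pool.Agent.IIC.Defs
import Pool.Agent.IIC.P_mem_clus_shift
import Pool.Agent.IIC.P_sz_shift
import Pool.Agent.IIC.P_R_shift
import Pool.Agent.IIC.P_meas_clus
import Pool.Agent.IIC.P_meas_R
import Pool.Agent.IIC.P_meas_sz
import Pool.Agent.IIC.P_mtp

set_option autoImplicit false
set_option linter.unusedVariables false
set_option linter.unusedSectionVars false

/-!
# Zero density of the incipient infinite cluster: definitions

`Γ` is a group, `S` a finite set (symmetric, generating, in the theorem).  Bond percolation on the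
Cayley graph `cay S` is modelled on configurations `Cfg Γ = Sym2 Γ → Bool`; only the bits at edges
of the Cayley graph are used.
-/

namespace Pool.Agent.IIC
open MeasureTheory ProbabilityTheory
open scoped ENNReal NNReal
variable {Γ : Type} [Group Γ]


theorem phiZ_mtp [Countable Γ] {S : Finset Γ} (hS : Symm S) (p : ℝ≥0) (hp : p ≤ 1) (n : ℕ)
    (v : Γ) : phiZ S p hp n v = ∫⁻ ω in {ω | v ∈ clus S ω 1}, frac S n 1 ω ∂(bP Γ p hp) := by
  classical
  have hsymm : ∀ (ω : Cfg Γ) (x y : Γ), y ∈ clus S ω x → clus S ω y = clus S ω x := by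
    intro ω x y h
    ext z
    exact ⟨fun h2 => SimpleGraph.Reachable.trans h h2, fun h2 => SimpleGraph.Reachable.trans (SimpleGraph.Reachable.symm h) h2⟩
  have hself : ∀ (ω : Cfg Γ) (x : Γ), x ∈ clus S ω x := fun ω x => SimpleGraph.Reachable.refl x
  let A : Γ → Γ → Set (Cfg Γ) := fun x y => {ω | R S n x ω ∧ y ∈ clus S ω x ∧ y * v ∈ clus S ω x}
  have hA : ∀ x y, MeasurableSet (A x y) := by
    intro x y
    exact (meas_R S n x).inter ((meas_clus S x y).inter (meas_clus S x (y * v)))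
  let F : Γ → Γ → Cfg Γ → ℝ≥0∞ := fun x y => (A x y).indicator (fun ω => (sz S ω x)⁻¹)
  have hF : ∀ x y, Measurable (F x y) := by
    intro x y
    exact (meas_sz S x).inv.indicator (hA x y)
  have hinv : ∀ g x y ω, F (g * x) (g * y) (shift g ω) = F x y ω := by
    intro g x y ω
    have h1 : (shift g ω ∈ A (g * x) (g * y)) ↔ ω ∈ A x y := by
      show (R S n (g * x) (shift g ω) ∧ g * y ∈ clus S (shift g ω) (g * x) ∧ g * y * v ∈ clus S (shift g ω) (g * x)) ↔ (R S n x ω ∧ y ∈ clus S ω x ∧ y * v ∈ clus S ω x)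
      rw [R_shift, mem_clus_shift, mul_assoc, mem_clus_shift]
    show (A (g * x) (g * y)).indicator (fun ω => (sz S ω (g * x))⁻¹) (shift g ω) = (A x y).indicator (fun ω => (sz S ω x)⁻¹) ω
    by_cases h : ω ∈ A x y
    · rw [Set.indicator_of_mem h, Set.indicator_of_mem (h1.2 h), sz_shift]
    · rw [Set.indicator_of_notMem h, Set.indicator_of_notMem (fun h2 => h (h1.1 h2))]
  have h := mtp p hp F hF hinv
  have hL : phiZ S p hp n v = ∑' y, ∫⁻ ω, F 1 y ω ∂(bP Γ p hp) := by
    unfold phiZ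
    refine tsum_congr (fun ρ => ?_)
    rw [← lintegral_indicator (hA 1 ρ)]
  rw [hL, h, ← lintegral_tsum (fun y => (hF y 1).aemeasurable), ← lintegral_indicator (meas_clus S 1 v)]
  refine lintegral_congr (fun ω => ?_)
  by_cases hv : v ∈ clus S ω 1
  · rw [Set.indicator_of_mem (show ω ∈ {ω : Cfg Γ | v ∈ clus S ω 1} from hv)]
    have h2 : ∀ y, F y 1 ω = ({z | z ∈ clus S ω 1 ∧ R S n z ω} : Set Γ).indicator (fun _ => (sz S ω 1)⁻¹) y := by
      intro y
      by_cases hy : y ∈ clus S ω 1 ∧ R S n y ω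
      · rw [Set.indicator_of_mem (show y ∈ {z | z ∈ clus S ω 1 ∧ R S n z ω} from hy)]
        have h3 := hsymm ω 1 y hy.1
        have h4 : ω ∈ A y 1 := by
          refine ⟨hy.2, ?_, ?_⟩
          · rw [h3]; exact hself ω 1
          · rw [h3, one_mul]; exact hv
        show (A y 1).indicator (fun ω => (sz S ω y)⁻¹) ω = _
        rw [Set.indicator_of_mem h4]
        show (sz S ω y)⁻¹ = (sz S ω 1)⁻¹
        unfold sz
        rw [h3]
      · rw [Set.indicator_of_notMem (show y ∉ {z | z ∈ clus S ω 1 ∧ R S n z ω} from hy)]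
        show (A y 1).indicator (fun ω => (sz S ω y)⁻¹) ω = _
        rw [Set.indicator_of_notMem]
        intro h5
        have h6 : (1 : Γ) ∈ clus S ω y := h5.2.1
        exact hy ⟨SimpleGraph.Reachable.symm h6, h5.1⟩
    simp_rw [h2]
    rw [← tsum_subtype, ENNReal.tsum_set_const]
    unfold frac
    rw [div_eq_mul_inv]
  · rw [Set.indicator_of_notMem (show ω ∉ {ω : Cfg Γ | v ∈ clus S ω 1} from hv)]
    refine ENNReal.tsum_eq_zero.2 (fun y => ?_)
    show (A y 1).indicator (fun ω => (sz S ω y)⁻¹) ω = _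
    rw [Set.indicator_of_notMem]
    intro h5
    have h6 : (1 : Γ) ∈ clus S ω y := h5.2.1
    have h7 : 1 * v ∈ clus S ω y := h5.2.2
    rw [one_mul, ← hsymm ω y 1 h6] at h7
    exact hv h7
end Pool.Agent.IIC
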