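import Pool.Agent.IIC.Defs
import Pool.Agent.IIC.P_CovDefs
import Pool.Agent.IIC.P_R_local
import Pool.Agent.IIC.P_cov_ineq
import Pool.Agent.IIC.P_flip_down
import Pool.Agent.IIC.P_flip_up
import Pool.Agent.IIC.P_frac_eq
import Pool.Agent.IIC.P_frac_shift
import Pool.Agent.IIC.P_int_t1
import Pool.Agent.IIC.P_int_t2
import Pool.Agent.IIC.P_int_t3
import Pool.Agent.IIC.P_meas_frac
import Pool.Agent.IIC.P_meas_t1
import Pool.Agent.IIC.P_meas_t2
import Pool.Agent.IIC.P_meas_t3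
import Pool.Agent.IIC.P_phiZ_mtp
import Pool.Agent.IIC.P_Z_mtp
import Pool.Agent.IIC.P_cay_conn
import Pool.Agent.IIC.P_mem_T
import Pool.Agent.IIC.P_mem_ball
import Pool.Agent.IIC.P_meas_clus
import Pool.Agent.IIC.P_meas_R
import Pool.Agent.IIC.P_meas_upd
import Pool.Agent.IIC.P_shift_mp
import Pool.Agent.IIC.P_flip_true
import Pool.Agent.IIC.P_flip_false

set_option autoImplicit false
set_option linter.unusedVariables false
set_option linter.unusedSectionVars false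

namespace Pool.Agent.IIC

open MeasureTheory ProbabilityTheory
open scoped ENNReal NNReal

variable {Γ : Type} [Group Γ]

/-- the total error at the edge `s(x, y)` -/
noncomputable def cov_dd (S : Finset Γ) (n K L : ℕ) (v x y : Γ) (ω : Cfg Γ) : ℝ≥0∞ :=
  (t1 S n K L v x y (upd ω s(x, y) false) + t1 S n K L v y x (upd ω s(x, y) false)
    + (t2 S n v x y (upd ω s(x, y) false) + t2 S n v y x (upd ω s(x, y) false)))
    + (t3 S n x y (upd ω s(x, y) true) + t3 S n y x (upd ω s(x, y) true))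

theorem cov_meas_dd [Countable Γ] (S : Finset Γ) (n K L : ℕ) (v x y : Γ) :
    Measurable (cov_dd S n K L v x y) := by
  unfold cov_dd
  have hu : ∀ b, Measurable (fun ω : Cfg Γ => upd ω s(x, y) b) := fun b => meas_upd _ _
  exact (((meas_t1 S n K L v x y).comp (hu false)).add ((meas_t1 S n K L v y x).comp (hu false)) |>.add
    (((meas_t2 S n v x y).comp (hu false)).add ((meas_t2 S n v y x).comp (hu false)))).add
    (((meas_t3 S n x y).comp (hu true)).add ((meas_t3 S n y x).comp (hu true)))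

theorem cov_int_upd_false [Countable Γ] (p : ℝ≥0) (hp : p ≤ 1) (hp1 : p < 1) (e : Sym2 Γ)
    (G : Cfg Γ → ℝ≥0∞) (hG : Measurable G) :
    ∫⁻ ω, G (upd ω e false) ∂(bP Γ p hp)
      ≤ ((1 - p : ℝ≥0) : ℝ≥0∞)⁻¹ * ∫⁻ ω, G ω ∂(bP Γ p hp) := by
  have h0 : ((1 - p : ℝ≥0) : ℝ≥0∞) ≠ 0 :=
    ENNReal.coe_ne_zero.2 (tsub_pos_of_lt hp1).ne'
  have h1 : ((1 - p : ℝ≥0) : ℝ≥0∞) ≠ ⊤ := ENNReal.coe_ne_top
  have h := flip_false p hp e G hG
  calc ∫⁻ ω, G (upd ω e false) ∂(bP Γ p hp)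
      = ((1 - p : ℝ≥0) : ℝ≥0∞)⁻¹ * (((1 - p : ℝ≥0) : ℝ≥0∞) * ∫⁻ ω, G (upd ω e false) ∂(bP Γ p hp)) := by
        rw [← mul_assoc, ENNReal.inv_mul_cancel h0 h1, one_mul]
    _ = ((1 - p : ℝ≥0) : ℝ≥0∞)⁻¹ * ∫⁻ ω in {ω | ω e = false}, G ω ∂(bP Γ p hp) := by rw [h]
    _ ≤ _ := by gcongr; exact Measure.restrict_le_self

theorem cov_int_upd_true [Countable Γ] (p : ℝ≥0) (hp : p ≤ 1) (hp0 : 0 < p) (e : Sym2 Γ)
    (G : Cfg Γ → ℝ≥0∞) (hG : Measurable G) :
    ∫⁻ ω, G (upd ω e true) ∂(bP Γ p hp)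
      = (p : ℝ≥0∞)⁻¹ * ∫⁻ ω in {ω | ω e = true}, G ω ∂(bP Γ p hp) := by
  have h0 : (p : ℝ≥0∞) ≠ 0 := by simpa using hp0.ne'
  have h1 : (p : ℝ≥0∞) ≠ ⊤ := ENNReal.coe_ne_top
  have h := flip_true p hp e G hG
  rw [h, ← mul_assoc, ENNReal.inv_mul_cancel h0 h1, one_mul]

theorem cov_int_dd [Countable Γ] {S : Finset Γ} (hS : Symm S) (p : ℝ≥0) (hp : p ≤ 1)
    (hp0 : 0 < p) (hp1 : p < 1) (hfin : Fin0 S p hp) (n K L : ℕ) (v x y : Γ)
    (hx : L ≤ (cay S).dist x v) (hy : L ≤ (cay S).dist y v) :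
    ∫⁻ ω, cov_dd S n K L v x y ω ∂(bP Γ p hp)
      ≤ 2 * (((1 - p : ℝ≥0) : ℝ≥0∞)⁻¹ * (Z S p hp n * (psi S p hp K + (K : ℝ≥0∞) / L)))
        + 2 * (((1 - p : ℝ≥0) : ℝ≥0∞)⁻¹ * (Z S p hp n * Z S p hp L))
        + 2 * ((p : ℝ≥0∞)⁻¹ * (2 * PI S p hp n)) := by
  have hu : ∀ b, Measurable (fun ω : Cfg Γ => upd ω s(x, y) b) := fun b => meas_upd _ _
  have m1 := (meas_t1 S n K L v x y).comp (hu false)
  have m1' := (meas_t1 S n K L v y x).comp (hu false)
  have m2 := (meas_t2 S n v x y).comp (hu false)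
  have m2' := (meas_t2 S n v y x).comp (hu false)
  have m3 := (meas_t3 S n x y).comp (hu true)
  have m3' := (meas_t3 S n y x).comp (hu true)
  have e1 : ∫⁻ ω, t1 S n K L v x y (upd ω s(x, y) false) ∂(bP Γ p hp)
      ≤ ((1 - p : ℝ≥0) : ℝ≥0∞)⁻¹ * (Z S p hp n * (psi S p hp K + (K : ℝ≥0∞) / L)) :=
    (cov_int_upd_false p hp hp1 _ _ (meas_t1 S n K L v x y)).trans
      (by gcongr; exact int_t1 p hp S hS hfin n K L v x y)
  have e1' : ∫⁻ ω, t1 S n K L v y x (upd ω s(x, y) false) ∂(bP Γ p hp)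
      ≤ ((1 - p : ℝ≥0) : ℝ≥0∞)⁻¹ * (Z S p hp n * (psi S p hp K + (K : ℝ≥0∞) / L)) :=
    (cov_int_upd_false p hp hp1 _ _ (meas_t1 S n K L v y x)).trans
      (by gcongr; exact int_t1 p hp S hS hfin n K L v y x)
  have e2 : ∫⁻ ω, t2 S n v x y (upd ω s(x, y) false) ∂(bP Γ p hp)
      ≤ ((1 - p : ℝ≥0) : ℝ≥0∞)⁻¹ * (Z S p hp n * Z S p hp L) :=
    (cov_int_upd_false p hp hp1 _ _ (meas_t2 S n v x y)).trans
      (by gcongr; exact int_t2 p hp S hS hfin n L v x y hx)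
  have e2' : ∫⁻ ω, t2 S n v y x (upd ω s(x, y) false) ∂(bP Γ p hp)
      ≤ ((1 - p : ℝ≥0) : ℝ≥0∞)⁻¹ * (Z S p hp n * Z S p hp L) :=
    (cov_int_upd_false p hp hp1 _ _ (meas_t2 S n v y x)).trans
      (by gcongr; exact int_t2 p hp S hS hfin n L v y x hy)
  have e3 : ∫⁻ ω, t3 S n x y (upd ω s(x, y) true) ∂(bP Γ p hp)
      ≤ (p : ℝ≥0∞)⁻¹ * (2 * PI S p hp n) := by
    rw [cov_int_upd_true p hp hp0 _ _ (meas_t3 S n x y)]
    gcongr
    exact int_t3 p hp S hS n x y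
  have e3' : ∫⁻ ω, t3 S n y x (upd ω s(x, y) true) ∂(bP Γ p hp)
      ≤ (p : ℝ≥0∞)⁻¹ * (2 * PI S p hp n) := by
    rw [Sym2.eq_swap, cov_int_upd_true p hp hp0 _ _ (meas_t3 S n y x)]
    gcongr
    exact int_t3 p hp S hS n y x
  unfold cov_dd
  simp only [Function.comp_def] at m1 m1' m2 m2' m3 m3'
  have s1 := lintegral_add_left (μ := bP Γ p hp) m1
    (fun ω => t1 S n K L v y x (upd ω s(x, y) false))
  have s2 := lintegral_add_left (μ := bP Γ p hp) m2
    (fun ω => t2 S n v y x (upd ω s(x, y) false))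
  have s3 := lintegral_add_left (μ := bP Γ p hp) m3
    (fun ω => t3 S n y x (upd ω s(x, y) true))
  have s4 := lintegral_add_left (μ := bP Γ p hp) (m1.add m1')
    (fun ω => t2 S n v x y (upd ω s(x, y) false) + t2 S n v y x (upd ω s(x, y) false))
  have s5 := lintegral_add_left (μ := bP Γ p hp) ((m1.add m1').add (m2.add m2'))
    (fun ω => t3 S n x y (upd ω s(x, y) true) + t3 S n y x (upd ω s(x, y) true))
  simp only [Pi.add_apply] at s4 s5
  rw [s5, s4, s1, s2, s3, two_mul, two_mul, two_mul]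
  exact add_le_add (add_le_add (add_le_add e1 e1') (add_le_add e2 e2')) (add_le_add e3 e3')

/-- the covariance bound -/
theorem cov_bound [Countable Γ] {S : Finset Γ} (hS : Symm S) (hg : Gen S) (p : ℝ≥0) (hp : p ≤ 1)
    (hp0 : 0 < p) (hp1 : p < 1) (hfin : Fin0 S p hp) (r : ℕ) :
    ∃ Cr : ℝ≥0, ∀ (K n : ℕ) (v : Γ), r + 1 < (cay S).dist 1 v →
      phiZ S p hp n v ≤ Z S p hp r * Z S p hp n
        + Cr * ((psi S p hp K + (K : ℝ≥0∞) / ((cay S).dist 1 v - r - 1 : ℕ)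
          + Z S p hp ((cay S).dist 1 v - r - 1)) * Z S p hp n + PI S p hp n) := by
  classical
  refine ⟨(T S (ball S 1 r)).card * (2 * (1 - p)⁻¹ + 4 * p⁻¹), fun K n v hv => ?_⟩
  set L : ℕ := (cay S).dist 1 v - r - 1 with hL
  set E := T S (ball S 1 r) with hE
  have hconn := cay_conn hS hg
  -- the endpoints of the edges in `E` are far from `v`
  have hfar : ∀ x y : Γ, s(x, y) ∈ E → (cay S).Adj x y ∧ L ≤ (cay S).dist v x ∧ L ≤ (cay S).dist v y := by
    intro x y he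
    rw [hE, mem_T hS] at he
    have hadj : (cay S).Adj x y := by simpa using he.1
    have hd : (cay S).dist x y ≤ 1 := by
      rw [SimpleGraph.dist_eq_one_iff_adj.2 hadj]
    have hd' : (cay S).dist y x ≤ 1 := by
      rw [SimpleGraph.dist_comm]; exact hd
    have key : (cay S).dist 1 x ≤ r + 1 ∧ (cay S).dist 1 y ≤ r + 1 := by
      obtain ⟨w, hw, hwb⟩ := he.2
      rw [mem_ball hS hg] at hwb
      rcases Sym2.mem_iff.1 hw with rfl | rfl
      · have := hconn.dist_triangle (u := (1 : Γ)) (v := w) (w := y)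
        omega
      · have := hconn.dist_triangle (u := (1 : Γ)) (v := w) (w := x)
        omega
    have tx := hconn.dist_triangle (u := (1 : Γ)) (v := x) (w := v)
    have ty := hconn.dist_triangle (u := (1 : Γ)) (v := y) (w := v)
    rw [SimpleGraph.dist_comm (u := x)] at tx
    rw [SimpleGraph.dist_comm (u := y)] at ty
    exact ⟨hadj, by omega, by omega⟩
  -- the fraction at `v` instead of `1`
  have hφ : phiZ S p hp n v ≤ ∫⁻ ω in {ω | R S r 1 ω}, frac S n v ω ∂(bP Γ p hp) := by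
    rw [phiZ_mtp hS p hp n v, ← lintegral_indicator (meas_clus S 1 v),
      ← lintegral_indicator (meas_R S r 1)]
    refine lintegral_mono fun ω => ?_
    by_cases h : v ∈ clus S ω 1
    · have hR : R S r 1 ω := ⟨v, h, by omega⟩
      rw [Set.indicator_of_mem (show ω ∈ {ω : Cfg Γ | v ∈ clus S ω 1} from h),
        Set.indicator_of_mem (show ω ∈ {ω : Cfg Γ | R S r 1 ω} from hR), frac_eq, frac_eq]
      have : clus S ω 1 = clus S ω v := by
        ext z
        exact ⟨fun hz => (SimpleGraph.Reachable.symm h).trans hz, fun hz => h.trans hz⟩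
      rw [this]
    · rw [Set.indicator_of_notMem (show ω ∉ {ω : Cfg Γ | v ∈ clus S ω 1} from h)]
      exact zero_le
  have hZ : ∫⁻ ω, frac S n v ω ∂(bP Γ p hp) = Z S p hp n := by
    have h1 := (shift_mp p hp v).lintegral_comp (meas_frac S n v)
    rw [← h1, ← Z_mtp hS p hp hfin n]
    refine lintegral_congr fun ω => ?_
    have := frac_shift (S := S) n v ω 1
    rwa [mul_one] at this
  -- the error terms
  let D : Sym2 Γ → Cfg Γ → ℝ≥0∞ := fun e => cov_dd S n K L v (Quot.out e).1 (Quot.out e).2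
  have hout : ∀ e : Sym2 Γ, s((Quot.out e).1, (Quot.out e).2) = e := fun e => Quot.out_eq e
  have hD : ∀ e, Measurable (D e) := fun e => cov_meas_dd S n K L v _ _
  have h1 : ∀ e ∈ E, ∀ ω, frac S n v (upd ω e true) ≤ frac S n v (upd ω e false) + D e ω := by
    intro e he ω
    have heo := hout e
    obtain ⟨hadj, hx, hy⟩ := hfar _ _ (heo.symm ▸ he)
    have h := flip_up (S := S) n v _ _ hadj ω
    rw [heo] at h
    refine h.trans ?_
    simp only [D, cov_dd, heo]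
    rw [add_assoc, add_add_add_comm]
    exact add_le_add le_rfl (add_le_add le_add_self le_rfl)
  have h2 : ∀ e ∈ E, ∀ ω, frac S n v (upd ω e false) ≤ frac S n v (upd ω e true) + D e ω := by
    intro e he ω
    have heo := hout e
    obtain ⟨hadj, hx, hy⟩ := hfar _ _ (heo.symm ▸ he)
    have h := flip_down (S := S) n K L v _ _ hadj hx hy ω
    rw [heo] at h
    refine h.trans ?_
    simp only [D, cov_dd, heo]
    rw [add_assoc]
    exact add_le_add le_rfl (le_self_add.trans le_self_add)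
  have hcov := cov_ineq p hp E {ω | R S r 1 ω} (meas_R S r 1)
    (fun ω ω' h => R_local hS hg r ω ω' h) (fun ω => frac S n v ω) (meas_frac S n v) D hD h1 h2
  refine hφ.trans (hcov.trans ?_)
  rw [hZ]
  refine add_le_add le_rfl ?_
  have hsum : ∀ e ∈ E, ∫⁻ ω, D e ω ∂(bP Γ p hp)
      ≤ ((2 * (1 - p)⁻¹ + 4 * p⁻¹ : ℝ≥0) : ℝ≥0∞) * ((psi S p hp K + (K : ℝ≥0∞) / L
          + Z S p hp L) * Z S p hp n + PI S p hp n) := by
    intro e he
    obtain ⟨hadj, hx, hy⟩ := hfar _ _ ((hout e).symm ▸ he)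
    rw [SimpleGraph.dist_comm] at hx hy
    refine (cov_int_dd hS p hp hp0 hp1 hfin n K L v _ _ hx hy).trans ?_
    have hpn : p ≠ 0 := hp0.ne'
    have hqn : (1 - p) ≠ 0 := (tsub_pos_of_lt hp1).ne'
    rw [← ENNReal.coe_inv hpn, ← ENNReal.coe_inv hqn]
    push_cast
    set a : ℝ≥0∞ := (((1 - p)⁻¹ : ℝ≥0) : ℝ≥0∞)
    set b : ℝ≥0∞ := ((p⁻¹ : ℝ≥0) : ℝ≥0∞)
    set z := Z S p hp n
    set A := psi S p hp K + (K : ℝ≥0∞) / L
    set B := Z S p hp L
    set Q := PI S p hp n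
    calc 2 * (a * (z * A)) + 2 * (a * (z * B)) + 2 * (b * (2 * Q))
        = 2 * a * ((A + B) * z) + 4 * b * Q := by ring
      _ ≤ (2 * a + 4 * b) * ((A + B) * z) + (2 * a + 4 * b) * Q := by
          gcongr
          · exact le_self_add
          · exact le_add_self
      _ = (2 * a + 4 * b) * ((A + B) * z + Q) := by ring
  calc ∑ e ∈ E, ∫⁻ ω, D e ω ∂(bP Γ p hp)
      ≤ ∑ e ∈ E, ((2 * (1 - p)⁻¹ + 4 * p⁻¹ : ℝ≥0) : ℝ≥0∞) * ((psi S p hp K + (K : ℝ≥0∞) / L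
          + Z S p hp L) * Z S p hp n + PI S p hp n) := Finset.sum_le_sum hsum
    _ = _ := by
      rw [Finset.sum_const, nsmul_eq_mul, ← mul_assoc]
      push_cast
      rfl

end Pool.Agent.IIC
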