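import Pool.Agent.IIC.Defs
import Pool.Agent.IIC.P_meas_clus

set_option autoImplicit false
set_option linter.unusedVariables false
set_option linter.unusedSectionVars false

/-!
# Zero density of the incipient infinite cluster: definitions

`Γ` is a group, `S` a finite set (symmetric, generating, in the theorem).  Bond percolation on the
Cayley graph `cay S` is modelled on configurations `Cfg Γ = Sym2 Γ → Bool`; only the bits at edges
of the Cayley graph are used.
-/

namespace Pool.Agent.IIC
open MeasureTheory ProbabilityTheory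
open scoped ENNReal NNReal
variable {Γ : Type} [Group Γ]


namespace HTau

open Filter Topology

variable {ι : Type*}

/-- product of Bernoulli measures -/
noncomputable def hPB (p : ℝ≥0) (hp : p ≤ 1) (ι : Type*) : Measure (ι → Bool) :=
  Measure.infinitePi fun _ : ι => (PMF.bernoulli p hp).toMeasure

instance (p : ℝ≥0) (hp : p ≤ 1) : IsProbabilityMeasure (hPB p hp ι) := by
  unfold hPB; infer_instance

/-- weight of a bit -/
noncomputable def wq (p : ℝ≥0) (b : Bool) : ℝ := if b then p else 1 - p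

lemma wq_nonneg {p : ℝ≥0} (hp : p ≤ 1) (b : Bool) : 0 ≤ wq p b := by
  unfold wq
  split_ifs
  · positivity
  · have : (p : ℝ) ≤ 1 := by exact_mod_cast hp
    linarith

lemma bern_real (p : ℝ≥0) (hp : p ≤ 1) (b : Bool) :
    ((PMF.bernoulli p hp).toMeasure).real {b} = wq p b := by
  rw [measureReal_def, PMF.toMeasure_apply_singleton _ _ (measurableSet_singleton b)]
  have hp' : (p : ℝ≥0∞) ≤ 1 := by exact_mod_cast hp
  cases b
  · simp only [PMF.bernoulli, wq]
    simp
    rw [ENNReal.toReal_sub_of_le hp' ENNReal.one_ne_top]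
    simp
  · simp [PMF.bernoulli, wq]

lemma prodB_box (p : ℝ≥0) (hp : p ≤ 1) (J : Finset ι) (b : ι → Bool) :
    (hPB p hp ι).real {v | ∀ i ∈ J, v i = b i} = ∏ i ∈ J, wq p (b i) := by
  have h1 : {v : ι → Bool | ∀ i ∈ J, v i = b i} = Set.pi (J : Set ι) fun i => {b i} := by
    ext v; simp [Set.mem_pi]
  rw [h1, measureReal_def, hPB, Measure.infinitePi_pi _ (fun _ _ => measurableSet_singleton _),
    ENNReal.toReal_prod]
  exact Finset.prod_congr rfl fun i _ => bern_real _ _ _

/-- the event depends only on the bits in `J` -/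
def DepJ (J : Set ι) (A : Set (ι → Bool)) : Prop :=
  ∀ v v' : ι → Bool, (∀ i ∈ J, v i = v' i) → v ∈ A → v' ∈ A

lemma DepJ.measurable {J : Finset ι} {A : Set (ι → Bool)} (hA : DepJ (J : Set ι) A) :
    MeasurableSet A := by
  classical
  have h1 : A = (fun (v : ι → Bool) (i : J) => v i) ⁻¹'
      {a : J → Bool | (fun i => if h : i ∈ J then a ⟨i, h⟩ else false) ∈ A} := by
    ext v
    simp only [Set.mem_preimage, Set.mem_ofPred_eq]
    constructor
    · intro h
      exact hA _ _ (fun i hi => by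
        have : i ∈ J := hi
        simp [this]) h
    · intro h
      exact hA _ _ (fun i hi => by
        have : i ∈ J := hi
        simp [this]) h
  rw [h1]
  have h2 : Measurable (fun (v : ι → Bool) (i : J) => v i) := by fun_prop
  exact h2 (Set.to_countable _).measurableSet

open Classical in
/-- extension by `false` -/
noncomputable def exB (J : Finset ι) (a : J → Bool) : ι → Bool :=
  fun i => if h : i ∈ J then a ⟨i, h⟩ else false

lemma exB_mono (J : Finset ι) : Monotone (exB J) := by
  intro a b h i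
  unfold exB
  split_ifs with hi
  · exact h _
  · exact le_rfl

/-- weight of a finite configuration -/
noncomputable def wB (p : ℝ≥0) (J : Finset ι) (a : J → Bool) : ℝ :=
  ∏ i : J, wq p (a i)

lemma wB_nonneg (p : ℝ≥0) (hp : p ≤ 1) (J : Finset ι) (a : J → Bool) : 0 ≤ wB p J a :=
  Finset.prod_nonneg fun _ _ => wq_nonneg hp _

open Classical in
lemma real_depJ (p : ℝ≥0) (hp : p ≤ 1) {J : Finset ι} {A : Set (ι → Bool)}
    (hA : DepJ (J : Set ι) A) :
    ((hPB p hp ι)).real A = ∑ a : J → Bool, wB p J a * (if exB J a ∈ A then 1 else 0) := by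
  have hres : Measurable (fun (v : ι → Bool) (i : J) => v i) := by fun_prop
  have h1 : A = (fun (v : ι → Bool) (i : J) => v i) ⁻¹'
      ((Finset.univ.filter fun a : J → Bool => exB J a ∈ A : Finset (J → Bool)) :
        Set (J → Bool)) := by
    ext v
    simp only [Set.mem_preimage, Finset.coe_filter, Finset.mem_univ, true_and, Set.mem_ofPred_eq]
    constructor
    · intro h
      exact hA _ _ (fun i hi => by
        have : i ∈ J := hi
        simp [exB, this]) h
    · intro h
      exact hA _ _ (fun i hi => by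
        have : i ∈ J := hi
        simp [exB, this]) h
  rw [h1]
  rw [← sum_measureReal_preimage_singleton _ (fun a _ => hres (measurableSet_singleton a))]
  rw [Finset.sum_filter]
  apply Finset.sum_congr rfl
  intro a _
  rw [← h1]
  have h2 : ((hPB p hp ι)).real ((fun (v : ι → Bool) (i : J) => v i) ⁻¹' {a}) = wB p J a := by
    have h3 : ((fun (v : ι → Bool) (i : J) => v i) ⁻¹' {a}) =
        {v : ι → Bool | ∀ i ∈ J, v i = exB J a i} := by
      ext v
      simp only [Set.mem_preimage, Set.mem_singleton_iff, Set.mem_ofPred_eq]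
      constructor
      · intro h i hi
        unfold exB
        rw [dif_pos hi, ← h]
      · intro h
        funext i
        have := h i i.2
        unfold exB at this
        rw [dif_pos i.2] at this
        exact this
    rw [h3, prodB_box, ← Finset.prod_coe_sort J]
    unfold wB
    apply Finset.prod_congr rfl
    intro i _
    congr 1
    unfold exB
    rw [dif_pos i.2]
  rw [h2]
  split_ifs <;> simp

lemma harris_fin (p : ℝ≥0) (hp : p ≤ 1) {J : Finset ι} {A B : Set (ι → Bool)}
    (hA : DepJ (J : Set ι) A) (hB : DepJ (J : Set ι) B) (hAu : IsUpperSet A) (hBu : IsUpperSet B) :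
    ((hPB p hp ι)).real A * ((hPB p hp ι)).real B ≤ ((hPB p hp ι)).real (A ∩ B) := by
  classical
  have hAB : DepJ (J : Set ι) (A ∩ B) := fun v v' hv h => ⟨hA v v' hv h.1, hB v v' hv h.2⟩
  have hone : ∑ a : J → Bool, wB p J a = 1 := by
    have h1 : DepJ (J : Set ι) (Set.univ : Set (ι → Bool)) := fun _ _ _ _ => trivial
    have h2 := real_depJ p hp h1
    simpa using h2.symm
  rw [real_depJ p hp hA, real_depJ p hp hB, real_depJ p hp hAB]
  have h1 := fkg (fun a : J → Bool => (if exB J a ∈ A then (1 : ℝ) else 0))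
    (fun a => (if exB J a ∈ B then (1 : ℝ) else 0)) (wB p J) (fun a => wB_nonneg p hp J a)
    (fun a => by simp only [Pi.zero_apply]; split_ifs <;> norm_num)
    (fun a => by simp only [Pi.zero_apply]; split_ifs <;> norm_num)
    (fun a b hab => by
      simp only
      by_cases h : exB J a ∈ A
      · have h' : exB J b ∈ A := hAu (exB_mono J hab) h
        simp [h, h']
      · simp only [h, if_false]; split_ifs <;> norm_num)
    (fun a b hab => by
      simp only
      by_cases h : exB J a ∈ B
      · have h' : exB J b ∈ B := hBu (exB_mono J hab) h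
        simp [h, h']
      · simp only [h, if_false]; split_ifs <;> norm_num)
    (fun a b => by
      unfold wB
      rw [← Finset.prod_mul_distrib, ← Finset.prod_mul_distrib]
      apply le_of_eq
      apply Finset.prod_congr rfl
      intro i _
      simp only [Pi.inf_apply, Pi.sup_apply]
      cases a i <;> cases b i <;> simp [mul_comm])
  rw [hone, one_mul] at h1
  refine h1.trans (le_of_eq ?_)
  apply Finset.sum_congr rfl
  intro a _
  congr 1
  simp only [Set.mem_inter_iff]
  by_cases h : exB J a ∈ A <;> by_cases h' : exB J a ∈ B <;> simp [h, h']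

/-- configurations agreeing on `J` with an element of `K` -/
def nb (K : Set (ι → Bool)) (J : Finset ι) : Set (ι → Bool) := {v | ∃ κ ∈ K, ∀ i ∈ J, v i = κ i}

lemma nb_dep (K : Set (ι → Bool)) (J : Finset ι) : DepJ (J : Set ι) (nb K J) := by
  rintro v v' hv ⟨κ, hκ, h⟩
  exact ⟨κ, hκ, fun i hi => (hv i hi).symm.trans (h i hi)⟩

lemma nb_upper {K : Set (ι → Bool)} (hK : IsUpperSet K) (J : Finset ι) : IsUpperSet (nb K J) := by
  classical
  rintro v v' hv ⟨κ, hκ, h⟩
  refine ⟨fun i => if i ∈ J then v' i else κ i, ?_, fun i hi => by simp [hi]⟩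
  apply hK _ hκ
  intro i
  by_cases hi : i ∈ J
  · simp only [hi, if_true]
    rw [← h i hi]
    exact hv i
  · simp only [hi, if_false]
    exact le_rfl

lemma isClosed_upper {K : Set (ι → Bool)} (hK : IsCompact K) :
    IsClosed {v : ι → Bool | ∃ κ ∈ K, κ ≤ v} := by
  have h1 : {v : ι → Bool | ∃ κ ∈ K, κ ≤ v} =
      Prod.snd '' ((K ×ˢ (Set.univ : Set (ι → Bool))) ∩ {p | p.1 ≤ p.2}) := by
    ext v
    simp only [Set.mem_image, Set.mem_inter_iff, Set.mem_prod, Set.mem_univ, and_true,
      Set.mem_ofPred_eq, Prod.exists]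
    constructor
    · rintro ⟨κ, hκ, h⟩
      exact ⟨κ, v, ⟨hκ, h⟩, rfl⟩
    · rintro ⟨κ, w, ⟨hκ, h⟩, rfl⟩
      exact ⟨κ, hκ, h⟩
  rw [h1]
  apply IsCompact.isClosed
  apply IsCompact.image _ continuous_snd
  apply IsCompact.inter_right (hK.prod isCompact_univ)
  have h2 : {p : (ι → Bool) × (ι → Bool) | p.1 ≤ p.2} =
      ⋂ i, {p : (ι → Bool) × (ι → Bool) | p.1 i ≤ p.2 i} := by
    ext p; simp [Pi.le_def]
  rw [h2]
  apply isClosed_iInter
  intro i
  have h3 : Continuous fun p : (ι → Bool) × (ι → Bool) => (p.1 i, p.2 i) := by fun_prop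
  exact (isClosed_discrete {b : Bool × Bool | b.1 ≤ b.2}).preimage h3

lemma harris_compact [Countable ι] (p : ℝ≥0) (hp : p ≤ 1) {A B : Set (ι → Bool)}
    (hA : IsClosed A) (hB : IsClosed B) (hAu : IsUpperSet A) (hBu : IsUpperSet B) :
    (hPB p hp ι) A * (hPB p hp ι) B ≤ (hPB p hp ι) (A ∩ B) := by
  obtain ⟨f, hf⟩ := Countable.exists_injective_nat ι
  set J : ℕ → Finset ι := fun n => ((Set.finite_Iic n).preimage hf.injOn).toFinset with hJ
  have hJmem : ∀ n x, x ∈ J n ↔ f x ≤ n := by
    intro n x; simp [hJ]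
  have hlim : ∀ {K : Set (ι → Bool)}, IsClosed K → ⋂ n, nb K (J n) = K := by
    intro K hK
    ext v
    rw [Set.mem_iInter]
    constructor
    · intro h
      choose κ hκ hκe using h
      apply hK.mem_of_tendsto (f := κ) (b := atTop) _ (Eventually.of_forall hκ)
      rw [tendsto_pi_nhds]
      intro x
      apply tendsto_const_nhds.congr'
      filter_upwards [eventually_ge_atTop (f x)] with m hm
      exact hκe m x ((hJmem m x).2 hm)
    · intro h n
      exact ⟨v, h, fun _ _ => rfl⟩
  have hanti : ∀ K : Set (ι → Bool), Antitone fun n => nb K (J n) := by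
    rintro K n m hnm v ⟨κ, hκ, h⟩
    exact ⟨κ, hκ, fun x hx => h x ((hJmem m x).2 (((hJmem n x).1 hx).trans hnm))⟩
  have hmeas : ∀ (K : Set (ι → Bool)) n, MeasurableSet (nb K (J n)) := fun K n =>
    (nb_dep K (J n)).measurable
  have t1 := tendsto_measure_iInter_atTop (μ := (hPB p hp ι))
    (fun n => (hmeas A n).nullMeasurableSet) (hanti A) ⟨0, measure_ne_top _ _⟩
  have t2 := tendsto_measure_iInter_atTop (μ := (hPB p hp ι))
    (fun n => (hmeas B n).nullMeasurableSet) (hanti B) ⟨0, measure_ne_top _ _⟩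
  have t3 := tendsto_measure_iInter_atTop (μ := (hPB p hp ι))
    (fun n => ((hmeas A n).inter (hmeas B n)).nullMeasurableSet)
    (fun n m hnm => Set.inter_subset_inter (hanti A hnm) (hanti B hnm)) ⟨0, measure_ne_top _ _⟩
  rw [hlim hA] at t1
  rw [hlim hB] at t2
  rw [Set.iInter_inter_distrib, hlim hA, hlim hB] at t3
  have t4 := ENNReal.Tendsto.mul t1 (Or.inr (measure_ne_top _ _)) t2 (Or.inr (measure_ne_top _ _))
  refine le_of_tendsto_of_tendsto' t4 t3 fun n => ?_
  have h1 := harris_fin p hp (nb_dep A (J n)) (nb_dep B (J n)) (nb_upper hAu (J n))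
    (nb_upper hBu (J n))
  simp only [Function.comp_apply]
  rw [← ENNReal.ofReal_toReal (measure_ne_top ((hPB p hp ι)) (nb A (J n))),
    ← ENNReal.ofReal_toReal (measure_ne_top ((hPB p hp ι)) (nb B (J n))),
    ← ENNReal.ofReal_toReal (measure_ne_top ((hPB p hp ι)) (nb A (J n) ∩ nb B (J n))),
    ← ENNReal.ofReal_mul ENNReal.toReal_nonneg]
  exact ENNReal.ofReal_le_ofReal h1

/-- the Harris inequality for a countable product of Bernoulli measures -/
theorem harris [Countable ι] (p : ℝ≥0) (hp : p ≤ 1) {A B : Set (ι → Bool)}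
    (hA : MeasurableSet A) (hB : MeasurableSet B) (hAu : IsUpperSet A) (hBu : IsUpperSet B) :
    (hPB p hp ι) A * (hPB p hp ι) B ≤ (hPB p hp ι) (A ∩ B) := by
  apply ENNReal.mul_le_of_forall_lt
  intro a ha b hb
  obtain ⟨K, hKA, hK, haK⟩ := hA.exists_lt_isCompact ha
  obtain ⟨K', hKB, hK', hbK⟩ := hB.exists_lt_isCompact hb
  have h1 := harris_compact p hp (isClosed_upper hK) (isClosed_upper hK')
    (fun v v' hv ⟨κ, hκ, h⟩ => ⟨κ, hκ, h.trans hv⟩)
    (fun v v' hv ⟨κ, hκ, h⟩ => ⟨κ, hκ, h.trans hv⟩)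
  have h2 : {v : ι → Bool | ∃ κ ∈ K, κ ≤ v} ⊆ A := by
    rintro v ⟨κ, hκ, h⟩
    exact hAu h (hKA hκ)
  have h3 : {v : ι → Bool | ∃ κ ∈ K', κ ≤ v} ⊆ B := by
    rintro v ⟨κ, hκ, h⟩
    exact hBu h (hKB hκ)
  calc a * b ≤ (hPB p hp ι) K * (hPB p hp ι) K' := mul_le_mul' haK.le hbK.le
    _ ≤ (hPB p hp ι) {v | ∃ κ ∈ K, κ ≤ v} * (hPB p hp ι) {v | ∃ κ ∈ K', κ ≤ v} :=
        mul_le_mul' (measure_mono fun v hv => ⟨v, hv, le_rfl⟩)
          (measure_mono fun v hv => ⟨v, hv, le_rfl⟩)
    _ ≤ _ := h1
    _ ≤ _ := measure_mono (Set.inter_subset_inter h2 h3)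

end HTau

theorem harris_tau [Countable Γ] (S : Finset Γ) (p : ℝ≥0) (hp : p ≤ 1) (x y z : Γ) :
    tau S p hp x y * tau S p hp y z ≤ tau S p hp x z := by
  have hup : ∀ x y : Γ, IsUpperSet {ω : Cfg Γ | y ∈ clus S ω x} := by
    intro x y ω ω' hω h
    have hle : opn S ω ≤ opn S ω' := by
      intro u v huv
      refine ⟨huv.1, ?_⟩
      have h1 := hω s(u, v)
      rw [huv.2] at h1
      exact eq_top_iff.2 h1
    exact SimpleGraph.Reachable.mono hle h
  have hc : Countable (Sym2 Γ) := inferInstance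
  have h1 := HTau.harris (ι := Sym2 Γ) p hp (meas_clus S x y) (meas_clus S y z) (hup x y) (hup y z)
  unfold tau
  refine le_trans h1 (measure_mono ?_)
  rintro ω ⟨h2, h3⟩
  exact SimpleGraph.Reachable.trans h2 h3

end Pool.Agent.IIC
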