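import Pool.Agent.IIC.Defs

set_option autoImplicit false
set_option linter.unusedVariables false
set_option linter.unusedSectionVars false

/-!
# Zero density of the incipient infinite cluster: definitions

`Γ` is a group, `S` a finite set (symmetric, generating, in the theorem).  Bond percolation on the
Cayley graph `cay S` is modelled on configurations `Cfg Γ = Sym2 Γ → Bool`; only the bits at edges
of the Cayley graph are used.
-/

namespace Pool.Agent.IIC
open MeasureTheory ProbabilityTheory
open scoped ENNReal NNReal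
variable {Γ : Type} [Group Γ]


theorem tau_adj_coord (p : ℝ≥0) (hp : p ≤ 1) (e : Sym2 Γ) :
    bP Γ p hp {ω | ω e = true} = (p : ℝ≥0∞) := by
  have h1 : bP Γ p hp {ω | ω e = true} =
      ((bP Γ p hp).map (fun ω : Cfg Γ => ω e)) {true} := by
    rw [Measure.map_apply (measurable_pi_apply e) (measurableSet_singleton true)]
    rfl
  rw [h1]
  unfold bP
  have h2 := Measure.infinitePi_map_eval
    (μ := fun _ : Sym2 Γ => (PMF.bernoulli p hp).toMeasure) e
  have h3 : Measure.map (fun ω : Cfg Γ => ω e)
      (Measure.infinitePi (fun _ : Sym2 Γ => (PMF.bernoulli p hp).toMeasure)) =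
      (PMF.bernoulli p hp).toMeasure := h2
  rw [h3, PMF.toMeasure_apply_singleton _ _ (measurableSet_singleton true), PMF.bernoulli_apply]
  rfl

theorem tau_adj {S : Finset Γ} (p : ℝ≥0) (hp : p ≤ 1) (x y : Γ) (h : (cay S).Adj x y) :
    (p : ℝ≥0∞) ≤ tau S p hp x y := by
  rw [← tau_adj_coord (Γ := Γ) p hp s(x, y)]
  unfold tau
  refine measure_mono ?_
  intro ω hω
  have hadj : (opn S ω).Adj x y := ⟨h, hω⟩
  exact hadj.reachable

end Pool.Agent.IIC
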