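import Pool.Agent.IIC.Defs

set_option autoImplicit false
set_option linter.unusedVariables false
set_option linter.unusedSectionVars false

/-!
# Zero density of the incipient infinite cluster: definitions

`Γ` is a group, `S` a finite set (symmetric, generating, in the theorem).  Bond percolation on the
Cayley graph `cay S` is modelled on configurations `Cfg Γ = Sym2 Γ → Bool`; only the bits at edges
of the Cayley graph are used.
-/

namespace Pool.Agent.IIC
open MeasureTheory ProbabilityTheory
open scoped ENNReal NNReal
variable {Γ : Type} [Group Γ]


theorem tau_one {S : Finset Γ} (p : ℝ≥0) (hp : p ≤ 1) (x : Γ) : tau S p hp x x = 1 := by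
  unfold tau
  have h : {ω : Cfg Γ | x ∈ clus S ω x} = Set.univ := by
    ext ω
    simp only [Set.mem_setOf_eq, Set.mem_univ, iff_true]
    exact SimpleGraph.Reachable.refl x
  rw [h, measure_univ]

end Pool.Agent.IIC
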