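import Pool.Agent.IIC.Defs
import Pool.Agent.IIC.P_cay_conn
import Pool.Agent.IIC.P_harris_tau
import Pool.Agent.IIC.P_tau_adj
import Pool.Agent.IIC.P_tau_one

set_option autoImplicit false
set_option linter.unusedVariables false
set_option linter.unusedSectionVars false

/-!
# Zero density of the incipient infinite cluster: definitions

`Γ` is a group, `S` a finite set (symmetric, generating, in the theorem).  Bond percolation on the
Cayley graph `cay S` is modelled on configurations `Cfg Γ = Sym2 Γ → Bool`; only the bits at edges
of the Cayley graph are used.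
-/

namespace Pool.Agent.IIC
open MeasureTheory ProbabilityTheory
open scoped ENNReal NNReal
variable {Γ : Type} [Group Γ]


theorem tau_pos [Countable Γ] {S : Finset Γ} (hS : Symm S) (hg : Gen S) (p : ℝ≥0) (hp : p ≤ 1)
    (hp0 : 0 < p) (x y : Γ) : 0 < tau S p hp x y := by
  obtain ⟨w⟩ := (cay_conn hS hg).preconnected x y
  induction w with
  | nil => rw [tau_one]; exact zero_lt_one
  | @cons a b c h w ih =>
    refine lt_of_lt_of_le ?_ (harris_tau S p hp a b c)
    refine ENNReal.mul_pos ?_ ih.ne'
    have h1 := tau_adj (S := S) p hp _ _ h
    exact (lt_of_lt_of_le (by exact_mod_cast hp0) h1).ne'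

end Pool.Agent.IIC
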