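import Pool.Agent.IIC.P_E
import Pool.Agent.IIC.P_no_thin
import Pool.Agent.IIC.P_theta_pc
import Pool.Agent.IIC.P_XM_pc
import Pool.Agent.IIC.P_cov_bound
import Pool.Agent.IIC.P_tau_pos
import Pool.Agent.IIC.P_tau_le_Z
import Pool.Agent.IIC.F1
import Pool.Agent.IIC.P_infinite_of_nonam
import Pool.Agent.IIC.P_countable_of_gen
import Pool.Agent.IIC.P_exists_sphere

set_option autoImplicit false
set_option linter.unusedVariables false
set_option linter.unusedSectionVars false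

namespace Pool.Agent.IIC

open MeasureTheory ProbabilityTheory Filter
open scoped ENNReal NNReal Topology

variable {Γ : Type} [Group Γ]

theorem PI_small' [Countable Γ] [Infinite Γ] {S : Finset Γ} (hS : Symm S) (hg : Gen S)
    (hna : Nonamenable S)
    (p : ℝ≥0) (hp : p ≤ 1) (hp0 : 0 < p) (hp1 : p < 1) (hfin : Fin0 S p hp)
    (hX : Filter.Tendsto (fun M : ℕ => XM S p hp M) Filter.atTop (nhds ⊤))
    (δ : ℝ≥0) (hδ : 0 < δ) :
    ∃ n0 : ℕ, ∀ n ≥ n0, PI S p hp n ≤ δ * Z S p hp n := by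
  obtain ⟨c, C, A, c1, n0, hc, hc1, h⟩ := thin_scales hS hg p hp hp0 hp1 hfin δ hδ
  obtain ⟨n1, h1⟩ := no_thin hS hg hna p hp hp0 hp1 hfin hX c hc C A c1 hc1
  refine ⟨max n0 n1, fun n hn => ?_⟩
  by_contra hcon
  push Not at hcon
  exact h1 n (le_trans (le_max_right _ _) hn) (h n (le_trans (le_max_left _ _) hn) hcon.le)

/-- positivity of the one-arm probabilities -/
theorem Z_pos [Countable Γ] [Infinite Γ] {S : Finset Γ} (hS : Symm S) (hg : Gen S)
    (p : ℝ≥0) (hp : p ≤ 1) (hp0 : 0 < p) (n : ℕ) : 0 < Z S p hp n := by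
  obtain ⟨x, hx⟩ := exists_sphere hS hg n
  exact lt_of_lt_of_le (tau_pos hS hg p hp hp0 1 x) (tau_le_Z p hp n x hx.ge)

/-- uniform smallness of the probability that a far vertex is in the rerooted cluster -/
theorem far_small {S : Finset Γ} (hS : Symm S) (hg : Gen S) (hna : Nonamenable S)
    (ε : ℝ≥0) (hε : 0 < ε) :
    ∃ R0 : ℕ, ∀ v : Γ, R0 ≤ (cay S).dist 1 v → ∃ n0 : ℕ, ∀ n ≥ n0,
      law S (pc S) (pc_le_one S) n {x : SubG Γ | x.1 v = true} ≤ ε := by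
  have : Countable Γ := countable_of_gen hg
  have : Infinite Γ := infinite_of_nonam hna
  obtain ⟨hfin, hp0, hp1⟩ := theta_pc hS hg hna
  set p := pc S with hpdef
  set hp := pc_le_one S with hhp
  have hX := XM_pc hS hg hna
  have hZ0 := Z_tendsto p hp hfin
  have hψ0 := psi_tendsto0 p hp hfin
  have hε' : (0 : ℝ≥0∞) < (ε : ℝ≥0∞) / 4 := by
    refine ENNReal.div_pos ?_ (by norm_num)
    exact_mod_cast hε.ne'
  -- choose r
  obtain ⟨r, hr⟩ := ((tendsto_order.1 hZ0).2 _ hε').exists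
  obtain ⟨Cr, hCr⟩ := cov_bound hS hg p hp hp0 hp1 hfin r
  have hmul : ∀ f : ℕ → ℝ≥0∞, Tendsto f atTop (𝓝 0) →
      Tendsto (fun n => (Cr : ℝ≥0∞) * f n) atTop (𝓝 0) := by
    intro f hf
    have := ENNReal.Tendsto.const_mul (a := (Cr : ℝ≥0∞)) hf (Or.inr ENNReal.coe_ne_top)
    simpa using this
  obtain ⟨K, hK⟩ := ((tendsto_order.1 (hmul _ hψ0)).2 _ hε').exists
  -- the term K / m + Z m
  have hKm : Tendsto (fun m : ℕ => (K : ℝ≥0∞) / (m : ℝ≥0∞) + Z S p hp m) atTop (𝓝 0) := by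
    have h1 : Tendsto (fun m : ℕ => (K : ℝ≥0∞) / (m : ℝ≥0∞)) atTop (𝓝 0) := by
      simp only [div_eq_mul_inv]
      have := ENNReal.Tendsto.const_mul (a := (K : ℝ≥0∞)) ENNReal.tendsto_inv_nat_nhds_zero
        (Or.inr (ENNReal.natCast_ne_top K))
      simpa using this
    simpa using h1.add hZ0
  obtain ⟨m0, hm0⟩ := eventually_atTop.1 ((tendsto_order.1 (hmul _ hKm)).2 _ hε')
  -- choose δ
  obtain ⟨δ, hδ, hδ2⟩ : ∃ δ : ℝ≥0, 0 < δ ∧ (Cr : ℝ≥0∞) * δ ≤ (ε : ℝ≥0∞) / 4 := by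
    refine ⟨ε / 4 / (Cr + 1), by positivity, ?_⟩
    have h4 : (ε : ℝ≥0∞) / 4 = ((ε / 4 : ℝ≥0) : ℝ≥0∞) := by
      rw [ENNReal.coe_div (by norm_num)]; norm_num
    rw [h4, ← ENNReal.coe_mul, ENNReal.coe_le_coe]
    rw [mul_div_assoc', div_le_iff₀ (by positivity), mul_comm, mul_add, mul_one]
    exact le_self_add
  obtain ⟨n0, hn0⟩ := PI_small' hS hg hna p hp hp0 hp1 hfin hX δ hδ
  refine ⟨m0 + r + 2, fun v hv => ⟨n0, fun n hn => ?_⟩⟩
  rw [law_apply]
  have hZpos := Z_pos hS hg p hp hp0 n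
  have hZtop : Z S p hp n ≠ ⊤ := measure_ne_top _ _
  have hb := hCr K n v (by omega)
  have hPI := hn0 n hn
  set d := (cay S).dist 1 v - r - 1 with hd
  have hdm : m0 ≤ d := by omega
  have h2 := (hm0 d hdm).le
  have h3 : phiZ S p hp n v ≤ ε * Z S p hp n := by
    calc phiZ S p hp n v ≤ Z S p hp r * Z S p hp n
        + Cr * ((psi S p hp K + (K : ℝ≥0∞) / (d : ℕ) + Z S p hp d) * Z S p hp n
          + PI S p hp n) := hb
      _ ≤ Z S p hp r * Z S p hp n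
        + Cr * ((psi S p hp K + (K : ℝ≥0∞) / (d : ℕ) + Z S p hp d) * Z S p hp n
          + δ * Z S p hp n) := by gcongr
      _ = (Z S p hp r + Cr * psi S p hp K + Cr * ((K : ℝ≥0∞) / (d : ℕ) + Z S p hp d)
          + Cr * δ) * Z S p hp n := by ring
      _ ≤ ((ε : ℝ≥0∞) / 4 + (ε : ℝ≥0∞) / 4 + (ε : ℝ≥0∞) / 4 + (ε : ℝ≥0∞) / 4)
          * Z S p hp n := by
          gcongr
      _ = ε * Z S p hp n := by
          congr 1
          have h4 : (ε : ℝ≥0∞) / 4 = ((ε / 4 : ℝ≥0) : ℝ≥0∞) := by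
            rw [ENNReal.coe_div (by norm_num)]; norm_num
          rw [h4, ← ENNReal.coe_add, ← ENNReal.coe_add, ← ENNReal.coe_add]
          congr 1
          have : ε / 4 + ε / 4 + ε / 4 + ε / 4 = ε / 4 * 4 := by ring
          rw [this, div_mul_cancel₀ _ (by norm_num)]
  calc (Z S p hp n)⁻¹ * phiZ S p hp n v ≤ (Z S p hp n)⁻¹ * (ε * Z S p hp n) := by gcongr
    _ = ε := by
      rw [mul_comm, mul_assoc, ENNReal.mul_inv_cancel hZpos.ne' hZtop, mul_one]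

end Pool.Agent.IIC
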