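import Pool.Agent.IIC.F2

set_option autoImplicit false
set_option linter.unusedVariables false
set_option linter.unusedSectionVars false

namespace Pool.Agent.IIC

open MeasureTheory ProbabilityTheory Filter
open scoped ENNReal NNReal Topology BoundedContinuousFunction

variable {Γ : Type} [Group Γ]

/-- reaching distance at least `n` is the same as reaching the sphere of radius `n` -/
theorem R_iff_sphere (S : Finset Γ) (n : ℕ) (x : Γ) (ω : Cfg Γ) :
    R S n x ω ↔ ∃ y ∈ clus S ω x, (cay S).dist x y = n := by
  constructor
  · rintro ⟨y, hy, hn⟩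
    obtain ⟨w⟩ : (opn S ω).Reachable x y := hy
    -- induction on the walk, reversed
    have key : ∀ (a b : Γ) (w : (opn S ω).Walk a b), (opn S ω).Reachable x a →
        (cay S).dist x a ≤ n → n ≤ (cay S).dist x b →
        ∃ y ∈ clus S ω x, (cay S).dist x y = n := by
      intro a b w
      induction w with
      | nil => 
        intro hr h1 h2
        exact ⟨_, hr, le_antisymm h1 h2⟩
      | @cons a c b hac w ih =>
        intro hr h1 h2
        rcases h1.eq_or_lt with h | h
        · exact ⟨a, hr, h⟩
        · refine ih (hr.trans hac.reachable) ?_ h2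
          have h3 : (cay S).Adj a c := hac.1
          have h4 : (cay S).Reachable x a := by
            have hle : opn S ω ≤ cay S := fun _ _ h => h.1
            exact hr.mono hle
          have h5 : (cay S).dist x c ≤ (cay S).dist x a + 1 := by
            obtain ⟨q, hq⟩ := h4.exists_walk_length_eq_dist
            have := SimpleGraph.dist_le (q.concat h3)
            rw [SimpleGraph.Walk.length_concat, hq] at this
            exact this
          omega
    exact key x y w (SimpleGraph.Reachable.refl x) (by simp) hn
  · rintro ⟨y, hy, hn⟩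
    exact ⟨y, hy, hn.ge⟩

/-- from the uniform smallness to the weak limits -/
theorem limit_small {S : Finset Γ} (hS : Symm S) (hg : Gen S) (hna : Nonamenable S)
    (ν : Measure (SubG Γ)) [IsProbabilityMeasure ν] (φ : ℕ → ℕ) (hφ : StrictMono φ)
    (hlim : ∀ f : SubG Γ →ᵇ ℝ,
      Tendsto (fun i => ∫ x, f x ∂(law S (pc S) (pc_le_one S) (φ i))) atTop (𝓝 (∫ x, f x ∂ν)))
    (ε : ℝ) (hε : 0 < ε) :
    ∃ R0 : ℕ, ∀ v : Γ, R0 ≤ (cay S).dist 1 v →
      ν {x : SubG Γ | x.1 v = true} ≤ ENNReal.ofReal ε := by
  have : Countable Γ := countable_of_gen hg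
  obtain ⟨R0, hR0⟩ := far_small hS hg hna ε.toNNReal (by simpa using hε)
  refine ⟨R0, fun v hv => ?_⟩
  obtain ⟨n0, hn0⟩ := hR0 v hv
  have hc : Continuous (fun x : SubG Γ => x.1 v) := by fun_prop
  have hm : MeasurableSet {x : SubG Γ | x.1 v = true} := by
    have h1 : Measurable (fun x : SubG Γ => x.1 v) := by fun_prop
    exact h1 (measurableSet_singleton true)
  -- the indicator as a bounded continuous function
  let g : Bool → ℝ := fun b => if b = true then 1 else 0
  have hcg : Continuous (fun x : SubG Γ => g (x.1 v)) :=
    (continuous_of_discreteTopology (f := g)).comp hc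
  let f : SubG Γ →ᵇ ℝ := BoundedContinuousFunction.ofNormedAddCommGroup
    (fun x : SubG Γ => g (x.1 v)) hcg 1 (by
      intro x; simp only [g]; split_ifs <;> simp)
  have hint : ∀ μ : Measure (SubG Γ), ∫ x, f x ∂μ = μ.real {x : SubG Γ | x.1 v = true} := by
    intro μ
    have h1 : (fun x => f x) = Set.indicator {x : SubG Γ | x.1 v = true} (fun _ => (1 : ℝ)) := by
      funext x
      simp only [f, BoundedContinuousFunction.coe_ofNormedAddCommGroup, g, Set.indicator,
        Set.mem_ofPred_eq]
    rw [h1, integral_indicator_const _ hm]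
    simp
  have hl := hlim f
  simp only [hint] at hl
  have hle : ν.real {x : SubG Γ | x.1 v = true} ≤ ε := by
    refine le_of_tendsto hl ?_
    filter_upwards [eventually_ge_atTop n0] with i hi
    have h2 := hn0 (φ i) (hi.trans (hφ.id_le i))
    refine ENNReal.toReal_le_of_le_ofReal hε.le ?_
    exact h2
  rw [← ENNReal.ofReal_toReal (measure_ne_top ν {x : SubG Γ | x.1 v = true})]
  exact ENNReal.ofReal_le_ofReal hle

end Pool.Agent.IIC
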