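import Pool.Agent.IIC.F3

set_option autoImplicit false
set_option linter.unusedVariables false
set_option linter.unusedSectionVars false

namespace Pool.Agent.IIC

open MeasureTheory ProbabilityTheory Filter
open scoped ENNReal NNReal Topology BoundedContinuousFunction

variable {Γ : Type} [Group Γ]

/-- the value of the rerooting kernel on a measurable set -/
theorem kernel_apply [Countable Γ] (S : Finset Γ) (ω : Cfg Γ) (B : Set (SubG Γ))
    (hB : MeasurableSet B) :
    letI : MeasurableSpace Γ := ⊤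
    ((uniformOn (clus S ω 1)).map (fun ρ => reroot S ρ ω)) B
      = ∑' ρ : Γ, Set.indicator {ω : Cfg Γ | ρ ∈ clus S ω 1 ∧ reroot S ρ ω ∈ B}
          (fun ω => (sz S ω 1)⁻¹) ω := by
  classical
  let _ : MeasurableSpace Γ := ⊤
  have hm : ∀ s : Set Γ, MeasurableSet s := fun s => trivial
  have hf : Measurable (fun ρ => reroot S ρ ω) := fun s _ => hm _
  show ((uniformOn (clus S ω 1)).map (fun ρ => reroot S ρ ω)) B = _
  rw [Measure.map_apply hf hB, uniformOn, cond_apply (hm _)]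
  have h1 : Measure.count (clus S ω 1) = sz S ω 1 := by
    rw [Measure.count_apply (hm _)]; rfl
  have h2 : Measure.count (clus S ω 1 ∩ (fun ρ => reroot S ρ ω) ⁻¹' B)
      = ∑' ρ : Γ, Set.indicator (clus S ω 1 ∩ (fun ρ => reroot S ρ ω) ⁻¹' B)
          (fun _ => (1 : ℝ≥0∞)) ρ := by
    rw [← lintegral_indicator_one (hm _), lintegral_count]
    rfl
  rw [h1, h2, ← ENNReal.tsum_mul_left]
  refine tsum_congr (fun ρ => ?_)
  by_cases h : ρ ∈ clus S ω 1 ∧ reroot S ρ ω ∈ B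
  · rw [Set.indicator_of_mem (show ρ ∈ clus S ω 1 ∩ (fun ρ => reroot S ρ ω) ⁻¹' B from h),
      Set.indicator_of_mem (show ω ∈ {ω : Cfg Γ | ρ ∈ clus S ω 1 ∧ reroot S ρ ω ∈ B} from h),
      mul_one]
  · rw [Set.indicator_of_notMem
        (show ¬ ρ ∈ clus S ω 1 ∩ (fun ρ => reroot S ρ ω) ⁻¹' B from h),
      Set.indicator_of_notMem
        (show ¬ ω ∈ {ω : Cfg Γ | ρ ∈ clus S ω 1 ∧ reroot S ρ ω ∈ B} from h),
      mul_zero]

theorem meas_reroot_set [Countable Γ] (S : Finset Γ) (ρ : Γ) (B : Set (SubG Γ))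
    (hB : MeasurableSet B) :
    MeasurableSet {ω : Cfg Γ | ρ ∈ clus S ω 1 ∧ reroot S ρ ω ∈ B} :=
  (meas_clus S 1 ρ).inter (meas_reroot S ρ hB)

theorem meas_kernel [Countable Γ] (S : Finset Γ) :
    letI : MeasurableSpace Γ := ⊤
    Measurable (fun ω : Cfg Γ => (uniformOn (clus S ω 1)).map (fun ρ => reroot S ρ ω)) := by
  let _ : MeasurableSpace Γ := ⊤
  refine Measure.measurable_of_measurable_coe _ (fun B hB => ?_)
  have : (fun ω : Cfg Γ => ((uniformOn (clus S ω 1)).map (fun ρ => reroot S ρ ω)) B)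
      = fun ω => ∑' ρ : Γ, Set.indicator {ω : Cfg Γ | ρ ∈ clus S ω 1 ∧ reroot S ρ ω ∈ B}
          (fun ω => (sz S ω 1)⁻¹) ω := by
    funext ω
    exact kernel_apply S ω B hB
  rw [this]
  refine Measurable.tsum (fun ρ => ?_)
  exact Measurable.indicator (meas_sz S 1).inv (meas_reroot_set S ρ B hB)

/-- condition, choose `ρ` uniformly in the cluster, translate by `ρ⁻¹`: this is the law `law` -/
theorem bind_eq_law [Countable Γ] (S : Finset Γ) (p : ℝ≥0) (hp : p ≤ 1) (n : ℕ) :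
    letI : MeasurableSpace Γ := ⊤
    (cond (bP Γ p hp) {ω | ∃ y ∈ clus S ω 1, (cay S).dist 1 y = n}).bind
      (fun ω => (uniformOn (clus S ω 1)).map (fun ρ => reroot S ρ ω)) = law S p hp n := by
  let _ : MeasurableSpace Γ := ⊤
  show (cond (bP Γ p hp) {ω | ∃ y ∈ clus S ω 1, (cay S).dist 1 y = n}).bind
      (fun ω => (uniformOn (clus S ω 1)).map (fun ρ => reroot S ρ ω)) = law S p hp n
  have hset : {ω : Cfg Γ | ∃ y ∈ clus S ω 1, (cay S).dist 1 y = n} = {ω | R S n 1 ω} := by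
    ext ω
    exact (R_iff_sphere S n 1 ω).symm
  rw [hset]
  refine Measure.ext (fun B hB => ?_)
  rw [Measure.bind_apply hB (meas_kernel S).aemeasurable]
  unfold ProbabilityTheory.cond
  rw [lintegral_smul_measure]
  unfold law
  rw [Measure.smul_apply, Measure.sum_apply _ hB]
  congr 1
  have h1 : ∀ ω : Cfg Γ, ((uniformOn (clus S ω 1)).map (fun ρ => reroot S ρ ω)) B
      = ∑' ρ : Γ, Set.indicator {ω : Cfg Γ | ρ ∈ clus S ω 1 ∧ reroot S ρ ω ∈ B}
          (fun ω => (sz S ω 1)⁻¹) ω := fun ω => kernel_apply S ω B hB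
  simp only [h1]
  have h2 : ∀ ρ : Γ, Measurable (Set.indicator {ω : Cfg Γ | ρ ∈ clus S ω 1 ∧ reroot S ρ ω ∈ B}
      (fun ω => (sz S ω 1)⁻¹)) := fun ρ =>
    Measurable.indicator (meas_sz S 1).inv (meas_reroot_set S ρ B hB)
  rw [lintegral_tsum (fun ρ => (h2 ρ).aemeasurable)]
  refine tsum_congr (fun ρ => ?_)
  rw [lintegral_indicator (meas_reroot_set S ρ B hB),
    Measure.restrict_restrict (meas_reroot_set S ρ B hB),
    Measure.map_apply (meas_reroot S ρ) hB, withDensity_apply _ (meas_reroot S ρ hB),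
    Measure.restrict_restrict (meas_reroot S ρ hB)]
  congr 2
  ext ω
  simp only [Set.mem_inter_iff, Set.mem_ofPred_eq, Set.mem_preimage]
  tauto

/-- the rerooted law is a probability measure -/
theorem law_univ [Countable Γ] [Infinite Γ] {S : Finset Γ} (hS : Symm S) (hg : Gen S)
    (p : ℝ≥0) (hp : p ≤ 1) (hp0 : 0 < p) (hfin : Fin0 S p hp) (n : ℕ) :
    law S p hp n Set.univ = 1 := by
  classical
  have hZpos := Z_pos hS hg p hp hp0 n
  have hZtop : Z S p hp n ≠ ⊤ := measure_ne_top _ _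
  unfold law
  rw [Measure.smul_apply, Measure.sum_apply _ MeasurableSet.univ, smul_eq_mul]
  have h1 : ∀ ρ : Γ, (Measure.map (reroot S ρ)
      (((bP Γ p hp).restrict {ω | R S n 1 ω ∧ ρ ∈ clus S ω 1}).withDensity
        fun ω => (sz S ω 1)⁻¹)) Set.univ
      = ∫⁻ ω in {ω | R S n 1 ω}, Set.indicator {ω : Cfg Γ | ρ ∈ clus S ω 1}
          (fun ω => (sz S ω 1)⁻¹) ω ∂(bP Γ p hp) := by
    intro ρ
    rw [Measure.map_apply (meas_reroot S ρ) MeasurableSet.univ, Set.preimage_univ,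
      withDensity_apply _ MeasurableSet.univ, Measure.restrict_univ,
      lintegral_indicator (meas_clus S 1 ρ), Measure.restrict_restrict (meas_clus S 1 ρ)]
    congr 2
    ext ω
    simp only [Set.mem_inter_iff, Set.mem_ofPred_eq]
    tauto
  simp only [h1]
  have h2 : ∀ ρ : Γ, Measurable (Set.indicator {ω : Cfg Γ | ρ ∈ clus S ω 1}
      (fun ω => (sz S ω 1)⁻¹)) := fun ρ =>
    Measurable.indicator (meas_sz S 1).inv (meas_clus S 1 ρ)
  rw [← lintegral_tsum (fun ρ => (h2 ρ).aemeasurable)]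
  have h3 : ∀ᵐ ω ∂((bP Γ p hp).restrict {ω | R S n 1 ω}),
      ∑' ρ : Γ, Set.indicator {ω : Cfg Γ | ρ ∈ clus S ω 1} (fun ω => (sz S ω 1)⁻¹) ω = 1 := by
    refine ae_restrict_of_ae ?_
    have h4 : ∀ᵐ ω ∂(bP Γ p hp), ¬ (clus S ω 1).Infinite := by
      have h40 : bP Γ p hp {ω | (clus S ω 1).Infinite} = 0 := hfin
      rw [ae_iff]
      simpa using h40
    filter_upwards [h4] with ω hω
    have hf : (clus S ω 1).Finite := Set.not_infinite.1 hω
    have h5 : ∀ ρ : Γ, Set.indicator {ω : Cfg Γ | ρ ∈ clus S ω 1} (fun ω => (sz S ω 1)⁻¹) ω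
        = Set.indicator (clus S ω 1) (fun _ => (sz S ω 1)⁻¹) ρ := by
      intro ρ
      by_cases h : ρ ∈ clus S ω 1
      · rw [Set.indicator_of_mem (show ω ∈ {ω : Cfg Γ | ρ ∈ clus S ω 1} from h),
          Set.indicator_of_mem h]
      · rw [Set.indicator_of_notMem (show ¬ ω ∈ {ω : Cfg Γ | ρ ∈ clus S ω 1} from h),
          Set.indicator_of_notMem h]
    simp only [h5]
    rw [← tsum_subtype (clus S ω 1) (fun _ => (sz S ω 1)⁻¹), ENNReal.tsum_const]
    have h6 : ((ENat.card (clus S ω 1) : ℕ∞) : ℝ≥0∞) = sz S ω 1 := rfl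
    rw [h6]
    refine ENNReal.mul_inv_cancel ?_ ?_
    · intro h0
      have h7 := R_of_sz (S := S) 0 1 ω ⟨1, SimpleGraph.Reachable.refl 1, by simp⟩
      rw [h0] at h7
      simp at h7
    · unfold sz
      rw [← Set.Finite.cast_ncard_eq hf]
      exact (ENNReal.natCast_lt_top _).ne
  rw [lintegral_congr_ae h3, lintegral_one, Measure.restrict_apply_univ]
  exact ENNReal.inv_mul_cancel hZpos.ne' hZtop

end Pool.Agent.IIC
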