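import Mathlib

set_option autoImplicit false
set_option linter.unusedSectionVars false

open scoped BigOperators

namespace Pool.Agent.IIC.Kesten

variable {Γ : Type*} [Group Γ] [DecidableEq Γ]

/-- finite support -/
abbrev FS (f : Γ → ℝ) : Prop := (Function.support f).Finite

theorem FS.summable {f : Γ → ℝ} (h : FS f) : Summable f :=
  summable_of_hasFiniteSupport h

theorem FS.of_zero {f g : Γ → ℝ} (h : FS f) (hg : ∀ x, f x = 0 → g x = 0) : FS g :=
  h.subset (fun x hx hf => hx (hg x hf))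

theorem FS.shift {f : Γ → ℝ} (h : FS f) (s : Γ) : FS (fun x => f (x * s)) := by
  have : Function.support (fun x => f (x * s)) = (fun x => x * s) ⁻¹' (Function.support f) := rfl
  unfold FS; rw [this]
  exact Set.Finite.preimage (fun a _ b _ hab => mul_right_cancel hab) h

theorem FS.mul_right {f : Γ → ℝ} (h : FS f) (g : Γ → ℝ) : FS (fun x => f x * g x) :=
  h.of_zero (fun x hx => by simp [hx])

theorem FS.mul_left {f : Γ → ℝ} (h : FS f) (g : Γ → ℝ) : FS (fun x => g x * f x) :=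
  h.of_zero (fun x hx => by simp [hx])

theorem FS.add {f g : Γ → ℝ} (hf : FS f) (hg : FS g) : FS (fun x => f x + g x) :=
  (hf.union hg).subset (Function.support_add f g)

theorem FS.sub {f g : Γ → ℝ} (hf : FS f) (hg : FS g) : FS (fun x => f x - g x) :=
  (hf.union hg).subset (Function.support_sub f g)

theorem FS.sum {ι : Type*} (s : Finset ι) {f : ι → Γ → ℝ} (h : ∀ i ∈ s, FS (f i)) :
    FS (fun x => ∑ i ∈ s, f i x) := by
  classical
  induction s using Finset.induction_on with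
  | empty => simp [FS]
  | insert a s ha ih =>
    have h1 := ih (fun i hi => h i (Finset.mem_insert_of_mem hi))
    have h2 := h a (Finset.mem_insert_self _ _)
    have := h2.add h1
    refine this.of_zero ?_
    intro x hx
    rw [Finset.sum_insert ha]; exact hx

theorem tsum_shift (f : Γ → ℝ) (s : Γ) : ∑' x, f (x * s) = ∑' x, f x :=
  (Equiv.mulRight s).tsum_eq f

/-- the bilinear form `∑_x ∑_s φ(x) ψ(x s)` -/
noncomputable def B (S : Finset Γ) (φ ψ : Γ → ℝ) : ℝ := ∑' x, ∑ s ∈ S, φ x * ψ (x * s)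

noncomputable def N (φ : Γ → ℝ) : ℝ := ∑' x, φ x ^ 2

theorem N_nonneg (φ : Γ → ℝ) : 0 ≤ N φ := tsum_nonneg (fun x => sq_nonneg _)

theorem B_eq (S : Finset Γ) {φ ψ : Γ → ℝ} (hφ : FS φ) :
    B S φ ψ = ∑ s ∈ S, ∑' x, φ x * ψ (x * s) := by
  unfold B
  rw [Summable.tsum_finsetSum]
  intro s _
  exact (hφ.mul_right _).summable

/-- coarea inequality -/
theorem coarea (S : Finset Γ) (h : ℝ)
    (hNA : ∀ F : Finset Γ, F.Nonempty →
      h * F.card ≤ ((F ×ˢ S).filter (fun q => q.1 * q.2 ∉ F)).card) :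
    ∀ (n : ℕ) (g : Γ → ℝ) (F : Finset Γ), F.card = n → (∀ x, x ∉ F → g x = 0) →
      (∀ x ∈ F, 0 < g x) →
      h * ∑ x ∈ F, g x ≤ ∑ x ∈ F, ∑ s ∈ S, max (g x - g (x * s)) 0 := by
  intro n
  induction n using Nat.strong_induction_on with
  | _ n ih =>
  intro g F hF h0 hp
  by_cases hne : F.Nonempty
  swap
  · rw [Finset.not_nonempty_iff_eq_empty] at hne
    subst hne; simp
  obtain ⟨x0, hx0, hmin⟩ := F.exists_min_image g hne
  set m := g x0 with hm
  have hmpos : 0 < m := hp x0 hx0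
  set g' : Γ → ℝ := fun x => if x ∈ F then g x - m else 0 with hg'
  set F' := F.filter (fun x => 0 < g' x) with hF'
  have hF'F : F' ⊆ F := Finset.filter_subset _ _
  have hlt : F'.card < n := by
    rw [← hF]
    apply Finset.card_lt_card
    refine ⟨hF'F, fun hsub => ?_⟩
    have := hsub hx0
    rw [hF', Finset.mem_filter] at this
    simp [hg', hx0, hm] at this
  have hg'0 : ∀ x, x ∉ F' → g' x = 0 := by
    intro x hx
    by_cases hxF : x ∈ F
    · rw [hF', Finset.mem_filter] at hx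
      push Not at hx
      have h1 := hx hxF
      have h2 : 0 ≤ g' x := by simp only [hg', hxF, if_true]; linarith [hmin x hxF]
      linarith
    · simp [hg', hxF]
  have hI := ih F'.card hlt g' F' rfl hg'0 (fun x hx => (Finset.mem_filter.1 hx).2)
  have hsum1 : ∑ x ∈ F', g' x = ∑ x ∈ F, g' x :=
    Finset.sum_subset hF'F (fun x _ hx => hg'0 x hx)
  have hsum2 : ∑ x ∈ F', ∑ s ∈ S, max (g' x - g' (x * s)) 0
      = ∑ x ∈ F, ∑ s ∈ S, max (g' x - g' (x * s)) 0 := by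
    refine Finset.sum_subset hF'F (fun x _ hx => ?_)
    refine Finset.sum_eq_zero (fun s _ => ?_)
    have h1 := hg'0 x hx
    have h2 : 0 ≤ g' (x * s) := by
      by_cases hxs : x * s ∈ F
      · simp only [hg', hxs, if_true]; linarith [hmin _ hxs]
      · simp [hg', hxs]
    rw [h1]; simp [h2]
  rw [hsum1, hsum2] at hI
  have hg1 : ∑ x ∈ F, g x = ∑ x ∈ F, g' x + m * F.card := by
    rw [show m * (F.card : ℝ) = ∑ x ∈ F, m by rw [Finset.sum_const, nsmul_eq_mul, mul_comm],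
      ← Finset.sum_add_distrib]
    refine Finset.sum_congr rfl (fun x hx => ?_)
    simp [hg', hx]
  have hpt : ∀ x ∈ F, ∀ s ∈ S, max (g x - g (x * s)) 0
      = max (g' x - g' (x * s)) 0 + m * (if x * s ∉ F then 1 else 0) := by
    intro x hx s _
    by_cases hxs : x * s ∈ F
    · simp [hg', hx, hxs]
    · have h1 : g (x * s) = 0 := h0 _ hxs
      have h2 : g' (x * s) = 0 := by simp [hg', hxs]
      have h3 : g' x = g x - m := by simp [hg', hx]
      have h4 := hmin x hx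
      rw [h1, h2, h3]
      simp only [hxs, not_false_eq_true, if_true, mul_one, sub_zero]
      rw [max_eq_left (hp x hx).le, max_eq_left (by linarith)]; ring
  have hs : ∑ x ∈ F, ∑ s ∈ S, max (g x - g (x * s)) 0
      = ∑ x ∈ F, ∑ s ∈ S, max (g' x - g' (x * s)) 0
        + m * ((F ×ˢ S).filter (fun q => q.1 * q.2 ∉ F)).card := by
    rw [Finset.sum_congr rfl (fun x hx => Finset.sum_congr rfl (hpt x hx))]
    simp_rw [Finset.sum_add_distrib]
    congr 1
    rw [Finset.card_filter, Finset.sum_product]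
    push_cast
    rw [Finset.mul_sum]
    refine Finset.sum_congr rfl (fun x _ => ?_)
    rw [Finset.mul_sum]
  rw [hs, hg1, mul_add]
  have := hNA F hne
  nlinarith

theorem coarea_tsum (S : Finset Γ) (hS : ∀ s ∈ S, s⁻¹ ∈ S) (h : ℝ)
    (hNA : ∀ F : Finset Γ, F.Nonempty →
      h * F.card ≤ ((F ×ˢ S).filter (fun q => q.1 * q.2 ∉ F)).card)
    (g : Γ → ℝ) (hg : FS g) (hg0 : ∀ x, 0 ≤ g x) :
    2 * h * ∑' x, g x ≤ ∑ s ∈ S, ∑' x, |g x - g (x * s)| := by
  classical
  set F := hg.toFinset with hF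
  have hout : ∀ x, x ∉ F → g x = 0 := by
    intro x hx
    by_contra hc
    exact hx (by rw [hF, Set.Finite.mem_toFinset]; exact hc)
  have hin : ∀ x ∈ F, 0 < g x := by
    intro x hx
    rw [hF, Set.Finite.mem_toFinset] at hx
    exact lt_of_le_of_ne (hg0 x) (Ne.symm hx)
  have h1 := coarea S h hNA F.card g F rfl hout hin
  have e1 : ∑' x, g x = ∑ x ∈ F, g x := tsum_eq_sum (fun x hx => hout x hx)
  have e2 : ∑ x ∈ F, ∑ s ∈ S, max (g x - g (x * s)) 0
      = ∑ s ∈ S, ∑' x, max (g x - g (x * s)) 0 := by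
    rw [Finset.sum_comm]
    refine Finset.sum_congr rfl (fun s _ => ?_)
    rw [tsum_eq_sum (s := F)]
    intro x hx
    rw [hout x hx]; simp [hg0]
  have hfs : ∀ s : Γ, FS (fun x => max (g x - g (x * s)) 0) := by
    intro s
    refine hg.of_zero ?_
    intro x hx; simp [hx, hg0]
  have hfs2 : ∀ s : Γ, FS (fun x => max (g (x * s) - g x) 0) := by
    intro s
    refine (hg.shift s).of_zero ?_
    intro x hx; simp [hx, hg0]
  have e3 : ∑ s ∈ S, ∑' x, max (g (x * s) - g x) 0 = ∑ s ∈ S, ∑' x, max (g x - g (x * s)) 0 := by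
    refine Finset.sum_bij' (fun s _ => s⁻¹) (fun s _ => s⁻¹) (fun s hs => hS s hs)
      (fun s hs => hS s hs) (fun s _ => inv_inv s) (fun s _ => inv_inv s) ?_
    intro s _
    rw [← tsum_shift (fun x => max (g x - g (x * s⁻¹)) 0) s]
    simp
  have e4 : ∑ s ∈ S, ∑' x, |g x - g (x * s)|
      = ∑ s ∈ S, ∑' x, max (g x - g (x * s)) 0 + ∑ s ∈ S, ∑' x, max (g (x * s) - g x) 0 := by
    rw [← Finset.sum_add_distrib]
    refine Finset.sum_congr rfl (fun s _ => ?_)
    rw [← Summable.tsum_add (hfs s).summable (hfs2 s).summable]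
    refine tsum_congr (fun x => ?_)
    rcases le_total (g x) (g (x * s)) with hle | hle
    · rw [abs_of_nonpos (by linarith), max_eq_right (by linarith), max_eq_left (by linarith)]
      ring
    · rw [abs_of_nonneg (by linarith), max_eq_left (by linarith), max_eq_right (by linarith)]
      ring
  rw [e4, e3, e1, ← e2]
  linarith


theorem B_comm (S : Finset Γ) (hS : ∀ s ∈ S, s⁻¹ ∈ S) {φ ψ : Γ → ℝ} (hφ : FS φ) (hψ : FS ψ) :
    B S φ ψ = B S ψ φ := by
  rw [B_eq S hφ, B_eq S hψ]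
  refine Finset.sum_bij' (fun s _ => s⁻¹) (fun s _ => s⁻¹) (fun s hs => hS s hs)
      (fun s hs => hS s hs) (fun s _ => inv_inv s) (fun s _ => inv_inv s) ?_
  intro s _
  rw [← tsum_shift (fun x => ψ x * φ (x * s⁻¹)) s]
  refine tsum_congr (fun x => ?_)
  simp [mul_comm]

theorem FS.sq {φ : Γ → ℝ} (h : FS φ) : FS (fun x => φ x ^ 2) :=
  h.of_zero (fun x hx => by simp [hx])

theorem rayleigh (S : Finset Γ) (hS : ∀ s ∈ S, s⁻¹ ∈ S) (h : ℝ) (hh : 0 ≤ h)
    (hNA : ∀ F : Finset Γ, F.Nonempty →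
      h * F.card ≤ ((F ×ˢ S).filter (fun q => q.1 * q.2 ∉ F)).card)
    (φ : Γ → ℝ) (hφ : FS φ) :
    B S φ φ ^ 2 ≤ ((S.card : ℝ) ^ 2 - h ^ 2) * N φ ^ 2 := by
  classical
  have hsh : ∀ s, FS (fun x => φ (x * s)) := fun s => hφ.shift s
  have h1 := coarea_tsum S hS h hNA (fun x => φ x ^ 2) hφ.sq (fun x => sq_nonneg _)
  -- Cauchy-Schwarz
  have hN : ∀ s, ∑' x, φ (x * s) ^ 2 = N φ := fun s => tsum_shift (fun x => φ x ^ 2) s
  set a : Γ → ℝ := fun s => ∑' x, (φ x - φ (x * s)) ^ 2 with ha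
  set b : Γ → ℝ := fun s => ∑' x, (φ x + φ (x * s)) ^ 2 with hb
  have hQ : ∀ s, a s = 2 * N φ - 2 * ∑' x, φ x * φ (x * s) := by
    intro s
    have e : ∀ x, (φ x - φ (x * s)) ^ 2 = (φ x ^ 2 + φ (x * s) ^ 2) - 2 * (φ x * φ (x * s)) :=
      fun x => by ring
    simp only [ha]
    rw [tsum_congr e, Summable.tsum_sub, Summable.tsum_add, hN s, tsum_mul_left]
    · unfold N; ring
    · exact hφ.sq.summable
    · exact (hsh s).sq.summable
    · exact (hφ.sq.add (hsh s).sq).summable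
    · exact ((hφ.mul_right (fun x => φ (x * s))).mul_left (fun _ => 2)).summable
  have hP : ∀ s, b s = 2 * N φ + 2 * ∑' x, φ x * φ (x * s) := by
    intro s
    have e : ∀ x, (φ x + φ (x * s)) ^ 2 = (φ x ^ 2 + φ (x * s) ^ 2) + 2 * (φ x * φ (x * s)) :=
      fun x => by ring
    simp only [hb]
    rw [tsum_congr e, Summable.tsum_add, Summable.tsum_add, hN s, tsum_mul_left]
    · unfold N; ring
    · exact hφ.sq.summable
    · exact (hsh s).sq.summable
    · exact (hφ.sq.add (hsh s).sq).summable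
    · exact ((hφ.mul_right (fun x => φ (x * s))).mul_left (fun _ => 2)).summable
  have ha0 : ∀ s, 0 ≤ a s := fun s => tsum_nonneg (fun x => sq_nonneg _)
  have hb0 : ∀ s, 0 ≤ b s := fun s => tsum_nonneg (fun x => sq_nonneg _)
  have hcs : ∀ s, ∑' x, |φ x ^ 2 - φ (x * s) ^ 2| ≤ Real.sqrt (a s) * Real.sqrt (b s) := by
    intro s
    have e : ∀ x, |φ x ^ 2 - φ (x * s) ^ 2| = |φ x - φ (x * s)| * |φ x + φ (x * s)| := by
      intro x; rw [← abs_mul]; congr 1; ring
    rw [tsum_congr e]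
    have fs1 : FS (fun x => φ x - φ (x * s)) := hφ.sub (hsh s)
    set F := fs1.toFinset with hF
    have hout : ∀ x, x ∉ F → φ x - φ (x * s) = 0 := by
      intro x hx
      by_contra hc
      exact hx (by rw [hF, Set.Finite.mem_toFinset]; exact hc)
    rw [tsum_eq_sum (s := F) (fun x hx => by rw [hout x hx]; simp)]
    have hcs1 := Finset.sum_mul_sq_le_sq_mul_sq F (fun x => |φ x - φ (x * s)|)
      (fun x => |φ x + φ (x * s)|)
    rw [← Real.sqrt_mul (ha0 s)]
    apply Real.le_sqrt_of_sq_le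
    refine hcs1.trans ?_
    refine mul_le_mul ?_ ?_ (Finset.sum_nonneg (fun x _ => sq_nonneg _)) (ha0 s)
    · have : ∑ i ∈ F, |φ i - φ (i * s)| ^ 2 = ∑ i ∈ F, (φ i - φ (i * s)) ^ 2 :=
        Finset.sum_congr rfl (fun x _ => sq_abs _)
      rw [this]
      exact Summable.sum_le_tsum F (fun x _ => sq_nonneg _) fs1.sq.summable
    · have : ∑ i ∈ F, |φ i + φ (i * s)| ^ 2 = ∑ i ∈ F, (φ i + φ (i * s)) ^ 2 :=
        Finset.sum_congr rfl (fun x _ => sq_abs _)
      rw [this]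
      exact Summable.sum_le_tsum F (fun x _ => sq_nonneg _) (hφ.add (hsh s)).sq.summable
  have h2 : 2 * h * N φ ≤ ∑ s ∈ S, Real.sqrt (a s) * Real.sqrt (b s) :=
    h1.trans (Finset.sum_le_sum (fun s _ => hcs s))
  have h3 := Finset.sum_mul_sq_le_sq_mul_sq S (fun s => Real.sqrt (a s)) (fun s => Real.sqrt (b s))
  simp only [Real.sq_sqrt (ha0 _), Real.sq_sqrt (hb0 _)] at h3
  have h4 : ∑ s ∈ S, a s = 2 * S.card * N φ - 2 * B S φ φ := by
    rw [Finset.sum_congr rfl (fun s _ => hQ s), Finset.sum_sub_distrib, B_eq S hφ,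
      Finset.sum_const, Finset.mul_sum, nsmul_eq_mul]
    ring
  have h5 : ∑ s ∈ S, b s = 2 * S.card * N φ + 2 * B S φ φ := by
    rw [Finset.sum_congr rfl (fun s _ => hP s), Finset.sum_add_distrib, B_eq S hφ,
      Finset.sum_const, Finset.mul_sum, nsmul_eq_mul]
    ring
  rw [h4, h5] at h3
  have h6 : (2 * h * N φ) ^ 2 ≤ (∑ s ∈ S, Real.sqrt (a s) * Real.sqrt (b s)) ^ 2 := by
    apply pow_le_pow_left₀ _ h2
    have := N_nonneg φ
    positivity
  nlinarith [h6.trans h3]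

theorem B_add_left (S : Finset Γ) {φ φ' ψ : Γ → ℝ} (h1 : FS φ) (h2 : FS φ') :
    B S (fun x => φ x + φ' x) ψ = B S φ ψ + B S φ' ψ := by
  rw [B_eq S (h1.add h2), B_eq S h1, B_eq S h2, ← Finset.sum_add_distrib]
  refine Finset.sum_congr rfl (fun s _ => ?_)
  rw [← Summable.tsum_add (h1.mul_right _).summable (h2.mul_right _).summable]
  exact tsum_congr (fun x => by ring)

theorem B_smul_left (S : Finset Γ) (c : ℝ) {φ ψ : Γ → ℝ} (h1 : FS φ) :
    B S (fun x => c * φ x) ψ = c * B S φ ψ := by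
  rw [B_eq S (h1.mul_left (fun _ => c)), B_eq S h1, Finset.mul_sum]
  refine Finset.sum_congr rfl (fun s _ => ?_)
  rw [← tsum_mul_left]
  exact tsum_congr (fun x => by ring)

theorem N_smul (c : ℝ) (φ : Γ → ℝ) : N (fun x => c * φ x) = c ^ 2 * N φ := by
  unfold N
  rw [← tsum_mul_left]
  exact tsum_congr (fun x => by ring)

/-- the number of the bilinear bound -/
theorem bilin (S : Finset Γ) (hS : ∀ s ∈ S, s⁻¹ ∈ S) (r : ℝ) (hr : 0 ≤ r)
    (hR : ∀ φ : Γ → ℝ, FS φ → |B S φ φ| ≤ r * N φ)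
    (φ ψ : Γ → ℝ) (hφ : FS φ) (hψ : FS ψ) :
    B S φ ψ ≤ r * (Real.sqrt (N φ) * Real.sqrt (N ψ)) := by
  -- first: `2 B(φ,ψ) ≤ r (N φ + N ψ)`
  have key : ∀ φ ψ : Γ → ℝ, FS φ → FS ψ → 2 * B S φ ψ ≤ r * (N φ + N ψ) := by
    intro φ ψ hφ hψ
    have hm : FS (fun x => (-1) * ψ x) := hψ.mul_left (fun _ => (-1))
    have e1 : B S (fun x => φ x + ψ x) (fun x => φ x + ψ x)
        = B S φ φ + 2 * B S φ ψ + B S ψ ψ := by
      rw [B_add_left S hφ hψ, B_comm S hS hφ (hφ.add hψ), B_comm S hS hψ (hφ.add hψ),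
        B_add_left S hφ hψ, B_add_left S hφ hψ, B_comm S hS hψ hφ]
      ring
    have e2 : B S (fun x => φ x + (-1) * ψ x) (fun x => φ x + (-1) * ψ x)
        = B S φ φ - 2 * B S φ ψ + B S ψ ψ := by
      rw [B_add_left S hφ hm, B_comm S hS hφ (hφ.add hm), B_comm S hS hm (hφ.add hm),
        B_add_left S hφ hm, B_add_left S hφ hm, B_smul_left S (-1) hψ, B_smul_left S (-1) hψ,
        B_comm S hS hψ hφ, B_comm S hS hφ hm, B_smul_left S (-1) hψ,
        B_comm S hS hψ hm, B_smul_left S (-1) hψ, B_comm S hS hψ hφ]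
      ring
    have n1 : N (fun x => φ x + ψ x) + N (fun x => φ x + (-1) * ψ x) = 2 * (N φ + N ψ) := by
      unfold N
      rw [← Summable.tsum_add (hφ.add hψ).sq.summable (hφ.add hm).sq.summable,
        ← Summable.tsum_add hφ.sq.summable hψ.sq.summable, ← tsum_mul_left]
      exact tsum_congr (fun x => by ring)
    have a1 := (abs_le.1 (hR _ (hφ.add hψ))).2
    have a2 := (abs_le.1 (hR _ (hφ.add hm))).1
    rw [e1] at a1
    rw [e2] at a2
    nlinarith [n1]
  have hN1 := N_nonneg φ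
  have hN2 := N_nonneg ψ
  by_cases z1 : N φ = 0
  · -- scale
    have : ∀ t : ℝ, 2 * (t * B S φ ψ) ≤ r * N ψ := by
      intro t
      have := key (fun x => t * φ x) ψ (hφ.mul_left (fun _ => t)) hψ
      rw [B_smul_left S t hφ, N_smul, z1] at this
      simpa using this
    have hB : B S φ ψ ≤ 0 := by
      by_contra hc
      push Not at hc
      have h1 := this ((r * N ψ + 1) / (2 * B S φ ψ))
      have h2 : 2 * ((r * N ψ + 1) / (2 * B S φ ψ) * B S φ ψ) = r * N ψ + 1 := by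
        field_simp
      linarith
    rw [z1]; simpa using hB
  by_cases z2 : N ψ = 0
  · have : ∀ t : ℝ, 2 * (t * B S φ ψ) ≤ r * N φ := by
      intro t
      have := key φ (fun x => t * ψ x) hφ (hψ.mul_left (fun _ => t))
      rw [B_comm S hS hφ (hψ.mul_left (fun _ => t)), B_smul_left S t hψ, N_smul, z2,
        B_comm S hS hψ hφ] at this
      simpa using this
    have hB : B S φ ψ ≤ 0 := by
      by_contra hc
      push Not at hc
      have h1 := this ((r * N φ + 1) / (2 * B S φ ψ))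
      have h2 : 2 * ((r * N φ + 1) / (2 * B S φ ψ) * B S φ ψ) = r * N φ + 1 := by
        field_simp
      linarith
    rw [z2]; simpa using hB
  have p1 : 0 < N φ := lt_of_le_of_ne hN1 (Ne.symm z1)
  have p2 : 0 < N ψ := lt_of_le_of_ne hN2 (Ne.symm z2)
  set u := Real.sqrt (N φ) with hu
  set v := Real.sqrt (N ψ) with hv
  have hu0 : 0 < u := Real.sqrt_pos.2 p1
  have hv0 : 0 < v := Real.sqrt_pos.2 p2
  have hu2 : u ^ 2 = N φ := Real.sq_sqrt hN1
  have hv2 : v ^ 2 = N ψ := Real.sq_sqrt hN2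
  have := key (fun x => v * φ x) (fun x => u * ψ x) (hφ.mul_left (fun _ => v))
    (hψ.mul_left (fun _ => u))
  rw [B_smul_left S v hφ, B_comm S hS hφ (hψ.mul_left (fun _ => u)), B_smul_left S u hψ,
    B_comm S hS hψ hφ, N_smul, N_smul, ← hu2, ← hv2] at this
  have h3 : 2 * (v * u) * B S φ ψ ≤ 2 * (v * u) * (r * (u * v)) := by nlinarith
  exact le_of_mul_le_mul_left h3 (by positivity)

/-- the (unnormalised) Markov operator -/
def T (S : Finset Γ) (ψ : Γ → ℝ) : Γ → ℝ := fun x => ∑ s ∈ S, ψ (x * s)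

theorem FS.T {ψ : Γ → ℝ} (S : Finset Γ) (h : FS ψ) : FS (T S ψ) :=
  FS.sum S (fun s _ => h.shift s)

theorem B_T (S : Finset Γ) (φ ψ : Γ → ℝ) : B S φ ψ = ∑' x, φ x * T S ψ x := by
  unfold B T
  exact tsum_congr (fun x => by rw [Finset.mul_sum])

theorem N_T (S : Finset Γ) (hS : ∀ s ∈ S, s⁻¹ ∈ S) (r : ℝ) (hr : 0 ≤ r)
    (hR : ∀ φ : Γ → ℝ, FS φ → |B S φ φ| ≤ r * N φ) (ψ : Γ → ℝ) (hψ : FS ψ) :
    Real.sqrt (N (T S ψ)) ≤ r * Real.sqrt (N ψ) := by
  have h1 := bilin S hS r hr hR (T S ψ) ψ (FS.T S hψ) hψ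
  rw [B_T] at h1
  have h2 : ∑' x, T S ψ x * T S ψ x = N (T S ψ) := tsum_congr (fun x => by ring)
  rw [h2] at h1
  set u := Real.sqrt (N (T S ψ)) with hu
  have hu2 : u ^ 2 = N (T S ψ) := Real.sq_sqrt (N_nonneg _)
  have hu0 : 0 ≤ u := Real.sqrt_nonneg _
  rcases hu0.eq_or_lt with h0 | h0
  · rw [← h0]; positivity
  · rw [← hu2] at h1
    have : u * u ≤ u * (r * Real.sqrt (N ψ)) := by nlinarith
    exact le_of_mul_le_mul_left this h0

theorem N_iter (S : Finset Γ) (hS : ∀ s ∈ S, s⁻¹ ∈ S) (r : ℝ) (hr : 0 ≤ r)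
    (hR : ∀ φ : Γ → ℝ, FS φ → |B S φ φ| ≤ r * N φ) (ψ : Γ → ℝ) (hψ : FS ψ) (k : ℕ) :
    FS ((T S)^[k] ψ) ∧ Real.sqrt (N ((T S)^[k] ψ)) ≤ r ^ k * Real.sqrt (N ψ) := by
  induction k with
  | zero => simpa using hψ
  | succ k ih =>
    rw [Function.iterate_succ', Function.comp_apply]
    refine ⟨FS.T S ih.1, ?_⟩
    refine (N_T S hS r hr hR _ ih.1).trans ?_
    rw [pow_succ]
    calc r * Real.sqrt (N ((T S)^[k] ψ)) ≤ r * (r ^ k * Real.sqrt (N ψ)) := by
          exact mul_le_mul_of_nonneg_left ih.2 hr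
      _ = _ := by ring

theorem T_iter_count (S : Finset Γ) (Bs : Finset Γ) (k : ℕ) (x : Γ) :
    (T S)^[k] (fun y => if y ∈ Bs then (1:ℝ) else 0) x
      = ∑ w : Fin k → S, if x * (List.ofFn (fun i => (w i : Γ))).prod ∈ Bs then (1:ℝ) else 0 := by
  induction k generalizing x with
  | zero => simp
  | succ k ih =>
    rw [Function.iterate_succ', Function.comp_apply]
    unfold T
    rw [← Finset.sum_coe_sort S]
    rw [← (Fin.consEquiv (fun _ => S)).sum_comp, Fintype.sum_prod_type]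
    refine Finset.sum_congr rfl (fun s _ => ?_)
    have := ih (x * (s : Γ))
    unfold T at this
    rw [this]
    refine Finset.sum_congr rfl (fun w _ => ?_)
    simp [Fin.consEquiv, List.ofFn_succ, mul_assoc]

/-- **Kesten bound** for a nonamenable Cayley graph. -/
theorem spectral (S : Finset Γ) (hS : ∀ s ∈ S, s⁻¹ ∈ S) (hne : S.Nonempty) (h : ℝ) (hpos : 0 < h)
    (hNA : ∀ F : Finset Γ, F.Nonempty →
      h * F.card ≤ ((F ×ˢ S).filter (fun q => q.1 * q.2 ∉ F)).card) :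
    ∃ ρ : ℝ, 0 < ρ ∧ ρ < 1 ∧ ∀ (k : ℕ) (A Bs : Finset Γ),
      ∑ x ∈ A, ∑ w : Fin k → S,
          (if x * (List.ofFn (fun i => (w i : Γ))).prod ∈ Bs then (1:ℝ) else 0)
        ≤ ρ ^ k * (S.card : ℝ) ^ k * (Real.sqrt A.card * Real.sqrt Bs.card) := by
  classical
  have hD : (0:ℝ) < S.card := by exact_mod_cast hne.card_pos
  -- take h' = min h (card/2) to make ρ > 0
  set h' := min h ((S.card : ℝ) / 2) with hh'
  have hp' : 0 < h' := lt_min hpos (by positivity)
  have hle : h' ≤ h := min_le_left _ _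
  have hle2 : h' ≤ S.card / 2 := min_le_right _ _
  have hNA' : ∀ F : Finset Γ, F.Nonempty →
      h' * F.card ≤ ((F ×ˢ S).filter (fun q => q.1 * q.2 ∉ F)).card := fun F hF =>
    (mul_le_mul_of_nonneg_right hle (Nat.cast_nonneg _)).trans (hNA F hF)
  set r := Real.sqrt ((S.card : ℝ) ^ 2 - h' ^ 2) with hr
  have hin : 0 < (S.card : ℝ) ^ 2 - h' ^ 2 := by nlinarith
  have hr0 : 0 < r := Real.sqrt_pos.2 hin
  have hr2 : r ^ 2 = (S.card : ℝ) ^ 2 - h' ^ 2 := Real.sq_sqrt hin.le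
  have hrD : r < S.card := by
    apply lt_of_pow_lt_pow_left₀ 2 hD.le
    nlinarith
  have hR : ∀ φ : Γ → ℝ, FS φ → |B S φ φ| ≤ r * N φ := by
    intro φ hφ
    have := rayleigh S hS h' hp'.le hNA' φ hφ
    apply abs_le_of_sq_le_sq' _ (mul_nonneg hr0.le (N_nonneg φ)) |> abs_le.2
    rw [mul_pow, hr2]; exact this
  refine ⟨r / S.card, by positivity, (div_lt_one hD).2 hrD, ?_⟩
  intro k A Bs
  have hfs : FS (fun y => if y ∈ Bs then (1:ℝ) else 0) := by
    refine Bs.finite_toSet.subset ?_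
    intro x hx
    simp only [Function.mem_support, ne_eq, ite_eq_right_iff, one_ne_zero, imp_false,
      not_not] at hx
    exact hx
  obtain ⟨h1, h2⟩ := N_iter S hS r hr0.le hR _ hfs k
  have hNB : N (fun y => if y ∈ Bs then (1:ℝ) else 0) = Bs.card := by
    unfold N
    rw [tsum_eq_sum (s := Bs)]
    · simp
    · intro x hx; simp [hx]
  rw [hNB] at h2
  have h3 : ∑ x ∈ A, ∑ w : Fin k → S,
          (if x * (List.ofFn (fun i => (w i : Γ))).prod ∈ Bs then (1:ℝ) else 0)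
      = ∑ x ∈ A, 1 * (T S)^[k] (fun y => if y ∈ Bs then (1:ℝ) else 0) x := by
    refine Finset.sum_congr rfl (fun x _ => ?_)
    rw [one_mul, T_iter_count]
  rw [h3, div_pow, div_mul_cancel₀ _ (by positivity)]
  have h4 := Finset.sum_mul_sq_le_sq_mul_sq A (fun _ => (1:ℝ))
    ((T S)^[k] (fun y => if y ∈ Bs then (1:ℝ) else 0))
  have h5 : ∑ x ∈ A, ((T S)^[k] (fun y => if y ∈ Bs then (1:ℝ) else 0) x) ^ 2
      ≤ N ((T S)^[k] (fun y => if y ∈ Bs then (1:ℝ) else 0)) :=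
    Summable.sum_le_tsum A (fun x _ => sq_nonneg _) h1.sq.summable
  simp only [one_pow, Finset.sum_const, nsmul_eq_mul, mul_one] at h4
  have h6 : ∑ x ∈ A, 1 * (T S)^[k] (fun y => if y ∈ Bs then (1:ℝ) else 0) x
      ≤ Real.sqrt A.card * Real.sqrt (N ((T S)^[k] (fun y => if y ∈ Bs then (1:ℝ) else 0))) := by
    rw [← Real.sqrt_mul (Nat.cast_nonneg _)]
    apply Real.le_sqrt_of_sq_le
    exact h4.trans (mul_le_mul_of_nonneg_left h5 (Nat.cast_nonneg _))
  refine h6.trans ?_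
  calc Real.sqrt A.card * Real.sqrt (N ((T S)^[k] (fun y => if y ∈ Bs then (1:ℝ) else 0)))
      ≤ Real.sqrt A.card * (r ^ k * Real.sqrt Bs.card) :=
        mul_le_mul_of_nonneg_left h2 (Real.sqrt_nonneg _)
    _ = _ := by ring


/-- **Kesten bound**, `ℓ²` form. -/
theorem spectral2 (S : Finset Γ) (hS : ∀ s ∈ S, s⁻¹ ∈ S) (hne : S.Nonempty) (h : ℝ) (hpos : 0 < h)
    (hNA : ∀ F : Finset Γ, F.Nonempty →
      h * F.card ≤ ((F ×ˢ S).filter (fun q => q.1 * q.2 ∉ F)).card) :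
    ∃ ρ : ℝ, 0 < ρ ∧ ρ < 1 ∧ ∀ (k : ℕ) (K : Finset Γ),
      FS ((T S)^[k] (fun y => if y ∈ K then (1:ℝ) else 0)) ∧
      Real.sqrt (N ((T S)^[k] (fun y => if y ∈ K then (1:ℝ) else 0)))
        ≤ ρ ^ k * (S.card : ℝ) ^ k * Real.sqrt K.card := by
  classical
  have hD : (0:ℝ) < S.card := by exact_mod_cast hne.card_pos
  set h' := min h ((S.card : ℝ) / 2) with hh'
  have hp' : 0 < h' := lt_min hpos (by positivity)
  have hle : h' ≤ h := min_le_left _ _
  have hle2 : h' ≤ S.card / 2 := min_le_right _ _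
  have hNA' : ∀ F : Finset Γ, F.Nonempty →
      h' * F.card ≤ ((F ×ˢ S).filter (fun q => q.1 * q.2 ∉ F)).card := fun F hF =>
    (mul_le_mul_of_nonneg_right hle (Nat.cast_nonneg _)).trans (hNA F hF)
  set r := Real.sqrt ((S.card : ℝ) ^ 2 - h' ^ 2) with hr
  have hin : 0 < (S.card : ℝ) ^ 2 - h' ^ 2 := by nlinarith
  have hr0 : 0 < r := Real.sqrt_pos.2 hin
  have hr2 : r ^ 2 = (S.card : ℝ) ^ 2 - h' ^ 2 := Real.sq_sqrt hin.le
  have hrD : r < S.card := by
    apply lt_of_pow_lt_pow_left₀ 2 hD.le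
    nlinarith
  have hR : ∀ φ : Γ → ℝ, FS φ → |B S φ φ| ≤ r * N φ := by
    intro φ hφ
    have := rayleigh S hS h' hp'.le hNA' φ hφ
    apply abs_le_of_sq_le_sq' _ (mul_nonneg hr0.le (N_nonneg φ)) |> abs_le.2
    rw [mul_pow, hr2]; exact this
  refine ⟨r / S.card, by positivity, (div_lt_one hD).2 hrD, ?_⟩
  intro k K
  have hfs : FS (fun y => if y ∈ K then (1:ℝ) else 0) := by
    refine K.finite_toSet.subset ?_
    intro x hx
    simp only [Function.mem_support, ne_eq, ite_eq_right_iff, one_ne_zero, imp_false,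
      not_not] at hx
    exact hx
  obtain ⟨h1, h2⟩ := N_iter S hS r hr0.le hR _ hfs k
  have hNB : N (fun y => if y ∈ K then (1:ℝ) else 0) = K.card := by
    unfold N
    rw [tsum_eq_sum (s := K)]
    · simp
    · intro x hx; simp [hx]
  rw [hNB] at h2
  refine ⟨h1, ?_⟩
  rw [div_pow, div_mul_cancel₀ _ (by positivity)]
  exact h2

end Pool.Agent.IIC.Kesten
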