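import Pool.Agent.IIC.AB
import Pool.Agent.IIC.Kesten

set_option autoImplicit false
set_option linter.unusedVariables false
set_option linter.unusedSectionVars false

namespace Pool.Agent.IIC

open MeasureTheory ProbabilityTheory
open scoped ENNReal NNReal

variable {Γ : Type} [Group Γ]

theorem nonam_count [DecidableEq Γ] {S : Finset Γ} (hS : Symm S) (hna : Nonamenable S) :
    S.Nonempty ∧ ∃ h : ℝ, 0 < h ∧ ∀ F : Finset Γ, F.Nonempty →
      h * F.card ≤ ((F ×ˢ S).filter (fun q => q.1 * q.2 ∉ F)).card := by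
  classical
  obtain ⟨ι, hι, hK⟩ := hna
  have key : ∀ F : Finset Γ, ({e ∈ (cay S).edgeSet | ∃ x ∈ F, ∃ y ∉ F, e = s(x, y)}).ncard
      ≤ ((F ×ˢ S).filter (fun q => q.1 * q.2 ∉ F)).card := by
    intro F
    have hsub : {e ∈ (cay S).edgeSet | ∃ x ∈ F, ∃ y ∉ F, e = s(x, y)}
        ⊆ (((F ×ˢ S).filter (fun q => q.1 * q.2 ∉ F)).image
            (fun q => s(q.1, q.1 * q.2)) : Finset (Sym2 Γ)) := by
      rintro e ⟨he, x, hx, y, hy, rfl⟩
      rw [SimpleGraph.mem_edgeSet, cay_adj hS] at he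
      rw [Finset.coe_image]
      refine ⟨(x, x⁻¹ * y), ?_, by simp⟩
      simp [hx, he.2, hy]
    calc _ ≤ (((((F ×ˢ S).filter (fun q => q.1 * q.2 ∉ F)).image
            (fun q => s(q.1, q.1 * q.2)) : Finset (Sym2 Γ)) : Set (Sym2 Γ))).ncard :=
          Set.ncard_le_ncard hsub (Finset.finite_toSet _)
      _ = _ := Set.ncard_coe_finset _
      _ ≤ _ := Finset.card_image_le
  have h2 : ∀ F : Finset Γ, F.Nonempty →
      ι * F.card ≤ ((F ×ˢ S).filter (fun q => q.1 * q.2 ∉ F)).card := fun F hF =>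
    (hK F hF).trans (by exact_mod_cast key F)
  refine ⟨?_, ι, hι, h2⟩
  by_contra hne
  rw [Finset.not_nonempty_iff_eq_empty] at hne
  subst hne
  have := h2 {1} (Finset.singleton_nonempty 1)
  simp at this
  linarith

theorem avg_succ (S : Finset Γ) (k : ℕ) (f : Γ → ℝ≥0∞) (x : Γ) :
    avg S (k + 1) f x = (∑ s ∈ S, avg S k f (x * s)) / S.card := rfl

theorem avg_zero (S : Finset Γ) (f : Γ → ℝ≥0∞) (x : Γ) : avg S 0 f x = f x := rfl

theorem avg_const_mul (S : Finset Γ) (k : ℕ) (c : ℝ≥0∞) (f : Γ → ℝ≥0∞) (x : Γ) :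
    avg S k (fun u => c * f u) x = c * avg S k f x := by
  induction k generalizing x with
  | zero => rfl
  | succ k ih =>
    rw [avg_succ, avg_succ]
    simp_rw [ih]
    rw [← Finset.mul_sum, mul_div_assoc]

theorem avg_tsum {ι : Type} (S : Finset Γ) (k : ℕ) (f : ι → Γ → ℝ≥0∞) (x : Γ) :
    avg S k (fun u => ∑' b, f b u) x = ∑' b, avg S k (f b) x := by
  induction k generalizing x with
  | zero => rfl
  | succ k ih =>
    simp_rw [avg_succ, ih, div_eq_mul_inv]
    rw [ENNReal.tsum_mul_right, ← Summable.tsum_finsetSum (fun _ _ => ENNReal.summable)]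

theorem avg_left (S : Finset Γ) (k : ℕ) (f : Γ → ℝ≥0∞) (g x : Γ) :
    avg S k (fun u => f (g * u)) x = avg S k f (g * x) := by
  induction k generalizing x with
  | zero => rfl
  | succ k ih =>
    simp_rw [avg_succ, ih, mul_assoc]

theorem avg_mono (S : Finset Γ) (k : ℕ) {f f' : Γ → ℝ≥0∞} (h : ∀ u, f u ≤ f' u) (x : Γ) :
    avg S k f x ≤ avg S k f' x := by
  induction k generalizing x with
  | zero => exact h x
  | succ k ih =>
    simp_rw [avg_succ]
    exact ENNReal.div_le_div_right (Finset.sum_le_sum (fun s _ => ih _)) _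

theorem meas_avg {Ω : Type} [MeasurableSpace Ω] (S : Finset Γ) (k : ℕ) (Φ : Γ → Ω → ℝ≥0∞)
    (hΦ : ∀ u, Measurable (Φ u)) (x : Γ) : Measurable (fun ω => avg S k (fun u => Φ u ω) x) := by
  induction k generalizing x with
  | zero => exact hΦ x
  | succ k ih =>
    simp_rw [avg_succ, div_eq_mul_inv]
    exact (Finset.measurable_fun_sum S (fun s _ => ih _)).mul_const _

theorem avg_lintegral {Ω : Type} [MeasurableSpace Ω] (μ : Measure Ω) (S : Finset Γ) (k : ℕ)
    (Φ : Γ → Ω → ℝ≥0∞) (hΦ : ∀ u, Measurable (Φ u)) (x : Γ) :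
    avg S k (fun u => ∫⁻ ω, Φ u ω ∂μ) x = ∫⁻ ω, avg S k (fun u => Φ u ω) x ∂μ := by
  induction k generalizing x with
  | zero => rfl
  | succ k ih =>
    simp_rw [avg_succ, ih, div_eq_mul_inv]
    rw [lintegral_mul_const _ (Finset.measurable_fun_sum S (fun s _ => meas_avg S k Φ hΦ _)),
      lintegral_finset_sum S (fun s _ => meas_avg S k Φ hΦ _)]

theorem avg_eq_T [DecidableEq Γ] {S : Finset Γ} (hne : S.Nonempty) (K : Finset Γ) (k : ℕ) (x : Γ) :
    avg S k (Set.indicator (K : Set Γ) (fun _ => 1)) x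
      = ENNReal.ofReal ((Kesten.T S)^[k] (fun y => if y ∈ K then (1:ℝ) else 0) x
        / (S.card : ℝ) ^ k) := by
  have hD : (0:ℝ) < S.card := by exact_mod_cast hne.card_pos
  have hnn : ∀ (k : ℕ) (x : Γ), 0 ≤ (Kesten.T S)^[k] (fun y => if y ∈ K then (1:ℝ) else 0) x := by
    intro k
    induction k with
    | zero => intro x; simp only [Function.iterate_zero, id_eq]; split_ifs <;> norm_num
    | succ k ih =>
      intro x
      rw [Function.iterate_succ', Function.comp_apply]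
      exact Finset.sum_nonneg (fun s _ => ih _)
  induction k generalizing x with
  | zero =>
    rw [avg_zero]
    by_cases hx : x ∈ K
    · simp [Set.indicator, hx]
    · simp [Set.indicator, hx]
  | succ k ih =>
    rw [avg_succ, Function.iterate_succ', Function.comp_apply]
    simp_rw [ih]
    rw [← ENNReal.ofReal_sum_of_nonneg (fun s _ => div_nonneg (hnn k _) (by positivity))]
    have e : (S.card : ℝ≥0∞) = ENNReal.ofReal (S.card : ℝ) := by simp
    rw [e, ← ENNReal.ofReal_div_of_pos hD]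
    congr 1
    unfold Kesten.T
    rw [← Finset.sum_div, div_div, pow_succ]

theorem T_iter_nonneg (S K : Finset Γ) [DecidableEq Γ] (k : ℕ) (x : Γ) :
    0 ≤ (Kesten.T S)^[k] (fun y => if y ∈ K then (1:ℝ) else 0) x := by
  induction k generalizing x with
  | zero => simp only [Function.iterate_zero, id_eq]; split_ifs <;> norm_num
  | succ k ih =>
    rw [Function.iterate_succ', Function.comp_apply]
    exact Finset.sum_nonneg (fun s _ => ih _)

theorem kesten_full {S : Finset Γ} (hS : Symm S) (hna : Nonamenable S) :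
    ∃ ρ : ℝ≥0, 0 < ρ ∧ ρ < 1 ∧
      (∀ (k : ℕ) (K : Finset Γ),
        ∑' y, (avg S k (Set.indicator (K : Set Γ) (fun _ => 1)) y) ^ 2
          ≤ (ρ : ℝ≥0∞) ^ (2 * k) * K.card) ∧
      (∀ (k : ℕ) (A K : Finset Γ),
        ∑ y ∈ A, avg S k (Set.indicator (K : Set Γ) (fun _ => 1)) y
          ≤ (ρ : ℝ≥0∞) ^ k * ENNReal.ofReal (Real.sqrt A.card * Real.sqrt K.card)) := by
  classical
  obtain ⟨hne, h, hpos, hNA⟩ := nonam_count hS hna
  obtain ⟨ρ, h0, h1, hsp⟩ := Kesten.spectral2 S hS hne h hpos hNA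
  have hD : (0:ℝ) < S.card := by exact_mod_cast hne.card_pos
  have eρ : ((Real.toNNReal ρ : ℝ≥0) : ℝ≥0∞) = ENNReal.ofReal ρ := rfl
  refine ⟨Real.toNNReal ρ, Real.toNNReal_pos.2 h0, Real.toNNReal_lt_one.2 h1, ?_, ?_⟩
  · intro k K
    obtain ⟨hfs, hN⟩ := hsp k K
    set φ := (Kesten.T S)^[k] (fun y => if y ∈ K then (1:ℝ) else 0) with hφ
    have hφ0 : ∀ y, 0 ≤ φ y := T_iter_nonneg S K k
    have hsq : Kesten.N φ ≤ (ρ ^ k * (S.card : ℝ) ^ k) ^ 2 * K.card := by
      have := pow_le_pow_left₀ (Real.sqrt_nonneg _) hN 2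
      rw [Real.sq_sqrt (Kesten.N_nonneg _), mul_pow, Real.sq_sqrt (Nat.cast_nonneg _)] at this
      exact this
    have e1 : ∀ y, (avg S k (Set.indicator (K : Set Γ) (fun _ => 1)) y) ^ 2
        = ENNReal.ofReal ((φ y / (S.card : ℝ) ^ k) ^ 2) := by
      intro y
      rw [avg_eq_T hne, ← ENNReal.ofReal_pow (div_nonneg (hφ0 y) (by positivity))]
    have hsum : Summable (fun y => (φ y / (S.card : ℝ) ^ k) ^ 2) := by
      have := (hfs.sq.mul_right (fun _ => (((S.card : ℝ) ^ k) ^ 2)⁻¹)).summable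
      refine this.congr (fun y => ?_)
      rw [div_pow, div_eq_mul_inv]
    rw [tsum_congr e1, ← ENNReal.ofReal_tsum_of_nonneg (fun y => sq_nonneg _) hsum, eρ,
      ← ENNReal.ofReal_pow h0.le]
    have e2 : (K.card : ℝ≥0∞) = ENNReal.ofReal (K.card : ℝ) := by simp
    rw [e2, ← ENNReal.ofReal_mul (by positivity)]
    apply ENNReal.ofReal_le_ofReal
    have e3 : ∑' y, (φ y / (S.card : ℝ) ^ k) ^ 2 = Kesten.N φ / ((S.card : ℝ) ^ k) ^ 2 := by
      unfold Kesten.N
      rw [← tsum_div_const]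
      exact tsum_congr (fun y => by rw [div_pow])
    rw [e3, div_le_iff₀ (by positivity)]
    calc Kesten.N φ ≤ (ρ ^ k * (S.card : ℝ) ^ k) ^ 2 * K.card := hsq
      _ = _ := by ring
  · intro k A K
    obtain ⟨hfs, hN⟩ := hsp k K
    set φ := (Kesten.T S)^[k] (fun y => if y ∈ K then (1:ℝ) else 0) with hφ
    have hφ0 : ∀ y, 0 ≤ φ y := T_iter_nonneg S K k
    have e1 : ∀ y, avg S k (Set.indicator (K : Set Γ) (fun _ => 1)) y
        = ENNReal.ofReal (φ y / (S.card : ℝ) ^ k) := fun y => avg_eq_T hne K k y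
    rw [Finset.sum_congr rfl (fun y _ => e1 y), ← ENNReal.ofReal_sum_of_nonneg
      (fun y _ => div_nonneg (hφ0 y) (by positivity)), eρ, ← ENNReal.ofReal_pow h0.le,
      ← ENNReal.ofReal_mul (by positivity)]
    apply ENNReal.ofReal_le_ofReal
    rw [← Finset.sum_div, div_le_iff₀ (by positivity)]
    have h4 := Finset.sum_mul_sq_le_sq_mul_sq A (fun _ => (1:ℝ)) φ
    have h5 : ∑ x ∈ A, (φ x) ^ 2 ≤ Kesten.N φ :=
      Summable.sum_le_tsum A (fun x _ => sq_nonneg _) hfs.sq.summable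
    simp only [one_pow, Finset.sum_const, nsmul_eq_mul, mul_one, one_mul] at h4
    have h6 : ∑ x ∈ A, φ x ≤ Real.sqrt A.card * Real.sqrt (Kesten.N φ) := by
      rw [← Real.sqrt_mul (Nat.cast_nonneg _)]
      apply Real.le_sqrt_of_sq_le
      exact h4.trans (mul_le_mul_of_nonneg_left h5 (Nat.cast_nonneg _))
    refine h6.trans ?_
    calc Real.sqrt A.card * Real.sqrt (Kesten.N φ)
        ≤ Real.sqrt A.card * (ρ ^ k * (S.card : ℝ) ^ k * Real.sqrt K.card) :=
          mul_le_mul_of_nonneg_left hN (Real.sqrt_nonneg _)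
      _ = _ := by ring

/-- mass transport: the two point function as an average over the cluster -/
theorem tau_mtp [Countable Γ] (S : Finset Γ) (p : ℝ≥0) (hp : p ≤ 1) (hfin : Fin0 S p hp) (g : Γ) :
    bP Γ p hp {ω | g ∈ clus S ω 1}
      = ∑' b : Γ, ∫⁻ ω, Set.indicator {ω | b ∈ clus S ω 1 ∧ b * g ∈ clus S ω 1}
          (fun ω => (sz S ω 1)⁻¹) ω ∂(bP Γ p hp) := by
  classical
  set F : Γ → Γ → Cfg Γ → ℝ≥0∞ := fun a b ω =>
    Set.indicator {ω | b ∈ clus S ω a ∧ b * g ∈ clus S ω a} (fun ω => (sz S ω a)⁻¹) ω with hF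
  have hFm : ∀ x y, Measurable (F x y) := fun x y =>
    (meas_sz S x).inv.indicator ((meas_clus S x y).inter (meas_clus S x (y * g)))
  have hFi : ∀ h x y ω, F (h * x) (h * y) (shift h ω) = F x y ω := by
    intro h x y ω
    simp only [hF, Set.indicator_apply, Set.mem_setOf_eq]
    rw [mul_assoc, mem_clus_shift, mem_clus_shift, sz_shift]
  have hm := mtp p hp F hFm hFi
  have e1 : ∑' y, ∫⁻ ω, F 1 y ω ∂(bP Γ p hp) = ∑' b : Γ, ∫⁻ ω,
      Set.indicator {ω | b ∈ clus S ω 1 ∧ b * g ∈ clus S ω 1}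
          (fun ω => (sz S ω 1)⁻¹) ω ∂(bP Γ p hp) := rfl
  rw [← e1, hm, ← lintegral_tsum (fun y => (hFm y 1).aemeasurable)]
  rw [← lintegral_indicator_one (meas_clus S 1 g)]
  apply lintegral_congr_ae
  filter_upwards [fin_all p hp S hfin] with ω hω
  have key : ∀ y, F y 1 ω = Set.indicator (clus S ω 1)
      (fun _ => Set.indicator {ω | g ∈ clus S ω 1} 1 ω * (sz S ω 1)⁻¹) y := by
    intro y
    by_cases hy : y ∈ clus S ω 1
    · have hy' : (opn S ω).Reachable 1 y := hy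
      have hc : clus S ω y = clus S ω 1 := by
        ext z
        exact ⟨fun hz => hy'.trans hz, fun hz => hy'.symm.trans hz⟩
      have h1 : (1:Γ) ∈ clus S ω y := hy'.symm
      simp only [hF, Set.indicator_apply, Set.mem_ofPred_eq, one_mul, hy, if_true, h1, true_and]
      have hs : sz S ω y = sz S ω 1 := by unfold sz; rw [hc]
      rw [hc, hs]
      by_cases hg : g ∈ clus S ω 1
      · simp [hg]
      · simp [hg]
    · have h1 : (1:Γ) ∉ clus S ω y := fun h => hy (SimpleGraph.Reachable.symm h)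
      simp only [hF, Set.indicator_apply, Set.mem_ofPred_eq, hy, if_false, h1, false_and]
  rw [tsum_congr key]
  set K := (hω 1).toFinset with hK
  have hKc : clus S ω 1 = (K : Set Γ) := by simp [hK]
  have h1K : (1:Γ) ∈ K := by
    rw [hK, Set.Finite.mem_toFinset]; exact SimpleGraph.Reachable.refl _
  have hsz : sz S ω 1 = (K.card : ℝ≥0∞) := by
    unfold sz; rw [hKc, Set.encard_coe_eq_coe_finsetCard]; rfl
  have hKpos : (K.card : ℝ≥0∞) ≠ 0 := by
    simp only [ne_eq, Nat.cast_eq_zero, Finset.card_eq_zero]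
    exact Finset.ne_empty_of_mem h1K
  rw [tsum_eq_sum (s := K)]
  · rw [Finset.sum_congr rfl (fun y hy => Set.indicator_of_mem (by rw [hKc]; exact hy) _),
      Finset.sum_const, nsmul_eq_mul, hsz, mul_comm, mul_assoc,
      ENNReal.inv_mul_cancel hKpos (ENNReal.natCast_ne_top _), mul_one]
  · intro y hy
    exact Set.indicator_of_notMem (by rw [hKc]; exact hy) _

/-- averaged connectivity bound -/
theorem conn_avg_of [Countable Γ] (S : Finset Γ) (hS : Symm S) (ρ : ℝ≥0)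
    (hρ : ∀ (k : ℕ) (A K : Finset Γ), A.card = K.card →
        ∑ y ∈ A, avg S k (Set.indicator (K : Set Γ) (fun _ => 1)) y
          ≤ (ρ : ℝ≥0∞) ^ k * K.card)
    (p : ℝ≥0) (hp : p ≤ 1) (hfin : Fin0 S p hp) (k : ℕ) (h x : Γ) :
    avg S k (fun u => bP Γ p hp {ω | x ∈ clus S ω u}) h ≤ (ρ : ℝ≥0∞) ^ k := by
  classical
  have e0 : ∀ u, bP Γ p hp {ω | x ∈ clus S ω u} = bP Γ p hp {ω | x⁻¹ * u ∈ clus S ω 1} := by
    intro u
    have h1 : {ω : Cfg Γ | x ∈ clus S ω u} = shift x⁻¹ ⁻¹' {ω | x⁻¹ * u ∈ clus S ω 1} := by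
      ext ω
      simp only [Set.mem_setOf_eq, Set.mem_preimage]
      have := mem_clus_shift (S := S) x⁻¹ ω x u
      rw [inv_mul_cancel] at this
      rw [this]
      unfold clus
      simp only [Set.mem_setOf_eq]
      exact SimpleGraph.reachable_comm
    rw [h1, (shift_mp p hp x⁻¹).measure_preimage (meas_clus S 1 _).nullMeasurableSet]
  set Φ : Γ → Γ → Cfg Γ → ℝ≥0∞ := fun b u ω =>
    Set.indicator {ω | b ∈ clus S ω 1 ∧ b * (x⁻¹ * u) ∈ clus S ω 1}
      (fun ω => (sz S ω 1)⁻¹) ω with hΦ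
  have hΦm : ∀ b u, Measurable (Φ b u) := fun b u =>
    (meas_sz S 1).inv.indicator ((meas_clus S 1 b).inter (meas_clus S 1 _))
  have e1 : (fun u => bP Γ p hp {ω | x ∈ clus S ω u})
      = fun u => ∫⁻ ω, ∑' b, Φ b u ω ∂(bP Γ p hp) := by
    funext u
    rw [e0, tau_mtp S p hp hfin, lintegral_tsum (fun b => (hΦm b u).aemeasurable)]
  rw [e1, avg_lintegral _ S k (fun u ω => ∑' b, Φ b u ω)
    (fun u => Measurable.ennreal_tsum (fun b => hΦm b u))]
  have hle : ∀ᵐ ω ∂(bP Γ p hp), avg S k (fun u => ∑' b, Φ b u ω) h ≤ (ρ : ℝ≥0∞) ^ k := by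
    filter_upwards [fin_all p hp S hfin] with ω hω
    set K := (hω 1).toFinset with hK
    have hKc : clus S ω 1 = (K : Set Γ) := by simp [hK]
    have h1K : (1:Γ) ∈ K := by
      rw [hK, Set.Finite.mem_toFinset]; exact SimpleGraph.Reachable.refl _
    have hsz : sz S ω 1 = (K.card : ℝ≥0∞) := by
      unfold sz; rw [hKc, Set.encard_coe_eq_coe_finsetCard]; rfl
    have hKpos : (K.card : ℝ≥0∞) ≠ 0 := by
      simp only [ne_eq, Nat.cast_eq_zero, Finset.card_eq_zero]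
      exact Finset.ne_empty_of_mem h1K
    rw [avg_tsum]
    have e2 : ∀ b, avg S k (fun u => Φ b u ω) h
        = Set.indicator (K : Set Γ) (fun b => (sz S ω 1)⁻¹ *
            avg S k (Set.indicator (K : Set Γ) (fun _ => 1)) ((b * x⁻¹) * h)) b := by
      intro b
      by_cases hb : b ∈ K
      · rw [Set.indicator_of_mem (by exact hb), ← avg_left S k _ (b * x⁻¹) h,
          ← avg_const_mul]
        congr 1
        funext u
        simp only [hΦ, Set.indicator_apply, Set.mem_ofPred_eq, hKc, Finset.mem_coe, hb, true_and,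
          mul_assoc]
        split_ifs <;> simp
      · rw [Set.indicator_of_notMem (by exact hb)]
        have : (fun u => Φ b u ω) = fun u => (0:ℝ≥0∞) * 0 := by
          funext u
          simp [hΦ, hKc, hb]
        rw [this, avg_const_mul, zero_mul]
    rw [tsum_congr e2, tsum_eq_sum (s := K) (fun b hb => Set.indicator_of_notMem (by exact hb) _),
      Finset.sum_congr rfl (fun b hb => Set.indicator_of_mem (by exact hb) _), ← Finset.mul_sum]
    have e3 : ∑ b ∈ K, avg S k (Set.indicator (K : Set Γ) (fun _ => 1)) ((b * x⁻¹) * h)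
        = ∑ y ∈ K.image (fun b => (b * x⁻¹) * h),
            avg S k (Set.indicator (K : Set Γ) (fun _ => 1)) y := by
      rw [Finset.sum_image]
      intro a _ b _ hab
      simpa using hab
    have hcard : (K.image (fun b => (b * x⁻¹) * h)).card = K.card := by
      apply Finset.card_image_of_injective
      intro a b hab
      simpa using hab
    rw [e3]
    have h4 := hρ k (K.image (fun b => (b * x⁻¹) * h)) K hcard
    rw [hsz]
    calc (K.card : ℝ≥0∞)⁻¹ * _ ≤ (K.card : ℝ≥0∞)⁻¹ * ((ρ : ℝ≥0∞) ^ k * K.card) :=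
          mul_le_mul_right h4 _
      _ = (ρ : ℝ≥0∞) ^ k := by
          rw [mul_comm ((ρ : ℝ≥0∞) ^ k), ← mul_assoc,
            ENNReal.inv_mul_cancel hKpos (ENNReal.natCast_ne_top _), one_mul]
  calc ∫⁻ ω, avg S k (fun u => ∑' b, Φ b u ω) h ∂(bP Γ p hp)
      ≤ ∫⁻ ω, (ρ : ℝ≥0∞) ^ k ∂(bP Γ p hp) := lintegral_mono_ae hle
    _ = (ρ : ℝ≥0∞) ^ k := by simp

/-- **Kesten bound and averaged connectivity** in one statement. -/
theorem kesten_conn [Countable Γ] {S : Finset Γ} (hS : Symm S) (hna : Nonamenable S) :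
    ∃ ρ : ℝ≥0, 0 < ρ ∧ ρ < 1 ∧
      (∀ (k : ℕ) (K : Finset Γ),
        ∑' y, (avg S k (Set.indicator (K : Set Γ) (fun _ => 1)) y) ^ 2
          ≤ (ρ : ℝ≥0∞) ^ (2 * k) * K.card) ∧
      (∀ (p : ℝ≥0) (hp : p ≤ 1), Fin0 S p hp → ∀ (k : ℕ) (h x : Γ),
        avg S k (fun u => bP Γ p hp {ω | x ∈ clus S ω u}) h ≤ (ρ : ℝ≥0∞) ^ k) := by
  obtain ⟨ρ, h0, h1, h2, h3⟩ := kesten_full hS hna
  refine ⟨ρ, h0, h1, h2, fun p hp hfin k h x => conn_avg_of S hS ρ ?_ p hp hfin k h x⟩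
  intro k A K hAK
  have := h3 k A K
  rwa [hAK, Real.mul_self_sqrt (Nat.cast_nonneg _), ENNReal.ofReal_natCast] at this

theorem kesten {S : Finset Γ} (hS : Symm S) (hna : Nonamenable S) :
    ∃ ρ : ℝ≥0, 0 < ρ ∧ ρ < 1 ∧ ∀ (K : Finset Γ) (k : ℕ),
      ∑' y : Γ, (avg S k (Set.indicator (K : Set Γ) (fun _ => 1)) y) ^ 2
        ≤ (ρ : ℝ≥0∞) ^ (2 * k) * K.card := by
  obtain ⟨ρ, h0, h1, h2, -⟩ := kesten_full hS hna
  exact ⟨ρ, h0, h1, fun K k => h2 k K⟩

theorem conn_avg [Countable Γ] {S : Finset Γ} (hS : Symm S) (p : ℝ≥0) (hp : p ≤ 1)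
    (hfin : Fin0 S p hp) (ρ : ℝ≥0)
    (hρ : ∀ (K : Finset Γ) (k : ℕ),
      ∑' y : Γ, (avg S k (Set.indicator (K : Set Γ) (fun _ => 1)) y) ^ 2
        ≤ (ρ : ℝ≥0∞) ^ (2 * k) * K.card) (k : ℕ) (h x : Γ) :
    avg S k (fun u => tau S p hp u x) h ≤ (ρ : ℝ≥0∞) ^ k := by
  refine conn_avg_of S hS ρ ?_ p hp hfin k h x
  intro k A K hAK
  set f : Γ → ℝ≥0∞ := avg S k (Set.indicator (K : Set Γ) (fun _ => 1)) with hf
  have h1 : (∑ y ∈ A, f y) ^ 2 ≤ (A.card : ℝ≥0∞) * ∑ y ∈ A, (f y) ^ 2 := by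
    have := ENNReal.rpow_sum_le_const_mul_sum_rpow A f (p := 2) (by norm_num)
    have e : (2:ℝ) - 1 = 1 := by norm_num
    rw [e, ENNReal.rpow_one] at this
    simpa using this
  have h2 : ∑ y ∈ A, (f y) ^ 2 ≤ (ρ : ℝ≥0∞) ^ (2 * k) * K.card :=
    (ENNReal.sum_le_tsum A).trans (hρ K k)
  have h3 : (∑ y ∈ A, f y) ^ 2 ≤ ((ρ : ℝ≥0∞) ^ k * K.card) ^ 2 := by
    calc (∑ y ∈ A, f y) ^ 2 ≤ (A.card : ℝ≥0∞) * ((ρ : ℝ≥0∞) ^ (2 * k) * K.card) :=
          h1.trans (mul_le_mul_right h2 _)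
      _ = ((ρ : ℝ≥0∞) ^ k * K.card) ^ 2 := by rw [hAK]; ring
  exact (ENNReal.pow_le_pow_left_iff (by norm_num)).1 h3

end Pool.Agent.IIC
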