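import Pool.Agent.IIC.Defs
import Pool.Agent.IIC.AB
-- uses from A/B: cay_adj cay_conn mem_T card_T exists_sphere sz_shift clus_mono clus_kp clus_cl
-- clus_upd_bridge clus_upd_far tch_iff R_of_sz meas_clus meas_R meas_sz meas_upd meas_cl flip_true
-- flip_false shift_mp cyl_prob lint_pattern explore_le

/-! # Module E: large deviations for the open/closed edges of a cluster, the edge flipping
inequality, thin scales -/

set_option autoImplicit false
set_option linter.unusedVariables false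
set_option linter.unusedSectionVars false

namespace Pool.Agent.IIC

open MeasureTheory ProbabilityTheory
open scoped ENNReal NNReal

variable {Γ : Type} [Group Γ]


-- @@ cher_real


theorem cher_real_log1 (x : ℝ) (hx : 0 ≤ x) : x - x ^ 2 ≤ Real.log (1 + x) := by
  have h := Real.one_sub_inv_le_log_of_pos (show 0 < 1 + x by linarith)
  refine le_trans ?_ h
  have h1 : 1 - (1 + x)⁻¹ = x / (1 + x) := by
    field_simp
    ring
  rw [h1, le_div_iff₀ (by linarith)]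
  nlinarith [pow_nonneg hx 3]

theorem cher_real_log2 (y : ℝ) (hy : 0 ≤ y) (hy2 : y ≤ 1 / 2) :
    - y - y ^ 2 ≤ Real.log (1 - y) := by
  have h0 : 0 < 1 - y := by linarith
  rw [Real.le_log_iff_exp_le h0]
  have h1 : - y - y ^ 2 = -(y + y ^ 2) := by ring
  rw [h1, Real.exp_neg, inv_le_comm₀ (Real.exp_pos _) h0]
  have h2 := Real.quadratic_le_exp_of_nonneg (show 0 ≤ y + y ^ 2 by positivity)
  refine le_trans ?_ h2
  rw [inv_le_iff_one_le_mul₀ h0]
  have h3 : (1 + (y + y ^ 2) + (y + y ^ 2) ^ 2 / 2) * (1 - y) - 1 =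
      y ^ 2 / 2 * (1 - y - y ^ 2 - y ^ 3) := by ring
  have h4 : y ^ 2 ≤ (1 / 2) ^ 2 := pow_le_pow_left₀ hy hy2 2
  have h5 : y ^ 3 ≤ (1 / 2) ^ 3 := pow_le_pow_left₀ hy hy2 3
  have h6 : 0 ≤ y ^ 2 / 2 * (1 - y - y ^ 2 - y ^ 3) := by
    apply mul_nonneg (by positivity)
    norm_num at h4 h5
    linarith
  linarith

theorem cher_real_main (q0 l e : ℝ) (hq0 : 0 < q0) (hl : 0 < l) (d : ℕ) (he : 0 < e)
    (he1 : e ≤ q0 / 2) (he2 : e ≤ l * q0 ^ 2 / (2 * (d + 1))) (p : ℝ) (hp1 : q0 ≤ p)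
    (hp2 : p ≤ 1 - q0) (No Nc h : ℕ) (h1 : No + Nc ≤ d * h)
    (h2 : (Nc : ℝ) / (1 - p) + l * h ≤ No / p) :
    e * l / 2 * h ≤ No * Real.log (1 + e / p) + Nc * Real.log (1 - e / (1 - p)) := by
  have hp : 0 < p := by linarith
  have hp' : 0 < 1 - p := by linarith
  have h3 := cher_real_log1 (e / p) (by positivity)
  have h4 := cher_real_log2 (e / (1 - p)) (by positivity) (by
    rw [div_le_iff₀ hp']
    linarith)
  have h5 : (No : ℝ) * (e / p - (e / p) ^ 2) ≤ No * Real.log (1 + e / p) :=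
    mul_le_mul_of_nonneg_left h3 (Nat.cast_nonneg _)
  have h6 : (Nc : ℝ) * (- (e / (1 - p)) - (e / (1 - p)) ^ 2) ≤ Nc * Real.log (1 - e / (1 - p)) :=
    mul_le_mul_of_nonneg_left h4 (Nat.cast_nonneg _)
  have h7 : (e / p) ^ 2 ≤ (e / q0) ^ 2 :=
    pow_le_pow_left₀ (by positivity) (div_le_div_of_nonneg_left he.le hq0 hp1) 2
  have h8 : (e / (1 - p)) ^ 2 ≤ (e / q0) ^ 2 :=
    pow_le_pow_left₀ (by positivity) (div_le_div_of_nonneg_left he.le hq0 (by linarith)) 2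
  have h9 : (No : ℝ) * (e / p) ^ 2 ≤ No * (e / q0) ^ 2 :=
    mul_le_mul_of_nonneg_left h7 (Nat.cast_nonneg _)
  have h10 : (Nc : ℝ) * (e / (1 - p)) ^ 2 ≤ Nc * (e / q0) ^ 2 :=
    mul_le_mul_of_nonneg_left h8 (Nat.cast_nonneg _)
  have h11 : ((No : ℝ) + Nc) * (e / q0) ^ 2 ≤ (d * h) * (e / q0) ^ 2 := by
    apply mul_le_mul_of_nonneg_right _ (by positivity)
    exact_mod_cast h1
  have h12 : e * (Nc / (1 - p) + l * h) ≤ e * (No / p) := mul_le_mul_of_nonneg_left h2 he.le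
  have h13 : (No : ℝ) * (e / p) = e * (No / p) := by ring
  have h14 : (Nc : ℝ) * (e / (1 - p)) = e * (Nc / (1 - p)) := by ring
  have h15 : (d : ℝ) * (e / q0) ^ 2 ≤ e * l / 2 := by
    have hd : (0 : ℝ) ≤ d := Nat.cast_nonneg d
    have h16 : (e / q0) ^ 2 * (2 * (d + 1)) ≤ e * l := by
      rw [le_div_iff₀ (by positivity)] at he2
      have h17 : (e / q0) ^ 2 * (2 * (d + 1)) = e * (e * (2 * (d + 1))) / q0 ^ 2 := by ring
      rw [h17, div_le_iff₀ (by positivity)]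
      calc e * (e * (2 * (d + 1))) ≤ e * (l * q0 ^ 2) := mul_le_mul_of_nonneg_left he2 he.le
        _ = e * l * q0 ^ 2 := by ring
    nlinarith [sq_nonneg (e / q0)]
  have h18 : (d : ℝ) * h * (e / q0) ^ 2 ≤ e * l / 2 * h := by
    have := mul_le_mul_of_nonneg_right h15 (Nat.cast_nonneg (α := ℝ) h)
    linarith
  have h19 : (No : ℝ) * (e / p - (e / p) ^ 2) = e * (No / p) - No * (e / p) ^ 2 := by
    rw [mul_sub, h13]
  have h20 : (Nc : ℝ) * (- (e / (1 - p)) - (e / (1 - p)) ^ 2) =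
      - (e * (Nc / (1 - p))) - Nc * (e / (1 - p)) ^ 2 := by
    rw [mul_sub, mul_neg, h14]
  rw [h19] at h5
  rw [h20] at h6
  rw [mul_add] at h12
  rw [add_mul] at h11
  have h21 : e * (l * h) = e * l / 2 * h + e * l / 2 * h := by ring
  linarith

/-- the real inequality behind the change of measure, uniformly in `p ∈ [q0, 1 - q0]` -/
theorem cher_real (q0 l : ℝ) (hq0 : 0 < q0) (hl : 0 < l) (d : ℕ) :
    ∃ c : ℝ, 0 < c ∧ ∀ p : ℝ, q0 ≤ p → p ≤ 1 - q0 → ∃ q : ℝ, 0 < q ∧ q < 1 ∧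
      ∀ No Nc h : ℕ, No + Nc ≤ d * h → (Nc : ℝ) / (1 - p) + l * h ≤ No / p →
        p ^ No * (1 - p) ^ Nc ≤ Real.exp (-c * h) * (q ^ No * (1 - q) ^ Nc) := by
  set e : ℝ := min (q0 / 2) (l * q0 ^ 2 / (2 * (d + 1))) with hedef
  have he : 0 < e := lt_min (by positivity) (by positivity)
  have he1 : e ≤ q0 / 2 := min_le_left _ _
  have he2 : e ≤ l * q0 ^ 2 / (2 * (d + 1)) := min_le_right _ _
  refine ⟨e * l / 2, by positivity, fun p hp1 hp2 => ⟨p + e, by linarith, by linarith,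
    fun No Nc h h1 h2 => ?_⟩⟩
  have h3 := cher_real_main q0 l e hq0 hl d he he1 he2 p hp1 hp2 No Nc h h1 h2
  have hp : 0 < p := by linarith
  have hp' : 0 < 1 - p := by linarith
  have hq : 0 < p + e := by linarith
  have hq' : 0 < 1 - (p + e) := by linarith
  have h4 : Real.log (1 + e / p) = Real.log (p + e) - Real.log p := by
    rw [← Real.log_div hq.ne' hp.ne']
    congr 1
    field_simp
  have h5 : Real.log (1 - e / (1 - p)) = Real.log (1 - (p + e)) - Real.log (1 - p) := by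
    rw [← Real.log_div hq'.ne' hp'.ne']
    congr 1
    field_simp
    ring
  have e1 : ∀ (x : ℝ) (n : ℕ), 0 < x → x ^ n = Real.exp (n * Real.log x) := by
    intro x n hx
    rw [Real.exp_nat_mul, Real.exp_log hx]
  rw [e1 p No hp, e1 (1 - p) Nc hp', e1 (p + e) No hq, e1 (1 - (p + e)) Nc hq', ← Real.exp_add,
    ← Real.exp_add, ← Real.exp_add]
  apply Real.exp_le_exp.2
  rw [h4, h5] at h3
  linarith




-- @@ ne_eq


theorem ne_eq {S : Finset Γ} (hS : Symm S) (b : Bool) (ω : Cfg Γ) (H : Finset Γ)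
    (h : clus S ω 1 = ↑H) :
    ne S b ω = (((T S H).filter (fun e => ω e = b)).card : ℝ≥0∞) := by
  
  classical
  have hset : {e : Sym2 Γ | e ∈ (cay S).edgeSet ∧ (∃ v ∈ e, v ∈ clus S ω 1) ∧ ω e = b} =
      ↑((T S H).filter (fun e => ω e = b)) := by
    ext e
    simp only [Finset.coe_filter, mem_T hS, Set.mem_setOf_eq, h, Finset.mem_coe]
    tauto
  unfold ne
  rw [hset, tsum_eq_sum (s := (T S H).filter (fun e => ω e = b))]
  · rw [Finset.sum_congr rfl (g := fun _ => (1:ℝ≥0∞))]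
    · simp
    · intro e he
      rw [Set.indicator_of_mem]
      exact_mod_cast he
  · intro e he
    rw [Set.indicator_of_notMem]
    exact_mod_cast he





-- @@ ne_le


theorem ne_le {S : Finset Γ} (hS : Symm S) (b : Bool) (ω : Cfg Γ) :
    ne S b ω ≤ S.card * sz S ω 1 := by
  classical
  by_cases hfin : (clus S ω 1).Finite
  · set H : Finset Γ := hfin.toFinset with hH
    have hcl : clus S ω 1 = ↑H := by rw [hH, Set.Finite.coe_toFinset]
    rw [ne_eq hS b ω H hcl]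
    have h1 : ((T S H).filter (fun e => ω e = b)).card ≤ S.card * H.card :=
      (Finset.card_filter_le _ _).trans (card_T H)
    have h2 : sz S ω 1 = (H.card : ℝ≥0∞) := by
      unfold sz
      rw [hcl, Set.encard_coe_eq_coe_finsetCard]
      rfl
    rw [h2]
    exact_mod_cast h1
  · have hinf : (clus S ω 1).Infinite := hfin
    have hsz : sz S ω 1 = ⊤ := by
      unfold sz
      rw [Set.encard_eq_top hinf]
      rfl
    rw [hsz]
    by_cases hS0 : S = ∅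
    · have hz : ne S b ω = 0 := by
        unfold ne
        rw [ENNReal.tsum_eq_zero]
        intro e
        apply Set.indicator_of_notMem
        rintro ⟨he, -, -⟩
        induction e using Sym2.ind with
        | _ x y =>
          rw [SimpleGraph.mem_edgeSet] at he
          have := (cay_adj hS x y).mp he
          rw [hS0] at this
          simp at this
      rw [hz]
      exact bot_le
    · have hc : (S.card : ℝ≥0∞) ≠ 0 := by
        simpa using hS0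
      rw [ENNReal.mul_top hc]
      exact le_top




-- @@ pat_le


/-- configuration with open edges exactly `A` -/
noncomputable def pat_le_cfg (A : Finset (Sym2 Γ)) : Cfg Γ := by
  classical
  exact fun e => decide (e ∈ A)

theorem pat_le_kp (S H : Finset Γ) (ω : Cfg Γ) (A : Finset (Sym2 Γ)) (hA : A ⊆ T S H)
    (h : ∀ e ∈ T S H, (ω e = true ↔ e ∈ A)) : kp S H ω = pat_le_cfg A := by
  classical
  funext e
  unfold kp pat_le_cfg
  by_cases he : e ∈ T S H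
  · rw [if_pos he]
    by_cases heA : e ∈ A
    · rw [decide_eq_true heA]
      exact (h e he).2 heA
    · rw [decide_eq_false heA]
      rw [← Bool.not_eq_true]
      exact fun h' => heA ((h e he).1 h')
  · rw [if_neg he, decide_eq_false (fun h' => he (hA h'))]

/-- change of measure on the event that the cluster is `H` -/
theorem pat_le {S : Finset Γ} (hS : Symm S) (p q : ℝ≥0) (hp : p ≤ 1) (hq : q ≤ 1)
    (H : Finset Γ) (C : ℝ≥0∞) (Q : ℕ → ℕ → Prop)
    (h : ∀ No Nc : ℕ, No + Nc = (T S H).card → Q No Nc →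
      (p : ℝ≥0∞) ^ No * ((1 - p : ℝ≥0) : ℝ≥0∞) ^ Nc ≤
        C * ((q : ℝ≥0∞) ^ No * ((1 - q : ℝ≥0) : ℝ≥0∞) ^ Nc)) :
    bP Γ p hp {ω | clus S ω 1 = ↑H ∧ Q ((T S H).filter (fun e => ω e = true)).card
        ((T S H).filter (fun e => ω e = false)).card}
      ≤ C * bP Γ q hq {ω | clus S ω 1 = ↑H} := by
  classical
  set E : Finset (Sym2 Γ) → Set (Cfg Γ) := fun A => {ω | ∀ e ∈ T S H, (ω e = true ↔ e ∈ A)} with hE
  set good : Finset (Finset (Sym2 Γ)) := (T S H).powerset.filter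
    (fun A => clus S (pat_le_cfg A) 1 = ↑H ∧ Q A.card ((T S H).card - A.card)) with hgood
  have hsub : ∀ A ∈ good, A ⊆ T S H := fun A hA =>
    Finset.mem_powerset.1 (Finset.mem_filter.1 hA).1
  have h1 : {ω : Cfg Γ | clus S ω 1 = ↑H ∧ Q ((T S H).filter (fun e => ω e = true)).card
        ((T S H).filter (fun e => ω e = false)).card} ⊆ ⋃ A ∈ good, E A := by
    rintro ω ⟨hω, hQ⟩
    have hcard : ((T S H).filter (fun e => ω e = false)).card =
        (T S H).card - ((T S H).filter (fun e => ω e = true)).card := by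
      have := Finset.card_filter_add_card_filter_not (s := T S H) (fun e => ω e = true)
      have h2 : (T S H).filter (fun e => ¬ ω e = true) = (T S H).filter (fun e => ω e = false) := by
        apply Finset.filter_congr
        intro e _
        simp
      rw [h2] at this
      omega
    refine Set.mem_iUnion₂.2 ⟨(T S H).filter (fun e => ω e = true), ?_, ?_⟩
    · rw [hgood, Finset.mem_filter, Finset.mem_powerset]
      refine ⟨Finset.filter_subset _ _, ?_, ?_⟩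
      · rw [← pat_le_kp S H ω _ (Finset.filter_subset _ _)
          (fun e he => by simp [he])]
        exact (clus_kp hS H ω 1).1 hω
      · rw [← hcard]; exact hQ
    · intro e he
      simp [he]
  have h2 : ∀ A ∈ good, E A ⊆ {ω | clus S ω 1 = ↑H} := by
    intro A hA ω hω
    have := (Finset.mem_filter.1 hA).2.1
    rw [← pat_le_kp S H ω A (hsub A hA) hω] at this
    exact (clus_kp hS H ω 1).2 this
  have hmeas : ∀ A, MeasurableSet (E A) := by
    intro A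
    have : E A = ⋂ e ∈ T S H, {ω : Cfg Γ | (ω e = true ↔ e ∈ A)} := by
      ext ω
      simp [hE]
    rw [this]
    refine Finset.measurableSet_biInter _ (fun e _ => ?_)
    have hm : Measurable (fun ω : Cfg Γ => ω e) := measurable_pi_apply e
    have hs : MeasurableSet {b : Bool | (b = true ↔ e ∈ A)} := MeasurableSet.of_discrete
    exact hm hs
  have hdisj : Set.PairwiseDisjoint (↑good : Set (Finset (Sym2 Γ))) E := by
    intro A hA B hB hAB
    rw [Function.onFun, Set.disjoint_left]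
    intro ω h3 h4
    apply hAB
    ext e
    constructor
    · intro he
      have heT := hsub A hA he
      exact (h4 e heT).1 ((h3 e heT).2 he)
    · intro he
      have heT := hsub B hB he
      exact (h3 e heT).1 ((h4 e heT).2 he)
  calc bP Γ p hp {ω | clus S ω 1 = ↑H ∧ Q ((T S H).filter (fun e => ω e = true)).card
        ((T S H).filter (fun e => ω e = false)).card}
      ≤ bP Γ p hp (⋃ A ∈ good, E A) := measure_mono h1
    _ ≤ ∑ A ∈ good, bP Γ p hp (E A) := measure_biUnion_finset_le _ _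
    _ = ∑ A ∈ good, (p : ℝ≥0∞) ^ A.card * ((1 - p : ℝ≥0) : ℝ≥0∞) ^ ((T S H).card - A.card) :=
        Finset.sum_congr rfl (fun A hA => cyl_prob p hp (T S H) A (hsub A hA))
    _ ≤ ∑ A ∈ good, C * ((q : ℝ≥0∞) ^ A.card *
          ((1 - q : ℝ≥0) : ℝ≥0∞) ^ ((T S H).card - A.card)) := by
        refine Finset.sum_le_sum (fun A hA => h _ _ ?_ (Finset.mem_filter.1 hA).2.2)
        have := Finset.card_le_card (hsub A hA)
        omega
    _ = C * ∑ A ∈ good, bP Γ q hq (E A) := by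
        rw [Finset.mul_sum]
        exact Finset.sum_congr rfl
          (fun A hA => by rw [cyl_prob q hq (T S H) A (hsub A hA)])
    _ = C * bP Γ q hq (⋃ A ∈ good, E A) := by
        rw [measure_biUnion_finset hdisj (fun A _ => hmeas A)]
    _ ≤ C * bP Γ q hq {ω | clus S ω 1 = ↑H} := by
        gcongr
        exact Set.iUnion₂_subset h2



/-- the cluster of `1` is finite and its edges are biased: `b = true`: too many open edges,
`b = false`: too many closed edges -/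
def Bad (S : Finset Γ) (p : ℝ≥0) (l : ℝ≥0) (b : Bool) (ω : Cfg Γ) : Prop :=
  (clus S ω 1).Finite ∧
    (if b then (ne S false ω) / ((1 - p : ℝ≥0) : ℝ≥0∞) + l * sz S ω 1 ≤ ne S true ω / p
    else ne S true ω / p + l * sz S ω 1 ≤ (ne S false ω) / ((1 - p : ℝ≥0) : ℝ≥0∞))


-- @@ chernoff


theorem chernoff_real (q0 l : ℝ) (hq0 : 0 < q0) (hl : 0 < l) (d : ℕ) (b : Bool) :
    ∃ c : ℝ, 0 < c ∧ ∀ p : ℝ, q0 ≤ p → p ≤ 1 - q0 → ∃ q : ℝ, 0 < q ∧ q < 1 ∧
      ∀ No Nc h : ℕ, No + Nc ≤ d * h →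
        (if b then (Nc : ℝ) / (1 - p) + l * h ≤ No / p else (No : ℝ) / p + l * h ≤ Nc / (1 - p)) →
        p ^ No * (1 - p) ^ Nc ≤ Real.exp (-c * h) * (q ^ No * (1 - q) ^ Nc) := by
  obtain ⟨c, hc, h1⟩ := cher_real q0 l hq0 hl d
  refine ⟨c, hc, fun p hp1 hp2 => ?_⟩
  cases b with
  | true =>
    obtain ⟨q, hq, hq1, h2⟩ := h1 p hp1 hp2
    exact ⟨q, hq, hq1, fun No Nc h h3 h4 => h2 No Nc h h3 (by simpa using h4)⟩
  | false =>
    obtain ⟨q, hq, hq1, h2⟩ := h1 (1 - p) (by linarith) (by linarith)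
    refine ⟨1 - q, by linarith, by linarith, fun No Nc h h3 h4 => ?_⟩
    have h5 := h2 Nc No h (by omega) (by
      rw [sub_sub_cancel]
      simpa using h4)
    rw [sub_sub_cancel] at h5
    rw [sub_sub_cancel, mul_comm (p ^ No), mul_comm ((1 - q) ^ No)]
    exact h5

theorem chernoff_meas [Countable Γ] (S : Finset Γ) (H : Finset Γ) :
    MeasurableSet {ω : Cfg Γ | clus S ω 1 = ↑H} := by
  have h1 : {ω : Cfg Γ | clus S ω 1 = ↑H} = ⋂ y : Γ, {ω | y ∈ clus S ω 1 ↔ y ∈ H} := by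
    ext ω
    simp only [Set.mem_setOf_eq, Set.mem_iInter, Set.ext_iff, Finset.mem_coe]
  rw [h1]
  refine MeasurableSet.iInter fun y => ?_
  by_cases hy : y ∈ H
  · simp only [hy, iff_true]
    exact meas_clus S 1 y
  · simp only [hy, iff_false]
    exact (meas_clus S 1 y).compl

theorem chernoff_sum [Countable Γ] (S : Finset Γ) (q : ℝ≥0) (hq : q ≤ 1) :
    ∑' H : Finset Γ, bP Γ q hq {ω | clus S ω 1 = ↑H} ≤ 1 := by
  rw [← measure_iUnion (μ := bP Γ q hq) ?_ (fun H => chernoff_meas S H)]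
  · exact prob_le_one
  · intro H H' hne
    rw [Function.onFun, Set.disjoint_left]
    intro ω h1 h2
    apply hne
    have h3 : (↑H : Set Γ) = ↑H' := by rw [← h1, ← h2]
    exact_mod_cast h3

theorem chernoff_sz (S : Finset Γ) (H : Finset Γ) (ω : Cfg Γ) (h : clus S ω 1 = ↑H) :
    sz S ω 1 = (H.card : ℝ≥0∞) := by
  unfold sz
  rw [h, Set.encard_coe_eq_coe_finsetCard]
  simp

/-- Aizenman-Kesten-Newman large deviation estimate -/
theorem chernoff [Countable Γ] {S : Finset Γ} (hS : Symm S) (q0 : ℝ≥0) (hq0 : 0 < q0)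
    (l : ℝ≥0) (hl : 0 < l) (b : Bool) :
    ∃ c : ℝ, 0 < c ∧ ∀ (p : ℝ≥0) (hp : p ≤ 1), q0 ≤ p → q0 ≤ 1 - p → ∀ m : ℕ,
      bP Γ p hp {ω | Bad S p l b ω ∧ (m : ℝ≥0∞) ≤ sz S ω 1} ≤ ENNReal.ofReal (Real.exp (-c * m)) := by
  obtain ⟨c, hc, h1⟩ := chernoff_real q0 l (by exact_mod_cast hq0) (by exact_mod_cast hl) S.card b
  refine ⟨c, hc, fun p hp hp1 hp2 m => ?_⟩
  have hpr : ((1 - p : ℝ≥0) : ℝ) = 1 - (p : ℝ) := by
    rw [NNReal.coe_sub hp, NNReal.coe_one]
  have hp1' : (q0 : ℝ) ≤ p := by exact_mod_cast hp1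
  have hp2' : (p : ℝ) ≤ 1 - q0 := by
    have : (q0 : ℝ) ≤ ((1 - p : ℝ≥0) : ℝ) := by exact_mod_cast hp2
    rw [hpr] at this
    linarith
  have hp0 : p ≠ 0 := (lt_of_lt_of_le hq0 hp1).ne'
  have hp0' : (1 - p : ℝ≥0) ≠ 0 := (lt_of_lt_of_le hq0 hp2).ne'
  obtain ⟨q, hq0', hq1, h2⟩ := h1 p hp1' hp2'
  let qn : ℝ≥0 := ⟨q, hq0'.le⟩
  have hqn : qn ≤ 1 := by
    rw [← NNReal.coe_le_coe]
    exact hq1.le
  have hqnr : ((1 - qn : ℝ≥0) : ℝ) = 1 - q := by
    rw [NNReal.coe_sub hqn, NNReal.coe_one]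
    rfl
  let Q : Finset Γ → ℕ → ℕ → Prop := fun H No Nc => m ≤ H.card ∧
    (if b then (Nc : ℝ) / (1 - p) + l * H.card ≤ No / p
      else (No : ℝ) / p + l * H.card ≤ Nc / (1 - p))
  have hsub : {ω | Bad S p l b ω ∧ (m : ℝ≥0∞) ≤ sz S ω 1} ⊆
      ⋃ H : Finset Γ, {ω | clus S ω 1 = ↑H ∧ Q H ((T S H).filter (fun e => ω e = true)).card
        ((T S H).filter (fun e => ω e = false)).card} := by
    rintro ω ⟨⟨hfin, hbad⟩, hm⟩
    have hH : clus S ω 1 = ↑hfin.toFinset := by simp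
    refine Set.mem_iUnion.2 ⟨hfin.toFinset, hH, ?_, ?_⟩
    · rw [chernoff_sz S _ ω hH] at hm
      exact_mod_cast hm
    · rw [ne_eq hS false ω _ hH, ne_eq hS true ω _ hH, chernoff_sz S _ ω hH] at hbad
      cases b with
      | true =>
        simp only [if_true] at hbad ⊢
        have h3 := ENNReal.toReal_mono (ENNReal.div_ne_top (ENNReal.natCast_ne_top _)
          (by exact_mod_cast hp0)) hbad
        rw [ENNReal.toReal_add (ENNReal.div_ne_top (ENNReal.natCast_ne_top _)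
          (by exact_mod_cast hp0')) (ENNReal.mul_ne_top ENNReal.coe_ne_top
            (ENNReal.natCast_ne_top _)), ENNReal.toReal_div, ENNReal.toReal_mul,
          ENNReal.toReal_div, ENNReal.toReal_natCast, ENNReal.toReal_natCast,
          ENNReal.toReal_natCast, ENNReal.coe_toReal, ENNReal.coe_toReal, ENNReal.coe_toReal,
          hpr] at h3
        exact h3
      | false =>
        simp only [Bool.false_eq_true, if_false] at hbad ⊢
        have h3 := ENNReal.toReal_mono (ENNReal.div_ne_top (ENNReal.natCast_ne_top _)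
          (by exact_mod_cast hp0')) hbad
        rw [ENNReal.toReal_add (ENNReal.div_ne_top (ENNReal.natCast_ne_top _)
          (by exact_mod_cast hp0)) (ENNReal.mul_ne_top ENNReal.coe_ne_top
            (ENNReal.natCast_ne_top _)), ENNReal.toReal_div, ENNReal.toReal_mul,
          ENNReal.toReal_div, ENNReal.toReal_natCast, ENNReal.toReal_natCast,
          ENNReal.toReal_natCast, ENNReal.coe_toReal, ENNReal.coe_toReal, ENNReal.coe_toReal,
          hpr] at h3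
        exact h3
  have hpat : ∀ H : Finset Γ, bP Γ p hp {ω | clus S ω 1 = ↑H ∧
      Q H ((T S H).filter (fun e => ω e = true)).card
        ((T S H).filter (fun e => ω e = false)).card} ≤
      ENNReal.ofReal (Real.exp (-c * m)) * bP Γ qn hqn {ω | clus S ω 1 = ↑H} := by
    intro H
    refine pat_le hS p qn hp hqn H _ (Q H) ?_
    intro No Nc hN hQ
    have h3 := h2 No Nc H.card (by rw [hN]; exact card_T H) hQ.2
    have h4 : Real.exp (-c * H.card) ≤ Real.exp (-c * m) := by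
      rw [Real.exp_le_exp]
      have : (m : ℝ) ≤ H.card := by exact_mod_cast hQ.1
      nlinarith
    have h5 : (p : ℝ) ^ No * (1 - p) ^ Nc ≤ Real.exp (-c * m) * (q ^ No * (1 - q) ^ Nc) := by
      refine h3.trans (mul_le_mul_of_nonneg_right h4 ?_)
      have : 0 ≤ 1 - q := by linarith
      positivity
    have e1 : (p : ℝ≥0∞) ^ No * ((1 - p : ℝ≥0) : ℝ≥0∞) ^ Nc =
        ENNReal.ofReal ((p : ℝ) ^ No * (1 - p) ^ Nc) := by
      rw [← hpr]
      have : (p : ℝ) ^ No * ((1 - p : ℝ≥0) : ℝ) ^ Nc = ((p ^ No * (1 - p) ^ Nc : ℝ≥0) : ℝ) := by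
        push_cast
        rfl
      rw [this, ENNReal.ofReal_coe_nnreal]
      push_cast
      rfl
    have e2 : (qn : ℝ≥0∞) ^ No * ((1 - qn : ℝ≥0) : ℝ≥0∞) ^ Nc =
        ENNReal.ofReal (q ^ No * (1 - q) ^ Nc) := by
      rw [← hqnr]
      have : q ^ No * ((1 - qn : ℝ≥0) : ℝ) ^ Nc = ((qn ^ No * (1 - qn) ^ Nc : ℝ≥0) : ℝ) := by
        push_cast
        rfl
      rw [this, ENNReal.ofReal_coe_nnreal]
      push_cast
      rfl
    rw [e1, e2, ← ENNReal.ofReal_mul (Real.exp_pos _).le]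
    exact ENNReal.ofReal_le_ofReal h5
  calc bP Γ p hp {ω | Bad S p l b ω ∧ (m : ℝ≥0∞) ≤ sz S ω 1}
      ≤ bP Γ p hp (⋃ H : Finset Γ, {ω | clus S ω 1 = ↑H ∧
          Q H ((T S H).filter (fun e => ω e = true)).card
            ((T S H).filter (fun e => ω e = false)).card}) := measure_mono hsub
    _ ≤ ∑' H : Finset Γ, bP Γ p hp {ω | clus S ω 1 = ↑H ∧
          Q H ((T S H).filter (fun e => ω e = true)).card
            ((T S H).filter (fun e => ω e = false)).card} := measure_iUnion_le _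
    _ ≤ ∑' H : Finset Γ, ENNReal.ofReal (Real.exp (-c * m)) *
          bP Γ qn hqn {ω | clus S ω 1 = ↑H} := ENNReal.tsum_le_tsum hpat
    _ = ENNReal.ofReal (Real.exp (-c * m)) * ∑' H : Finset Γ,
          bP Γ qn hqn {ω | clus S ω 1 = ↑H} := ENNReal.tsum_mul_left
    _ ≤ ENNReal.ofReal (Real.exp (-c * m)) * 1 := mul_le_mul_right (chernoff_sum S qn hqn) _
    _ = _ := mul_one _




-- @@ cher_closed


theorem cher_closed [Countable Γ] (S : Finset Γ) (hS : Symm S) (p0 p1 : ℝ≥0) (h0 : 0 < p0)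
    (h1 : p1 < 1) (l : ℝ≥0) (hl : 0 < l) :
    ∃ c : ℝ, 0 < c ∧ ∀ (p : ℝ≥0) (hp : p ≤ 1), p0 ≤ p → p ≤ p1 → ∀ m : ℕ,
      bP Γ p hp {ω | (clus S ω 1).Finite ∧ (m : ℝ≥0∞) ≤ sz S ω 1 ∧
        ne S true ω / p + l * sz S ω 1 ≤ ne S false ω / ((1 - p : ℝ≥0) : ℝ≥0∞)} ≤
          ENNReal.ofReal (Real.exp (-c * m)) := by
  obtain ⟨c, hc, H⟩ := chernoff hS (min p0 (1 - p1)) (lt_min h0 (tsub_pos_of_lt h1)) l hl false
  refine ⟨c, hc, fun p hp h0p hp1 m => ?_⟩
  refine le_trans (measure_mono ?_) (H p hp ((min_le_left _ _).trans h0p)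
    ((min_le_right _ _).trans (tsub_le_tsub_left hp1 1)) m)
  rintro ω ⟨h1, h2, h3⟩
  refine ⟨⟨h1, ?_⟩, h2⟩
  rw [if_neg (by simp)]
  exact h3




-- @@ psi_shift


theorem psi_shift [Countable Γ] {S : Finset Γ} (p : ℝ≥0) (hp : p ≤ 1) (K : ℕ) (v : Γ) :
    bP Γ p hp {ω | (K : ℝ≥0∞) < sz S ω v} = psi S p hp K := by
  have hm : MeasurableSet {ω : Cfg Γ | (K : ℝ≥0∞) < sz S ω v} :=
    measurableSet_lt measurable_const (meas_sz S v)
  rw [← (shift_mp p hp v).measure_preimage hm.nullMeasurableSet]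
  unfold psi
  congr 1
  ext ω
  have h := sz_shift (S := S) v ω 1
  rw [mul_one] at h
  show (K : ℝ≥0∞) < sz S (shift v ω) v ↔ (K : ℝ≥0∞) < sz S ω 1
  rw [h]



/-- `1(R n, e touches C)/|C|` -/
noncomputable def Fe (S : Finset Γ) (n : ℕ) (e : Sym2 Γ) (ω : Cfg Γ) : ℝ≥0∞ :=
  Set.indicator {ω | R S n 1 ω ∧ e ∈ (cay S).edgeSet ∧ ∃ v ∈ e, v ∈ clus S ω 1}
    (fun ω => (sz S ω 1)⁻¹) ω

/-- error term of the edge `e` (used in configurations in which `e` is closed) -/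
noncomputable def Er (S : Finset Γ) (n K : ℕ) (e : Sym2 Γ) (ω : Cfg Γ) : ℝ≥0∞ :=
  Set.indicator {ω | R S n 1 ω ∧ e ∈ (cay S).edgeSet ∧ (∃ a ∈ e, a ∈ clus S ω 1) ∧
      (∃ b ∈ e, b ∉ clus S ω 1)}
    (fun ω => (sz S ω 1)⁻¹ *
      (Set.indicator {ω | ∃ b ∈ e, b ∉ clus S ω 1 ∧ (K : ℝ≥0∞) < sz S ω b} 1 ω + K / n)) ω

/-- error term of the directed edge `(a, a s)` -/
noncomputable def Ed (S : Finset Γ) (n K : ℕ) (a s : Γ) (ω : Cfg Γ) : ℝ≥0∞ :=
  Set.indicator {ω | R S n 1 ω ∧ a ∈ clus S ω 1 ∧ a * s ∉ clus S ω 1}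
    (fun ω => (sz S ω 1)⁻¹ * (Set.indicator {ω | (K : ℝ≥0∞) < sz S ω (a * s)} 1 ω + K / n)) ω


-- @@ meas_E


theorem meas_E_ex [Countable Γ] {P : Γ → Cfg Γ → Prop}
    (h : ∀ v, MeasurableSet {ω : Cfg Γ | P v ω}) : MeasurableSet {ω : Cfg Γ | ∃ v, P v ω} := by
  have : {ω : Cfg Γ | ∃ v, P v ω} = ⋃ v, {ω : Cfg Γ | P v ω} := by
    ext ω
    simp
  rw [this]
  exact MeasurableSet.iUnion h

theorem meas_E_and {P Q : Cfg Γ → Prop} (h1 : MeasurableSet {ω : Cfg Γ | P ω})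
    (h2 : MeasurableSet {ω : Cfg Γ | Q ω}) : MeasurableSet {ω : Cfg Γ | P ω ∧ Q ω} :=
  h1.inter h2

theorem meas_E_not {P : Cfg Γ → Prop} (h1 : MeasurableSet {ω : Cfg Γ | P ω}) :
    MeasurableSet {ω : Cfg Γ | ¬ P ω} :=
  h1.compl

theorem meas_E_const (p : Prop) : MeasurableSet {ω : Cfg Γ | p} :=
  MeasurableSet.const p

theorem meas_E [Countable Γ] {S : Finset Γ} (n K : ℕ) (e : Sym2 Γ) (a s : Γ) (b : Bool) :
    Measurable (Fe S n e) ∧ Measurable (Er S n K e) ∧ Measurable (Ed S n K a s) ∧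
      MeasurableSet {ω | piv S n 1 e ω} ∧ Measurable (ne S b) := by
  have hinv : Measurable (fun ω : Cfg Γ => (sz S ω 1)⁻¹) := (meas_sz S 1).inv
  have hbig : ∀ v : Γ, MeasurableSet {ω : Cfg Γ | (K : ℝ≥0∞) < sz S ω v} := fun v =>
    measurableSet_lt measurable_const (meas_sz S v)
  refine ⟨?_, ?_, ?_, ?_, ?_⟩
  · unfold Fe
    refine Measurable.indicator hinv ?_
    exact meas_E_and (meas_R S n 1) (meas_E_and (meas_E_const _)
      (meas_E_ex fun v => meas_E_and (meas_E_const _) (meas_clus S 1 v)))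
  · unfold Er
    refine Measurable.indicator (hinv.mul ((measurable_one.indicator ?_).add measurable_const)) ?_
    · exact meas_E_ex fun v => meas_E_and (meas_E_const _)
        (meas_E_and (meas_E_not (meas_clus S 1 v)) (hbig v))
    · exact meas_E_and (meas_R S n 1) (meas_E_and (meas_E_const _) (meas_E_and
        (meas_E_ex fun v => meas_E_and (meas_E_const _) (meas_clus S 1 v))
        (meas_E_ex fun v => meas_E_and (meas_E_const _) (meas_E_not (meas_clus S 1 v)))))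
  · unfold Ed
    refine Measurable.indicator (hinv.mul ((measurable_one.indicator ?_).add measurable_const)) ?_
    · exact hbig (a * s)
    · exact meas_E_and (meas_R S n 1) (meas_E_and (meas_clus S 1 a)
        (meas_E_not (meas_clus S 1 (a * s))))
  · unfold piv
    exact meas_E_and (meas_E_const _) (meas_E_and (meas_upd e true (meas_R S n 1))
      (meas_E_not (P := fun ω => R S n 1 (upd ω e false)) (meas_upd e false (meas_R S n 1))))
  · unfold ne
    refine Measurable.tsum fun e' => ?_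
    have : (fun ω : Cfg Γ => Set.indicator
        {e | e ∈ (cay S).edgeSet ∧ (∃ v ∈ e, v ∈ clus S ω 1) ∧ ω e = b}
        (fun _ => (1 : ℝ≥0∞)) e') = Set.indicator
        {ω : Cfg Γ | e' ∈ (cay S).edgeSet ∧ (∃ v ∈ e', v ∈ clus S ω 1) ∧ ω e' = b}
        (fun _ => (1 : ℝ≥0∞)) := by
      funext ω
      by_cases h : e' ∈ (cay S).edgeSet ∧ (∃ v ∈ e', v ∈ clus S ω 1) ∧ ω e' = b
      · rw [Set.indicator_of_mem (show e' ∈ {e | e ∈ (cay S).edgeSet ∧
            (∃ v ∈ e, v ∈ clus S ω 1) ∧ ω e = b} from h),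
          Set.indicator_of_mem (show ω ∈ {ω : Cfg Γ | e' ∈ (cay S).edgeSet ∧
            (∃ v ∈ e', v ∈ clus S ω 1) ∧ ω e' = b} from h)]
      · rw [Set.indicator_of_notMem (show e' ∉ {e | e ∈ (cay S).edgeSet ∧
            (∃ v ∈ e, v ∈ clus S ω 1) ∧ ω e = b} from h),
          Set.indicator_of_notMem (show ω ∉ {ω : Cfg Γ | e' ∈ (cay S).edgeSet ∧
            (∃ v ∈ e', v ∈ clus S ω 1) ∧ ω e' = b} from h)]
    rw [this]
    have hm : Measurable (fun ω : Cfg Γ => ω e') := measurable_pi_apply e'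
    have hb : MeasurableSet ((fun ω : Cfg Γ => ω e') ⁻¹' {b}) := hm (measurableSet_singleton b)
    refine Measurable.indicator measurable_const ?_
    exact meas_E_and (meas_E_const _) (meas_E_and
      (meas_E_ex fun v => meas_E_and (meas_E_const _) (meas_clus S 1 v))
      hb)




-- @@ akn_pt


theorem akn_pt_mono {S : Finset Γ} (e : Sym2 Γ) (ω : Cfg Γ) (x : Γ) :
    clus S (upd ω e false) x ⊆ clus S (upd ω e true) x := by
  apply clus_mono
  intro e' h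
  unfold upd ovr at h ⊢
  by_cases h1 : e' ∈ ({e} : Finset (Sym2 Γ))
  · simp only [h1, if_true]
  · simp only [h1, if_false] at h ⊢
    exact h

theorem akn_pt_real (s1 s2 s' : ℝ≥0∞) (n K : ℕ) (hn : 0 < n) (h1 : ((n + 1 : ℕ) : ℝ≥0∞) ≤ s1)
    (h2 : s2 ≤ K) (h3 : s' ≤ s1 + s2) : s1⁻¹ ≤ s'⁻¹ + s1⁻¹ * (K / n) := by
  by_cases hst : s1 = ⊤
  · rw [hst]; simp
  have hs0 : s1 ≠ 0 := by
    intro h
    rw [h] at h1
    have h4 : ((n + 1 : ℕ) : ℝ≥0∞) = 0 := le_antisymm h1 bot_le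
    rw [Nat.cast_eq_zero] at h4
    omega
  have ht0 : s1 + K ≠ 0 := by
    intro h
    exact hs0 (by simpa using (add_eq_zero.1 h).1)
  have htt : s1 + K ≠ ⊤ := ENNReal.add_ne_top.2 ⟨hst, ENNReal.natCast_ne_top K⟩
  have hns : (n : ℝ≥0∞) ≤ s1 + K := by
    refine le_trans ?_ (le_trans h1 le_self_add)
    exact_mod_cast Nat.le_succ n
  calc s1⁻¹ = s1⁻¹ * ((s1 + K) * (s1 + K)⁻¹) := by rw [ENNReal.mul_inv_cancel ht0 htt, mul_one]
    _ = (s1⁻¹ * s1) * (s1 + K)⁻¹ + s1⁻¹ * (K * (s1 + K)⁻¹) := by ring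
    _ = (s1 + K)⁻¹ + s1⁻¹ * (K * (s1 + K)⁻¹) := by rw [ENNReal.inv_mul_cancel hs0 hst, one_mul]
    _ ≤ s'⁻¹ + s1⁻¹ * (K / n) := by
        rw [div_eq_mul_inv]
        apply add_le_add
        · exact ENNReal.inv_le_inv.2 (h3.trans (by gcongr))
        · gcongr

/-- pointwise edge flipping inequality -/
theorem akn_pt {S : Finset Γ} (hS : Symm S) (n K : ℕ) (hn : 0 < n) (e : Sym2 Γ) (ω : Cfg Γ) :
    Fe S n e (upd ω e false) +
        Set.indicator {ω | piv S n 1 e ω} (fun ω => (sz S (upd ω e true) 1)⁻¹) ω ≤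
      Fe S n e (upd ω e true) + Er S n K e (upd ω e false) := by
  classical
  by_cases he : e ∈ (cay S).edgeSet
  swap
  · have h1 : Fe S n e (upd ω e false) = 0 := by
      unfold Fe
      exact Set.indicator_of_notMem (fun h => he h.2.1) _
    have h2 : Set.indicator {ω | piv S n 1 e ω} (fun ω => (sz S (upd ω e true) 1)⁻¹) ω = 0 :=
      Set.indicator_of_notMem (fun h => he h.1) _
    rw [h1, h2, zero_add]
    exact bot_le
  by_cases hR : R S n 1 (upd ω e false)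
  · have hR' : R S n 1 (upd ω e true) := by
      obtain ⟨y, hy, hyn⟩ := hR
      exact ⟨y, akn_pt_mono e ω 1 hy, hyn⟩
    have h2 : Set.indicator {ω | piv S n 1 e ω} (fun ω => (sz S (upd ω e true) 1)⁻¹) ω = 0 :=
      Set.indicator_of_notMem (fun h => h.2.2 hR) _
    rw [h2, add_zero]
    by_cases ht : ∃ v ∈ e, v ∈ clus S (upd ω e false) 1
    · have hFe1 : Fe S n e (upd ω e true) = (sz S (upd ω e true) 1)⁻¹ := by
        unfold Fe
        refine Set.indicator_of_mem ?_ _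
        exact ⟨hR', he, (tch_iff e 1 ω).2 ht⟩
      have hFe0 : Fe S n e (upd ω e false) = (sz S (upd ω e false) 1)⁻¹ := by
        unfold Fe
        refine Set.indicator_of_mem ?_ _
        exact ⟨hR, he, ht⟩
      rw [hFe0, hFe1]
      obtain ⟨a, ⟨b, rfl⟩, haC⟩ := ht
      have hab : (cay S).Adj a b := he
      have hbr := clus_upd_bridge a b 1 hab ω haC
      by_cases hb : b ∈ clus S (upd ω s(a, b) false) 1
      · have h3 : clus S (upd ω s(a, b) false) b = clus S (upd ω s(a, b) false) 1 := by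
          ext y
          constructor
          · intro hy
            exact SimpleGraph.Reachable.trans hb hy
          · intro hy
            exact SimpleGraph.Reachable.trans (SimpleGraph.Reachable.symm hb) hy
        have h4 : sz S (upd ω s(a, b) true) 1 = sz S (upd ω s(a, b) false) 1 := by
          unfold sz
          rw [hbr, h3, Set.union_self]
        rw [h4]
        exact le_self_add
      · have hEr : Er S n K s(a, b) (upd ω s(a, b) false) = (sz S (upd ω s(a, b) false) 1)⁻¹ *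
            (Set.indicator {ω' | ∃ b' ∈ s(a, b), b' ∉ clus S ω' 1 ∧ (K : ℝ≥0∞) < sz S ω' b'} 1
              (upd ω s(a, b) false) + K / n) := by
          unfold Er
          refine Set.indicator_of_mem ?_ _
          exact ⟨hR, he, ⟨a, Sym2.mem_mk_left a b, haC⟩, ⟨b, Sym2.mem_mk_right a b, hb⟩⟩
        rw [hEr]
        by_cases hK : (K : ℝ≥0∞) < sz S (upd ω s(a, b) false) b
        · have hmem : upd ω s(a, b) false ∈ {ω' : Cfg Γ | ∃ b' ∈ s(a, b), b' ∉ clus S ω' 1 ∧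
              (K : ℝ≥0∞) < sz S ω' b'} := ⟨b, Sym2.mem_mk_right a b, hb, hK⟩
          rw [Set.indicator_of_mem hmem]
          refine le_trans ?_ le_add_self
          calc (sz S (upd ω s(a, b) false) 1)⁻¹ = (sz S (upd ω s(a, b) false) 1)⁻¹ * 1 :=
                (mul_one _).symm
            _ ≤ _ := by
                apply mul_le_mul_right
                exact le_self_add
        · push Not at hK
          refine (akn_pt_real _ _ _ n K hn (R_of_sz n 1 _ hR) hK ?_).trans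
            (b := (sz S (upd ω s(a, b) true) 1)⁻¹ +
              (sz S (upd ω s(a, b) false) 1)⁻¹ * (K / n)) ?_
          · unfold sz
            rw [hbr]
            exact_mod_cast Set.encard_union_le _ _
          · gcongr
            exact le_add_self
    · have hFe0 : Fe S n e (upd ω e false) = 0 := by
        unfold Fe
        exact Set.indicator_of_notMem (fun h => ht h.2.2) _
      rw [hFe0]
      exact bot_le
  · have hFe0 : Fe S n e (upd ω e false) = 0 := by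
      unfold Fe
      exact Set.indicator_of_notMem (fun h => hR h.1) _
    rw [hFe0, zero_add]
    by_cases hp : piv S n 1 e ω
    · have h2 : Set.indicator {ω | piv S n 1 e ω} (fun ω => (sz S (upd ω e true) 1)⁻¹) ω =
          (sz S (upd ω e true) 1)⁻¹ := Set.indicator_of_mem (show ω ∈ _ from hp) _
      have ht : ∃ v ∈ e, v ∈ clus S (upd ω e false) 1 := by
        by_contra hne
        push Not at hne
        have h3 := clus_upd_far e 1 ω hne
        apply hR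
        obtain ⟨y, hy, hyn⟩ := hp.2.1
        rw [h3] at hy
        exact ⟨y, hy, hyn⟩
      have hFe1 : Fe S n e (upd ω e true) = (sz S (upd ω e true) 1)⁻¹ := by
        unfold Fe
        refine Set.indicator_of_mem ?_ _
        exact ⟨hp.2.1, he, (tch_iff e 1 ω).2 ht⟩
      rw [h2, hFe1]
      exact le_self_add
    · rw [Set.indicator_of_notMem (show ω ∉ {ω | piv S n 1 e ω} from hp)]
      exact bot_le




-- @@ Er_le_Ed


theorem Er_le_Ed_choose {S : Finset Γ} (hS : Symm S) (n K : ℕ) (ω : Cfg Γ) (e : Sym2 Γ)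
    (he : Er S n K e ω ≠ 0) :
    ∃ q : S × Γ, e = s(q.2, q.2 * (q.1 : Γ)) ∧ Er S n K e ω ≤ Ed S n K q.2 q.1 ω := by
  classical
  unfold Er at he
  rw [Set.indicator_apply] at he
  split_ifs at he with hmem
  · obtain ⟨hR, hE, ⟨a, hae, ha⟩, ⟨b, hbe, hb⟩⟩ := hmem
    have hab : a ≠ b := fun h => hb (h ▸ ha)
    have hes : e = s(a, b) := (Sym2.mem_and_mem_iff hab).1 ⟨hae, hbe⟩
    have hadj : (cay S).Adj a b := by
      rw [hes] at hE
      exact hE
    have hsS : a⁻¹ * b ∈ S := ((cay_adj hS a b).1 hadj).2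
    have hmul : a * (a⁻¹ * b) = b := mul_inv_cancel_left a b
    refine ⟨(⟨a⁻¹ * b, hsS⟩, a), ?_, ?_⟩
    · show e = s(a, a * (a⁻¹ * b))
      rw [hmul]; exact hes
    · show Er S n K e ω ≤ Ed S n K a (a⁻¹ * b) ω
      unfold Er Ed
      rw [hmul]
      have h1 : ω ∈ {ω | R S n 1 ω ∧ e ∈ (cay S).edgeSet ∧ (∃ a ∈ e, a ∈ clus S ω 1) ∧
          (∃ b ∈ e, b ∉ clus S ω 1)} := ⟨hR, hE, ⟨a, hae, ha⟩, ⟨b, hbe, hb⟩⟩
      have h2 : ω ∈ {ω | R S n 1 ω ∧ a ∈ clus S ω 1 ∧ b ∉ clus S ω 1} := ⟨hR, ha, hb⟩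
      rw [Set.indicator_of_mem h1, Set.indicator_of_mem h2]
      refine mul_le_mul_right ?_ _
      refine add_le_add ?_ le_rfl
      by_cases h3 : ∃ b ∈ e, b ∉ clus S ω 1 ∧ (K : ℝ≥0∞) < sz S ω b
      · have h4 : (K : ℝ≥0∞) < sz S ω b := by
          obtain ⟨b', hb'e, hb', hK⟩ := h3
          rw [hes, Sym2.mem_iff] at hb'e
          rcases hb'e with h | h
          · exact absurd (h ▸ ha) hb'
          · rwa [h] at hK
        have h5 : ω ∈ {ω | (K : ℝ≥0∞) < sz S ω b} := h4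
        rw [Set.indicator_of_mem h5]
        exact Set.indicator_le_self' (fun _ _ => zero_le_one) ω
      · have h5 : ω ∉ {ω | ∃ b ∈ e, b ∉ clus S ω 1 ∧ (K : ℝ≥0∞) < sz S ω b} := h3
        rw [Set.indicator_of_notMem h5]
        exact zero_le
  · exact absurd rfl he

theorem Er_le_Ed {S : Finset Γ} (hS : Symm S) (n K : ℕ) (ω : Cfg Γ) :
    ∑' e : Sym2 Γ, Er S n K e ω ≤ ∑ s ∈ S, ∑' a : Γ, Ed S n K a s ω := by
  classical
  have hR : ∑ s ∈ S, ∑' a : Γ, Ed S n K a s ω =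
      ∑' q : S × Γ, Ed S n K q.2 q.1 ω := by
    rw [ENNReal.tsum_prod (f := fun (s : S) (a : Γ) => Ed S n K a s ω), tsum_fintype]
    rw [← Finset.sum_coe_sort S (fun s => ∑' a : Γ, Ed S n K a s ω)]
  rw [hR]
  have hL : ∑' e : Sym2 Γ, Er S n K e ω =
      ∑' e : Function.support (fun e : Sym2 Γ => Er S n K e ω), Er S n K e ω :=
    (tsum_subtype_support (fun e : Sym2 Γ => Er S n K e ω)).symm
  rw [hL]
  have hch : ∀ e : Function.support (fun e : Sym2 Γ => Er S n K e ω), ∃ q : S × Γ,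
      (e : Sym2 Γ) = s(q.2, q.2 * (q.1 : Γ)) ∧ Er S n K e ω ≤ Ed S n K q.2 q.1 ω := fun e =>
    Er_le_Ed_choose hS n K ω e e.2
  choose φ hφ1 hφ2 using hch
  have hinj : Function.Injective φ := by
    intro e e' h
    apply Subtype.ext
    rw [hφ1 e, hφ1 e', h]
  calc ∑' e : Function.support (fun e : Sym2 Γ => Er S n K e ω), Er S n K e ω
      ≤ ∑' e : Function.support (fun e : Sym2 Γ => Er S n K e ω),
          Ed S n K (φ e).2 (φ e).1 ω := ENNReal.tsum_le_tsum hφ2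
    _ ≤ ∑' q : S × Γ, Ed S n K q.2 q.1 ω :=
        ENNReal.tsum_comp_le_tsum_of_injective hinj (fun q : S × Γ => Ed S n K q.2 q.1 ω)




-- @@ Ed_one


/-- one finite cluster, one boundary edge -/
theorem Ed_one [Countable Γ] {S : Finset Γ} (hS : Symm S) (p : ℝ≥0) (hp : p ≤ 1)
    (K : ℕ) (H : Finset Γ) (v : Γ) (hv : v ∉ H) :
    bP Γ p hp {ω | clus S ω 1 = ↑H ∧ (K : ℝ≥0∞) < sz S ω v} ≤
      bP Γ p hp {ω | clus S ω 1 = ↑H} * psi S p hp K := by
  have hmB : MeasurableSet {ω : Cfg Γ | (K : ℝ≥0∞) < sz S ω v} :=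
    measurableSet_lt measurable_const (meas_sz S v)
  have hmC : MeasurableSet {ω : Cfg Γ | (K : ℝ≥0∞) < sz S (cl S H ω) v} :=
    (meas_cl S H) hmB
  have key := explore_le p hp S hS 1 H (fun _ => 1)
    (Set.indicator {ω : Cfg Γ | (K : ℝ≥0∞) < sz S ω v} 1)
    (measurable_one.indicator hmB) (by
      intro ω ω' h
      by_cases h1 : (K : ℝ≥0∞) < sz S ω v
      · have h2 : (K : ℝ≥0∞) < sz S ω' v := by
          refine lt_of_lt_of_le h1 ?_
          unfold sz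
          exact_mod_cast Set.encard_le_encard (clus_mono h v)
        rw [Set.indicator_of_mem (show ω ∈ {ω : Cfg Γ | (K : ℝ≥0∞) < sz S ω v} from h1),
          Set.indicator_of_mem (show ω' ∈ {ω : Cfg Γ | (K : ℝ≥0∞) < sz S ω v} from h2)]
        simp
      · rw [Set.indicator_of_notMem (show ω ∉ {ω : Cfg Γ | (K : ℝ≥0∞) < sz S ω v} from h1)]
        exact zero_le)
  have e1 : ∫⁻ ω in {ω | clus S ω 1 = ↑H}, (1 : ℝ≥0∞) *
      Set.indicator {ω : Cfg Γ | (K : ℝ≥0∞) < sz S ω v} 1 (cl S H ω) ∂(bP Γ p hp)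
      = bP Γ p hp {ω | clus S ω 1 = ↑H ∧ (K : ℝ≥0∞) < sz S ω v} := by
    have : (fun ω : Cfg Γ => (1 : ℝ≥0∞) *
        Set.indicator {ω : Cfg Γ | (K : ℝ≥0∞) < sz S ω v} 1 (cl S H ω))
        = Set.indicator {ω : Cfg Γ | (K : ℝ≥0∞) < sz S (cl S H ω) v} 1 := by
      funext ω
      rw [one_mul]
      rfl
    rw [this, lintegral_indicator_one hmC, Measure.restrict_apply hmC]
    congr 1
    ext ω
    simp only [Set.mem_inter_iff, Set.mem_setOf_eq]
    constructor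
    · rintro ⟨a, b⟩
      refine ⟨b, ?_⟩
      unfold sz at a ⊢
      rwa [clus_cl hS H ω 1 v b hv] at a
    · rintro ⟨b, a⟩
      refine ⟨?_, b⟩
      unfold sz at a ⊢
      rwa [clus_cl hS H ω 1 v b hv]
  have e2 : ∫⁻ ω in {ω | clus S ω 1 = ↑H}, (1 : ℝ≥0∞) ∂(bP Γ p hp)
      = bP Γ p hp {ω | clus S ω 1 = ↑H} := by
    rw [setLIntegral_one]
  have e3 : ∫⁻ ω, Set.indicator {ω : Cfg Γ | (K : ℝ≥0∞) < sz S ω v} 1 ω ∂(bP Γ p hp)
      = psi S p hp K := by
    rw [lintegral_indicator_one hmB]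
    exact psi_shift p hp K v
  rw [e1, e2, e3] at key
  exact key




-- @@ Ed_int


theorem Ed_int_meas [Countable Γ] (S : Finset Γ) (H : Finset Γ) :
    MeasurableSet {ω : Cfg Γ | clus S ω 1 = ↑H} := by
  have h : {ω : Cfg Γ | clus S ω 1 = ↑H} = ⋂ y : Γ, {ω | y ∈ clus S ω 1 ↔ y ∈ H} := by
    ext ω
    simp only [Set.mem_setOf_eq, Set.mem_iInter, Set.ext_iff, Finset.mem_coe]
  rw [h]
  refine MeasurableSet.iInter fun y => ?_
  by_cases hy : y ∈ H
  · simpa [hy] using meas_clus S 1 y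
  · have h2 := (meas_clus S 1 y).compl
    have h3 : {ω : Cfg Γ | y ∈ clus S ω 1 ↔ y ∈ H} = {ω : Cfg Γ | y ∈ clus S ω 1}ᶜ := by
      ext ω
      simp [hy]
    rw [h3]
    exact h2

theorem Ed_int_sz (S : Finset Γ) (H : Finset Γ) (ω : Cfg Γ) (h : clus S ω 1 = ↑H) :
    sz S ω 1 = (H.card : ℝ≥0∞) := by
  unfold sz
  rw [h, Set.encard_coe_eq_coe_finsetCard]
  simp

theorem Ed_int_one [Countable Γ] {S : Finset Γ} (hS : Symm S) (p : ℝ≥0) (hp : p ≤ 1)
    (n K : ℕ) (s a : Γ) (H : Finset Γ) :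
    ∫⁻ ω in {ω | clus S ω 1 = ↑H}, Ed S n K a s ω ∂(bP Γ p hp) ≤
      Set.indicator (↑H : Set Γ) (fun _ => (H.card : ℝ≥0∞)⁻¹ * ((psi S p hp K + K / n) *
        ∫⁻ ω in {ω | clus S ω 1 = ↑H}, Set.indicator {ω | R S n 1 ω} 1 ω ∂(bP Γ p hp))) a := by
  have hmH := Ed_int_meas S H
  by_cases haH : a ∈ H
  swap
  · rw [Set.indicator_of_notMem (by simpa using haH)]
    rw [nonpos_iff_eq_zero]
    rw [← lintegral_zero (μ := (bP Γ p hp).restrict {ω | clus S ω 1 = ↑H})]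
    refine setLIntegral_congr_fun hmH ?_
    intro ω hω
    unfold Ed
    refine Set.indicator_of_notMem ?_ _
    rintro ⟨-, h2, -⟩
    rw [hω] at h2
    exact haH (by simpa using h2)
  rw [Set.indicator_of_mem (by simpa using haH)]
  by_cases hR : ∃ y ∈ H, n ≤ (cay S).dist 1 y
  swap
  · refine le_trans (le_of_eq ?_) zero_le
    rw [← lintegral_zero (μ := (bP Γ p hp).restrict {ω | clus S ω 1 = ↑H})]
    refine setLIntegral_congr_fun hmH ?_
    intro ω hω
    unfold Ed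
    refine Set.indicator_of_notMem ?_ _
    rintro ⟨h2, -, -⟩
    obtain ⟨y, hy, hy2⟩ := h2
    rw [hω] at hy
    exact hR ⟨y, by simpa using hy, hy2⟩
  have hRω : ∀ ω : Cfg Γ, clus S ω 1 = ↑H → R S n 1 ω := by
    rintro ω hω
    obtain ⟨y, hy, hy2⟩ := hR
    exact ⟨y, by rw [hω]; simpa using hy, hy2⟩
  have h1 : ∫⁻ ω in {ω | clus S ω 1 = ↑H}, Set.indicator {ω | R S n 1 ω} 1 ω ∂(bP Γ p hp)
      = bP Γ p hp {ω | clus S ω 1 = ↑H} := by
    rw [← setLIntegral_one]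
    refine setLIntegral_congr_fun hmH ?_
    intro ω hω
    have h : ω ∈ {ω : Cfg Γ | R S n 1 ω} := hRω ω hω
    rw [Set.indicator_of_mem h]
    rfl
  rw [h1]
  by_cases has : a * s ∈ H
  · refine le_trans (le_of_eq ?_) zero_le
    rw [← lintegral_zero (μ := (bP Γ p hp).restrict {ω | clus S ω 1 = ↑H})]
    refine setLIntegral_congr_fun hmH ?_
    intro ω hω
    unfold Ed
    refine Set.indicator_of_notMem ?_ _
    rintro ⟨-, -, h2⟩
    rw [hω] at h2
    exact h2 (by simpa using has)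
  have hms : MeasurableSet {ω : Cfg Γ | (K : ℝ≥0∞) < sz S ω (a * s)} :=
    measurableSet_lt measurable_const (meas_sz S (a * s))
  have h2 : ∫⁻ ω in {ω | clus S ω 1 = ↑H}, Ed S n K a s ω ∂(bP Γ p hp) =
      ∫⁻ ω in {ω | clus S ω 1 = ↑H}, (H.card : ℝ≥0∞)⁻¹ *
        (Set.indicator {ω | (K : ℝ≥0∞) < sz S ω (a * s)} 1 ω + K / n) ∂(bP Γ p hp) := by
    refine setLIntegral_congr_fun hmH ?_
    intro ω hω
    unfold Ed
    rw [Set.indicator_of_mem, Ed_int_sz S H ω hω]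
    refine ⟨hRω ω hω, ?_, ?_⟩
    · rw [hω]; simpa using haH
    · rw [hω]; simpa using has
  rw [h2, lintegral_const_mul _ ((measurable_one.indicator hms).add_const _)]
  gcongr
  rw [lintegral_add_right _ measurable_const, lintegral_const, Measure.restrict_apply_univ,
    lintegral_indicator_one hms, Measure.restrict_apply hms, add_mul]
  gcongr
  have h3 := Ed_one hS p hp K H (a * s) has
  rw [mul_comm]
  refine le_trans (le_of_eq ?_) h3
  congr 1
  ext ω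
  simp only [Set.mem_inter_iff, Set.mem_setOf_eq]
  exact and_comm

theorem Ed_int [Countable Γ] {S : Finset Γ} (hS : Symm S) (p : ℝ≥0) (hp : p ≤ 1)
    (hfin : Fin0 S p hp) (n K : ℕ) (s : Γ) :
    ∑' a : Γ, ∫⁻ ω, Ed S n K a s ω ∂(bP Γ p hp) ≤ (psi S p hp K + K / n) * Z S p hp n := by
  have hmE : ∀ a, Measurable (Ed S n K a s) := fun a =>
    (meas_E (S := S) n K (s(a, a)) a s true).2.2.1
  have h1 : ∀ a, ∫⁻ ω, Ed S n K a s ω ∂(bP Γ p hp) =
      ∑' H : Finset Γ, ∫⁻ ω in {ω | clus S ω 1 = ↑H}, Ed S n K a s ω ∂(bP Γ p hp) := fun a =>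
    lint_pattern p hp S 1 hfin _ (hmE a)
  simp_rw [h1]
  rw [ENNReal.tsum_comm]
  have hmR : MeasurableSet {ω : Cfg Γ | R S n 1 ω} := meas_R S n 1
  have h2 : Z S p hp n = ∑' H : Finset Γ, ∫⁻ ω in {ω | clus S ω 1 = ↑H},
      Set.indicator {ω | R S n 1 ω} 1 ω ∂(bP Γ p hp) := by
    rw [← lint_pattern p hp S 1 hfin _ (measurable_one.indicator hmR),
      lintegral_indicator_one hmR]
    rfl
  rw [h2, ← ENNReal.tsum_mul_left]
  refine ENNReal.tsum_le_tsum fun H => ?_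
  refine (ENNReal.tsum_le_tsum fun a => Ed_int_one hS p hp n K s a H).trans ?_
  rw [tsum_eq_sum (s := H) (fun a ha => Set.indicator_of_notMem (by simpa using ha) _)]
  rw [Finset.sum_congr rfl (fun a ha => Set.indicator_of_mem (by simpa using ha) _)]
  rw [Finset.sum_const, nsmul_eq_mul, ← mul_assoc]
  refine (mul_le_mul_left (ENNReal.mul_inv_le_one _) _).trans ?_
  rw [one_mul]




-- @@ akn_err


theorem akn_err [Countable Γ] {S : Finset Γ} (hS : Symm S) (p : ℝ≥0) (hp : p ≤ 1)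
    (hfin : Fin0 S p hp) (n K : ℕ) :
    ∑' e : Sym2 Γ, ∫⁻ ω in {ω | ω e = false}, Er S n K e ω ∂(bP Γ p hp)
      ≤ S.card * ((psi S p hp K + K / n) * Z S p hp n) := by
  have hc : Countable (Sym2 Γ) := by
    have h : Function.Surjective (fun q : Γ × Γ => s(q.1, q.2)) := by
      intro e
      induction e using Sym2.ind with
      | _ a b => exact ⟨(a, b), rfl⟩
    exact h.countable
  calc ∑' e : Sym2 Γ, ∫⁻ ω in {ω | ω e = false}, Er S n K e ω ∂(bP Γ p hp)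
      ≤ ∑' e : Sym2 Γ, ∫⁻ ω, Er S n K e ω ∂(bP Γ p hp) :=
        ENNReal.tsum_le_tsum fun e => setLIntegral_le_lintegral _ _
    _ = ∫⁻ ω, ∑' e : Sym2 Γ, Er S n K e ω ∂(bP Γ p hp) :=
        (lintegral_tsum fun e => (meas_E n K e 1 1 true).2.1.aemeasurable).symm
    _ ≤ ∫⁻ ω, ∑ s ∈ S, ∑' a : Γ, Ed S n K a s ω ∂(bP Γ p hp) :=
        lintegral_mono fun ω => Er_le_Ed hS n K ω
    _ = ∑ s ∈ S, ∫⁻ ω, ∑' a : Γ, Ed S n K a s ω ∂(bP Γ p hp) :=
        lintegral_finset_sum S fun s _ => Measurable.ennreal_tsum fun a =>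
          (meas_E n K s(1, 1) a s true).2.2.1
    _ = ∑ s ∈ S, ∑' a : Γ, ∫⁻ ω, Ed S n K a s ω ∂(bP Γ p hp) :=
        Finset.sum_congr rfl fun s _ => lintegral_tsum fun a =>
          (meas_E n K s(1, 1) a s true).2.2.1.aemeasurable
    _ ≤ ∑ s ∈ S, (psi S p hp K + K / n) * Z S p hp n :=
        Finset.sum_le_sum fun s _ => Ed_int hS p hp hfin n K s
    _ = S.card * ((psi S p hp K + K / n) * Z S p hp n) := by
        rw [Finset.sum_const, nsmul_eq_mul]




-- @@ ne_sum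


theorem ne_sum [Countable Γ] {S : Finset Γ} (p : ℝ≥0) (hp : p ≤ 1) (n : ℕ) (b : Bool) :
    ∫⁻ ω in {ω | R S n 1 ω}, ne S b ω / sz S ω 1 ∂(bP Γ p hp) =
      ∑' e : Sym2 Γ, ∫⁻ ω in {ω | ω e = b}, Fe S n e ω ∂(bP Γ p hp) := by
  classical
  have hcount : Countable (Sym2 Γ) := by
    unfold Sym2
    infer_instance
  have hme : ∀ e : Sym2 Γ, MeasurableSet {ω : Cfg Γ | ω e = b} := by
    intro e
    have h0 : Measurable (fun ω : Cfg Γ => ω e) := measurable_pi_apply e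
    exact h0 (measurableSet_singleton b)
  have hFm : ∀ e : Sym2 Γ, Measurable (Fe S n e) := fun e => (meas_E n 0 e 1 1 b).1
  rw [← lintegral_indicator (meas_R S n 1)]
  have h1 : ∀ e : Sym2 Γ, ∫⁻ ω in {ω | ω e = b}, Fe S n e ω ∂(bP Γ p hp) =
      ∫⁻ ω, Set.indicator {ω : Cfg Γ | ω e = b} (Fe S n e) ω ∂(bP Γ p hp) := by
    intro e
    rw [lintegral_indicator (hme e)]
  simp_rw [h1]
  rw [← lintegral_tsum (fun e => ((hFm e).indicator (hme e)).aemeasurable)]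
  refine lintegral_congr (fun ω => ?_)
  by_cases hR : R S n 1 ω
  · rw [Set.indicator_of_mem (show ω ∈ {ω | R S n 1 ω} from hR)]
    rw [div_eq_mul_inv]
    unfold ne
    rw [← ENNReal.tsum_mul_right]
    refine tsum_congr (fun e => ?_)
    by_cases he : e ∈ {e | e ∈ (cay S).edgeSet ∧ (∃ v ∈ e, v ∈ clus S ω 1) ∧ ω e = b}
    · rw [Set.indicator_of_mem he, one_mul]
      obtain ⟨h1', h2, h3⟩ := he
      rw [Set.indicator_of_mem (show ω ∈ {ω : Cfg Γ | ω e = b} from h3)]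
      unfold Fe
      rw [Set.indicator_of_mem]
      exact ⟨hR, h1', h2⟩
    · rw [Set.indicator_of_notMem he, zero_mul]
      by_cases h3 : ω e = b
      · rw [Set.indicator_of_mem (show ω ∈ {ω : Cfg Γ | ω e = b} from h3)]
        unfold Fe
        rw [Set.indicator_of_notMem]
        rintro ⟨_, h1', h2⟩
        exact he ⟨h1', h2, h3⟩
      · rw [Set.indicator_of_notMem (show ω ∉ {ω : Cfg Γ | ω e = b} from h3)]
  · rw [Set.indicator_of_notMem (show ω ∉ {ω | R S n 1 ω} from hR)]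
    symm
    rw [ENNReal.tsum_eq_zero]
    intro e
    by_cases h3 : ω e = b
    · rw [Set.indicator_of_mem (show ω ∈ {ω : Cfg Γ | ω e = b} from h3)]
      unfold Fe
      rw [Set.indicator_of_notMem]
      rintro ⟨h0, _, _⟩
      exact hR h0
    · rw [Set.indicator_of_notMem (show ω ∉ {ω : Cfg Γ | ω e = b} from h3)]




-- @@ akn_core


theorem akn_upd_upd (ω : Cfg Γ) (e : Sym2 Γ) (b b' : Bool) :
    upd (upd ω e b) e b' = upd ω e b' := by
  funext f
  unfold upd ovr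
  by_cases h : f ∈ ({e} : Finset (Sym2 Γ)) <;> simp [h]

theorem akn_edge [Countable Γ] {S : Finset Γ} (hS : Symm S) (p : ℝ≥0) (hp : p ≤ 1) (hp0 : 0 < p)
    (hp1 : p < 1) (n K : ℕ) (hn : 0 < n) (e : Sym2 Γ) :
    (∫⁻ ω in {ω | ω e = false}, Fe S n e ω ∂(bP Γ p hp)) * ((1 - p : ℝ≥0) : ℝ≥0∞)⁻¹ +
      (∫⁻ ω in {ω | piv S n 1 e ω ∧ ω e = true}, (sz S ω 1)⁻¹ ∂(bP Γ p hp)) * (p : ℝ≥0∞)⁻¹ ≤
    (∫⁻ ω in {ω | ω e = true}, Fe S n e ω ∂(bP Γ p hp)) * (p : ℝ≥0∞)⁻¹ +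
      (∫⁻ ω in {ω | ω e = false}, Er S n K e ω ∂(bP Γ p hp)) * ((1 - p : ℝ≥0) : ℝ≥0∞)⁻¹ := by
  obtain ⟨mF, mEr, -, mP, -⟩ := meas_E (S := S) n K e 1 1 true
  have hpne : (p : ℝ≥0∞) ≠ 0 := by exact_mod_cast hp0.ne'
  have hqne : ((1 - p : ℝ≥0) : ℝ≥0∞) ≠ 0 := by
    have : (1 - p : ℝ≥0) ≠ 0 := (tsub_pos_of_lt hp1).ne'
    exact_mod_cast this
  have hpt : (p : ℝ≥0∞) ≠ ⊤ := ENNReal.coe_ne_top
  have hqt : ((1 - p : ℝ≥0) : ℝ≥0∞) ≠ ⊤ := ENNReal.coe_ne_top
  have mG : Measurable (Set.indicator {ω | piv S n 1 e ω} (fun ω : Cfg Γ => (sz S ω 1)⁻¹)) :=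
    ((meas_sz S 1).inv).indicator mP
  have h1 : ∫⁻ ω in {ω | piv S n 1 e ω ∧ ω e = true}, (sz S ω 1)⁻¹ ∂(bP Γ p hp) =
      p * ∫⁻ ω, Set.indicator {ω | piv S n 1 e ω} (fun ω => (sz S (upd ω e true) 1)⁻¹) ω
        ∂(bP Γ p hp) := by
    have e1 : {ω : Cfg Γ | piv S n 1 e ω ∧ ω e = true} = {ω | piv S n 1 e ω} ∩ {ω | ω e = true} :=
      rfl
    rw [e1, ← Measure.restrict_restrict mP, ← lintegral_indicator mP, flip_true p hp e _ mG]
    congr 1
    refine lintegral_congr fun ω => ?_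
    have e2 : piv S n 1 e (upd ω e true) ↔ piv S n 1 e ω := by
      unfold piv
      rw [akn_upd_upd, akn_upd_upd]
    by_cases h : piv S n 1 e ω
    · rw [Set.indicator_of_mem (show upd ω e true ∈ {ω | piv S n 1 e ω} from e2.2 h),
        Set.indicator_of_mem (show ω ∈ {ω | piv S n 1 e ω} from h)]
    · rw [Set.indicator_of_notMem (show upd ω e true ∉ {ω | piv S n 1 e ω} from
        fun h' => h (e2.1 h')),
        Set.indicator_of_notMem (show ω ∉ {ω | piv S n 1 e ω} from h)]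
  have key : (∫⁻ ω, Fe S n e (upd ω e false) ∂(bP Γ p hp)) +
      (∫⁻ ω, Set.indicator {ω | piv S n 1 e ω} (fun ω => (sz S (upd ω e true) 1)⁻¹) ω
        ∂(bP Γ p hp)) ≤
      (∫⁻ ω, Fe S n e (upd ω e true) ∂(bP Γ p hp)) +
        ∫⁻ ω, Er S n K e (upd ω e false) ∂(bP Γ p hp) := by
    have m1 : Measurable (fun ω => Fe S n e (upd ω e false)) := mF.comp (meas_upd e false)
    have m2 : Measurable (fun ω => Fe S n e (upd ω e true)) := mF.comp (meas_upd e true)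
    rw [← lintegral_add_left m1, ← lintegral_add_left m2]
    exact lintegral_mono fun ω => akn_pt hS n K hn e ω
  rw [h1, flip_false p hp e _ mF, flip_true p hp e _ mF, flip_false p hp e _ mEr]
  have c1 : ∀ x : ℝ≥0∞, (p : ℝ≥0∞) * x * (p : ℝ≥0∞)⁻¹ = x := by
    intro x
    rw [mul_comm (p : ℝ≥0∞) x, mul_assoc, ENNReal.mul_inv_cancel hpne hpt, mul_one]
  have c2 : ∀ x : ℝ≥0∞, ((1 - p : ℝ≥0) : ℝ≥0∞) * x * ((1 - p : ℝ≥0) : ℝ≥0∞)⁻¹ = x := by
    intro x
    rw [mul_comm ((1 - p : ℝ≥0) : ℝ≥0∞) x, mul_assoc, ENNReal.mul_inv_cancel hqne hqt, mul_one]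
  rw [c1, c1, c2, c2]
  exact key

/-- the edge flipping inequality for `F = 1(R n)/|C|` -/
theorem akn_core [Countable Γ] {S : Finset Γ} (hS : Symm S) (p : ℝ≥0) (hp : p ≤ 1) (hp0 : 0 < p)
    (hp1 : p < 1) (hfin : Fin0 S p hp) (n K : ℕ) (hn : 0 < n) :
    PI S p hp n / p +
      (∫⁻ ω in {ω | R S n 1 ω}, ne S false ω / sz S ω 1 ∂(bP Γ p hp)) / ((1 - p : ℝ≥0) : ℝ≥0∞) ≤
    (∫⁻ ω in {ω | R S n 1 ω}, ne S true ω / sz S ω 1 ∂(bP Γ p hp)) / p +
      S.card / ((1 - p : ℝ≥0) : ℝ≥0∞) * ((psi S p hp K + K / n) * Z S p hp n) := by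
  have h1 := ENNReal.tsum_le_tsum (fun e => akn_edge hS p hp hp0 hp1 n K hn e)
  rw [ENNReal.tsum_add, ENNReal.tsum_add, ENNReal.tsum_mul_right, ENNReal.tsum_mul_right,
    ENNReal.tsum_mul_right, ENNReal.tsum_mul_right, ← ne_sum p hp n false,
    ← ne_sum p hp n true] at h1
  have h2 := akn_err hS p hp hfin n K
  rw [div_eq_mul_inv, div_eq_mul_inv, div_eq_mul_inv, div_eq_mul_inv, add_comm]
  refine h1.trans ?_
  refine add_le_add le_rfl ?_
  refine (mul_le_mul_left h2 _).trans (le_of_eq ?_)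
  ring




-- @@ Z_lower


theorem Z_lower [Infinite Γ] {S : Finset Γ} (hS : Symm S) (hg : Gen S) (p : ℝ≥0) (hp : p ≤ 1)
    (n : ℕ) : (p : ℝ≥0∞) ^ n ≤ Z S p hp n := by
  classical
  obtain ⟨x, hx⟩ := exists_sphere hS hg n
  obtain ⟨w, hw⟩ := (cay_conn hS hg).exists_walk_length_eq_dist 1 x
  set E : Finset (Sym2 Γ) := w.edges.toFinset with hE
  have hcard : E.card ≤ n := by
    calc E.card ≤ w.edges.length := List.toFinset_card_le _
      _ = w.length := w.length_edges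
      _ = n := by rw [hw, hx]
  have h1 := cyl_prob p hp E E (Finset.Subset.refl E)
  rw [Nat.sub_self, pow_zero, mul_one] at h1
  have h2 : (p : ℝ≥0∞) ^ n ≤ (p : ℝ≥0∞) ^ E.card :=
    pow_le_pow_right_of_le_one' (by exact_mod_cast hp) hcard
  refine h2.trans ?_
  rw [← h1]
  unfold Z
  refine measure_mono ?_
  intro ω hω
  have hω' : ∀ e ∈ E, (ω e = true ↔ e ∈ E) := hω
  have hwalk : ∀ e ∈ w.edges, e ∈ (opn S ω).edgeSet := by
    intro e he
    have he' : ω e = true := (hω' e (by rw [hE]; exact List.mem_toFinset.mpr he)).2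
      (by rw [hE]; exact List.mem_toFinset.mpr he)
    revert he he'
    refine Sym2.ind (fun a b he he' => ?_) e
    exact ⟨w.adj_of_mem_edges he, he'⟩
  refine ⟨x, ⟨w.transfer (opn S ω) hwalk⟩, hx.ge⟩




-- @@ psi_tendsto


theorem psi_tendsto [Countable Γ] {S : Finset Γ} (p : ℝ≥0) (hp : p ≤ 1) (hfin : Fin0 S p hp) :
    Filter.Tendsto (fun K => psi S p hp K) Filter.atTop (nhds 0) := by
  have h1 : bP Γ p hp (⋂ K : ℕ, {ω | (K : ℝ≥0∞) < sz S ω 1}) = 0 := by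
    refine measure_mono_null ?_ hfin
    intro ω hω
    rw [Set.mem_iInter] at hω
    change (clus S ω 1).Infinite
    rw [← Set.encard_eq_top_iff]
    by_contra hne
    obtain ⟨m, hm⟩ := ENat.ne_top_iff_exists.mp hne
    have h2 : (m : ℝ≥0∞) < sz S ω 1 := hω m
    unfold sz at h2
    rw [← hm] at h2
    exact absurd h2 (lt_irrefl _)
  rw [← h1]
  refine tendsto_measure_iInter_atTop
    (fun K => (measurableSet_lt measurable_const (meas_sz S 1)).nullMeasurableSet) ?_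
    ⟨0, measure_ne_top _ _⟩
  intro K L hKL ω hω
  change (K : ℝ≥0∞) < sz S ω 1
  have h3 : (L : ℝ≥0∞) < sz S ω 1 := hω
  exact lt_of_le_of_lt (by exact_mod_cast hKL) h3




-- @@ akn_bad



theorem akn_bad_pt {S : Finset Γ} (hS : Symm S) (p : ℝ≥0) (l : ℝ≥0) (ω : Cfg Γ)
    (hf : (clus S ω 1).Finite) :
    ne S true ω / sz S ω 1 / p ≤ ne S false ω / sz S ω 1 / ((1 - p : ℝ≥0) : ℝ≥0∞) + l
      + (S.card / p) * Set.indicator {ω | Bad S p l true ω} 1 ω := by
  have hs0 : sz S ω 1 ≠ 0 := by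
    unfold sz
    rw [Ne, ENat.toENNReal_eq_zero, Set.encard_eq_zero]
    intro h
    have : (1 : Γ) ∈ clus S ω 1 := SimpleGraph.Reachable.refl 1
    rw [h] at this
    exact this
  have hsT : sz S ω 1 ≠ ∞ := by
    unfold sz
    rw [Ne, ENat.toENNReal_eq_top, Set.encard_eq_top_iff]
    exact fun h => h hf
  by_cases hb : Bad S p l true ω
  · rw [Set.indicator_of_mem (show ω ∈ {ω | Bad S p l true ω} from hb)]
    simp only [Pi.one_apply, mul_one]
    refine le_trans ?_ le_add_self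
    have h1 : ne S true ω / sz S ω 1 ≤ S.card := ENNReal.div_le_of_le_mul (ne_le hS true ω)
    exact ENNReal.div_le_div_right h1 _
  · have h1 : ne S true ω / p ≤ ne S false ω / ((1 - p : ℝ≥0) : ℝ≥0∞) + l * sz S ω 1 := by
      by_contra h
      apply hb
      refine ⟨hf, ?_⟩
      simp only [if_true]
      exact (not_le.1 h).le
    refine le_trans ?_ le_self_add
    calc ne S true ω / sz S ω 1 / p = (ne S true ω / p) / sz S ω 1 := by
          simp only [div_eq_mul_inv]; rw [mul_right_comm]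
      _ ≤ (ne S false ω / ((1 - p : ℝ≥0) : ℝ≥0∞) + l * sz S ω 1) / sz S ω 1 :=
          ENNReal.div_le_div_right h1 _
      _ = ne S false ω / sz S ω 1 / ((1 - p : ℝ≥0) : ℝ≥0∞) + l := by
          rw [ENNReal.add_div, ENNReal.mul_div_cancel_right hs0 hsT]
          congr 1
          simp only [div_eq_mul_inv]; rw [mul_right_comm]

theorem akn_bad_int [Countable Γ] {S : Finset Γ} (hS : Symm S)
    (p : ℝ≥0) (hp : p ≤ 1) (hp0 : 0 < p) (hp1 : p < 1) (hfin : Fin0 S p hp) (l : ℝ≥0) (n : ℕ) :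
    (∫⁻ ω in {ω | R S n 1 ω}, ne S true ω / sz S ω 1 ∂(bP Γ p hp)) / p ≤
      (∫⁻ ω in {ω | R S n 1 ω}, ne S false ω / sz S ω 1 ∂(bP Γ p hp)) / ((1 - p : ℝ≥0) : ℝ≥0∞)
      + l * Z S p hp n
      + (S.card / p) * bP Γ p hp {ω | R S n 1 ω ∧ Bad S p l true ω} := by
  have hmR := meas_R (Γ := Γ) S n 1
  have hne : Measurable (fun ω : Cfg Γ => ne S false ω) :=
    (meas_E (S := S) n 0 s((1 : Γ), 1) 1 1 false).2.2.2.2
  have hmd : Measurable (fun ω : Cfg Γ => ne S false ω / sz S ω 1) := hne.div (meas_sz S 1)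
  have hp0' : (p : ℝ≥0∞) ≠ 0 := by simpa using hp0.ne'
  have hq0 : (1 - p : ℝ≥0) ≠ 0 := (tsub_pos_of_lt hp1).ne'
  have hq0' : ((1 - p : ℝ≥0) : ℝ≥0∞) ≠ 0 := ENNReal.coe_ne_zero.2 hq0
  have hcT : (S.card / p : ℝ≥0∞) ≠ ∞ := ENNReal.div_ne_top (ENNReal.natCast_ne_top _) hp0'
  have e1 : (∫⁻ ω in {ω | R S n 1 ω}, ne S true ω / sz S ω 1 ∂(bP Γ p hp)) / p
      = ∫⁻ ω in {ω | R S n 1 ω}, ne S true ω / sz S ω 1 / p ∂(bP Γ p hp) := by
    simp only [div_eq_mul_inv (b := (p : ℝ≥0∞))]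
    rw [lintegral_mul_const' _ _ (ENNReal.inv_ne_top.2 hp0')]
  have e2 : (∫⁻ ω in {ω | R S n 1 ω}, ne S false ω / sz S ω 1 ∂(bP Γ p hp))
        / ((1 - p : ℝ≥0) : ℝ≥0∞)
      = ∫⁻ ω in {ω | R S n 1 ω}, ne S false ω / sz S ω 1 / ((1 - p : ℝ≥0) : ℝ≥0∞)
          ∂(bP Γ p hp) := by
    simp only [div_eq_mul_inv (b := ((1 - p : ℝ≥0) : ℝ≥0∞))]
    rw [lintegral_mul_const' _ _ (ENNReal.inv_ne_top.2 hq0')]
  rw [e1, e2]
  have hae : ∀ᵐ ω ∂(bP Γ p hp), (clus S ω 1).Finite := by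
    have : bP Γ p hp {ω | (clus S ω 1).Infinite} = 0 := hfin
    rw [ae_iff]
    exact this
  have hle : ∫⁻ ω in {ω | R S n 1 ω}, ne S true ω / sz S ω 1 / p ∂(bP Γ p hp)
      ≤ ∫⁻ ω in {ω | R S n 1 ω}, (ne S false ω / sz S ω 1 / ((1 - p : ℝ≥0) : ℝ≥0∞) + l)
        + (S.card / p) * Set.indicator {ω | Bad S p l true ω} 1 ω ∂(bP Γ p hp) := by
    apply lintegral_mono_ae
    filter_upwards [ae_restrict_of_ae hae] with ω hω
    exact akn_bad_pt hS p l ω hω
  refine hle.trans ?_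
  rw [lintegral_add_left ((hmd.div_const _).add_const _), lintegral_add_left (hmd.div_const _),
    lintegral_const_mul' _ _ hcT, lintegral_const]
  have h3 : (bP Γ p hp).restrict {ω | R S n 1 ω} Set.univ = Z S p hp n := by
    rw [Measure.restrict_apply_univ]; rfl
  rw [h3]
  gcongr
  calc ∫⁻ ω in {ω | R S n 1 ω}, Set.indicator {ω | Bad S p l true ω} 1 ω ∂(bP Γ p hp)
      ≤ ∫⁻ ω in {ω | Bad S p l true ω}, 1 ∂((bP Γ p hp).restrict {ω | R S n 1 ω}) :=
        lintegral_indicator_le _ _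
    _ = ((bP Γ p hp).restrict {ω | R S n 1 ω}) {ω | Bad S p l true ω} := by
        rw [setLIntegral_one]
    _ = bP Γ p hp {ω | R S n 1 ω ∧ Bad S p l true ω} := by
        rw [Measure.restrict_apply' hmR]
        congr 1
        ext ω
        simp [and_comm]

theorem akn_bad_F_le [Countable Γ] {S : Finset Γ} (hS : Symm S)
    (p : ℝ≥0) (hp : p ≤ 1) (n : ℕ) :
    (∫⁻ ω in {ω | R S n 1 ω}, ne S false ω / sz S ω 1 ∂(bP Γ p hp)) ≤ S.card := by
  calc (∫⁻ ω in {ω | R S n 1 ω}, ne S false ω / sz S ω 1 ∂(bP Γ p hp))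
      ≤ ∫⁻ ω in {ω | R S n 1 ω}, (S.card : ℝ≥0∞) ∂(bP Γ p hp) :=
        lintegral_mono (fun ω => ENNReal.div_le_of_le_mul (ne_le hS false ω))
    _ = S.card * bP Γ p hp {ω | R S n 1 ω} := by
        rw [lintegral_const, Measure.restrict_apply_univ]
    _ ≤ S.card * 1 := by gcongr; exact prob_le_one
    _ = S.card := mul_one _

/-- many pivotals force a biased cluster with positive conditional probability -/
theorem akn_bad [Countable Γ] {S : Finset Γ} (hS : Symm S)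
    (p : ℝ≥0) (hp : p ≤ 1) (hp0 : 0 < p) (hp1 : p < 1) (hfin : Fin0 S p hp)
    (δ : ℝ≥0) (hδ : 0 < δ) :
    ∃ (l c2 : ℝ≥0) (n0 : ℕ), 0 < l ∧ 0 < c2 ∧ ∀ n, n0 ≤ n →
      δ * Z S p hp n ≤ PI S p hp n →
        c2 * Z S p hp n ≤ bP Γ p hp {ω | R S n 1 ω ∧ Bad S p l true ω} := by
  have hpR : (0 : ℝ) < p := hp0
  have hp1R : (p : ℝ) < 1 := hp1
  have hδR : (0 : ℝ) < δ := hδ
  obtain ⟨d, hd⟩ : ∃ d : ℝ, d = (S.card : ℝ) := ⟨_, rfl⟩
  have hd0 : 0 ≤ d := by rw [hd]; exact Nat.cast_nonneg _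
  have hη : 0 < (δ : ℝ) * (1 - p) / (4 * p * (d + 1)) := by
    apply div_pos (mul_pos hδR (by linarith)) (by positivity)
  set η : ℝ := (δ : ℝ) * (1 - p) / (4 * p * (d + 1)) with hηd
  obtain ⟨K, hK⟩ := ((psi_tendsto p hp hfin (S := S)).eventually
    (Iio_mem_nhds (ENNReal.ofReal_pos.2 hη))).exists
  obtain ⟨n0, hn0⟩ := exists_nat_gt ((K : ℝ) / η)
  have hK' : (psi S p hp K).toReal ≤ η := by
    have := ENNReal.toReal_mono ENNReal.ofReal_ne_top (le_of_lt hK)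
    rwa [ENNReal.toReal_ofReal hη.le] at this
  refine ⟨δ / (4 * p), δ / (4 * (S.card + 1)), n0 + 1, by positivity, by positivity, ?_⟩
  intro n hn hPI
  have hn' : 0 < n := by omega
  have hnR : (0 : ℝ) < n := by exact_mod_cast hn'
  have hKn : (K : ℝ) / n ≤ η := by
    rw [div_le_iff₀ hnR]
    rw [div_lt_iff₀ hη] at hn0
    have : (n0 : ℝ) ≤ n := by exact_mod_cast (by omega : n0 ≤ n)
    nlinarith
  have h1 := akn_core hS p hp hp0 hp1 hfin n K hn'
  have h2 := akn_bad_int hS p hp hp0 hp1 hfin (δ / (4 * p)) n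
  have h3 := akn_bad_F_le (Γ := Γ) hS p hp n
  set F := ∫⁻ ω in {ω | R S n 1 ω}, ne S false ω / sz S ω 1 ∂(bP Γ p hp) with hF
  set m := bP Γ p hp {ω | R S n 1 ω ∧ Bad S p (δ / (4 * p)) true ω} with hm
  have hp0' : (p : ℝ≥0∞) ≠ 0 := by simpa using hp0.ne'
  have hq0 : (1 - p : ℝ≥0) ≠ 0 := (tsub_pos_of_lt hp1).ne'
  have hq0' : ((1 - p : ℝ≥0) : ℝ≥0∞) ≠ 0 := ENNReal.coe_ne_zero.2 hq0
  have hcT : (S.card / p : ℝ≥0∞) ≠ ∞ := ENNReal.div_ne_top (ENNReal.natCast_ne_top _) hp0'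
  have hcT' : (S.card / ((1 - p : ℝ≥0) : ℝ≥0∞) : ℝ≥0∞) ≠ ∞ :=
    ENNReal.div_ne_top (ENNReal.natCast_ne_top _) hq0'
  have hFT : F / ((1 - p : ℝ≥0) : ℝ≥0∞) ≠ ∞ :=
    ENNReal.div_ne_top (ne_top_of_le_ne_top (ENNReal.natCast_ne_top _) h3) hq0'
  have hmT : m ≠ ∞ := measure_ne_top _ _
  have hZT : Z S p hp n ≠ ∞ := measure_ne_top _ _
  have hψT : psi S p hp K ≠ ∞ := measure_ne_top _ _
  have hKT : (K : ℝ≥0∞) / n ≠ ∞ :=
    ENNReal.div_ne_top (ENNReal.natCast_ne_top _) (by simpa using hn'.ne')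
  have h4 : PI S p hp n / p + F / ((1 - p : ℝ≥0) : ℝ≥0∞) ≤
      (((δ / (4 * p) : ℝ≥0) : ℝ≥0∞) * Z S p hp n + (S.card / p) * m
        + S.card / ((1 - p : ℝ≥0) : ℝ≥0∞) * ((psi S p hp K + K / n) * Z S p hp n))
        + F / ((1 - p : ℝ≥0) : ℝ≥0∞) := by
    refine h1.trans ((add_le_add_left h2 _).trans (le_of_eq ?_))
    ring
  have h5 := (ENNReal.add_le_add_iff_right hFT).1 h4
  have h6 : (δ : ℝ≥0∞) * Z S p hp n / p ≤ ((δ / (4 * p) : ℝ≥0) : ℝ≥0∞) * Z S p hp n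
      + (S.card / p) * m
        + S.card / ((1 - p : ℝ≥0) : ℝ≥0∞) * ((psi S p hp K + K / n) * Z S p hp n) :=
    (ENNReal.div_le_div_right hPI _).trans h5
  have hT1 : ((δ / (4 * p) : ℝ≥0) : ℝ≥0∞) * Z S p hp n ≠ ∞ :=
    ENNReal.mul_ne_top ENNReal.coe_ne_top hZT
  have hT2 : (S.card / p : ℝ≥0∞) * m ≠ ∞ := ENNReal.mul_ne_top hcT hmT
  have hT3 : (psi S p hp K + (K : ℝ≥0∞) / n) ≠ ∞ := ENNReal.add_ne_top.2 ⟨hψT, hKT⟩
  have hT4 : S.card / ((1 - p : ℝ≥0) : ℝ≥0∞) * ((psi S p hp K + K / n) * Z S p hp n) ≠ ∞ :=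
    ENNReal.mul_ne_top hcT' (ENNReal.mul_ne_top hT3 hZT)
  have h7 := ENNReal.toReal_mono (ENNReal.add_ne_top.2 ⟨ENNReal.add_ne_top.2 ⟨hT1, hT2⟩, hT4⟩) h6
  rw [ENNReal.toReal_add (ENNReal.add_ne_top.2 ⟨hT1, hT2⟩) hT4, ENNReal.toReal_add hT1 hT2] at h7
  simp only [ENNReal.toReal_mul, ENNReal.toReal_div, ENNReal.coe_toReal,
    ENNReal.toReal_add hψT hKT, ENNReal.toReal_natCast] at h7
  rw [NNReal.coe_sub hp] at h7
  simp only [NNReal.coe_div, NNReal.coe_mul, NNReal.coe_ofNat, NNReal.coe_one] at h7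
  rw [← hd] at h7
  have hz0 : 0 ≤ (Z S p hp n).toReal := ENNReal.toReal_nonneg
  have hm0 : 0 ≤ m.toReal := ENNReal.toReal_nonneg
  set z := (Z S p hp n).toReal with hz
  set ps := (psi S p hp K).toReal with hps
  have h8 : d / (1 - p) * ((ps + K / n) * z) ≤ (δ : ℝ) / (2 * p) * z := by
    have h9 : ps + K / n ≤ 2 * η := by linarith
    have h10 : d / (1 - p) * (2 * η) ≤ (δ : ℝ) / (2 * p) := by
      rw [hηd]
      have e : d / (1 - (p : ℝ)) * (2 * (δ * (1 - p) / (4 * p * (d + 1))))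
          = (δ : ℝ) / (2 * p) * (d / (d + 1)) := by
        have : (1 : ℝ) - p ≠ 0 := by linarith
        have h4 : (p : ℝ) ≠ 0 := hpR.ne'
        have h5 : d + 1 ≠ 0 := by positivity
        field_simp
        ring
      rw [e]
      have : d / (d + 1) ≤ 1 := by rw [div_le_one (by positivity)]; linarith
      calc (δ : ℝ) / (2 * p) * (d / (d + 1)) ≤ (δ : ℝ) / (2 * p) * 1 := by gcongr
        _ = _ := mul_one _
    have h11 : 0 ≤ d / (1 - (p : ℝ)) := div_nonneg hd0 (by linarith)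
    calc d / (1 - p) * ((ps + K / n) * z) = (d / (1 - p) * (ps + K / n)) * z := by ring
      _ ≤ (d / (1 - p) * (2 * η)) * z := by gcongr
      _ ≤ (δ : ℝ) / (2 * p) * z := by gcongr
  have h12 : (δ : ℝ) * z ≤ 4 * (d * m.toReal) := by
    have e1 : (δ : ℝ) * z / p ≤ δ / (4 * p) * z + d / p * m.toReal + (δ : ℝ) / (2 * p) * z := by
      linarith
    have e2 : p * ((δ : ℝ) * z / p)
        ≤ p * (δ / (4 * p) * z + d / p * m.toReal + (δ : ℝ) / (2 * p) * z) :=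
      mul_le_mul_of_nonneg_left e1 hpR.le
    have e3 : p * ((δ : ℝ) * z / p) = δ * z := by field_simp
    have e4 : p * (δ / (4 * p) * z + d / p * m.toReal + (δ : ℝ) / (2 * p) * z)
        = δ * z / 4 + d * m.toReal + δ * z / 2 := by field_simp
    rw [e3, e4] at e2
    linarith
  have h13 : (δ : ℝ) / (4 * (d + 1)) * z ≤ m.toReal := by
    rw [div_mul_eq_mul_div, div_le_iff₀ (by positivity)]
    nlinarith
  rw [← ENNReal.toReal_le_toReal (ENNReal.mul_ne_top ENNReal.coe_ne_top hZT) hmT,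
    ENNReal.toReal_mul, ENNReal.coe_toReal]
  simp only [NNReal.coe_div, NNReal.coe_mul, NNReal.coe_ofNat, NNReal.coe_add, NNReal.coe_one,
    NNReal.coe_natCast]
  rw [hd] at h13
  exact h13




-- @@ thin_core


/-- scales at which the number of pivotals is large are thin and have exponentially small
one-arm probability -/
theorem thin_core [Countable Γ] [Infinite Γ] {S : Finset Γ} (hS : Symm S) (hg : Gen S)
    (p : ℝ≥0) (hp : p ≤ 1) (hp0 : 0 < p) (hp1 : p < 1) (hfin : Fin0 S p hp)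
    (δ : ℝ≥0) (hδ : 0 < δ) :
    ∃ (A : ℕ) (c c1 : ℝ) (n0 : ℕ), 0 < A ∧ 0 < c ∧ 0 < c1 ∧ ∀ n, n0 ≤ n →
      δ * Z S p hp n ≤ PI S p hp n →
        Z S p hp n ≤ ENNReal.ofReal (Real.exp (-c * n)) ∧
        ENNReal.ofReal c1 * Z S p hp n ≤
          bP Γ p hp {ω | R S n 1 ω ∧ sz S ω 1 ≤ (A * n : ℕ)} := by
  obtain ⟨l, c2, n0, hl, hc2, hbad⟩ := akn_bad hS p hp hp0 hp1 hfin δ hδ
  have hq : 0 < min p (1 - p) := lt_min hp0 (tsub_pos_of_lt hp1)
  obtain ⟨c, hc, hch⟩ := chernoff hS (min p (1 - p)) hq l hl true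
  have hch' := hch p hp (min_le_left _ _) (min_le_right _ _)
  have hc2r : (0 : ℝ) < c2 := hc2
  have hp0r : (0 : ℝ) < p := hp0
  obtain ⟨A, hA⟩ := exists_nat_gt ((1 - Real.log p) / c)
  have hlogp : Real.log p ≤ 0 := Real.log_nonpos hp0r.le (by exact_mod_cast hp)
  have hA0 : 0 < A := by
    have h1 : (0 : ℝ) < (1 - Real.log p) / c := div_pos (by linarith) hc
    exact_mod_cast h1.trans hA
  have hcA : 1 - Real.log p ≤ c * A := by
    rw [div_lt_iff₀ hc] at hA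
    linarith [mul_comm (A : ℝ) c]
  obtain ⟨n1, hn1⟩ := exists_nat_gt (-(2 / c) * Real.log c2)
  obtain ⟨n2, hn2⟩ := exists_nat_gt (-Real.log (c2 / 2))
  refine ⟨A, c / 2, (c2 : ℝ) / 2, max n0 (max n1 n2), hA0, by linarith, by linarith, ?_⟩
  intro n hn hPI
  have hnn0 : n0 ≤ n := (le_max_left _ _).trans hn
  have hnn1 : n1 ≤ n := ((le_max_left _ _).trans (le_max_right _ _)).trans hn
  have hnn2 : n2 ≤ n := ((le_max_right _ _).trans (le_max_right _ _)).trans hn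
  have hkey := hbad n hnn0 hPI
  have hn1r : (n1 : ℝ) ≤ n := by exact_mod_cast hnn1
  have hn2r : (n2 : ℝ) ≤ n := by exact_mod_cast hnn2
  have hZ1 : Z S p hp n ≤ 1 := prob_le_one
  have hZt : Z S p hp n ≠ ⊤ := ne_top_of_le_ne_top ENNReal.one_ne_top hZ1
  constructor
  · have h1 : bP Γ p hp {ω | R S n 1 ω ∧ Bad S p l true ω} ≤ ENNReal.ofReal (Real.exp (-c * n)) := by
      refine le_trans (measure_mono ?_) (hch' n)
      rintro ω ⟨hR, hB⟩
      refine ⟨hB, le_trans ?_ (R_of_sz n 1 ω hR)⟩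
      exact_mod_cast Nat.le_succ n
    have h2 : Real.exp (-c * n) ≤ c2 * Real.exp (-(c / 2) * n) := by
      have e1 : Real.exp (-c * n) = Real.exp (-(c / 2) * n) * Real.exp (-(c / 2) * n) := by
        rw [← Real.exp_add]; congr 1; ring
      rw [e1]
      refine mul_le_mul_of_nonneg_right ?_ (Real.exp_pos _).le
      rw [← Real.exp_log hc2r]
      refine Real.exp_le_exp.2 ?_
      have h3 : -(2 / c) * Real.log c2 < n := lt_of_lt_of_le hn1 hn1r
      have h4 : -(c / 2) * (n : ℝ) < -(c / 2) * (-(2 / c) * Real.log c2) :=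
        mul_lt_mul_of_neg_left h3 (by linarith)
      have h5 : -(c / 2) * (-(2 / c) * Real.log c2) = Real.log c2 := by
        field_simp
      linarith
    have h3 : (c2 : ℝ≥0∞) * Z S p hp n ≤ (c2 : ℝ≥0∞) * ENNReal.ofReal (Real.exp (-(c / 2) * n)) := by
      refine (hkey.trans h1).trans ?_
      rw [← ENNReal.ofReal_coe_nnreal (p := c2), ← ENNReal.ofReal_mul hc2r.le]
      exact ENNReal.ofReal_le_ofReal h2
    exact (ENNReal.mul_le_mul_iff_right (by exact_mod_cast hc2.ne') ENNReal.coe_ne_top).1 h3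
  · have h1 : bP Γ p hp {ω | Bad S p l true ω ∧ ((A * n : ℕ) : ℝ≥0∞) ≤ sz S ω 1} ≤
        ENNReal.ofReal ((c2 : ℝ) / 2) * Z S p hp n := by
      refine (hch' (A * n)).trans ?_
      refine le_trans ?_ (mul_le_mul_right (Z_lower hS hg p hp n) _)
      have e1 : (p : ℝ≥0∞) ^ n = ENNReal.ofReal ((p : ℝ) ^ n) := by
        rw [ENNReal.ofReal_pow hp0r.le, ENNReal.ofReal_coe_nnreal]
      rw [e1, ← ENNReal.ofReal_mul (by linarith)]
      refine ENNReal.ofReal_le_ofReal ?_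
      have e2 : (p : ℝ) ^ n = Real.exp (n * Real.log p) := by
        rw [Real.exp_nat_mul, Real.exp_log hp0r]
      have e3 : Real.exp (-c * ((A * n : ℕ) : ℝ)) ≤ Real.exp (-(n : ℝ)) * Real.exp (n * Real.log p) := by
        rw [← Real.exp_add]
        refine Real.exp_le_exp.2 ?_
        push_cast
        have := mul_le_mul_of_nonneg_right hcA (Nat.cast_nonneg (α := ℝ) n)
        nlinarith
      rw [e2]
      refine e3.trans (mul_le_mul_of_nonneg_right ?_ (Real.exp_pos _).le)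
      rw [← Real.exp_log (show (0 : ℝ) < c2 / 2 by linarith)]
      exact Real.exp_le_exp.2 (by linarith)
    have h2 : bP Γ p hp {ω | R S n 1 ω ∧ Bad S p l true ω} ≤
        bP Γ p hp {ω | R S n 1 ω ∧ sz S ω 1 ≤ (A * n : ℕ)} +
        bP Γ p hp {ω | Bad S p l true ω ∧ ((A * n : ℕ) : ℝ≥0∞) ≤ sz S ω 1} := by
      refine le_trans (measure_mono ?_) (measure_union_le _ _)
      rintro ω ⟨hR, hB⟩
      rcases le_total (sz S ω 1) ((A * n : ℕ) : ℝ≥0∞) with h | h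
      · exact Or.inl ⟨hR, h⟩
      · exact Or.inr ⟨hB, h⟩
    have h3 : (c2 : ℝ≥0∞) * Z S p hp n = ENNReal.ofReal ((c2 : ℝ) / 2) * Z S p hp n +
        ENNReal.ofReal ((c2 : ℝ) / 2) * Z S p hp n := by
      rw [← add_mul, ← ENNReal.ofReal_add (by linarith) (by linarith), add_halves,
        ENNReal.ofReal_coe_nnreal]
    have h4 := hkey.trans (h2.trans (add_le_add_right h1 _))
    rw [h3] at h4
    exact (ENNReal.add_le_add_iff_right (ENNReal.mul_ne_top ENNReal.ofReal_ne_top hZt)).1 h4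





/-! ### final forms -/

theorem chernU [Countable Γ] {S : Finset Γ} (hS : Symm S) (p : ℝ≥0) (hp : p ≤ 1) (hp0 : 0 < p)
    (hp1 : p < 1) (lam : ℝ≥0) (hlam : 0 < lam) :
    ∃ c : ℝ, 0 < c ∧ ∀ m : ℕ, bP Γ p hp {ω | (clus S ω 1).Finite ∧ (m : ℝ≥0∞) ≤ sz S ω 1 ∧
      BadU S p lam ω} ≤ ENNReal.ofReal (Real.exp (-c * m)) := by
  have h1p : (0 : ℝ≥0) < 1 - p := tsub_pos_of_lt hp1
  obtain ⟨c, hc, h⟩ := chernoff (Γ := Γ) hS (min p (1 - p)) (lt_min hp0 h1p) lam hlam true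
  refine ⟨c, hc, fun m => le_trans (measure_mono ?_) (h p hp (min_le_left _ _) (min_le_right _ _) m)⟩
  rintro ω ⟨hf, hm, hb⟩
  refine ⟨⟨hf, ?_⟩, hm⟩
  rw [if_pos rfl]
  unfold BadU at hb
  rw [ENNReal.coe_inv h1p.ne'] at hb
  simpa only [ENNReal.div_eq_inv_mul] using hb

theorem chernL [Countable Γ] {S : Finset Γ} (hS : Symm S) (p0 p1 : ℝ≥0) (h0 : 0 < p0)
    (h1 : p1 < 1) (lam : ℝ≥0) (hlam : 0 < lam) :
    ∃ c : ℝ, 0 < c ∧ ∀ (p : ℝ≥0) (hp : p ≤ 1), p0 ≤ p → p ≤ p1 → ∀ m : ℕ,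
      bP Γ p hp {ω | (clus S ω 1).Finite ∧ (m : ℝ≥0∞) ≤ sz S ω 1 ∧
      BadL S p lam ω} ≤ ENNReal.ofReal (Real.exp (-c * m)) := by
  obtain ⟨c, hc, h⟩ := cher_closed (Γ := Γ) S hS p0 p1 h0 h1 lam hlam
  refine ⟨c, hc, fun p hp hp0 hp1 m => le_trans (measure_mono ?_) (h p hp hp0 hp1 m)⟩
  have h1p : (0 : ℝ≥0) < 1 - p := tsub_pos_of_lt (lt_of_le_of_lt hp1 h1)
  rintro ω ⟨hf, hm, hb⟩
  refine ⟨hf, hm, ?_⟩
  unfold BadL at hb
  rw [ENNReal.coe_inv h1p.ne'] at hb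
  simpa only [ENNReal.div_eq_inv_mul] using hb

theorem akn [Countable Γ] {S : Finset Γ} (hS : Symm S) (hg : Gen S) (p : ℝ≥0) (hp : p ≤ 1)
    (hp0 : 0 < p) (hp1 : p < 1) (hfin : Fin0 S p hp) (K n : ℕ) (hn : 1 ≤ n) :
    (p : ℝ≥0∞)⁻¹ * PI S p hp n
      + ((1 - p : ℝ≥0) : ℝ≥0∞)⁻¹ * ∫⁻ ω in {ω | R S n 1 ω}, (sz S ω 1)⁻¹ * ne S false ω ∂(bP Γ p hp)
    ≤ (p : ℝ≥0∞)⁻¹ * ∫⁻ ω in {ω | R S n 1 ω}, (sz S ω 1)⁻¹ * ne S true ω ∂(bP Γ p hp)
      + ((1 - p : ℝ≥0) : ℝ≥0∞)⁻¹ * S.card * (psi S p hp K + (K : ℝ≥0∞) / n) * Z S p hp n := by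
  have h := akn_core hS p hp hp0 hp1 hfin n K hn
  simp only [ENNReal.div_eq_inv_mul] at h ⊢
  refine h.trans (le_of_eq ?_)
  ring

theorem thin_scales [Countable Γ] [Infinite Γ] {S : Finset Γ} (hS : Symm S) (hg : Gen S)
    (p : ℝ≥0) (hp : p ≤ 1) (hp0 : 0 < p) (hp1 : p < 1) (hfin : Fin0 S p hp)
    (δ : ℝ≥0) (hδ : 0 < δ) :
    ∃ (c : ℝ) (C : ℝ≥0) (A : ℕ) (c1 : ℝ≥0) (n0 : ℕ), 0 < c ∧ 0 < c1 ∧ ∀ n ≥ n0,
      δ * Z S p hp n ≤ PI S p hp n →
      Z S p hp n ≤ C * ENNReal.ofReal (Real.exp (-c * n)) ∧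
      c1 * Z S p hp n ≤ bP Γ p hp {ω | R S n 1 ω ∧ sz S ω 1 ≤ (A * n : ℕ)} := by
  obtain ⟨A, c, c1, n0, hA, hc, hc1, h⟩ := thin_core hS hg p hp hp0 hp1 hfin δ hδ
  refine ⟨c, 1, A, c1.toNNReal, n0, hc, Real.toNNReal_pos.2 hc1, fun n hn hd => ?_⟩
  obtain ⟨h1, h2⟩ := h n hn hd
  refine ⟨by simpa using h1, h2⟩

end Pool.Agent.IIC
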