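import Pool.Agent.IIC.Defs

set_option autoImplicit false
set_option linter.unusedVariables false
set_option linter.unusedSectionVars false

/-!
# Zero density of the incipient infinite cluster: definitions

`Γ` is a group, `S` a finite set (symmetric, generating, in the theorem).  Bond percolation on the
Cayley graph `cay S` is modelled on configurations `Cfg Γ = Sym2 Γ → Bool`; only the bits at edges
of the Cayley graph are used.
-/

namespace Pool.Agent.IIC
open MeasureTheory ProbabilityTheory
open scoped ENNReal NNReal
variable {Γ : Type} [Group Γ]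


theorem avg_exists {S : Finset Γ} (hne : S.Nonempty) (k : ℕ) (f : Γ → ℝ≥0∞) (x : Γ) :
    ∃ w : List Γ, w.length = k ∧ (∀ s ∈ w, s ∈ S) ∧ f (x * w.prod) ≤ avg S k f x := by
  induction k generalizing x with
  | zero =>
    refine ⟨[], rfl, fun s hs => absurd hs (List.not_mem_nil), ?_⟩
    rw [List.prod_nil, mul_one]
    exact le_refl _
  | succ k ih =>
    obtain ⟨s, hs, hmin⟩ := Finset.exists_min_image S (fun s => avg S k f (x * s)) hne
    obtain ⟨w, hw1, hw2, hw3⟩ := ih (x * s)
    refine ⟨s :: w, by rw [List.length_cons, hw1], ?_, ?_⟩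
    · intro t ht
      rcases List.mem_cons.1 ht with h | h
      · rw [h]; exact hs
      · exact hw2 t h
    · rw [List.prod_cons, ← mul_assoc]
      refine hw3.trans ?_
      show avg S k f (x * s) ≤ (∑ s ∈ S, avg S k f (x * s)) / S.card
      have hc : (S.card : ℝ≥0∞) ≠ 0 := by
        rw [Nat.cast_ne_zero]
        exact (Finset.card_pos.2 hne).ne'
      rw [ENNReal.le_div_iff_mul_le (Or.inl hc) (Or.inl (ENNReal.natCast_ne_top _)), mul_comm,
        ← nsmul_eq_mul]
      exact Finset.card_nsmul_le_sum S _ _ hmin

end Pool.Agent.IIC
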