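import Pool.Agent.IIC.Defs

set_option autoImplicit false
set_option linter.unusedVariables false
set_option linter.unusedSectionVars false

/-!
# Zero density of the incipient infinite cluster: definitions

`Γ` is a group, `S` a finite set (symmetric, generating, in the theorem).  Bond percolation on the
Cayley graph `cay S` is modelled on configurations `Cfg Γ = Sym2 Γ → Bool`; only the bits at edges
of the Cayley graph are used.
-/

namespace Pool.Agent.IIC
open MeasureTheory ProbabilityTheory
open scoped ENNReal NNReal
variable {Γ : Type} [Group Γ]


/-- if `f ≤ c` on all points at distance at most `k` then `avg S k f x ≤ c` -/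
theorem avg_le_of_le {S : Finset Γ} (hne : S.Nonempty) (k : ℕ) (f : Γ → ℝ≥0∞) (x : Γ) (c : ℝ≥0∞)
    (h : ∀ w : List Γ, w.length = k → (∀ s ∈ w, s ∈ S) → f (x * w.prod) ≤ c) :
    avg S k f x ≤ c := by
  induction k generalizing x with
  | zero =>
    have := h [] rfl (fun s hs => absurd hs List.not_mem_nil)
    simpa [avg] using this
  | succ k ih =>
    have hcard : (S.card : ℝ≥0∞) ≠ 0 := by
      rw [Nat.cast_ne_zero]
      exact Finset.card_ne_zero.mpr hne
    have hsum : ∑ s ∈ S, avg S k f (x * s) ≤ c * S.card := by
      calc ∑ s ∈ S, avg S k f (x * s) ≤ ∑ _s ∈ S, c := by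
            apply Finset.sum_le_sum
            intro s hs
            apply ih
            intro w hw hws
            have h1 := h (s :: w) (by rw [List.length_cons, hw]) (by
              intro t ht
              rcases List.mem_cons.mp ht with rfl | ht
              · exact hs
              · exact hws t ht)
            rwa [List.prod_cons, ← mul_assoc] at h1
        _ = c * S.card := by rw [Finset.sum_const, nsmul_eq_mul, mul_comm]
    change (∑ s ∈ S, avg S k f (x * s)) / S.card ≤ c
    exact ENNReal.div_le_of_le_mul hsum

end Pool.Agent.IIC
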