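import Pool.Agent.IIC.Defs

set_option autoImplicit false
set_option linter.unusedVariables false
set_option linter.unusedSectionVars false

/-!
# Zero density of the incipient infinite cluster: definitions

`Γ` is a group, `S` a finite set (symmetric, generating, in the theorem).  Bond percolation on the
Cayley graph `cay S` is modelled on configurations `Cfg Γ = Sym2 Γ → Bool`; only the bits at edges
of the Cayley graph are used.
-/

namespace Pool.Agent.IIC
open MeasureTheory ProbabilityTheory
open scoped ENNReal NNReal
variable {Γ : Type} [Group Γ]


theorem avg_sum {ι : Type} (S : Finset Γ) (k : ℕ) (s : Finset ι) (f : ι → Γ → ℝ≥0∞) (x : Γ) :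
    avg S k (fun u => ∑ i ∈ s, f i u) x = ∑ i ∈ s, avg S k (f i) x := by
  induction k generalizing x with
  | zero => rfl
  | succ k ih =>
    simp only [avg, ih]
    rw [Finset.sum_comm]
    simp only [div_eq_mul_inv, Finset.sum_mul]

end Pool.Agent.IIC
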