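import Pool.Agent.IIC.Defs

set_option autoImplicit false
set_option linter.unusedVariables false
set_option linter.unusedSectionVars false

/-!
# Zero density of the incipient infinite cluster: definitions

`Γ` is a group, `S` a finite set (symmetric, generating, in the theorem).  Bond percolation on the
Cayley graph `cay S` is modelled on configurations `Cfg Γ = Sym2 Γ → Bool`; only the bits at edges
of the Cayley graph are used.
-/

namespace Pool.Agent.IIC
open MeasureTheory ProbabilityTheory
open scoped ENNReal NNReal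
variable {Γ : Type} [Group Γ]


/-! helper lemmas for Harris -/

/-- the Bernoulli measure -/
noncomputable abbrev harris_mu (p : ℝ≥0) (hp : p ≤ 1) : Measure Bool :=
  (PMF.bernoulli p hp).toMeasure

/-- product -/
noncomputable abbrev harris_P (E : Type) (p : ℝ≥0) (hp : p ≤ 1) : Measure (E → Bool) :=
  Measure.infinitePi (fun _ : E => (PMF.bernoulli p hp).toMeasure)

/-- averaging over one coordinate -/
noncomputable def harris_R {E : Type} (p : ℝ≥0) (e : E) (g : (E → Bool) → ℝ) : (E → Bool) → ℝ := by
  classical
  exact fun ω => p * g (Function.update ω e true) + (1 - p) * g (Function.update ω e false)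

theorem harris_bern (p : ℝ≥0) (hp : p ≤ 1) (h : Bool → ℝ) :
    ∫ b, h b ∂(harris_mu p hp) = p * h true + (1 - p) * h false := by
  have := PMF.integral_eq_sum (PMF.bernoulli p hp) h
  rw [this]
  simp [PMF.bernoulli_apply, ENNReal.toReal_sub_of_le, hp]

theorem harris_map (E : Type) [Countable E] [DecidableEq E] (p : ℝ≥0) (hp : p ≤ 1) (e : E) :
    Measure.map (fun x : (E → Bool) × Bool => Function.update x.1 e x.2)
      ((harris_P E p hp).prod (harris_mu p hp)) = harris_P E p hp := by
  have hm : Measurable (fun x : (E → Bool) × Bool => Function.update x.1 e x.2) := by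
    rw [measurable_pi_iff]
    intro i
    by_cases hi : i = e
    · subst hi
      simp only [Function.update_self]
      exact measurable_snd
    · simp only [Function.update_of_ne hi]
      exact (measurable_pi_apply i).comp measurable_fst
  refine Measure.eq_infinitePi _ (fun s t ht => ?_)
  rw [Measure.map_apply hm (MeasurableSet.pi s.countable_toSet (fun i _ => ht i))]
  by_cases he : e ∈ s
  · have h1 : (fun x : (E → Bool) × Bool => Function.update x.1 e x.2) ⁻¹' (Set.pi (s : Set E) t) =
        (Set.pi ((s.erase e : Finset E) : Set E) t) ×ˢ (t e) := by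
      ext ⟨ω, b⟩
      simp only [Set.mem_preimage, Set.mem_pi, Set.mem_prod, Finset.coe_erase, Set.mem_diff,
        Finset.mem_coe, Set.mem_singleton_iff]
      constructor
      · intro h
        refine ⟨fun i hi => ?_, ?_⟩
        · have := h i hi.1
          rwa [Function.update_of_ne hi.2] at this
        · have := h e he
          rwa [Function.update_self] at this
      · rintro ⟨h1, h2⟩ i hi
        by_cases hie : i = e
        · subst hie; rwa [Function.update_self]
        · rw [Function.update_of_ne hie]; exact h1 i ⟨hi, hie⟩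
    rw [h1, Measure.prod_prod, Measure.infinitePi_pi _ (fun i _ => ht i)]
    exact Finset.prod_erase_mul _ _ he
  · have h1 : (fun x : (E → Bool) × Bool => Function.update x.1 e x.2) ⁻¹' (Set.pi (s : Set E) t) =
        (Set.pi (s : Set E) t) ×ˢ (Set.univ) := by
      ext ⟨ω, b⟩
      simp only [Set.mem_preimage, Set.mem_pi, Set.mem_prod, Finset.mem_coe, Set.mem_univ, and_true]
      refine forall₂_congr (fun i hi => ?_)
      have hie : i ≠ e := fun h => he (h ▸ hi)
      rw [Function.update_of_ne hie]
    rw [h1, Measure.prod_prod, Measure.infinitePi_pi _ (fun i _ => ht i), measure_univ, mul_one]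

/-- measurable and bounded by a constant -/
def harris_MB {E : Type} (g : (E → Bool) → ℝ) : Prop := Measurable g ∧ ∃ C, ∀ ω, |g ω| ≤ C

theorem harris_MB_int {E : Type} (p : ℝ≥0) (hp : p ≤ 1) {g : (E → Bool) → ℝ}
    (hg : harris_MB g) : Integrable g (harris_P E p hp) := by
  obtain ⟨h1, C, h2⟩ := hg
  exact Integrable.of_bound h1.aestronglyMeasurable C (Filter.Eventually.of_forall h2)

theorem harris_meas_upd {E : Type} [DecidableEq E] (e : E) (b : Bool) :
    Measurable (fun ω : E → Bool => Function.update ω e b) := by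
  rw [measurable_pi_iff]
  intro i
  by_cases hi : i = e
  · subst hi
    simp only [Function.update_self]
    exact measurable_const
  · simp only [Function.update_of_ne hi]
    exact measurable_pi_apply i

theorem harris_MB_R {E : Type} (p : ℝ≥0) (e : E) {g : (E → Bool) → ℝ} (hg : harris_MB g) :
    harris_MB (harris_R p e g) := by
  classical
  obtain ⟨h1, C, h2⟩ := hg
  refine ⟨?_, |(p : ℝ)| * C + |(1 - p : ℝ)| * C, fun ω => ?_⟩
  · unfold harris_R
    exact ((h1.comp (harris_meas_upd e true)).const_mul _).add
      ((h1.comp (harris_meas_upd e false)).const_mul _)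
  · unfold harris_R
    refine (abs_add_le _ _).trans ?_
    rw [abs_mul, abs_mul]
    exact add_le_add (mul_le_mul_of_nonneg_left (h2 _) (abs_nonneg _))
      (mul_le_mul_of_nonneg_left (h2 _) (abs_nonneg _))

theorem harris_MB_mul {E : Type} {f g : (E → Bool) → ℝ} (hf : harris_MB f) (hg : harris_MB g) :
    harris_MB (fun ω => f ω * g ω) := by
  obtain ⟨h1, C, h2⟩ := hf
  obtain ⟨h1', C', h2'⟩ := hg
  refine ⟨h1.mul h1', C * C', fun ω => ?_⟩
  rw [abs_mul]
  exact mul_le_mul (h2 ω) (h2' ω) (abs_nonneg _) ((abs_nonneg _).trans (h2 ω))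

theorem harris_int_R (E : Type) [Countable E] (p : ℝ≥0) (hp : p ≤ 1) (e : E)
    {g : (E → Bool) → ℝ} (hg : harris_MB g) :
    ∫ ω, harris_R p e g ω ∂(harris_P E p hp) = ∫ ω, g ω ∂(harris_P E p hp) := by
  classical
  have hm : Measurable (fun x : (E → Bool) × Bool => Function.update x.1 e x.2) := by
    rw [measurable_pi_iff]
    intro i
    by_cases hi : i = e
    · subst hi
      simp only [Function.update_self]
      exact measurable_snd
    · simp only [Function.update_of_ne hi]
      exact (measurable_pi_apply i).comp measurable_fst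
  conv_rhs => rw [← harris_map E p hp e]
  rw [integral_map hm.aemeasurable hg.1.aestronglyMeasurable, integral_prod]
  · refine integral_congr_ae (Filter.Eventually.of_forall (fun ω => ?_))
    simp only
    rw [harris_bern p hp (fun b => g (Function.update ω e b))]
    simp only [harris_R]
  · obtain ⟨h1, C, h2⟩ := hg
    exact Integrable.of_bound (h1.comp hm).aestronglyMeasurable C
      (Filter.Eventually.of_forall (fun x => h2 _))

/-- increasing -/
def harris_Inc {E : Type} (g : (E → Bool) → ℝ) : Prop :=
  ∀ ω ω' : E → Bool, (∀ e, ω e = true → ω' e = true) → g ω ≤ g ω'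

theorem harris_upd_mono {E : Type} [DecidableEq E] (e : E) (ω ω' : E → Bool) (b b' : Bool)
    (h : ∀ e, ω e = true → ω' e = true) (hb : b = true → b' = true) :
    ∀ i, Function.update ω e b i = true → Function.update ω' e b' i = true := by
  intro i
  by_cases hi : i = e
  · subst hi
    simp only [Function.update_self]
    exact hb
  · simp only [Function.update_of_ne hi]
    exact h i

theorem harris_Inc_R {E : Type} (p : ℝ≥0) (hp : p ≤ 1) (e : E) {g : (E → Bool) → ℝ}
    (hg : harris_Inc g) : harris_Inc (harris_R p e g) := by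
  classical
  intro ω ω' h
  unfold harris_R
  have hp' : (p : ℝ) ≤ 1 := by exact_mod_cast hp
  have h1 := hg _ _ (harris_upd_mono e ω ω' true true h (fun h => h))
  have h2 := hg _ _ (harris_upd_mono e ω ω' false false h (fun h => h))
  have e1 := mul_le_mul_of_nonneg_left h1 p.coe_nonneg
  have e2 := mul_le_mul_of_nonneg_left h2 (by linarith : (0 : ℝ) ≤ 1 - p)
  linarith

/-- one-coordinate Chebyshev -/
theorem harris_cheb {E : Type} (p : ℝ≥0) (hp : p ≤ 1) (e : E) {f g : (E → Bool) → ℝ}
    (hf : harris_Inc f) (hg : harris_Inc g) (ω : E → Bool) :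
    harris_R p e f ω * harris_R p e g ω ≤ harris_R p e (fun ω => f ω * g ω) ω := by
  classical
  unfold harris_R
  have hp' : (p : ℝ) ≤ 1 := by exact_mod_cast hp
  have h1 := hf _ _ (harris_upd_mono e ω ω false true (fun _ h => h) (fun _ => rfl))
  have h2 := hg _ _ (harris_upd_mono e ω ω false true (fun _ h => h) (fun _ => rfl))
  have h3 : 0 ≤ (p : ℝ) * (1 - p) * ((f (Function.update ω e true) - f (Function.update ω e false)) *
      (g (Function.update ω e true) - g (Function.update ω e false))) := by
    apply mul_nonneg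
    · exact mul_nonneg p.coe_nonneg (by linarith)
    · exact mul_nonneg (by linarith) (by linarith)
  simp only
  nlinarith [h3]

/-- averaging twice -/
theorem harris_R_mul {E : Type} (p : ℝ≥0) (e : E) (f g : (E → Bool) → ℝ) (ω : E → Bool) :
    harris_R p e (fun ω => f ω * harris_R p e g ω) ω = harris_R p e f ω * harris_R p e g ω := by
  classical
  unfold harris_R
  simp only [Function.update_idem]
  ring

theorem harris_step (E : Type) [Countable E] (p : ℝ≥0) (hp : p ≤ 1) (e : E)
    {f g : (E → Bool) → ℝ} (hf : harris_MB f) (hg : harris_MB g)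
    (hfi : harris_Inc f) (hgi : harris_Inc g) :
    ∫ ω, f ω * harris_R p e g ω ∂(harris_P E p hp) ≤ ∫ ω, f ω * g ω ∂(harris_P E p hp) := by
  rw [← harris_int_R E p hp e (harris_MB_mul hf (harris_MB_R p e hg)),
    ← harris_int_R E p hp e (harris_MB_mul hf hg)]
  refine integral_mono (harris_MB_int p hp (harris_MB_R p e (harris_MB_mul hf (harris_MB_R p e hg))))
    (harris_MB_int p hp (harris_MB_R p e (harris_MB_mul hf hg))) (fun ω => ?_)
  rw [harris_R_mul]
  exact harris_cheb p hp e hfi hgi ω

/-- averaging over a list of coordinates -/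
noncomputable def harris_RL {E : Type} (p : ℝ≥0) (L : List E) (g : (E → Bool) → ℝ) :
    (E → Bool) → ℝ := L.foldr (fun e g => harris_R p e g) g

theorem harris_MB_RL {E : Type} (p : ℝ≥0) (L : List E) {g : (E → Bool) → ℝ} (hg : harris_MB g) :
    harris_MB (harris_RL p L g) := by
  induction L with
  | nil => exact hg
  | cons e L ih => exact harris_MB_R p e ih

theorem harris_Inc_RL {E : Type} (p : ℝ≥0) (hp : p ≤ 1) (L : List E) {g : (E → Bool) → ℝ}
    (hg : harris_Inc g) : harris_Inc (harris_RL p L g) := by
  induction L with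
  | nil => exact hg
  | cons e L ih => exact harris_Inc_R p hp e ih

theorem harris_stepL (E : Type) [Countable E] (p : ℝ≥0) (hp : p ≤ 1) (L : List E)
    {f g : (E → Bool) → ℝ} (hf : harris_MB f) (hg : harris_MB g)
    (hfi : harris_Inc f) (hgi : harris_Inc g) :
    ∫ ω, f ω * harris_RL p L g ω ∂(harris_P E p hp) ≤ ∫ ω, f ω * g ω ∂(harris_P E p hp) := by
  induction L with
  | nil => exact le_rfl
  | cons e L ih =>
    exact (harris_step E p hp e hf (harris_MB_RL p L hg) hfi (harris_Inc_RL p hp L hgi)).trans ih

theorem harris_intL (E : Type) [Countable E] (p : ℝ≥0) (hp : p ≤ 1) (L : List E)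
    {g : (E → Bool) → ℝ} (hg : harris_MB g) :
    ∫ ω, harris_RL p L g ω ∂(harris_P E p hp) = ∫ ω, g ω ∂(harris_P E p hp) := by
  induction L with
  | nil => rfl
  | cons e L ih => exact (harris_int_R E p hp e (harris_MB_RL p L hg)).trans ih

theorem harris_contr (E : Type) [Countable E] (p : ℝ≥0) (hp : p ≤ 1) (L : List E)
    {g h : (E → Bool) → ℝ} (hg : harris_MB g) (hh : harris_MB h) :
    ∫ ω, |harris_RL p L g ω - harris_RL p L h ω| ∂(harris_P E p hp) ≤
      ∫ ω, |g ω - h ω| ∂(harris_P E p hp) := by
  have hsub : ∀ {g h : (E → Bool) → ℝ}, harris_MB g → harris_MB h →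
      harris_MB (fun ω => |g ω - h ω|) := by
    rintro g h ⟨h1, C, h2⟩ ⟨h1', C', h2'⟩
    refine ⟨(h1.sub h1').abs, C + C', fun ω => ?_⟩
    rw [abs_abs]
    exact (abs_sub _ _).trans (add_le_add (h2 ω) (h2' ω))
  induction L with
  | nil => exact le_rfl
  | cons e L ih =>
    refine le_trans ?_ ih
    rw [← harris_int_R E p hp e (hsub (harris_MB_RL p L hg) (harris_MB_RL p L hh))]
    refine integral_mono (harris_MB_int p hp (hsub (harris_MB_R p e (harris_MB_RL p L hg))
      (harris_MB_R p e (harris_MB_RL p L hh))))
      (harris_MB_int p hp (harris_MB_R p e (hsub (harris_MB_RL p L hg) (harris_MB_RL p L hh))))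
      (fun ω => ?_)
    classical
    show |harris_R p e (harris_RL p L g) ω - harris_R p e (harris_RL p L h) ω| ≤ _
    have hp' : (p : ℝ) ≤ 1 := by exact_mod_cast hp
    unfold harris_R
    set a1 := harris_RL p L g (Function.update ω e true)
    set a0 := harris_RL p L g (Function.update ω e false)
    set b1 := harris_RL p L h (Function.update ω e true)
    set b0 := harris_RL p L h (Function.update ω e false)
    have e1 : (p : ℝ) * a1 + (1 - p) * a0 - (p * b1 + (1 - p) * b0) =
        p * (a1 - b1) + (1 - p) * (a0 - b0) := by ring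
    rw [e1]
    refine (abs_add_le _ _).trans ?_
    rw [abs_mul, abs_mul, abs_of_nonneg p.coe_nonneg, abs_of_nonneg (by linarith : (0:ℝ) ≤ 1 - p)]

theorem harris_dep {E : Type} (p : ℝ≥0) (L : List E) (s : Set E)
    {h : (E → Bool) → ℝ} (hh : ∀ ω ω' : E → Bool, (∀ i ∈ s, ω i = ω' i) → h ω = h ω') :
    ∀ ω ω' : E → Bool, (∀ i ∈ s, i ∉ L → ω i = ω' i) →
      harris_RL p L h ω = harris_RL p L h ω' := by
  classical
  induction L with
  | nil =>
    intro ω ω' h1
    exact hh ω ω' (fun i hi => h1 i hi (by simp))
  | cons e L ih =>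
    intro ω ω' h1
    have key : ∀ b, harris_RL p L h (Function.update ω e b) =
        harris_RL p L h (Function.update ω' e b) := by
      intro b
      refine ih _ _ (fun i hi hiL => ?_)
      by_cases hie : i = e
      · subst hie; simp
      · rw [Function.update_of_ne hie, Function.update_of_ne hie]
        exact h1 i hi (by simp [hie, hiL])
    show harris_R p e (harris_RL p L h) ω = harris_R p e (harris_RL p L h) ω'
    unfold harris_R
    rw [key true, key false]

/-- Harris' inequality for functions -/
theorem harris_main (E : Type) [Countable E] (p : ℝ≥0) (hp : p ≤ 1) (A B : Set (E → Bool))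
    (hA : MeasurableSet A) (hB : MeasurableSet B)
    (hAi : ∀ ω ω' : E → Bool, (∀ e, ω e = true → ω' e = true) → ω ∈ A → ω' ∈ A)
    (hBi : ∀ ω ω' : E → Bool, (∀ e, ω e = true → ω' e = true) → ω ∈ B → ω' ∈ B) :
    (harris_P E p hp).real A * (harris_P E p hp).real B ≤ (harris_P E p hp).real (A ∩ B) := by
  classical
  refine le_of_forall_pos_le_add (fun ε hε => ?_)
  have hdense := Measure.MeasureDense.of_generateFrom_isSetAlgebra_finite (harris_P E p hp)
    (isSetAlgebra_measurableCylinders (α := fun _ : E => Bool))
    generateFrom_measurableCylinders.symm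
  obtain ⟨C, hC, hCε⟩ := hdense.approx B hB (measure_ne_top _ _) (ε / 2) (by positivity)
  have hCm : MeasurableSet C := hdense.measurable C hC
  rw [mem_measurableCylinders] at hC
  obtain ⟨s, S, hS, hCdef⟩ := hC
  set f : (E → Bool) → ℝ := A.indicator 1 with hf
  set g : (E → Bool) → ℝ := B.indicator 1 with hg
  set h : (E → Bool) → ℝ := C.indicator 1 with hh
  have mb : ∀ D : Set (E → Bool), MeasurableSet D → harris_MB (D.indicator (1 : (E → Bool) → ℝ)) := by
    intro D hD
    refine ⟨measurable_one.indicator hD, 1, fun ω => ?_⟩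
    by_cases hω : ω ∈ D
    · simp [hω]
    · simp [hω]
  have inc : ∀ D : Set (E → Bool),
      (∀ ω ω' : E → Bool, (∀ e, ω e = true → ω' e = true) → ω ∈ D → ω' ∈ D) →
      harris_Inc (D.indicator (1 : (E → Bool) → ℝ)) := by
    intro D hD ω ω' hωω
    by_cases hω : ω ∈ D
    · have := hD ω ω' hωω hω
      simp [hω, this]
    · simp only [Set.indicator_of_notMem hω]
      exact Set.indicator_nonneg (fun _ _ => zero_le_one) _
  have hfb := mb A hA
  have hgb := mb B hB
  have hhb := mb C hCm
  set L := s.toList with hL
  -- averaging of the cylinder function is constant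
  obtain ⟨c, hc⟩ : ∃ c : ℝ, ∀ ω, harris_RL p L h ω = c := by
    refine ⟨harris_RL p L h (fun _ => true), fun ω => ?_⟩
    refine harris_dep p L (s : Set E) ?_ ω _ (fun i hi hiL => absurd (by simpa [hL] using hi) hiL)
    intro ω ω' hag
    have : ω ∈ C ↔ ω' ∈ C := by
      rw [hCdef, mem_cylinder, mem_cylinder]
      have : s.restrict ω = s.restrict ω' := by
        funext i
        exact hag i i.2
      rw [this]
    by_cases hω : ω ∈ C
    · simp [hh, hω, this.1 hω]
    · have hω' : ω' ∉ C := fun h => hω (this.2 h)
      simp [hh, hω, hω']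
  have hcint : c = (harris_P E p hp).real C := by
    have h1 := harris_intL E p hp L hhb
    have h2 : ∫ ω, harris_RL p L h ω ∂(harris_P E p hp) = c := by
      simp_rw [hc]
      simp
    rw [← h2, h1]
    exact integral_indicator_one hCm
  have hd : ∫ ω, |g ω - h ω| ∂(harris_P E p hp) ≤ ε / 2 := by
    have : (fun ω => |g ω - h ω|) = (symmDiff B C).indicator 1 := by
      funext ω
      by_cases h1 : ω ∈ B <;> by_cases h2 : ω ∈ C <;>
        simp [hg, hh, h1, h2, Set.mem_symmDiff]
    rw [this, integral_indicator_one (hB.symmDiff hCm)]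
    rw [measureReal_def]
    exact ENNReal.toReal_le_of_le_ofReal (by positivity) hCε.le
  have hBC : (harris_P E p hp).real B ≤ c + ε / 2 := by
    have h1 : ∫ ω, g ω ∂(harris_P E p hp) - ∫ ω, h ω ∂(harris_P E p hp) ≤ ε / 2 := by
      rw [← integral_sub (harris_MB_int p hp hgb) (harris_MB_int p hp hhb)]
      refine le_trans ?_ hd
      refine integral_mono ((harris_MB_int p hp hgb).sub (harris_MB_int p hp hhb))
        ((harris_MB_int p hp hgb).sub (harris_MB_int p hp hhb)).abs (fun ω => le_abs_self _)
    rw [hg, hh, integral_indicator_one hB, integral_indicator_one hCm, ← hcint] at h1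
    linarith
  have hstep := harris_stepL E p hp L hfb hgb (inc A hAi) (inc B hBi)
  have hAB : ∫ ω, f ω * g ω ∂(harris_P E p hp) = (harris_P E p hp).real (A ∩ B) := by
    have : (fun ω => f ω * g ω) = (A ∩ B).indicator 1 := by
      funext ω
      by_cases h1 : ω ∈ A <;> by_cases h2 : ω ∈ B <;> simp [hf, hg, h1, h2]
    rw [this, integral_indicator_one (hA.inter hB)]
  -- compare with c
  have hlow : (harris_P E p hp).real A * c - ε / 2 ≤
      ∫ ω, f ω * harris_RL p L g ω ∂(harris_P E p hp) := by
    have e1 : ∫ ω, f ω * harris_RL p L h ω ∂(harris_P E p hp) = (harris_P E p hp).real A * c := by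
      simp_rw [hc]
      rw [integral_mul_const, hf, integral_indicator_one hA]
    rw [← e1]
    have e2 : ∫ ω, f ω * harris_RL p L h ω ∂(harris_P E p hp) -
        ∫ ω, f ω * harris_RL p L g ω ∂(harris_P E p hp) ≤ ε / 2 := by
      have i1 := harris_MB_int p hp (harris_MB_mul hfb (harris_MB_RL p L hhb))
      have i2 := harris_MB_int p hp (harris_MB_mul hfb (harris_MB_RL p L hgb))
      rw [← integral_sub i1 i2]
      refine le_trans ?_ ((harris_contr E p hp L hgb hhb).trans hd)
      refine integral_mono (i1.sub i2)
        ((harris_MB_int p hp (harris_MB_RL p L hgb)).sub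
          (harris_MB_int p hp (harris_MB_RL p L hhb))).abs (fun ω => ?_)
      simp only [Pi.sub_apply]
      by_cases hω : ω ∈ A
      · simp only [hf, Set.indicator_of_mem hω, Pi.one_apply, one_mul]
        rw [abs_sub_comm]
        exact le_abs_self _
      · simp only [hf, Set.indicator_of_notMem hω, zero_mul, sub_zero]
        exact abs_nonneg _
    linarith
  rw [hAB] at hstep
  have hA0 : 0 ≤ (harris_P E p hp).real A := measureReal_nonneg
  have hA1 : (harris_P E p hp).real A ≤ 1 := measureReal_le_one
  have := mul_le_mul_of_nonneg_left hBC hA0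
  nlinarith

/-- Harris' inequality -/
theorem harris (E : Type) [Countable E] (p : ℝ≥0) (hp : p ≤ 1) (A B : Set (E → Bool))
    (hA : MeasurableSet A) (hB : MeasurableSet B)
    (hAi : ∀ ω ω' : E → Bool, (∀ e, ω e = true → ω' e = true) → ω ∈ A → ω' ∈ A)
    (hBi : ∀ ω ω' : E → Bool, (∀ e, ω e = true → ω' e = true) → ω ∈ B → ω' ∈ B) :
    Measure.infinitePi (fun _ : E => (PMF.bernoulli p hp).toMeasure) A
      * Measure.infinitePi (fun _ : E => (PMF.bernoulli p hp).toMeasure) B
      ≤ Measure.infinitePi (fun _ : E => (PMF.bernoulli p hp).toMeasure) (A ∩ B) := by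
  have h := harris_main E p hp A B hA hB hAi hBi
  rw [← ENNReal.toReal_le_toReal (ENNReal.mul_ne_top (measure_ne_top _ _) (measure_ne_top _ _))
    (measure_ne_top _ _), ENNReal.toReal_mul]
  exact h

end Pool.Agent.IIC
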