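import Pool.Agent.IIC.Defs
import Pool.Agent.IIC.P_meas_clus
import Pool.Agent.IIC.P_meas_R
import Pool.Agent.IIC.P_meas_sz
import Pool.Agent.IIC.P_meas_upd
import Pool.Agent.IIC.P_CovDefs

set_option autoImplicit false
set_option linter.unusedVariables false
set_option linter.unusedSectionVars false

/-!
# Zero density of the incipient infinite cluster: definitions

`Γ` is a group, `S` a finite set (symmetric, generating, in the theorem).  Bond percolation on the
Cayley graph `cay S` is modelled on configurations `Cfg Γ = Sym2 Γ → Bool`; only the bits at edges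
of the Cayley graph are used.
-/

namespace Pool.Agent.IIC
open MeasureTheory ProbabilityTheory
open scoped ENNReal NNReal
variable {Γ : Type} [Group Γ]


theorem meas_t3_encard [Countable Γ] (P : Γ → Cfg Γ → Prop)
    (hP : ∀ z, MeasurableSet {ω : Cfg Γ | P z ω}) :
    Measurable (fun ω : Cfg Γ => (({z | P z ω}.encard : ℕ∞) : ℝ≥0∞)) := by
  have h : (fun ω : Cfg Γ => (({z | P z ω}.encard : ℕ∞) : ℝ≥0∞))
      = fun ω => ∑' z : Γ, Set.indicator {ω : Cfg Γ | P z ω} (fun _ => (1 : ℝ≥0∞)) ω := by
    funext ω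
    rw [← ENNReal.tsum_set_one, tsum_subtype {z | P z ω} (fun _ => (1 : ℝ≥0∞))]
    refine tsum_congr fun z => ?_
    by_cases hz : P z ω
    · rw [Set.indicator_of_mem (show z ∈ {z | P z ω} from hz),
        Set.indicator_of_mem (show ω ∈ {ω : Cfg Γ | P z ω} from hz)]
    · rw [Set.indicator_of_notMem (show z ∉ {z | P z ω} from hz),
        Set.indicator_of_notMem (show ω ∉ {ω : Cfg Γ | P z ω} from hz)]
  rw [h]
  exact Measurable.ennreal_tsum fun z => measurable_const.indicator (hP z)

theorem meas_t3 [Countable Γ] (S : Finset Γ) (n : ℕ) (x y : Γ) :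
    Measurable (t3 S n x y) := by
  have h : t3 S n x y = fun ω =>
      ((({z | z ∈ clus S ω x ∧ piv S n z s(x, y) ω}.encard : ℕ∞) : ℝ≥0∞)) / sz S ω x := rfl
  rw [h]
  refine Measurable.div (meas_t3_encard (fun z ω => z ∈ clus S ω x ∧ piv S n z s(x, y) ω)
    fun z => ?_) (meas_sz S x)
  have hp : MeasurableSet {ω : Cfg Γ | piv S n z s(x, y) ω} := ?_
  · exact (meas_clus S x z).inter hp
  by_cases he : s(x, y) ∈ (cay S).edgeSet
  · have h1 : MeasurableSet {ω : Cfg Γ | R S n z (upd ω s(x, y) true)} :=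
      meas_upd s(x, y) true (meas_R S n z)
    have h2 : MeasurableSet {ω : Cfg Γ | R S n z (upd ω s(x, y) false)} :=
      meas_upd s(x, y) false (meas_R S n z)
    have h3 : {ω : Cfg Γ | piv S n z s(x, y) ω}
        = {ω : Cfg Γ | R S n z (upd ω s(x, y) true)} ∩
          {ω : Cfg Γ | R S n z (upd ω s(x, y) false)}ᶜ := by
      ext ω
      constructor
      · rintro ⟨_, h1, h2⟩
        exact ⟨h1, h2⟩
      · rintro ⟨h1, h2⟩
        exact ⟨he, h1, h2⟩
    rw [h3]
    exact h1.inter h2.compl
  · have h3 : {ω : Cfg Γ | piv S n z s(x, y) ω} = ∅ := by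
      ext ω
      constructor
      · rintro ⟨h1, _⟩
        exact absurd h1 he
      · intro h
        exact absurd h (Set.notMem_empty _)
    rw [h3]
    exact MeasurableSet.empty

end Pool.Agent.IIC
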