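import Pool.Agent.IIC.Defs
import Pool.Agent.IIC.P_opn_cl
import Pool.Agent.IIC.P_sz_shift
import Pool.Agent.IIC.P_clus_cl
import Pool.Agent.IIC.P_meas_clus
import Pool.Agent.IIC.P_meas_sz
import Pool.Agent.IIC.P_meas_cl
import Pool.Agent.IIC.P_meas_kp
import Pool.Agent.IIC.P_shift_mp
import Pool.Agent.IIC.P_ind_kp_cl
import Pool.Agent.IIC.P_lint_pattern
import Pool.Agent.IIC.P_fin_all

set_option autoImplicit false
set_option linter.unusedVariables false
set_option linter.unusedSectionVars false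

/-!
# Zero density of the incipient infinite cluster: definitions

`Γ` is a group, `S` a finite set (symmetric, generating, in the theorem).  Bond percolation on the
Cayley graph `cay S` is modelled on configurations `Cfg Γ = Sym2 Γ → Bool`; only the bits at edges
of the Cayley graph are used.
-/

namespace Pool.Agent.IIC
open MeasureTheory ProbabilityTheory
open scoped ENNReal NNReal
variable {Γ : Type} [Group Γ]


theorem j22067_mem_T {S : Finset Γ} (hS : Symm S) (K : Finset Γ) {y b : Γ} (hy : y ∈ K)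
    (h : (cay S).Adj y b) : s(y, b) ∈ T S K := by
  classical
  unfold T
  rw [Finset.mem_filter, Finset.mem_image]
  refine ⟨⟨(y, y⁻¹ * b), ?_, ?_⟩, h⟩
  · rw [Finset.mem_product]
    refine ⟨hy, ?_⟩
    have h' := h
    unfold cay at h'
    rw [SimpleGraph.fromRel_adj] at h'
    rcases h'.2 with h1 | h1
    · exact h1
    · have := hS _ h1
      simpa using this
  · simp

theorem j22067_kp {S : Finset Γ} (hS : Symm S) (K : Finset Γ) (ω : Cfg Γ) {y : Γ} (hy : y ∈ K)
    (b : Γ) : (opn S (kp S K ω)).Adj y b ↔ (opn S ω).Adj y b := by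
  classical
  constructor
  · rintro ⟨h1, h2⟩
    refine ⟨h1, ?_⟩
    have h3 := j22067_mem_T hS K hy h1
    have h4 : kp S K ω s(y, b) = ω s(y, b) := by
      unfold kp
      exact if_pos h3
    rw [← h4]
    exact h2
  · rintro ⟨h1, h2⟩
    refine ⟨h1, ?_⟩
    have h3 := j22067_mem_T hS K hy h1
    have h4 : kp S K ω s(y, b) = ω s(y, b) := by
      unfold kp
      exact if_pos h3
    rw [h4]
    exact h2

theorem j22067_graph {G G' : SimpleGraph Γ} {u : Γ} {K : Set Γ}
    (h : ∀ a ∈ K, ∀ b, G.Adj a b ↔ G'.Adj a b) (hK : {y | G.Reachable u y} = K) :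
    {y | G'.Reachable u y} = K := by
  have hu : u ∈ K := by
    rw [← hK]
    exact SimpleGraph.Reachable.refl u
  have hcl : ∀ a ∈ K, ∀ b, G.Adj a b → b ∈ K := by
    intro a ha b hab
    rw [← hK] at ha ⊢
    exact SimpleGraph.Reachable.trans ha hab.reachable
  ext z
  constructor
  · intro hz
    obtain ⟨w⟩ := hz
    have key : ∀ {a z : Γ} (w : G'.Walk a z), a ∈ K → z ∈ K := by
      intro a z w
      induction w with
      | nil => exact id
      | cons hadj _ ih => exact fun ha => ih (hcl _ ha _ ((h _ ha _).2 hadj))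
    exact key w hu
  · intro hz
    rw [← hK] at hz
    obtain ⟨w⟩ := hz
    have key : ∀ {a z : Γ} (w : G.Walk a z), a ∈ K → G'.Reachable a z := by
      intro a z w
      induction w with
      | nil => exact fun _ => SimpleGraph.Reachable.refl _
      | cons hadj _ ih =>
        exact fun ha => (((h _ ha _).1 hadj).reachable).trans (ih (hcl _ ha _ hadj))
    exact key w hu

theorem j22067_pat {S : Finset Γ} (hS : Symm S) (H : Finset Γ) (u : Γ) (K : Finset Γ)
    (ω : Cfg Γ) : clus S (cl S H (kp S K ω)) u = ↑K ↔ clus S (cl S H ω) u = ↑K := by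
  have hadj : ∀ a ∈ (↑K : Set Γ), ∀ b,
      (opn S (cl S H (kp S K ω))).Adj a b ↔ (opn S (cl S H ω)).Adj a b := by
    intro a ha b
    rw [opn_cl hS, opn_cl hS, j22067_kp hS K ω (Finset.mem_coe.1 ha)]
  exact ⟨j22067_graph hadj, j22067_graph fun a ha b => (hadj a ha b).symm⟩

theorem j22067_le {S : Finset Γ} (hS : Symm S) (H : Finset Γ) (ω : Cfg Γ) (x : Γ) :
    clus S (cl S H ω) x ⊆ clus S ω x := by
  intro z hz
  have h1 : opn S (cl S H ω) ≤ opn S ω := by
    intro a b hab
    exact ((opn_cl hS H ω a b).1 hab).1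
  exact SimpleGraph.Reachable.mono h1 hz

theorem j22067_cover {S : Finset Γ} (hS : Symm S) (H : Finset Γ) (u : Γ) (hu : u ∉ H)
    (K : Finset Γ) (ω : Cfg Γ) (hK : clus S (cl S H ω) u = ↑K) :
    clus S ω u ⊆ clus S (cl S H ω) u ∪
      ⋃ x ∈ H, {z | (∃ y ∈ K, (opn S ω).Adj y x) ∧ z ∈ clus S (cl S K ω) x} := by
  have hnH : ∀ y ∈ K, y ∉ H := by
    intro y hy
    have hy' : y ∈ clus S (cl S H ω) u := by
      rw [hK]
      exact hy
    obtain ⟨w⟩ := hy'
    have key : ∀ {a z : Γ} (w : (opn S (cl S H ω)).Walk a z), a ∉ H → z ∉ H := by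
      intro a z w
      induction w with
      | nil => exact id
      | cons hadj _ ih => exact fun _ => ih ((opn_cl hS _ _ _ _).1 hadj).2.2
    exact key w hu
  intro z hz
  obtain ⟨w⟩ := hz
  have key : ∀ {a z : Γ} (w : (opn S ω).Walk a z),
      a ∈ clus S (cl S H ω) u ∪
        ⋃ x ∈ H, {z | (∃ y ∈ K, (opn S ω).Adj y x) ∧ z ∈ clus S (cl S K ω) x} →
      z ∈ clus S (cl S H ω) u ∪
        ⋃ x ∈ H, {z | (∃ y ∈ K, (opn S ω).Adj y x) ∧ z ∈ clus S (cl S K ω) x} := by
    intro a z w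
    induction w with
    | nil => exact id
    | @cons a b c hadj _ ih =>
      intro ha
      refine ih ?_
      by_cases hb : b ∈ clus S (cl S H ω) u
      · exact Or.inl hb
      · right
        have hbK : b ∉ K := by
          intro h
          apply hb
          rw [hK]
          exact h
        by_cases haK : a ∈ K
        · by_cases hbH : b ∈ H
          · simp only [Set.mem_iUnion]
            exact ⟨b, hbH, ⟨a, haK, hadj⟩, SimpleGraph.Reachable.refl b⟩
          · exfalso
            apply hb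
            have h1 : a ∈ clus S (cl S H ω) u := by
              rw [hK]
              exact haK
            have h2 : (opn S (cl S H ω)).Adj a b := (opn_cl hS _ _ _ _).2 ⟨hadj, hnH a haK, hbH⟩
            exact SimpleGraph.Reachable.trans h1 h2.reachable
        · rcases ha with ha | ha
          · exfalso
            apply haK
            rw [hK] at ha
            exact ha
          · simp only [Set.mem_iUnion] at ha ⊢
            obtain ⟨x, hx, h1, h2⟩ := ha
            refine ⟨x, hx, h1, ?_⟩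
            have h3 : (opn S (cl S K ω)).Adj a b := (opn_cl hS _ _ _ _).2 ⟨hadj, haK, hbK⟩
            exact SimpleGraph.Reachable.trans h2 h3.reachable
  exact key w (Or.inl (SimpleGraph.Reachable.refl u))

theorem j22067_min_add (a b m : ℝ≥0∞) : min (a + b) m ≤ min a m + min b m := by
  rcases le_total a m with h | h
  · rcases le_total b m with h' | h'
    · rw [min_eq_left h, min_eq_left h']
      exact min_le_left _ _
    · rw [min_eq_right h']
      exact (min_le_right _ _).trans le_add_self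
  · rw [min_eq_right h]
    exact (min_le_right _ _).trans le_self_add

theorem j22067_min_sum {ι : Type} (s : Finset ι) (f : ι → ℝ≥0∞) (m : ℝ≥0∞) :
    min (∑ i ∈ s, f i) m ≤ ∑ i ∈ s, min (f i) m := by
  classical
  induction s using Finset.induction_on with
  | empty => simp
  | insert a s ha ih =>
    rw [Finset.sum_insert ha, Finset.sum_insert ha]
    exact (j22067_min_add _ _ _).trans (add_le_add le_rfl ih)

theorem j22067_encard (s : Finset Γ) (f : Γ → Set Γ) :
    (((⋃ x ∈ s, f x).encard : ℕ∞) : ℝ≥0∞) ≤ ∑ x ∈ s, ((f x).encard : ℝ≥0∞) := by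
  classical
  induction s using Finset.induction_on with
  | empty => simp
  | insert a s ha ih =>
    rw [Finset.sum_insert ha, Finset.set_biUnion_insert]
    refine (ENat.toENNReal_mono (Set.encard_union_le _ _)).trans ?_
    rw [ENat.toENNReal_add]
    exact add_le_add le_rfl ih

open Classical in
theorem j22067_sz {S : Finset Γ} (hS : Symm S) (H : Finset Γ) (u : Γ) (hu : u ∉ H)
    (K : Finset Γ) (ω : Cfg Γ) (hK : clus S (cl S H ω) u = ↑K) :
    sz S ω u ≤ sz S (cl S H ω) u +
      ∑ x ∈ H, (if ∃ y ∈ K, (opn S ω).Adj y x then sz S (cl S K ω) x else 0) := by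
  unfold sz
  refine (ENat.toENNReal_mono (Set.encard_le_encard (j22067_cover hS H u hu K ω hK))).trans ?_
  refine (ENat.toENNReal_mono (Set.encard_union_le _ _)).trans ?_
  rw [ENat.toENNReal_add]
  refine add_le_add le_rfl ((j22067_encard _ _).trans ?_)
  refine Finset.sum_le_sum fun x _ => ?_
  by_cases h : ∃ y ∈ K, (opn S ω).Adj y x
  · rw [if_pos h]
    refine ENat.toENNReal_mono (Set.encard_le_encard ?_)
    rintro z ⟨_, hz⟩
    exact hz
  · have h1 : {z | (∃ y ∈ K, (opn S ω).Adj y x) ∧ z ∈ clus S (cl S K ω) x} = ∅ := by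
      ext z
      simp only [Set.mem_empty_iff_false, iff_false]
      rintro ⟨h2, _⟩
      exact h h2
    rw [if_neg h, h1]
    simp

/-- the cluster of `u` off a finite set `H` is not much smaller than the full cluster -/
theorem off_lemma [Countable Γ] {S : Finset Γ} (hS : Symm S) (p : ℝ≥0) (hp : p ≤ 1)
    (hfin : Fin0 S p hp) (H : Finset Γ) (u : Γ) (hu : u ∉ H) (M : ℕ) :
    XM S p hp M ≤ ∫⁻ ω, min (sz S (cl S H ω) u) M ∂(bP Γ p hp)
      + (∑ x ∈ H, tau S p hp u x) * XM S p hp M := by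
  classical
  let Φ : Finset Γ → Γ → Cfg Γ → ℝ≥0∞ := fun K x ω =>
    if clus S (cl S H ω) u = ↑K ∧ ∃ y ∈ K, (opn S ω).Adj y x then 1 else 0
  let Ψ : Γ → Cfg Γ → ℝ≥0∞ := fun x ω => min (sz S ω x) (M : ℝ≥0∞)
  have hΦ : ∀ K x ω, Φ K x (kp S K ω) = Φ K x ω := by
    intro K x ω
    refine if_congr (and_congr (j22067_pat hS H u K ω) ⟨?_, ?_⟩) rfl rfl
    · rintro ⟨y, hy, h⟩
      exact ⟨y, hy, (j22067_kp hS K ω hy x).1 h⟩
    · rintro ⟨y, hy, h⟩
      exact ⟨y, hy, (j22067_kp hS K ω hy x).2 h⟩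
  have hΨ : ∀ x, Measurable (Ψ x) := fun x => (meas_sz S x).min measurable_const
  have hXM : ∀ x, ∫⁻ ω, Ψ x ω ∂(bP Γ p hp) = XM S p hp M := by
    intro x
    have h := (shift_mp p hp x).lintegral_comp (hΨ x)
    rw [← h]
    unfold XM
    refine lintegral_congr fun ω => ?_
    show min (sz S (shift x ω) x) (M : ℝ≥0∞) = min (sz S ω 1) (M : ℝ≥0∞)
    have h1 := sz_shift (S := S) x ω 1
    rw [mul_one] at h1
    rw [h1]
  have hcl : ∀ K x, ∫⁻ ω, Ψ x (cl S K ω) ∂(bP Γ p hp) ≤ XM S p hp M := by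
    intro K x
    rw [← hXM x]
    refine lintegral_mono fun ω => ?_
    refine min_le_min_right _ ?_
    exact ENat.toENNReal_mono (Set.encard_le_encard (j22067_le hS K ω x))
  have hpt : ∀ᵐ ω ∂(bP Γ p hp), Ψ u ω ≤ min (sz S (cl S H ω) u) (M : ℝ≥0∞) +
      ∑ x ∈ H, ∑' K : Finset Γ, Φ K x (kp S K ω) * Ψ x (cl S K ω) := by
    filter_upwards [fin_all p hp S hfin] with ω hω
    have hKfin : (clus S (cl S H ω) u).Finite := (hω u).subset (j22067_le hS H ω u)
    obtain ⟨K0, hK⟩ : ∃ K0 : Finset Γ, clus S (cl S H ω) u = ↑K0 :=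
      ⟨hKfin.toFinset, hKfin.coe_toFinset.symm⟩
    calc Ψ u ω ≤ min (sz S (cl S H ω) u +
          ∑ x ∈ H, (if ∃ y ∈ K0, (opn S ω).Adj y x then sz S (cl S K0 ω) x else 0)) (M : ℝ≥0∞) :=
        min_le_min_right _ (j22067_sz hS H u hu K0 ω hK)
      _ ≤ min (sz S (cl S H ω) u) (M : ℝ≥0∞) + min (∑ x ∈ H,
          (if ∃ y ∈ K0, (opn S ω).Adj y x then sz S (cl S K0 ω) x else 0)) (M : ℝ≥0∞) :=
        j22067_min_add _ _ _
      _ ≤ min (sz S (cl S H ω) u) (M : ℝ≥0∞) + ∑ x ∈ H,
          min (if ∃ y ∈ K0, (opn S ω).Adj y x then sz S (cl S K0 ω) x else 0) (M : ℝ≥0∞) :=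
        add_le_add le_rfl (j22067_min_sum _ _ _)
      _ ≤ _ := by
        refine add_le_add le_rfl (Finset.sum_le_sum fun x _ => ?_)
        refine le_trans ?_ (ENNReal.le_tsum K0)
        rw [hΦ]
        by_cases h : ∃ y ∈ K0, (opn S ω).Adj y x
        · rw [if_pos h]
          have h1 : Φ K0 x ω = 1 := if_pos ⟨hK, h⟩
          rw [h1, one_mul]
        · rw [if_neg h]
          simp
  have hmeasK : ∀ K x, Measurable (fun ω => Φ K x (kp S K ω) * Ψ x (cl S K ω)) := by
    intro K x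
    exact (meas_kp S K (Φ K x)).mul ((hΨ x).comp (meas_cl S K))
  have htau : ∀ x, ∑' K : Finset Γ, ∫⁻ ω, Φ K x (kp S K ω) ∂(bP Γ p hp) ≤ tau S p hp u x := by
    intro x
    rw [← lintegral_tsum (fun K => (meas_kp S K (Φ K x)).aemeasurable)]
    unfold tau
    rw [← lintegral_indicator_one (meas_clus S u x)]
    refine lintegral_mono fun ω => ?_
    simp only [hΦ]
    by_cases h : ∃ K : Finset Γ, clus S (cl S H ω) u = ↑K ∧ ∃ y ∈ K, (opn S ω).Adj y x
    · obtain ⟨K, hK, y, hy, hadj⟩ := h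
      have h1 : x ∈ clus S ω u := by
        have h2 : y ∈ clus S ω u := j22067_le hS H ω u (by
          rw [hK]
          exact hy)
        exact SimpleGraph.Reachable.trans h2 hadj.reachable
      rw [Set.indicator_of_mem (show ω ∈ {ω : Cfg Γ | x ∈ clus S ω u} from h1)]
      rw [tsum_eq_single K]
      · show (if _ then (1 : ℝ≥0∞) else 0) ≤ 1
        split_ifs
        · exact le_rfl
        · exact zero_le_one
      · intro K' hK'
        refine if_neg ?_
        rintro ⟨h2, _⟩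
        apply hK'
        rw [hK] at h2
        exact (Finset.coe_injective h2).symm
    · have h0 : ∀ K : Finset Γ, Φ K x ω = 0 := fun K => if_neg fun h' => h ⟨K, h'⟩
      simp only [h0, tsum_zero]
      exact zero_le
  calc XM S p hp M = ∫⁻ ω, Ψ u ω ∂(bP Γ p hp) := (hXM u).symm
    _ ≤ ∫⁻ ω, (min (sz S (cl S H ω) u) (M : ℝ≥0∞) +
      ∑ x ∈ H, ∑' K : Finset Γ, Φ K x (kp S K ω) * Ψ x (cl S K ω)) ∂(bP Γ p hp) :=
        lintegral_mono_ae hpt
    _ = ∫⁻ ω, min (sz S (cl S H ω) u) (M : ℝ≥0∞) ∂(bP Γ p hp) +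
      ∑ x ∈ H, ∑' K : Finset Γ, (∫⁻ ω, Φ K x (kp S K ω) ∂(bP Γ p hp)) *
        ∫⁻ ω, Ψ x (cl S K ω) ∂(bP Γ p hp) := by
      rw [lintegral_add_left (show Measurable fun ω => min (sz S (cl S H ω) u) (M : ℝ≥0∞) from
        (hΨ u).comp (meas_cl S H))]
      congr 1
      rw [lintegral_finset_sum _ (fun x _ => Measurable.ennreal_tsum fun K => hmeasK K x)]
      refine Finset.sum_congr rfl fun x _ => ?_
      rw [lintegral_tsum (fun K => (hmeasK K x).aemeasurable)]
      refine tsum_congr fun K => ?_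
      exact ind_kp_cl p hp S K (Φ K x) (Ψ x) (hΨ x)
    _ ≤ ∫⁻ ω, min (sz S (cl S H ω) u) (M : ℝ≥0∞) ∂(bP Γ p hp) +
      ∑ x ∈ H, tau S p hp u x * XM S p hp M := by
      refine add_le_add le_rfl (Finset.sum_le_sum fun x _ => ?_)
      calc ∑' K : Finset Γ, (∫⁻ ω, Φ K x (kp S K ω) ∂(bP Γ p hp)) *
            ∫⁻ ω, Ψ x (cl S K ω) ∂(bP Γ p hp)
          ≤ ∑' K : Finset Γ, (∫⁻ ω, Φ K x (kp S K ω) ∂(bP Γ p hp)) * XM S p hp M :=
            ENNReal.tsum_le_tsum fun K => mul_le_mul' le_rfl (hcl K x)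
        _ = (∑' K : Finset Γ, ∫⁻ ω, Φ K x (kp S K ω) ∂(bP Γ p hp)) * XM S p hp M :=
            ENNReal.tsum_mul_right
        _ ≤ _ := mul_le_mul' (htau x) le_rfl
    _ = _ := by rw [Finset.sum_mul]

end Pool.Agent.IIC
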