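import Pool.Agent.IIC.AB
import Pool.Agent.IIC.P_pc_le_one
import Pool.Agent.IIC.P_harris
import Pool.Agent.IIC.K
import Pool.Agent.IIC.P_E

set_option autoImplicit false
set_option linter.unusedVariables false
set_option linter.unusedSectionVars false

/-! # No percolation at criticality on nonamenable Cayley graphs (two-ghost identity), `0 < p_c < 1` -/

namespace Pool.Agent.IIC.Th

open MeasureTheory ProbabilityTheory
open scoped ENNReal NNReal

variable {Γ : Type} [Group Γ]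

theorem conn_avg_one [Countable Γ] (S : Finset Γ) (hS : Symm S) (hg : Gen S) (hna : Nonamenable S) :
    ∃ ρ : ℝ≥0, ρ < 1 ∧ ∀ (p : ℝ≥0) (hp : p ≤ 1), Fin0 S p hp → ∀ (k : ℕ) (h x : Γ),
      avg S k (fun u => bP Γ p hp {ω | x ∈ clus S ω u}) h ≤ (ρ : ℝ≥0∞) ^ k := by
  obtain ⟨ρ, h0, h1, hk⟩ := kesten hS hna
  exact ⟨ρ, h1, fun p hp hf k h x => conn_avg hS p hp hf ρ hk k h x⟩

theorem harris_ev [Countable Γ] (p : ℝ≥0) (hp : p ≤ 1) (A B : Set (Cfg Γ))
    (hA : MeasurableSet A) (hB : MeasurableSet B)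
    (iA : ∀ ω ω' : Cfg Γ, (∀ e, ω e = true → ω' e = true) → ω ∈ A → ω' ∈ A)
    (iB : ∀ ω ω' : Cfg Γ, (∀ e, ω e = true → ω' e = true) → ω ∈ B → ω' ∈ B) :
    bP Γ p hp A * bP Γ p hp B ≤ bP Γ p hp (A ∩ B) :=
  harris (Sym2 Γ) p hp A B hA hB iA iB

/-! basic facts -/

--DONE inf_iff_sz


theorem inf_iff_sz (S : Finset Γ) (ω : Cfg Γ) (x : Γ) :
    (clus S ω x).Infinite ↔ sz S ω x = ⊤ := by
  unfold sz
  rw [ENat.toENNReal_eq_top, Set.encard_eq_top_iff]




--DONE meas_inf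


theorem meas_inf [Countable Γ] (S : Finset Γ) (x : Γ) :
    MeasurableSet {ω : Cfg Γ | (clus S ω x).Infinite} := by
  have e : {ω : Cfg Γ | (clus S ω x).Infinite} = {ω : Cfg Γ | sz S ω x = ⊤} := by
    ext ω
    exact inf_iff_sz S ω x
  rw [e]
  exact measurableSet_eq_fun (meas_sz S x) measurable_const



--DONE clus_eq_of_mem


theorem clus_eq_of_mem {S : Finset Γ} {ω : Cfg Γ} {x y : Γ} (h : y ∈ clus S ω x) :
    clus S ω y = clus S ω x := by
  
  ext z
  constructor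
  · intro hz
    exact SimpleGraph.Reachable.trans h hz
  · intro hz
    exact SimpleGraph.Reachable.trans (SimpleGraph.Reachable.symm h) hz




--DONE one_le_sz


theorem one_le_sz (S : Finset Γ) (ω : Cfg Γ) (x : Γ) : 1 ≤ sz S ω x := by
  unfold sz
  have h1 : (1 : ENat) ≤ (clus S ω x).encard :=
    Set.one_le_encard_iff_nonempty.mpr ⟨x, SimpleGraph.Reachable.refl x⟩
  exact_mod_cast h1



--DONE pc_le_one


theorem pc_le_one (S : Finset Γ) : pc S ≤ 1 := by
  unfold pc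
  apply csSup_le'
  rintro p ⟨hp, _⟩
  exact hp



--DONE fin0_of_lt


theorem fin0_of_lt [Countable Γ] (S : Finset Γ) (p : ℝ≥0) (hp : p ≤ 1) (h : p < pc S) :
    Fin0 S p hp := by
  have hne : ({p : ℝ≥0 | ∃ hp : p ≤ 1, bP Γ p hp {ω | (clus S ω 1).Infinite} = 0}).Nonempty := by
    by_contra hcon
    rw [Set.not_nonempty_iff_eq_empty] at hcon
    unfold pc at h
    rw [hcon] at h
    simp at h
  obtain ⟨q, ⟨hq, hq0⟩, hpq⟩ := exists_lt_of_lt_csSup hne h
  unfold Fin0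
  refine le_antisymm ?_ zero_le
  rw [← hq0]
  exact mono_prob p q hp hq hpq.le _ (meas_inf S 1) (fun ω ω' hle hinf => by
    exact Set.Infinite.mono (clus_mono hle 1) hinf)



--DONE theta_step


theorem theta_step_cover {S : Finset Γ} (hS : Symm S) (ω : Cfg Γ)
    (h : (clus S ω 1).Infinite) : ∃ s ∈ S, s ≠ 1 ∧ ω s(1, s) = true ∧
      (clus S (cl S {1} ω) s).Infinite := by
  by_contra hcon
  push Not at hcon
  refine h ?_
  have hfin : ({1} ∪ ⋃ s ∈ {s : Γ | s ∈ S ∧ s ≠ 1 ∧ ω s(1, s) = true},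
      clus S (cl S {1} ω) s : Set Γ).Finite := by
    refine (Set.finite_singleton 1).union (Set.Finite.biUnion ?_ ?_)
    · exact S.finite_toSet.subset fun s hs => hs.1
    · intro s hs
      have h1 := hcon s hs.1 hs.2.1 hs.2.2
      exact h1
  refine hfin.subset fun y hy => ?_
  by_cases hy1 : y = 1
  · exact Or.inl hy1
  · refine Or.inr ?_
    obtain ⟨w, hw⟩ := SimpleGraph.Reachable.exists_isPath hy
    cases w with
    | nil => exact absurd rfl hy1
    | @cons _ s _ hadj w' =>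
      rw [SimpleGraph.Walk.cons_isPath_iff] at hw
      have hadj' := (cay_adj hS 1 s).mp hadj.1
      rw [inv_one, one_mul] at hadj'
      refine Set.mem_biUnion (x := s) ⟨hadj'.2, hadj'.1.symm, hadj.2⟩ ?_
      have htr : ∀ e ∈ w'.edges, e ∈ (opn S (cl S {1} ω)).edgeSet := by
        intro e he
        induction e using Sym2.ind with
        | _ a b =>
          rw [SimpleGraph.mem_edgeSet, opn_cl hS]
          have ha := w'.fst_mem_support_of_mem_edges he
          have hb := w'.snd_mem_support_of_mem_edges he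
          refine ⟨w'.adj_of_mem_edges he, ?_, ?_⟩
          · rw [Finset.mem_singleton]
            rintro rfl
            exact hw.2 ha
          · rw [Finset.mem_singleton]
            rintro rfl
            exact hw.2 hb
      exact ⟨w'.transfer _ htr⟩

theorem theta_step_cl {S : Finset Γ} (hS : Symm S) (s : Γ) (hs : s ∈ S) (hs1 : s ≠ 1)
    (ω : Cfg Γ) (b : Bool) : cl S {1} (upd ω s(1, s) b) = cl S {1} ω := by
  have he : s(1, s) ∈ T S {1} := by
    rw [mem_T hS]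
    refine ⟨?_, 1, by simp, by simp⟩
    rw [SimpleGraph.mem_edgeSet, cay_adj hS]
    exact ⟨hs1.symm, by rw [inv_one, one_mul]; exact hs⟩
  funext e
  by_cases h1 : e ∈ T S {1}
  · simp [cl, h1]
  · have h2 : e ≠ s(1, s) := by
      rintro rfl
      exact h1 he
    simp [cl, h1, upd, ovr, h2]

theorem theta_step_shift (S : Finset Γ) (s : Γ) [Countable Γ] (p : ℝ≥0) (hp : p ≤ 1) :
    bP Γ p hp {ω | (clus S ω s).Infinite} = bP Γ p hp {ω | (clus S ω 1).Infinite} := by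
  rw [← (shift_mp p hp s).measure_preimage (meas_inf S s).nullMeasurableSet]
  congr 1
  ext ω
  have h1 : clus S (shift s ω) s = (fun y => s * y) '' clus S ω 1 := by
    ext y
    constructor
    · intro hy
      refine ⟨s⁻¹ * y, ?_, by simp⟩
      rw [← mem_clus_shift s ω 1 (s⁻¹ * y), mul_one, mul_inv_cancel_left]
      exact hy
    · rintro ⟨y', hy', rfl⟩
      have h2 := (mem_clus_shift (S := S) s ω 1 y').mpr hy'
      rw [mul_one] at h2
      exact h2
  change (clus S (shift s ω) s).Infinite ↔ (clus S ω 1).Infinite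
  rw [h1]
  exact Set.infinite_image_iff (mul_right_injective s).injOn

theorem theta_step_one [Countable Γ] (S : Finset Γ) (hS : Symm S) (p : ℝ≥0) (hp : p ≤ 1)
    (s : Γ) (hs : s ∈ S) (hs1 : s ≠ 1) :
    bP Γ p hp {ω | ω s(1, s) = true ∧ (clus S (cl S {1} ω) s).Infinite} ≤
      p * bP Γ p hp {ω | (clus S ω 1).Infinite} := by
  have hB : MeasurableSet {ω : Cfg Γ | (clus S (cl S {1} ω) s).Infinite} :=
    meas_cl S {1} (meas_inf S s)
  have hE : MeasurableSet {ω : Cfg Γ | ω s(1, s) = true} :=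
    measurableSet_eq_fun (measurable_pi_apply (s(1, s) : Sym2 Γ)) measurable_const
  have h1 := flip_true p hp s(1, s)
    ({ω : Cfg Γ | (clus S (cl S {1} ω) s).Infinite}.indicator fun _ => (1 : ℝ≥0∞))
    (measurable_const.indicator hB)
  have h2 : ∀ ω : Cfg Γ, {ω : Cfg Γ | (clus S (cl S {1} ω) s).Infinite}.indicator
      (fun _ => (1 : ℝ≥0∞)) (upd ω s(1, s) true) =
      {ω : Cfg Γ | (clus S (cl S {1} ω) s).Infinite}.indicator (fun _ => (1 : ℝ≥0∞)) ω := by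
    intro ω
    have h5 : (upd ω s(1, s) true ∈ {ω : Cfg Γ | (clus S (cl S {1} ω) s).Infinite}) ↔
        (ω ∈ {ω : Cfg Γ | (clus S (cl S {1} ω) s).Infinite}) := by
      change (clus S (cl S {1} (upd ω s(1, s) true)) s).Infinite ↔
        (clus S (cl S {1} ω) s).Infinite
      rw [theta_step_cl hS s hs hs1]
    by_cases h6 : ω ∈ {ω : Cfg Γ | (clus S (cl S {1} ω) s).Infinite}
    · rw [Set.indicator_of_mem h6, Set.indicator_of_mem (h5.mpr h6)]
    · rw [Set.indicator_of_notMem h6, Set.indicator_of_notMem (fun h => h6 (h5.mp h))]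
  simp only [h2] at h1
  rw [lintegral_indicator_const hB, lintegral_indicator_const hB, one_mul, one_mul,
    Measure.restrict_apply hB] at h1
  have h3 : {ω : Cfg Γ | ω s(1, s) = true ∧ (clus S (cl S {1} ω) s).Infinite} =
      {ω : Cfg Γ | (clus S (cl S {1} ω) s).Infinite} ∩ {ω : Cfg Γ | ω s(1, s) = true} := by
    ext ω
    exact and_comm
  rw [h3, h1, ← theta_step_shift S s p hp]
  refine mul_le_mul_right (measure_mono fun ω hω => ?_) _
  refine Set.Infinite.mono (clus_mono (fun e he => ?_) s) hω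
  by_cases h4 : e ∈ T S {1}
  · simp [cl, h4] at he
  · simpa [cl, h4] using he

theorem theta_step [Countable Γ] (S : Finset Γ) (hS : Symm S) (p : ℝ≥0) (hp : p ≤ 1) :
    bP Γ p hp {ω | (clus S ω 1).Infinite}
      ≤ S.card * (p * bP Γ p hp {ω | (clus S ω 1).Infinite}) := by
  classical
  have h1 : {ω : Cfg Γ | (clus S ω 1).Infinite} ⊆
      ⋃ s ∈ S.filter (fun s => s ≠ 1),
        {ω : Cfg Γ | ω s(1, s) = true ∧ (clus S (cl S {1} ω) s).Infinite} := by
    intro ω hω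
    obtain ⟨s, hs, hs1, ho, hi⟩ := theta_step_cover hS ω hω
    exact Set.mem_biUnion (x := s) (Finset.mem_coe.mpr (Finset.mem_filter.mpr ⟨hs, hs1⟩)) ⟨ho, hi⟩
  refine (measure_mono h1).trans ((measure_biUnion_finset_le _ _).trans ?_)
  refine (Finset.sum_le_card_nsmul _ _ (p * bP Γ p hp {ω | (clus S ω 1).Infinite})
    fun s hs => ?_).trans ?_
  · rw [Finset.mem_filter] at hs
    exact theta_step_one S hS p hp s hs.1 hs.2
  · rw [nsmul_eq_mul]
    have h2 : (S.filter (fun s => s ≠ 1)).card ≤ S.card := Finset.card_filter_le _ _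
    have h3 : (((S.filter (fun s => s ≠ 1)).card : ℕ) : ℝ≥0∞) ≤ (S.card : ℝ≥0∞) := by
      exact_mod_cast h2
    exact mul_le_mul_left h3 _



--DONE pc_pos


theorem pc_pos [Countable Γ] (S : Finset Γ) (hS : Symm S) : 0 < pc S := by
  set p : ℝ≥0 := 1 / ((S.card : ℝ≥0) + 1) with hpdef
  have hp0 : 0 < p := by positivity
  have hp : p ≤ 1 := by
    rw [hpdef, div_le_one (by positivity)]
    exact le_add_self
  have hSp : (S.card : ℝ≥0) * p < 1 := by
    rw [hpdef, mul_one_div, div_lt_one (by positivity)]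
    exact lt_add_one _
  have hth := theta_step S hS p hp
  have hle1 : bP Γ p hp {ω | (clus S ω 1).Infinite} ≤ 1 := prob_le_one
  have h0 : bP Γ p hp {ω | (clus S ω 1).Infinite} = 0 := by
    generalize bP Γ p hp {ω | (clus S ω 1).Infinite} = θ at hth hle1
    have hfin : θ ≠ ⊤ := ne_top_of_le_ne_top ENNReal.one_ne_top hle1
    lift θ to ℝ≥0 using hfin
    have h1 : θ ≤ (S.card : ℝ≥0) * (p * θ) := by exact_mod_cast hth
    by_contra hne
    have hpos : 0 < θ := by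
      rw [pos_iff_ne_zero]
      exact_mod_cast hne
    have h2 : (S.card : ℝ≥0) * (p * θ) < 1 * θ := by
      rw [← mul_assoc]
      exact mul_lt_mul_of_pos_right hSp hpos
    rw [one_mul] at h2
    exact absurd h1 (not_le.mpr h2)
  refine lt_of_lt_of_le hp0 (le_csSup ⟨1, ?_⟩ ⟨hp, h0⟩)
  rintro q ⟨hq, _⟩
  exact hq



--DONE pc_lt_one


theorem pc_lt_one_nonempty {S : Finset Γ} (hg : Gen S) (hna : Nonamenable S) : S.Nonempty := by
  rw [Finset.nonempty_iff_ne_empty]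
  intro h
  have hinf : Infinite Γ := infinite_of_nonam hna
  have h1 : Subgroup.closure (S : Set Γ) = ⊤ := hg
  rw [h, Finset.coe_empty, Subgroup.closure_empty] at h1
  obtain ⟨x, hx⟩ := exists_ne (1 : Γ)
  have h2 : x ∈ (⊤ : Subgroup Γ) := Subgroup.mem_top x
  rw [← h1, Subgroup.mem_bot] at h2
  exact hx h2

theorem pc_lt_one_edge (p : ℝ≥0) (hp : p ≤ 1) (e : Sym2 Γ) :
    bP Γ p hp {ω | ω e = true} = p := by
  have h := flip_true p hp e (fun _ => 1) measurable_const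
  simp only [lintegral_one, Measure.restrict_apply_univ, measure_univ, mul_one] at h
  exact h

theorem pc_lt_one_le (S : Finset Γ) (hS : Symm S) (p : ℝ≥0) (hp : p ≤ 1) (s : Γ) (hs : s ∈ S) :
    (p : ℝ≥0∞) ≤ bP Γ p hp {ω | (1 : Γ) ∈ clus S ω (1 * s)} := by
  rw [← pc_lt_one_edge p hp s(1 * s, 1)]
  refine measure_mono ?_
  intro ω hω
  show (opn S ω).Reachable (1 * s) 1
  by_cases h1 : s = 1
  · rw [h1, one_mul]
  · have hadj : (opn S ω).Adj (1 * s) 1 := by
      refine ⟨?_, hω⟩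
      rw [cay_adj hS]
      refine ⟨by rw [one_mul]; exact h1, ?_⟩
      rw [one_mul, mul_one]
      exact hS s hs
    exact hadj.reachable

theorem pc_lt_one [Countable Γ] (S : Finset Γ) (hS : Symm S) (hg : Gen S) (hna : Nonamenable S) :
    pc S < 1 := by
  obtain ⟨ρ, hρ, hconn⟩ := conn_avg_one S hS hg hna
  have hne := pc_lt_one_nonempty hg hna
  have key : ∀ p : ℝ≥0, p < pc S → p ≤ ρ := by
    intro p hpc
    have hp : p ≤ 1 := hpc.le.trans (pc_le_one S)
    have h1 := hconn p hp (fin0_of_lt S p hp hpc) 1 1 1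
    rw [pow_one] at h1
    have h2 : avg S 1 (fun u => bP Γ p hp {ω | (1 : Γ) ∈ clus S ω u}) 1 =
        (∑ s ∈ S, bP Γ p hp {ω | (1 : Γ) ∈ clus S ω (1 * s)}) / S.card := rfl
    rw [h2] at h1
    have h3 : ∑ _s ∈ S, (p : ℝ≥0∞) ≤ ∑ s ∈ S, bP Γ p hp {ω | (1 : Γ) ∈ clus S ω (1 * s)} :=
      Finset.sum_le_sum fun s hs => pc_lt_one_le S hS p hp s hs
    rw [Finset.sum_const, nsmul_eq_mul] at h3
    have hc0 : (S.card : ℝ≥0∞) ≠ 0 := by
      have := hne.card_pos
      exact_mod_cast this.ne'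
    have hct : (S.card : ℝ≥0∞) ≠ ⊤ := ENNReal.natCast_ne_top _
    have h4 : (p : ℝ≥0∞) ≤ (ρ : ℝ≥0∞) := by
      calc (p : ℝ≥0∞) = (S.card * p) / S.card := by
            rw [mul_comm, ENNReal.mul_div_cancel_right hc0 hct]
        _ ≤ _ := ENNReal.div_le_div_right h3 _
        _ ≤ ρ := h1
    exact_mod_cast h4
  by_contra hcon
  have h5 : ρ < pc S := lt_of_lt_of_le hρ (not_lt.1 hcon)
  obtain ⟨q, hq1, hq2⟩ := exists_between h5
  exact absurd (key q hq2) (not_le.2 hq1)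



/-! the two-ghost identity -/

/-- the nontrivial elements of `S` -/
noncomputable def S1 (S : Finset Γ) : Finset Γ := by
  classical
  exact S.filter (fun s => s ≠ 1)

--DONE mem_S1


theorem mem_S1 (S : Finset Γ) (s : Γ) : s ∈ S1 S ↔ s ∈ S ∧ s ≠ 1 := by
  classical
  unfold S1
  rw [Finset.mem_filter]


/-- `1 - a ^ |C(x)|` -/
noncomputable def gg (a : ℝ≥0∞) (S : Finset Γ) (ω : Cfg Γ) (x : Γ) : ℝ≥0∞ :=
  1 - a ^ (clus S ω x).ncard

/-- `(1 - a ^ |C(x)|) / |C(x)|` -/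
noncomputable def FF (a : ℝ≥0∞) (S : Finset Γ) (ω : Cfg Γ) (x : Γ) : ℝ≥0∞ :=
  gg a S ω x / sz S ω x

/-- the edge `e` touches the cluster of `1` -/
def tch (S : Finset Γ) (e : Sym2 Γ) (ω : Cfg Γ) : Prop := ∃ v ∈ e, v ∈ clus S (upd ω e false) 1

/-- the two endpoints of `e` are not connected when `e` is closed -/
def sep (S : Finset Γ) (e : Sym2 Γ) (ω : Cfg Γ) : Prop :=
  ∃ x y, e = s(x, y) ∧ y ∉ clus S (upd ω e false) x

--DONE sep_iff


theorem sep_iff (S : Finset Γ) (x y : Γ) (ω : Cfg Γ) :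
    sep S s(x, y) ω ↔ y ∉ clus S (upd ω s(x, y) false) x := by
  unfold sep
  constructor
  · rintro ⟨x', y', he, hy⟩
    rcases Sym2.eq_iff.1 he with ⟨rfl, rfl⟩ | ⟨rfl, rfl⟩
    · exact hy
    · intro h
      apply hy
      exact SimpleGraph.Reachable.symm h
  · intro h
    exact ⟨x, y, rfl, h⟩



--DONE meas_ncard


theorem meas_ncard_eq (S : Finset Γ) (x : Γ) (ω : Cfg Γ) :
    (clus S ω x).ncard = ⌊(sz S ω x).toReal⌋₊ := by
  unfold sz
  rcases (clus S ω x).finite_or_infinite with h | h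
  · rw [← h.cast_ncard_eq, ENat.toENNReal_coe, ENNReal.toReal_natCast, Nat.floor_natCast]
  · rw [h.encard_eq, ENat.toENNReal_top, ENNReal.toReal_top, Nat.floor_zero, h.ncard]

theorem meas_ncard [Countable Γ] (S : Finset Γ) (x : Γ) :
    Measurable (fun ω : Cfg Γ => (clus S ω x).ncard) := by
  have h1 : (fun ω : Cfg Γ => (clus S ω x).ncard) = fun ω => ⌊(sz S ω x).toReal⌋₊ := by
    funext ω
    exact meas_ncard_eq S x ω
  rw [h1]
  exact Nat.measurable_floor.comp (ENNReal.measurable_toReal.comp (meas_sz S x))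




--DONE meas_gg


theorem meas_gg [Countable Γ] (a : ℝ≥0∞) (S : Finset Γ) (x : Γ) :
    Measurable (fun ω : Cfg Γ => gg a S ω x) := by
  have h : Measurable (fun n : ℕ => (1 : ℝ≥0∞) - a ^ n) := measurable_from_nat
  exact h.comp (meas_ncard S x)



--DONE meas_FF


theorem meas_FF [Countable Γ] (a : ℝ≥0∞) (S : Finset Γ) (x : Γ) :
    Measurable (fun ω : Cfg Γ => FF a S ω x) := by
  unfold FF
  exact (meas_gg a S x).div (meas_sz S x)



--DONE meas_tch


theorem meas_tch [Countable Γ] (S : Finset Γ) (e : Sym2 Γ) :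
    MeasurableSet {ω : Cfg Γ | tch S e ω} := by
  have h : {ω : Cfg Γ | tch S e ω} =
      ⋃ v : {v : Γ // v ∈ e}, (fun ω : Cfg Γ => upd ω e false) ⁻¹' {ω | (v : Γ) ∈ clus S ω 1} := by
    ext ω
    simp only [Set.mem_iUnion]
    constructor
    · rintro ⟨v, hv, h⟩
      exact ⟨⟨v, hv⟩, h⟩
    · rintro ⟨⟨v, hv⟩, h⟩
      exact ⟨v, hv, h⟩
  rw [h]
  exact MeasurableSet.iUnion fun v => (meas_upd e false) (meas_clus S 1 v)



--DONE meas_sep


theorem meas_sep [Countable Γ] (S : Finset Γ) (e : Sym2 Γ) :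
    MeasurableSet {ω : Cfg Γ | sep S e ω} := by
  induction e using Sym2.ind with
  | _ x y =>
    simp only [sep_iff]
    exact (meas_upd s(x, y) false) (meas_clus S x y).compl



--DONE clus_upd_con


/-- if the endpoints of an edge are connected without the edge, the edge does not matter -/
theorem clus_upd_con {S : Finset Γ} (e : Sym2 Γ) (he : e ∈ (cay S).edgeSet) (x : Γ) (ω : Cfg Γ)
    (h : ¬ sep S e ω) : clus S (upd ω e true) x = clus S (upd ω e false) x := by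
  induction e using Sym2.ind with
  | _ a b =>
    have hab : (cay S).Adj a b := (SimpleGraph.mem_edgeSet _).mp he
    rw [sep_iff, not_not] at h
    have hcl := clus_eq_of_mem h
    by_cases ha : a ∈ clus S (upd ω s(a, b) false) x
    · rw [clus_upd_bridge a b x hab ω ha, hcl, clus_eq_of_mem ha, Set.union_self]
    · apply clus_upd_far
      intro v hv
      rcases Sym2.mem_iff.mp hv with rfl | rfl
      · exact ha
      · intro hb
        apply ha
        have h1 := clus_eq_of_mem hb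
        rw [← h1, hcl]
        exact SimpleGraph.Reachable.refl _




--DONE ne_int_true


theorem ne_int_true_measA [Countable Γ] (S : Finset Γ) (e : Sym2 Γ) :
    MeasurableSet {ω : Cfg Γ | ∃ v ∈ e, v ∈ clus S ω 1} := by
  have : {ω : Cfg Γ | ∃ v ∈ e, v ∈ clus S ω 1} =
      ⋃ v : Γ, ⋃ (_ : v ∈ e), {ω : Cfg Γ | v ∈ clus S ω 1} := by
    ext ω
    simp
  rw [this]
  exact MeasurableSet.iUnion fun v => MeasurableSet.iUnion fun _ => meas_clus S 1 v

theorem ne_int_true_measE (e : Sym2 Γ) : MeasurableSet {ω : Cfg Γ | ω e = true} := by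
  have h : Measurable fun ω : Cfg Γ => ω e := measurable_pi_apply e
  exact h (measurableSet_singleton true)

/-- the summand -/
noncomputable def ne_int_true_I (S : Finset Γ) (e : Sym2 Γ) (ω : Cfg Γ) : ℝ≥0∞ :=
  Set.indicator {e | e ∈ (cay S).edgeSet ∧ (∃ v ∈ e, v ∈ clus S ω 1) ∧ ω e = true}
    (fun _ => (1 : ℝ≥0∞)) e

theorem ne_int_true_Ieq (S : Finset Γ) (e : Sym2 Γ) (he : e ∈ (cay S).edgeSet) :
    ne_int_true_I S e = ({ω : Cfg Γ | ∃ v ∈ e, v ∈ clus S ω 1} ∩ {ω : Cfg Γ | ω e = true}).indicator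
      (fun _ => (1 : ℝ≥0∞)) := by
  classical
  funext ω
  unfold ne_int_true_I
  by_cases h : (∃ v ∈ e, v ∈ clus S ω 1) ∧ ω e = true
  · rw [Set.indicator_of_mem (show e ∈ {e | e ∈ (cay S).edgeSet ∧ (∃ v ∈ e, v ∈ clus S ω 1) ∧
      ω e = true} from ⟨he, h⟩), Set.indicator_of_mem (show ω ∈ _ from h)]
  · rw [Set.indicator_of_notMem (show e ∉ {e | e ∈ (cay S).edgeSet ∧ (∃ v ∈ e, v ∈ clus S ω 1) ∧
      ω e = true} from fun h' => h h'.2), Set.indicator_of_notMem (show ω ∉ _ from h)]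

theorem ne_int_true_Izero (S : Finset Γ) (e : Sym2 Γ) (he : e ∉ (cay S).edgeSet) :
    ne_int_true_I S e = fun _ => 0 := by
  funext ω
  unfold ne_int_true_I
  exact Set.indicator_of_notMem (fun h => he h.1) _

theorem ne_int_true_Imeas [Countable Γ] (S : Finset Γ) (e : Sym2 Γ) :
    Measurable (ne_int_true_I S e) := by
  by_cases he : e ∈ (cay S).edgeSet
  · rw [ne_int_true_Ieq S e he]
    exact measurable_const.indicator ((ne_int_true_measA S e).inter (ne_int_true_measE e))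
  · rw [ne_int_true_Izero S e he]
    exact measurable_const

theorem ne_int_true_step [Countable Γ] (S : Finset Γ) (p : ℝ≥0) (hp : p ≤ 1) (h0 : 0 < p)
    (G : Cfg Γ → ℝ≥0∞) (hG : Measurable G) (e : Sym2 Γ) :
    ∫⁻ ω, G ω * (ne_int_true_I S e ω * (p : ℝ≥0∞)⁻¹) ∂(bP Γ p hp) =
      ∫⁻ ω in {ω | e ∈ (cay S).edgeSet ∧ tch S e ω}, G (upd ω e true) ∂(bP Γ p hp) := by
  classical
  by_cases he : e ∈ (cay S).edgeSet
  · set A : Set (Cfg Γ) := {ω : Cfg Γ | ∃ v ∈ e, v ∈ clus S ω 1} with hA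
    have hAm : MeasurableSet A := ne_int_true_measA S e
    have hAG : Measurable (A.indicator G) := hG.indicator hAm
    have e1 : ∫⁻ ω, G ω * (ne_int_true_I S e ω * (p : ℝ≥0∞)⁻¹) ∂(bP Γ p hp) =
        ∫⁻ ω, ({ω : Cfg Γ | ω e = true}).indicator (fun ω => A.indicator G ω * (p : ℝ≥0∞)⁻¹) ω
          ∂(bP Γ p hp) := by
      congr 1
      funext ω
      rw [ne_int_true_Ieq S e he]
      change G ω * ((A ∩ {ω : Cfg Γ | ω e = true}).indicator (fun _ => (1 : ℝ≥0∞)) ω * _) = _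
      by_cases h1 : ω ∈ A
      · by_cases h2 : ω ∈ {ω : Cfg Γ | ω e = true}
        · rw [Set.indicator_of_mem (show ω ∈ A ∩ {ω : Cfg Γ | ω e = true} from ⟨h1, h2⟩),
            Set.indicator_of_mem h2, Set.indicator_of_mem h1, one_mul]
        · rw [Set.indicator_of_notMem (show ω ∉ A ∩ {ω : Cfg Γ | ω e = true} from fun h => h2 h.2),
            Set.indicator_of_notMem h2, zero_mul, mul_zero]
      · rw [Set.indicator_of_notMem (show ω ∉ A ∩ {ω : Cfg Γ | ω e = true} from fun h => h1 h.1),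
          zero_mul, mul_zero]
        by_cases h2 : ω ∈ {ω : Cfg Γ | ω e = true}
        · rw [Set.indicator_of_mem h2, Set.indicator_of_notMem h1, zero_mul]
        · rw [Set.indicator_of_notMem h2]
    have hp1 : (p : ℝ≥0∞) ≠ 0 := by exact_mod_cast h0.ne'
    have hAu : Measurable fun ω => A.indicator G (upd ω e true) := hAG.comp (meas_upd e true)
    rw [e1, lintegral_indicator (ne_int_true_measE e), flip_true p hp e _ (hAG.mul_const _),
      lintegral_mul_const _ hAu, mul_comm (∫⁻ ω, A.indicator G (upd ω e true) ∂(bP Γ p hp)),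
      ← mul_assoc, ENNReal.mul_inv_cancel hp1 ENNReal.coe_ne_top, one_mul]
    have hset : {ω : Cfg Γ | e ∈ (cay S).edgeSet ∧ tch S e ω} = {ω : Cfg Γ | tch S e ω} := by
      ext ω
      exact ⟨fun h => h.2, fun h => ⟨he, h⟩⟩
    rw [hset, ← lintegral_indicator (meas_tch S e)]
    congr 1
    funext ω
    have hiff : upd ω e true ∈ A ↔ ω ∈ {ω : Cfg Γ | tch S e ω} := tch_iff e 1 ω
    by_cases h : ω ∈ {ω : Cfg Γ | tch S e ω}
    · rw [Set.indicator_of_mem h, Set.indicator_of_mem (hiff.2 h)]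
    · rw [Set.indicator_of_notMem h, Set.indicator_of_notMem (fun h' => h (hiff.1 h'))]
  · have hset : {ω : Cfg Γ | e ∈ (cay S).edgeSet ∧ tch S e ω} = ∅ := by
      ext ω
      exact ⟨fun h => he h.1, fun h => h.elim⟩
    rw [hset, ne_int_true_Izero S e he]
    simp

theorem ne_int_true [Countable Γ] (S : Finset Γ) (p : ℝ≥0) (hp : p ≤ 1) (h0 : 0 < p)
    (G : Cfg Γ → ℝ≥0∞) (hG : Measurable G) :
    ∫⁻ ω, G ω * (ne S true ω / p) ∂(bP Γ p hp)
      = ∑' e : Sym2 Γ, ∫⁻ ω in {ω | e ∈ (cay S).edgeSet ∧ tch S e ω},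
          G (upd ω e true) ∂(bP Γ p hp) := by
  have h1 : ∀ ω : Cfg Γ, G ω * (ne S true ω / p) =
      ∑' e : Sym2 Γ, G ω * (ne_int_true_I S e ω * (p : ℝ≥0∞)⁻¹) := by
    intro ω
    rw [ENNReal.tsum_mul_left, ENNReal.tsum_mul_right, div_eq_mul_inv]
    rfl
  simp only [h1]
  rw [lintegral_tsum (f := fun (e : Sym2 Γ) (ω : Cfg Γ) => G ω * (ne_int_true_I S e ω * (p : ℝ≥0∞)⁻¹))
    (fun e => (hG.mul ((ne_int_true_Imeas S e).mul_const _)).aemeasurable)]
  exact tsum_congr fun e => ne_int_true_step S p hp h0 G hG e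



--DONE ne_int_false


theorem ne_int_false_meas [Countable Γ] (S : Finset Γ) (e : Sym2 Γ) :
    MeasurableSet {ω : Cfg Γ | e ∈ (cay S).edgeSet ∧ ∃ v ∈ e, v ∈ clus S ω 1} := by
  have h : {ω : Cfg Γ | e ∈ (cay S).edgeSet ∧ ∃ v ∈ e, v ∈ clus S ω 1}
      = {ω : Cfg Γ | e ∈ (cay S).edgeSet} ∩
        ⋃ v : Γ, ({ω : Cfg Γ | v ∈ e} ∩ {ω : Cfg Γ | v ∈ clus S ω 1}) := by
    ext ω
    simp
  rw [h]
  exact (MeasurableSet.const _).inter
    (MeasurableSet.iUnion fun v => (MeasurableSet.const _).inter (meas_clus S 1 v))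

theorem ne_int_false_bit (e : Sym2 Γ) :
    MeasurableSet {ω : Cfg Γ | ω e = false} := by
  have h : Measurable (fun ω : Cfg Γ => ω e) := measurable_pi_apply e
  exact h (measurableSet_singleton false)

theorem ne_int_false [Countable Γ] (S : Finset Γ) (p : ℝ≥0) (hp : p ≤ 1) (h1 : p < 1)
    (G : Cfg Γ → ℝ≥0∞) (hG : Measurable G) :
    ∫⁻ ω, G ω * (ne S false ω / (1 - p : ℝ≥0)) ∂(bP Γ p hp)
      = ∑' e : Sym2 Γ, ∫⁻ ω in {ω | e ∈ (cay S).edgeSet ∧ tch S e ω},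
          G (upd ω e false) ∂(bP Γ p hp) := by
  classical
  set q : ℝ≥0∞ := ((1 - p : ℝ≥0) : ℝ≥0∞) with hq
  have hq0 : q ≠ 0 := by
    rw [hq, Ne, ENNReal.coe_eq_zero, tsub_eq_zero_iff_le, not_le]
    exact h1
  have hqt : q ≠ ⊤ := ENNReal.coe_ne_top
  haveI : Countable (Sym2 Γ) := by
    unfold Sym2
    infer_instance
  have h2 : ∀ ω : Cfg Γ, G ω * (ne S false ω / q) = ∑' e : Sym2 Γ, q⁻¹ *
      (Set.indicator {ω : Cfg Γ | ω e = false} (Set.indicator
        {ω : Cfg Γ | e ∈ (cay S).edgeSet ∧ ∃ v ∈ e, v ∈ clus S ω 1} G) ω) := by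
    intro ω
    rw [ENNReal.tsum_mul_left, div_eq_mul_inv, ← mul_assoc, mul_comm _ q⁻¹]
    congr 1
    unfold ne
    rw [← ENNReal.tsum_mul_left]
    congr 1
    ext e
    simp only [Set.indicator_apply, Set.mem_setOf_eq]
    by_cases a : e ∈ (cay S).edgeSet <;> by_cases b : ∃ v ∈ e, v ∈ clus S ω 1 <;>
      by_cases c : ω e = false <;> simp [a, b, c]
  simp_rw [h2]
  rw [lintegral_tsum]
  · congr 1
    ext e
    rw [lintegral_const_mul' _ _ (ENNReal.inv_ne_top.2 hq0),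
      lintegral_indicator (ne_int_false_bit e),
      flip_false p hp e _ (hG.indicator (ne_int_false_meas S e)), ← mul_assoc,
      ENNReal.inv_mul_cancel hq0 hqt, one_mul, ← lintegral_indicator]
    · congr 1
    · exact (MeasurableSet.const _).inter (meas_tch S e)
  · intro e
    exact (((hG.indicator (ne_int_false_meas S e)).indicator
      (ne_int_false_bit e)).const_mul _).aemeasurable



--DONE tsum_edges_at


theorem tsum_edges_at (S : Finset Γ) (hS : Symm S) (v : Γ) (Ψ : Sym2 Γ → ℝ≥0∞) :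
    ∑' e : Sym2 Γ, Set.indicator {e | e ∈ (cay S).edgeSet ∧ v ∈ e} Ψ e
      = ∑ s ∈ S1 S, Ψ s(v, v * s) := by
  classical
  have himg : ∀ e : Sym2 Γ, (e ∈ (cay S).edgeSet ∧ v ∈ e) ↔
      e ∈ (S1 S).image (fun s => s(v, v * s)) := by
    intro e
    rw [Finset.mem_image]
    constructor
    · rintro ⟨he, hv⟩
      obtain ⟨w, rfl⟩ := Sym2.mem_iff_exists.1 hv
      rw [SimpleGraph.mem_edgeSet, cay_adj hS] at he
      refine ⟨v⁻¹ * w, (mem_S1 _ _).2 ⟨he.2, ?_⟩, ?_⟩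
      · intro h
        exact he.1 (inv_mul_eq_one.1 h)
      · simp
    · rintro ⟨s, hs, rfl⟩
      rw [mem_S1] at hs
      refine ⟨?_, Sym2.mem_mk_left _ _⟩
      rw [SimpleGraph.mem_edgeSet, cay_adj hS]
      refine ⟨?_, by simpa using hs.1⟩
      intro h
      exact hs.2 (mul_eq_left.1 h.symm)
  rw [tsum_eq_sum (s := (S1 S).image (fun s => s(v, v * s)))]
  · rw [Finset.sum_image]
    · apply Finset.sum_congr rfl
      intro s hs
      rw [Set.indicator_of_mem]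
      exact (himg _).2 (Finset.mem_image_of_mem _ hs)
    · intro s hs t ht h
      have h' : s(v, v * s) = s(v, v * t) := h
      rw [Sym2.congr_right] at h'
      exact mul_left_cancel h'
  · intro e he
    rw [Set.indicator_of_notMem]
    exact fun h => he ((himg e).1 h)



--DONE split_edge


/-- a sum over the edges that touch the cluster of `1` and do not close a cycle, written as a sum
over the endpoint in the cluster -/
theorem split_edge [Countable Γ] (S : Finset Γ) (hS : Symm S) (p : ℝ≥0) (hp : p ≤ 1)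
    (Φ : Sym2 Γ → Cfg Γ → ℝ≥0∞) (hΦ : ∀ e, Measurable (Φ e)) :
    ∑' e : Sym2 Γ, ∫⁻ ω in {ω | e ∈ (cay S).edgeSet ∧ tch S e ω ∧ sep S e ω}, Φ e ω ∂(bP Γ p hp)
      = ∑' v : Γ, ∑ s ∈ S1 S,
          ∫⁻ ω in {ω | v ∈ clus S (upd ω s(v, v * s) false) 1 ∧
            v * s ∉ clus S (upd ω s(v, v * s) false) v}, Φ s(v, v * s) ω ∂(bP Γ p hp) := by
  classical
  have h1 : ∀ e : Sym2 Γ,
      ∫⁻ ω in {ω | e ∈ (cay S).edgeSet ∧ tch S e ω ∧ sep S e ω}, Φ e ω ∂(bP Γ p hp) =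
      ∑' v : Γ, ∫⁻ ω in {ω | e ∈ (cay S).edgeSet ∧ v ∈ e ∧ v ∈ clus S (upd ω e false) 1 ∧
        sep S e ω}, Φ e ω ∂(bP Γ p hp) := by
    intro e
    rw [← lintegral_iUnion]
    · congr 2
      ext ω
      simp only [Set.mem_iUnion, Set.mem_setOf_eq, tch]
      constructor
      · rintro ⟨he, ⟨v, hv, hv2⟩, hs⟩
        exact ⟨v, he, hv, hv2, hs⟩
      · rintro ⟨v, he, hv, hv2, hs⟩
        exact ⟨he, ⟨v, hv, hv2⟩, hs⟩
    · intro v
      have h2 : MeasurableSet {ω : Cfg Γ | v ∈ clus S (upd ω e false) 1} :=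
        (meas_upd e false) (meas_clus S 1 v)
      exact (MeasurableSet.const _).inter ((MeasurableSet.const _).inter
        (h2.inter (meas_sep S e)))
    · intro v v' hne
      rw [Function.onFun, Set.disjoint_left]
      rintro ω ⟨he, hv, hv2, hs⟩ ⟨-, hv', hv2', -⟩
      have he' : e = s(v, v') := (Sym2.mem_and_mem_iff hne).1 ⟨hv, hv'⟩
      subst he'
      rw [sep_iff, clus_eq_of_mem hv2] at hs
      exact hs hv2'
  simp_rw [h1]
  rw [ENNReal.tsum_comm]
  congr 1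
  funext v
  have h2 : ∀ e : Sym2 Γ, ∫⁻ ω in {ω | e ∈ (cay S).edgeSet ∧ v ∈ e ∧
      v ∈ clus S (upd ω e false) 1 ∧ sep S e ω}, Φ e ω ∂(bP Γ p hp) =
      Set.indicator {e | e ∈ (cay S).edgeSet ∧ v ∈ e} (fun e =>
        ∫⁻ ω in {ω | v ∈ clus S (upd ω e false) 1 ∧ sep S e ω}, Φ e ω ∂(bP Γ p hp)) e := by
    intro e
    by_cases he : e ∈ (cay S).edgeSet ∧ v ∈ e
    · rw [Set.indicator_of_mem (show e ∈ {e | e ∈ (cay S).edgeSet ∧ v ∈ e} from he)]
      congr 2
      ext ω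
      constructor
      · rintro ⟨-, -, h3, h4⟩
        exact ⟨h3, h4⟩
      · rintro ⟨h3, h4⟩
        exact ⟨he.1, he.2, h3, h4⟩
    · rw [Set.indicator_of_notMem (show e ∉ {e | e ∈ (cay S).edgeSet ∧ v ∈ e} from he)]
      have h3 : {ω : Cfg Γ | e ∈ (cay S).edgeSet ∧ v ∈ e ∧
          v ∈ clus S (upd ω e false) 1 ∧ sep S e ω} = ∅ := by
        ext ω
        constructor
        · rintro ⟨h4, h5, -⟩
          exact absurd ⟨h4, h5⟩ he
        · intro h
          exact absurd h (Set.notMem_empty ω)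
      rw [h3]
      simp
  simp_rw [h2]
  rw [tsum_edges_at S hS v]
  apply Finset.sum_congr rfl
  intro s _
  congr 2
  ext ω
  show (v ∈ clus S (upd ω s(v, v * s) false) 1 ∧ sep S s(v, v * s) ω) ↔ _
  rw [sep_iff]
  rfl



--DONE mtp_edge


lemma mtp_edge_shift (g : Γ) (ω : Cfg Γ) (x y : Γ) (c : Bool) :
    upd (shift g ω) s(g * x, g * y) c = shift g (upd ω s(x, y) c) := by
  classical
  funext e
  unfold upd ovr shift
  simp only [Finset.mem_singleton]
  have h : e = s(g * x, g * y) ↔ e.map (fun x => g⁻¹ * x) = s(x, y) := by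
    constructor
    · rintro rfl
      simp
    · intro h
      have h2 : (e.map (fun x => g⁻¹ * x)).map (fun x => g * x) = s(g * x, g * y) := by
        rw [h]; rfl
      rw [Sym2.map_map] at h2
      have h3 : ((fun x => g * x) ∘ fun x => g⁻¹ * x : Γ → Γ) = id := by
        funext z; simp
      rw [h3, Sym2.map_id] at h2
      exact h2
  by_cases h1 : e = s(g * x, g * y)
  · rw [if_pos h1, if_pos (h.1 h1)]
  · rw [if_neg h1, if_neg (fun h2 => h1 (h.2 h2))]

lemma mtp_edge_clus {S : Finset Γ} (g : Γ) (ω : Cfg Γ) (x : Γ) :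
    clus S (shift g ω) (g * x) = (fun y => g * y) '' clus S ω x := by
  ext y
  constructor
  · intro h
    refine ⟨g⁻¹ * y, ?_, by simp⟩
    rw [← mem_clus_shift g]
    simpa using h
  · rintro ⟨z, hz, rfl⟩
    exact (mem_clus_shift g ω x z).2 hz

lemma mtp_edge_FF {S : Finset Γ} (a : ℝ≥0∞) (g : Γ) (ω : Cfg Γ) (x : Γ) :
    FF a S (shift g ω) (g * x) = FF a S ω x := by
  unfold FF gg
  rw [sz_shift, mtp_edge_clus, Set.ncard_image_of_injective _ (mul_right_injective g)]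

lemma mtp_edge_FFeq {S : Finset Γ} (a : ℝ≥0∞) (ω : Cfg Γ) (x y : Γ) (h : y ∈ clus S ω x) :
    FF a S ω y = FF a S ω x := by
  unfold FF gg sz
  rw [clus_eq_of_mem h]

lemma mtp_edge_symm {S : Finset Γ} (ω : Cfg Γ) (x y : Γ) : y ∈ clus S ω x ↔ x ∈ clus S ω y := by
  unfold clus
  exact ⟨fun h => SimpleGraph.Reachable.symm h, fun h => SimpleGraph.Reachable.symm h⟩

lemma mtp_edge_mono {S : Finset Γ} (ω : Cfg Γ) (e : Sym2 Γ) (b : Bool) (x : Γ) :
    clus S (upd ω e false) x ⊆ clus S (upd ω e b) x := by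
  classical
  apply clus_mono
  intro e' he'
  unfold upd ovr at *
  simp only [Finset.mem_singleton] at *
  by_cases h : e' = e
  · rw [if_pos h] at he'; simp at he'
  · rw [if_neg h] at he' ⊢; exact he'

/-- the transport event -/
def mtp_edge_A (S : Finset Γ) (x y s : Γ) : Set (Cfg Γ) :=
  {ω | y ∈ clus S (upd ω s(y, y * s) false) x ∧ y * s ∉ clus S (upd ω s(y, y * s) false) y}

lemma mtp_edge_measA [Countable Γ] (S : Finset Γ) (x y s : Γ) : MeasurableSet (mtp_edge_A S x y s) := by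
  have h1 : MeasurableSet {ω : Cfg Γ | y ∈ clus S (upd ω s(y, y * s) false) x} :=
    (meas_upd s(y, y * s) false) (meas_clus S x y)
  have h2 : MeasurableSet {ω : Cfg Γ | y * s ∈ clus S (upd ω s(y, y * s) false) y} :=
    (meas_upd s(y, y * s) false) (meas_clus S y (y * s))
  exact h1.inter h2.compl

theorem mtp_edge [Countable Γ] (S : Finset Γ) (hS : Symm S) (p : ℝ≥0) (hp : p ≤ 1) (a : ℝ≥0∞)
    (b : Bool) :
    ∑' v : Γ, ∑ s ∈ S1 S,
        ∫⁻ ω in {ω | v ∈ clus S (upd ω s(v, v * s) false) 1 ∧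
            v * s ∉ clus S (upd ω s(v, v * s) false) v},
          FF a S (upd ω s(v, v * s) b) 1 ∂(bP Γ p hp)
      = ∑ s ∈ S1 S,
          ∫⁻ ω in {ω | s ∉ clus S (upd ω s(1, s) false) 1},
            sz S (upd ω s(1, s) false) 1 * FF a S (upd ω s(1, s) b) 1 ∂(bP Γ p hp) := by
  classical
  let F : Γ → Γ → Cfg Γ → ℝ≥0∞ := fun x y ω => ∑ s ∈ S1 S,
    (mtp_edge_A S x y s).indicator (fun ω => FF a S (upd ω s(y, y * s) b) x) ω
  have hmeas1 : ∀ x y s, Measurable (fun ω : Cfg Γ => (mtp_edge_A S x y s).indicator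
      (fun ω => FF a S (upd ω s(y, y * s) b) x) ω) := fun x y s =>
    ((meas_FF a S x).comp (meas_upd s(y, y * s) b)).indicator (mtp_edge_measA S x y s)
  have hF : ∀ x y, Measurable (F x y) := by
    intro x y
    exact Finset.measurable_fun_sum _ (fun s _ => hmeas1 x y s)
  have hinv : ∀ g x y ω, F (g * x) (g * y) (shift g ω) = F x y ω := by
    intro g x y ω
    apply Finset.sum_congr rfl
    intro s _
    have h1 : ∀ c, upd (shift g ω) s(g * y, g * y * s) c = shift g (upd ω s(y, y * s) c) := by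
      intro c
      rw [mul_assoc, mtp_edge_shift]
    have hA : shift g ω ∈ mtp_edge_A S (g * x) (g * y) s ↔ ω ∈ mtp_edge_A S x y s := by
      unfold mtp_edge_A
      simp only [Set.mem_setOf_eq, h1]
      rw [mem_clus_shift, mul_assoc, mem_clus_shift]
    by_cases h : ω ∈ mtp_edge_A S x y s
    · rw [Set.indicator_of_mem h, Set.indicator_of_mem (hA.2 h), h1, mtp_edge_FF]
    · rw [Set.indicator_of_notMem h, Set.indicator_of_notMem (fun h' => h (hA.1 h'))]
  have key := mtp p hp F hF hinv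
  have hL : ∑' v : Γ, ∑ s ∈ S1 S,
        ∫⁻ ω in {ω | v ∈ clus S (upd ω s(v, v * s) false) 1 ∧
            v * s ∉ clus S (upd ω s(v, v * s) false) v},
          FF a S (upd ω s(v, v * s) b) 1 ∂(bP Γ p hp) = ∑' y, ∫⁻ ω, F 1 y ω ∂(bP Γ p hp) := by
    apply tsum_congr
    intro v
    rw [lintegral_finsetSum _ (fun s _ => hmeas1 1 v s)]
    apply Finset.sum_congr rfl
    intro s _
    rw [lintegral_indicator (mtp_edge_measA S 1 v s)]
    rfl
  rw [hL, key]
  have h2 : ∑' y, ∫⁻ ω, F y 1 ω ∂(bP Γ p hp) = ∑' y, ∑ s ∈ S1 S, ∫⁻ ω, (mtp_edge_A S y 1 s).indicator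
      (fun ω => FF a S (upd ω s(1, 1 * s) b) y) ω ∂(bP Γ p hp) := by
    apply tsum_congr
    intro v
    rw [lintegral_finsetSum _ (fun s _ => hmeas1 v 1 s)]
  rw [h2, Summable.tsum_finsetSum (fun _ _ => ENNReal.summable)]
  apply Finset.sum_congr rfl
  intro s _
  rw [← lintegral_tsum (fun y => (hmeas1 y 1 s).aemeasurable)]
  have hms : MeasurableSet {ω : Cfg Γ | s ∉ clus S (upd ω s(1, s) false) 1} := by
    have h2 : MeasurableSet {ω : Cfg Γ | s ∈ clus S (upd ω s(1, s) false) 1} :=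
      (meas_upd s(1, s) false) (meas_clus S 1 s)
    exact h2.compl
  rw [← lintegral_indicator hms]
  apply lintegral_congr
  intro ω
  by_cases hs : s ∉ clus S (upd ω s(1, s) false) 1
  · rw [Set.indicator_of_mem (show ω ∈ {ω : Cfg Γ | s ∉ clus S (upd ω s(1, s) false) 1} from hs)]
    have h3 : ∀ y, (mtp_edge_A S y 1 s).indicator (fun ω => FF a S (upd ω s(1, 1 * s) b) y) ω =
        (clus S (upd ω s(1, s) false) 1).indicator (fun _ => FF a S (upd ω s(1, s) b) 1) y := by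
      intro y
      by_cases hy : y ∈ clus S (upd ω s(1, s) false) 1
      · rw [Set.indicator_of_mem hy, Set.indicator_of_mem]
        · rw [one_mul]
          exact mtp_edge_FFeq a _ 1 y (mtp_edge_mono ω s(1, s) b 1 hy)
        · unfold mtp_edge_A
          simp only [one_mul, Set.mem_setOf_eq]
          exact ⟨(mtp_edge_symm _ _ _).1 hy, hs⟩
      · rw [Set.indicator_of_notMem hy, Set.indicator_of_notMem]
        unfold mtp_edge_A
        simp only [one_mul, Set.mem_setOf_eq]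
        rintro ⟨h4, _⟩
        exact hy ((mtp_edge_symm _ _ _).1 h4)
    simp only [h3]
    rw [← tsum_subtype (clus S (upd ω s(1, s) false) 1) (fun _ => FF a S (upd ω s(1, s) b) 1), ENNReal.tsum_set_const]
    rfl
  · rw [Set.indicator_of_notMem (show ω ∉ {ω : Cfg Γ | s ∉ clus S (upd ω s(1, s) false) 1} from hs)]
    rw [ENNReal.tsum_eq_zero]
    intro y
    rw [Set.indicator_of_notMem]
    unfold mtp_edge_A
    simp only [one_mul, Set.mem_setOf_eq]
    rintro ⟨_, h5⟩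
    exact hs h5



--DONE sym_sum


theorem sym_sum [Countable Γ] (S : Finset Γ) (hS : Symm S) (p : ℝ≥0) (hp : p ≤ 1)
    (Ψ : Γ → Γ → Cfg Γ → ℝ≥0∞) (hΨ : ∀ x y, Measurable (Ψ x y))
    (hinv : ∀ g x y ω, Ψ (g * x) (g * y) (shift g ω) = Ψ x y ω) :
    ∑ s ∈ S1 S, ∫⁻ ω, Ψ 1 s ω ∂(bP Γ p hp)
      = ∑ s ∈ S1 S, ∫⁻ ω, Ψ s 1 ω ∂(bP Γ p hp) := by
  have h1 : ∀ s : Γ, ∫⁻ ω, Ψ s 1 ω ∂(bP Γ p hp) = ∫⁻ ω, Ψ 1 s⁻¹ ω ∂(bP Γ p hp) := by
    intro s
    rw [← (shift_mp p hp s⁻¹).lintegral_comp (hΨ 1 s⁻¹)]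
    refine lintegral_congr fun ω => ?_
    rw [← hinv s⁻¹ s 1 ω, inv_mul_cancel, mul_one]
  have hm : ∀ s ∈ S1 S, s⁻¹ ∈ S1 S := by
    intro s hs
    rw [mem_S1] at hs ⊢
    exact ⟨hS s hs.1, inv_ne_one.2 hs.2⟩
  refine Finset.sum_nbij' (fun s => s⁻¹) (fun s => s⁻¹) hm hm (fun s _ => inv_inv s)
    (fun s _ => inv_inv s) (fun s _ => ?_)
  rw [h1 s⁻¹, inv_inv]



--DONE gg_alg


theorem gg_alg (a : ℝ≥0∞) (ha : a ≤ 1) (k l : ℕ) :
    (1 - a ^ k) * (1 - a ^ l) + (1 - a ^ (k + l)) = (1 - a ^ k) + (1 - a ^ l) := by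
  have hane : a ≠ ∞ := ne_top_of_le_ne_top ENNReal.one_ne_top ha
  lift a to ℝ≥0 using hane
  have ha1 : a ≤ 1 := by exact_mod_cast ha
  have hk : a ^ k ≤ 1 := pow_le_one₀ zero_le ha1
  have hl : a ^ l ≤ 1 := pow_le_one₀ zero_le ha1
  have hkl : a ^ (k + l) ≤ 1 := pow_le_one₀ zero_le ha1
  have key : (1 - a ^ k) * (1 - a ^ l) + (1 - a ^ (k + l)) = (1 - a ^ k) + (1 - a ^ l) := by
    apply NNReal.eq
    rw [NNReal.coe_add, NNReal.coe_mul, NNReal.coe_add, NNReal.coe_sub hk, NNReal.coe_sub hl,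
      NNReal.coe_sub hkl, NNReal.coe_one, NNReal.coe_pow, NNReal.coe_pow, NNReal.coe_pow, pow_add]
    ring
  have h2 := congrArg (fun x : ℝ≥0 => (x : ℝ≥0∞)) key
  push_cast at h2
  exact h2



--DONE ghost_sum


theorem ghost_sum_enc {S : Finset Γ} {ω : Cfg Γ} {x : Γ} (h : (clus S ω x).Finite) :
    sz S ω x = ((clus S ω x).ncard : ℝ≥0∞) := by
  unfold sz
  rw [← h.cast_ncard_eq]
  simp

theorem ghost_sum_upd_shift (g : Γ) (ω : Cfg Γ) (x y : Γ) (b : Bool) :
    upd (shift g ω) s(g * x, g * y) b = shift g (upd ω s(x, y) b) := by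
  classical
  funext e
  have h : e = s(g * x, g * y) ↔ e.map (fun z => g⁻¹ * z) = s(x, y) := by
    induction e using Sym2.ind with
    | _ u v =>
      rw [Sym2.map_mk, Sym2.eq_iff, Sym2.eq_iff]
      simp only [inv_mul_eq_iff_eq_mul]
  unfold upd ovr shift
  simp only [Finset.mem_singleton]
  by_cases h1 : e = s(g * x, g * y)
  · rw [if_pos h1, if_pos (h.1 h1)]
  · rw [if_neg h1, if_neg (fun h2 => h1 (h.2 h2))]

theorem ghost_sum_mem_symm (S : Finset Γ) (ω : Cfg Γ) (x y : Γ) :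
    y ∈ clus S ω x ↔ x ∈ clus S ω y :=
  ⟨fun h => SimpleGraph.Reachable.symm h, fun h => SimpleGraph.Reachable.symm h⟩

theorem ghost_sum_meas [Countable Γ] (S : Finset Γ) (x y : Γ) :
    MeasurableSet {ω : Cfg Γ | y ∉ clus S (upd ω s(x, y) false) x} :=
  (meas_upd s(x, y) false (meas_clus S x y)).compl

theorem ghost_sum_gg_shift (a : ℝ≥0∞) (S : Finset Γ) (g : Γ) (ω : Cfg Γ) (x : Γ) :
    gg a S (shift g ω) (g * x) = gg a S ω x := by
  have h := sz_shift (S := S) g ω x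
  unfold sz at h
  have h2 : (clus S (shift g ω) (g * x)).encard = (clus S ω x).encard := by
    exact ENat.toENNReal_inj.1 h
  unfold gg
  rw [Set.ncard_def, Set.ncard_def, h2]

theorem ghost_sum_sym [Countable Γ] (S : Finset Γ) (hS : Symm S) (p : ℝ≥0) (hp : p ≤ 1)
    (Φ : Γ → Γ → Cfg Γ → ℝ≥0∞) (hΦ : ∀ x y, Measurable (Φ x y))
    (hinv : ∀ g x y ω, Φ (g * x) (g * y) (shift g ω) = Φ x y ω) :
    ∑ s ∈ S1 S, ∫⁻ ω in {ω | s ∉ clus S (upd ω s(1, s) false) 1}, Φ 1 s ω ∂(bP Γ p hp)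
      = ∑ s ∈ S1 S, ∫⁻ ω in {ω | s ∉ clus S (upd ω s(1, s) false) 1}, Φ s 1 ω ∂(bP Γ p hp) := by
  have h := sym_sum S hS p hp
    (fun x y => Set.indicator {ω | y ∉ clus S (upd ω s(x, y) false) x} (Φ x y))
    (fun x y => (hΦ x y).indicator (ghost_sum_meas S x y)) (by
      intro g x y ω
      have hiff : g * y ∉ clus S (upd (shift g ω) s(g * x, g * y) false) (g * x) ↔
          y ∉ clus S (upd ω s(x, y) false) x := by
        rw [ghost_sum_upd_shift, mem_clus_shift]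
      by_cases hy : y ∉ clus S (upd ω s(x, y) false) x
      · have h1 : ω ∈ {ω : Cfg Γ | y ∉ clus S (upd ω s(x, y) false) x} := hy
        have h2 : shift g ω ∈ {ω : Cfg Γ | g * y ∉ clus S (upd ω s(g * x, g * y) false) (g * x)} :=
          hiff.2 hy
        simp only [Set.indicator_of_mem h1, Set.indicator_of_mem h2, hinv]
      · have h1 : ω ∉ {ω : Cfg Γ | y ∉ clus S (upd ω s(x, y) false) x} := hy
        have h2 : shift g ω ∉ {ω : Cfg Γ | g * y ∉ clus S (upd ω s(g * x, g * y) false) (g * x)} :=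
          fun h => hy (hiff.1 h)
        simp only [Set.indicator_of_notMem h1, Set.indicator_of_notMem h2])
  refine Eq.trans ?_ (h.trans ?_)
  · refine Finset.sum_congr rfl fun s _ => ?_
    exact (lintegral_indicator (ghost_sum_meas S 1 s) _).symm
  · refine Finset.sum_congr rfl fun s _ => ?_
    refine (lintegral_indicator (ghost_sum_meas S s 1) _).trans ?_
    have e : {ω : Cfg Γ | 1 ∉ clus S (upd ω s(s, 1) false) s} =
        {ω | s ∉ clus S (upd ω s(1, s) false) 1} := by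
      ext ω
      simp only [Set.mem_ofPred_eq]
      rw [ghost_sum_mem_symm, Sym2.eq_swap]
    rw [e]

/-- pointwise identities -/
theorem ghost_sum_pt (S : Finset Γ) (a : ℝ≥0∞) (ha : a ≤ 1) (s : Γ) (hs : s ∈ S1 S) (ω : Cfg Γ)
    (hfin : ∀ x : Γ, (clus S ω x).Finite) (hsep : s ∉ clus S (upd ω s(1, s) false) 1) :
    sz S (upd ω s(1, s) false) 1 * FF a S (upd ω s(1, s) false) 1 =
      gg a S (upd ω s(1, s) false) 1 ∧
    gg a S (upd ω s(1, s) false) 1 * gg a S (upd ω s(1, s) false) s +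
      (sz S (upd ω s(1, s) false) 1 * FF a S (upd ω s(1, s) true) 1 +
       sz S (upd ω s(1, s) false) s * FF a S (upd ω s(1, s) true) s) =
      gg a S (upd ω s(1, s) false) 1 + gg a S (upd ω s(1, s) false) s := by
  classical
  have hle : ∀ e, (upd ω s(1, s) false) e = true → ω e = true := by
    intro e he
    unfold upd ovr at he
    simp only [Finset.mem_singleton] at he
    by_cases h1 : e = s(1, s)
    · rw [if_pos h1] at he
      exact absurd he (by simp)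
    · rwa [if_neg h1] at he
  have hf1 : (clus S (upd ω s(1, s) false) 1).Finite := (hfin 1).subset (clus_mono hle 1)
  have hf2 : (clus S (upd ω s(1, s) false) s).Finite := (hfin s).subset (clus_mono hle s)
  have h11 : (1 : Γ) ∈ clus S (upd ω s(1, s) false) 1 := SimpleGraph.Reachable.refl _
  have hss : s ∈ clus S (upd ω s(1, s) false) s := SimpleGraph.Reachable.refl _
  have hdisj : Disjoint (clus S (upd ω s(1, s) false) 1) (clus S (upd ω s(1, s) false) s) := by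
    rw [Set.disjoint_left]
    intro y h1 h2
    exact hsep (SimpleGraph.Reachable.trans h1 (SimpleGraph.Reachable.symm h2))
  have hadj : (cay S).Adj 1 s := by
    rw [mem_S1] at hs
    exact ⟨Ne.symm hs.2, Or.inl (by show (1 : Γ)⁻¹ * s ∈ S; rw [inv_one, one_mul]; exact hs.1)⟩
  have ht1 : clus S (upd ω s(1, s) true) 1 =
      clus S (upd ω s(1, s) false) 1 ∪ clus S (upd ω s(1, s) false) s :=
    clus_upd_bridge 1 s 1 hadj ω h11
  have ht2 : clus S (upd ω s(1, s) true) s =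
      clus S (upd ω s(1, s) false) 1 ∪ clus S (upd ω s(1, s) false) s := by
    have h := clus_upd_bridge s 1 s hadj.symm ω (by rw [Sym2.eq_swap]; exact hss)
    rw [Sym2.eq_swap] at h
    rw [h, Set.union_comm]
  set C1 := clus S (upd ω s(1, s) false) 1 with hC1
  set C2 := clus S (upd ω s(1, s) false) s with hC2
  have hk : C1.ncard ≠ 0 := by
    rw [Ne, Set.ncard_eq_zero hf1]
    exact Set.Nonempty.ne_empty ⟨1, h11⟩
  have hl : C2.ncard ≠ 0 := by
    rw [Ne, Set.ncard_eq_zero hf2]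
    exact Set.Nonempty.ne_empty ⟨s, hss⟩
  have hu : (C1 ∪ C2).ncard = C1.ncard + C2.ncard := Set.ncard_union_eq hdisj hf1 hf2
  have e1 : sz S (upd ω s(1, s) false) 1 = (C1.ncard : ℝ≥0∞) := ghost_sum_enc hf1
  have e2 : sz S (upd ω s(1, s) false) s = (C2.ncard : ℝ≥0∞) := ghost_sum_enc hf2
  have e3 : sz S (upd ω s(1, s) true) 1 = ((C1.ncard + C2.ncard : ℕ) : ℝ≥0∞) := by
    rw [ghost_sum_enc (by rw [ht1]; exact hf1.union hf2), ht1, hu]
  have e4 : sz S (upd ω s(1, s) true) s = ((C1.ncard + C2.ncard : ℕ) : ℝ≥0∞) := by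
    rw [ghost_sum_enc (by rw [ht2]; exact hf1.union hf2), ht2, hu]
  have g1 : gg a S (upd ω s(1, s) false) 1 = 1 - a ^ C1.ncard := rfl
  have g2 : gg a S (upd ω s(1, s) false) s = 1 - a ^ C2.ncard := rfl
  have g3 : gg a S (upd ω s(1, s) true) 1 = 1 - a ^ (C1.ncard + C2.ncard) := by
    unfold gg
    rw [ht1, hu]
  have g4 : gg a S (upd ω s(1, s) true) s = 1 - a ^ (C1.ncard + C2.ncard) := by
    unfold gg
    rw [ht2, hu]
  constructor
  · unfold FF
    rw [e1, g1]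
    exact ENNReal.mul_div_cancel (by exact_mod_cast hk) (ENNReal.natCast_ne_top _)
  · unfold FF
    rw [e1, e2, e3, e4, g1, g2, g3, g4, ← add_mul]
    have h5 : ((C1.ncard : ℝ≥0∞) + (C2.ncard : ℝ≥0∞)) = ((C1.ncard + C2.ncard : ℕ) : ℝ≥0∞) := by
      push_cast
      rfl
    rw [h5, ENNReal.mul_div_cancel (by
      have : C1.ncard + C2.ncard ≠ 0 := by omega
      exact_mod_cast this) (ENNReal.natCast_ne_top _)]
    exact gg_alg a ha _ _

/-- sum of the two parts: edges separating two clusters -/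
theorem ghost_sum [Countable Γ] (S : Finset Γ) (hS : Symm S) (p : ℝ≥0) (hp : p ≤ 1)
    (hf : Fin0 S p hp) (a : ℝ≥0∞) (ha : a ≤ 1) :
    (∑ s ∈ S1 S, ∫⁻ ω in {ω | s ∉ clus S (upd ω s(1, s) false) 1},
        gg a S (upd ω s(1, s) false) 1 * gg a S (upd ω s(1, s) false) s ∂(bP Γ p hp))
      + 2 * ∑ s ∈ S1 S, ∫⁻ ω in {ω | s ∉ clus S (upd ω s(1, s) false) 1},
            sz S (upd ω s(1, s) false) 1 * FF a S (upd ω s(1, s) true) 1 ∂(bP Γ p hp)
      = 2 * ∑ s ∈ S1 S, ∫⁻ ω in {ω | s ∉ clus S (upd ω s(1, s) false) 1},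
            sz S (upd ω s(1, s) false) 1 * FF a S (upd ω s(1, s) false) 1 ∂(bP Γ p hp) := by
  have hae := fin_all p hp S hf
  have m1 : ∀ s : Γ, MeasurableSet {ω : Cfg Γ | s ∉ clus S (upd ω s(1, s) false) 1} :=
    fun s => ghost_sum_meas S 1 s
  -- symmetry for gg
  have y1 := ghost_sum_sym S hS p hp (fun x y ω => gg a S (upd ω s(x, y) false) x)
    (fun x y => (meas_gg a S x).comp (meas_upd _ _)) (by
      intro g x y ω
      rw [ghost_sum_upd_shift, ghost_sum_gg_shift])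
  have y2 := ghost_sum_sym S hS p hp
    (fun x y ω => sz S (upd ω s(x, y) false) x * FF a S (upd ω s(x, y) true) x)
    (fun x y => ((meas_sz S x).comp (meas_upd _ _)).mul ((meas_FF a S x).comp (meas_upd _ _))) (by
      intro g x y ω
      rw [ghost_sum_upd_shift, ghost_sum_upd_shift, sz_shift]
      unfold FF
      rw [ghost_sum_gg_shift, sz_shift])
  have y1' : ∑ s ∈ S1 S, ∫⁻ ω in {ω | s ∉ clus S (upd ω s(1, s) false) 1},
        gg a S (upd ω s(s, 1) false) s ∂(bP Γ p hp) =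
      ∑ s ∈ S1 S, ∫⁻ ω in {ω | s ∉ clus S (upd ω s(1, s) false) 1},
        gg a S (upd ω s(1, s) false) s ∂(bP Γ p hp) :=
    Finset.sum_congr rfl fun s _ => by rw [Sym2.eq_swap (a := s) (b := 1)]
  have y2' : ∑ s ∈ S1 S, ∫⁻ ω in {ω | s ∉ clus S (upd ω s(1, s) false) 1},
        sz S (upd ω s(s, 1) false) s * FF a S (upd ω s(s, 1) true) s ∂(bP Γ p hp) =
      ∑ s ∈ S1 S, ∫⁻ ω in {ω | s ∉ clus S (upd ω s(1, s) false) 1},
        sz S (upd ω s(1, s) false) s * FF a S (upd ω s(1, s) true) s ∂(bP Γ p hp) :=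
    Finset.sum_congr rfl fun s _ => by rw [Sym2.eq_swap (a := s) (b := 1)]
  rw [y1'] at y1
  rw [y2'] at y2
  -- rewrite the right-hand side
  have y3 : ∑ s ∈ S1 S, ∫⁻ ω in {ω | s ∉ clus S (upd ω s(1, s) false) 1},
            sz S (upd ω s(1, s) false) 1 * FF a S (upd ω s(1, s) false) 1 ∂(bP Γ p hp) =
      ∑ s ∈ S1 S, ∫⁻ ω in {ω | s ∉ clus S (upd ω s(1, s) false) 1},
            gg a S (upd ω s(1, s) false) 1 ∂(bP Γ p hp) := by
    refine Finset.sum_congr rfl fun s hs => ?_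
    refine setLIntegral_congr_fun_ae (m1 s) ?_
    filter_upwards [hae] with ω hω hsep
    exact (ghost_sum_pt S a ha s hs ω hω hsep).1
  have y4 : (∑ s ∈ S1 S, ∫⁻ ω in {ω | s ∉ clus S (upd ω s(1, s) false) 1},
        gg a S (upd ω s(1, s) false) 1 * gg a S (upd ω s(1, s) false) s ∂(bP Γ p hp)) +
      ((∑ s ∈ S1 S, ∫⁻ ω in {ω | s ∉ clus S (upd ω s(1, s) false) 1},
        sz S (upd ω s(1, s) false) 1 * FF a S (upd ω s(1, s) true) 1 ∂(bP Γ p hp)) +
       ∑ s ∈ S1 S, ∫⁻ ω in {ω | s ∉ clus S (upd ω s(1, s) false) 1},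
        sz S (upd ω s(1, s) false) s * FF a S (upd ω s(1, s) true) s ∂(bP Γ p hp)) =
      (∑ s ∈ S1 S, ∫⁻ ω in {ω | s ∉ clus S (upd ω s(1, s) false) 1},
        gg a S (upd ω s(1, s) false) 1 ∂(bP Γ p hp)) +
      ∑ s ∈ S1 S, ∫⁻ ω in {ω | s ∉ clus S (upd ω s(1, s) false) 1},
        gg a S (upd ω s(1, s) false) s ∂(bP Γ p hp) := by
    rw [← Finset.sum_add_distrib, ← Finset.sum_add_distrib, ← Finset.sum_add_distrib]
    refine Finset.sum_congr rfl fun s hs => ?_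
    have mg1 : Measurable (fun ω : Cfg Γ => gg a S (upd ω s(1, s) false) 1) :=
      (meas_gg a S 1).comp (meas_upd _ _)
    have mg2 : Measurable (fun ω : Cfg Γ => gg a S (upd ω s(1, s) false) s) :=
      (meas_gg a S s).comp (meas_upd _ _)
    have mz1 : Measurable (fun ω : Cfg Γ =>
        sz S (upd ω s(1, s) false) 1 * FF a S (upd ω s(1, s) true) 1) :=
      ((meas_sz S 1).comp (meas_upd _ _)).mul ((meas_FF a S 1).comp (meas_upd _ _))
    have mg12 : Measurable (fun ω : Cfg Γ => gg a S (upd ω s(1, s) false) 1 *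
        gg a S (upd ω s(1, s) false) s) := mg1.mul mg2
    rw [← lintegral_add_left mz1, ← lintegral_add_left mg12, ← lintegral_add_left mg1]
    refine setLIntegral_congr_fun_ae (m1 s) ?_
    filter_upwards [hae] with ω hω hsep
    exact (ghost_sum_pt S a ha s hs ω hω hsep).2
  rw [y3]
  calc _ = (∑ s ∈ S1 S, ∫⁻ ω in {ω | s ∉ clus S (upd ω s(1, s) false) 1},
        gg a S (upd ω s(1, s) false) 1 * gg a S (upd ω s(1, s) false) s ∂(bP Γ p hp)) +
      ((∑ s ∈ S1 S, ∫⁻ ω in {ω | s ∉ clus S (upd ω s(1, s) false) 1},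
        sz S (upd ω s(1, s) false) 1 * FF a S (upd ω s(1, s) true) 1 ∂(bP Γ p hp)) +
       ∑ s ∈ S1 S, ∫⁻ ω in {ω | s ∉ clus S (upd ω s(1, s) false) 1},
        sz S (upd ω s(1, s) false) 1 * FF a S (upd ω s(1, s) true) 1 ∂(bP Γ p hp)) := by
        rw [two_mul]
    _ = _ := by
        conv_lhs => rw [show ∀ A B : ℝ≥0∞, A + (B + B) = A + (B + B) from fun _ _ => rfl]
        nth_rewrite 2 [y2]
        rw [y4, ← y1, two_mul]



--DONE ghost_id


theorem ghost_id_split [Countable Γ] (S : Finset Γ) (hS : Symm S) (p : ℝ≥0) (hp : p ≤ 1)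
    (a : ℝ≥0∞) (b : Bool) :
    ∑' e : Sym2 Γ, ∫⁻ ω in {ω | e ∈ (cay S).edgeSet ∧ tch S e ω}, FF a S (upd ω e b) 1
        ∂(bP Γ p hp)
      = (∑ s ∈ S1 S, ∫⁻ ω in {ω | s ∉ clus S (upd ω s(1, s) false) 1},
            sz S (upd ω s(1, s) false) 1 * FF a S (upd ω s(1, s) b) 1 ∂(bP Γ p hp)) +
        ∑' e : Sym2 Γ, ∫⁻ ω in {ω | e ∈ (cay S).edgeSet ∧ tch S e ω} \ {ω | sep S e ω},
          FF a S (upd ω e false) 1 ∂(bP Γ p hp) := by
  have h1 := split_edge S hS p hp (fun e ω => FF a S (upd ω e b) 1)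
    (fun e => (meas_FF a S 1).comp (meas_upd e b))
  rw [mtp_edge S hS p hp a b] at h1
  rw [← h1, ← ENNReal.tsum_add]
  refine tsum_congr (fun e => ?_)
  rw [← lintegral_inter_add_diff (fun ω => FF a S (upd ω e b) 1)
    {ω | e ∈ (cay S).edgeSet ∧ tch S e ω} (meas_sep S e)]
  congr 1
  · congr 2
    ext ω
    simp only [Set.mem_inter_iff, Set.mem_setOf_eq, and_assoc]
  · have hmeas : MeasurableSet ({ω : Cfg Γ | e ∈ (cay S).edgeSet ∧ tch S e ω} \
        {ω | sep S e ω}) := by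
      apply MeasurableSet.diff _ (meas_sep S e)
      exact (MeasurableSet.const _).inter (meas_tch S e)
    refine setLIntegral_congr_fun hmeas ?_
    rintro ω ⟨⟨h2, h3⟩, h4⟩
    cases b with
    | false => rfl
    | true =>
      have h5 := clus_upd_con e h2 1 ω h4
      show FF a S (upd ω e true) 1 = FF a S (upd ω e false) 1
      unfold FF gg sz
      rw [h5]

theorem ghost_id [Countable Γ] (S : Finset Γ) (hS : Symm S) (p : ℝ≥0) (hp : p ≤ 1)
    (h0 : 0 < p) (h1 : p < 1) (hf : Fin0 S p hp) (a : ℝ≥0∞) (ha : a ≤ 1) :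
    (∑ s ∈ S1 S, ∫⁻ ω in {ω | s ∉ clus S (upd ω s(1, s) false) 1},
        gg a S (upd ω s(1, s) false) 1 * gg a S (upd ω s(1, s) false) s ∂(bP Γ p hp))
      + 2 * ∫⁻ ω, FF a S ω 1 * (ne S true ω / p) ∂(bP Γ p hp)
      = 2 * ∫⁻ ω, FF a S ω 1 * (ne S false ω / (1 - p : ℝ≥0)) ∂(bP Γ p hp) := by
  rw [ne_int_true S p hp h0 (fun ω => FF a S ω 1) (meas_FF a S 1),
    ne_int_false S p hp h1 (fun ω => FF a S ω 1) (meas_FF a S 1),
    ghost_id_split S hS p hp a true, ghost_id_split S hS p hp a false, mul_add, mul_add,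
    ← add_assoc, ghost_sum S hS p hp hf a ha]



--DONE ne_le


theorem ne_le_edge_empty (e : Sym2 Γ) : e ∉ (cay (∅ : Finset Γ)).edgeSet := by
  induction e using Sym2.ind with
  | _ x y =>
    rw [SimpleGraph.mem_edgeSet]
    simp [cay, SimpleGraph.fromRel_adj]

theorem ne_le (S : Finset Γ) (hS : Symm S) (b : Bool) (ω : Cfg Γ) :
    ne S b ω ≤ S.card * sz S ω 1 := by
  by_cases hfin : (clus S ω 1).Finite
  · obtain ⟨H, hH⟩ := hfin.exists_finset_coe
    have hsz : sz S ω 1 = (H.card : ℝ≥0∞) := by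
      unfold sz
      rw [← hH, Set.encard_coe_eq_coe_finsetCard, ENat.toENNReal_coe]
    have h1 : ne S b ω = ∑ e ∈ T S H, Set.indicator
        {e | e ∈ (cay S).edgeSet ∧ (∃ v ∈ e, v ∈ clus S ω 1) ∧ ω e = b}
        (fun _ => (1 : ℝ≥0∞)) e := by
      unfold ne
      apply tsum_eq_sum
      intro e he
      apply Set.indicator_of_notMem
      rintro ⟨h2, ⟨v, hv, hv'⟩, h3⟩
      apply he
      rw [mem_T hS]
      refine ⟨h2, v, hv, ?_⟩
      rw [← hH] at hv'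
      exact_mod_cast hv'
    have h2 : ne S b ω ≤ ((T S H).card : ℝ≥0∞) := by
      rw [h1]
      calc ∑ e ∈ T S H, Set.indicator
            {e | e ∈ (cay S).edgeSet ∧ (∃ v ∈ e, v ∈ clus S ω 1) ∧ ω e = b}
            (fun _ => (1 : ℝ≥0∞)) e ≤ ∑ e ∈ T S H, (1 : ℝ≥0∞) :=
            Finset.sum_le_sum fun e _ => Set.indicator_le_self' (fun _ _ => zero_le) e
        _ = ((T S H).card : ℝ≥0∞) := by simp
    refine h2.trans ?_
    rw [hsz]
    exact_mod_cast card_T (S := S) H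
  · have hsz : sz S ω 1 = ⊤ := by
      unfold sz
      rw [Set.encard_eq_top (Set.not_finite.1 hfin)]
      rfl
    by_cases hc : S = ∅
    · subst hc
      have : ne (∅ : Finset Γ) b ω = 0 := by
        unfold ne
        rw [ENNReal.tsum_eq_zero]
        intro e
        apply Set.indicator_of_notMem
        rintro ⟨h2, _, _⟩
        exact ne_le_edge_empty e h2
      rw [this]
      exact zero_le
    · rw [hsz, ENNReal.mul_top]
      · exact le_top
      · have : S.card ≠ 0 := by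
          rw [Ne, Finset.card_eq_zero]
          exact hc
        exact_mod_cast this



--DONE ghost_bound


theorem ghost_bound_meas_ne [Countable Γ] (S : Finset Γ) (b : Bool) :
    Measurable (fun ω : Cfg Γ => ne S b ω) := by
  unfold ne
  refine Measurable.ennreal_tsum (fun e => ?_)
  have h1 : (fun ω : Cfg Γ => Set.indicator
      {e | e ∈ (cay S).edgeSet ∧ (∃ v ∈ e, v ∈ clus S ω 1) ∧ ω e = b} (fun _ => (1 : ℝ≥0∞)) e) =
      Set.indicator {ω : Cfg Γ | e ∈ (cay S).edgeSet ∧ (∃ v ∈ e, v ∈ clus S ω 1) ∧ ω e = b}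
        (fun _ => 1) := by
    funext ω
    by_cases hc : e ∈ (cay S).edgeSet ∧ (∃ v ∈ e, v ∈ clus S ω 1) ∧ ω e = b
    · rw [Set.indicator_of_mem (show e ∈ {e | e ∈ (cay S).edgeSet ∧ (∃ v ∈ e, v ∈ clus S ω 1) ∧
        ω e = b} from hc), Set.indicator_of_mem (show ω ∈ {ω : Cfg Γ | e ∈ (cay S).edgeSet ∧
        (∃ v ∈ e, v ∈ clus S ω 1) ∧ ω e = b} from hc)]
    · rw [Set.indicator_of_notMem (show e ∉ {e | e ∈ (cay S).edgeSet ∧ (∃ v ∈ e, v ∈ clus S ω 1) ∧
        ω e = b} from hc), Set.indicator_of_notMem (show ω ∉ {ω : Cfg Γ | e ∈ (cay S).edgeSet ∧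
        (∃ v ∈ e, v ∈ clus S ω 1) ∧ ω e = b} from hc)]
  rw [h1]
  refine measurable_const.indicator ?_
  refine (MeasurableSet.const _).inter (MeasurableSet.inter ?_ ?_)
  · have h2 : {ω : Cfg Γ | ∃ v ∈ e, v ∈ clus S ω 1} =
        ⋃ v, ⋃ (_ : v ∈ e), {ω : Cfg Γ | v ∈ clus S ω 1} := by
      ext ω; simp
    show MeasurableSet {ω : Cfg Γ | ∃ v ∈ e, v ∈ clus S ω 1}
    rw [h2]
    exact MeasurableSet.iUnion fun v => MeasurableSet.iUnion fun _ => meas_clus S 1 v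
  · have h3 : Measurable (fun ω : Cfg Γ => ω e) := measurable_pi_apply e
    exact h3 (measurableSet_singleton b)

theorem ghost_bound_FF (S : Finset Γ) (h : ℝ≥0) (hh : h ≤ 1) (ω : Cfg Γ)
    (hfin : (clus S ω 1).Finite) :
    FF (1 - h : ℝ≥0) S ω 1 ≤ h ∧ FF (1 - h : ℝ≥0) S ω 1 * sz S ω 1 ≤ 1 := by
  have hsz : sz S ω 1 = ((clus S ω 1).ncard : ℝ≥0∞) := by
    unfold sz
    rw [← hfin.cast_ncard_eq, ENat.toENNReal_coe]
  have hne0 : sz S ω 1 ≠ 0 := fun h0 => by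
    have := one_le_sz S ω 1
    rw [h0] at this
    exact absurd this (by simp)
  have hnet : sz S ω 1 ≠ ⊤ := by rw [hsz]; exact ENNReal.natCast_ne_top _
  constructor
  · unfold FF
    refine ENNReal.div_le_of_le_mul ?_
    rw [hsz]
    unfold gg
    rw [tsub_le_iff_left]
    have h1 : (1 : ℝ≥0) ≤ (1 - h) ^ (clus S ω 1).ncard + h * ((clus S ω 1).ncard : ℝ≥0) := by
      rw [← NNReal.coe_le_coe]
      push_cast [NNReal.coe_sub hh]
      have h2 := one_add_mul_le_pow (a := -(h : ℝ))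
        (by have : (h : ℝ) ≤ 1 := by exact_mod_cast hh
            linarith) (clus S ω 1).ncard
      have e : (1 : ℝ) + -(h : ℝ) = 1 - h := by ring
      rw [e] at h2
      linarith
    exact_mod_cast h1
  · unfold FF
    rw [ENNReal.div_mul_cancel hne0 hnet]
    unfold gg
    exact tsub_le_self

theorem ghost_bound [Countable Γ] (S : Finset Γ) (hS : Symm S) (p : ℝ≥0) (hp : p ≤ 1)
    (h0 : 0 < p) (h1 : p < 1) (hf : Fin0 S p hp) (h : ℝ≥0) (hh : h ≤ 1) (l : ℝ≥0) (m : ℕ) :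
    (∑ s ∈ S1 S, ∫⁻ ω in {ω | s ∉ clus S (upd ω s(1, s) false) 1},
        gg (1 - h : ℝ≥0) S (upd ω s(1, s) false) 1 * gg (1 - h : ℝ≥0) S (upd ω s(1, s) false) s
          ∂(bP Γ p hp))
      ≤ 2 * ((l : ℝ≥0∞) + (S.card : ℝ≥0∞) / (1 - p : ℝ≥0) * (h * m)
        + (S.card : ℝ≥0∞) / (1 - p : ℝ≥0) * bP Γ p hp {ω | (clus S ω 1).Finite ∧
            (m : ℝ≥0∞) ≤ sz S ω 1 ∧
            ne S true ω / p + l * sz S ω 1 ≤ ne S false ω / (1 - p : ℝ≥0)}) := by
  classical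
  obtain ⟨Tl, hTl⟩ : ∃ Tl : Set (Cfg Γ), Tl = {ω | (clus S ω 1).Finite ∧
            (m : ℝ≥0∞) ≤ sz S ω 1 ∧
            ne S true ω / p + l * sz S ω 1 ≤ ne S false ω / (1 - p : ℝ≥0)} := ⟨_, rfl⟩
  rw [← hTl]
  have hid := ghost_id S hS p hp h0 h1 hf ((1 - h : ℝ≥0) : ℝ≥0∞)
    (by exact_mod_cast (tsub_le_self : (1 : ℝ≥0) - h ≤ 1))
  obtain ⟨q, hq⟩ : ∃ q : ℝ≥0∞, q = ((1 - p : ℝ≥0) : ℝ≥0∞) := ⟨_, rfl⟩
  have hq0 : q ≠ 0 := by
    rw [hq]
    have : (0 : ℝ≥0) < 1 - p := tsub_pos_of_lt h1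
    exact_mod_cast this.ne'
  obtain ⟨s, hs⟩ : ∃ s : ℝ≥0∞, s = (S.card : ℝ≥0∞) := ⟨_, rfl⟩
  have hst : s ≠ ⊤ := by rw [hs]; exact ENNReal.natCast_ne_top _
  have hsq : s / q ≠ ⊤ := ENNReal.div_ne_top hst hq0
  have hae : ∀ᵐ ω ∂(bP Γ p hp), (clus S ω 1).Finite := by
    rw [ae_iff]; exact hf
  -- pointwise inequality
  have hpt : ∀ ω : Cfg Γ, (clus S ω 1).Finite →
      FF (1 - h : ℝ≥0) S ω 1 * (ne S false ω / q) ≤
        (FF (1 - h : ℝ≥0) S ω 1 * (ne S true ω / p) + (l + s / q * (h * m))) +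
          s / q * Tl.indicator 1 ω := by
    intro ω hfin
    obtain ⟨hF1, hF2⟩ := ghost_bound_FF S h hh ω hfin
    have hA := ne_le S hS false ω
    rw [← hs] at hA
    obtain ⟨F, hF⟩ : ∃ F : ℝ≥0∞, F = FF (1 - h : ℝ≥0) S ω 1 := ⟨_, rfl⟩
    rw [← hF] at hF1 hF2 ⊢
    by_cases hm : sz S ω 1 ≤ m
    · have h3 : F * (ne S false ω / q) ≤ s / q * (h * m) := by
        simp only [div_eq_mul_inv]
        calc F * (ne S false ω * q⁻¹) ≤ h * ((s * m) * q⁻¹) := by
              gcongr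
              exact hA.trans (by gcongr)
          _ = s * q⁻¹ * (h * m) := by ring
      refine h3.trans ?_
      refine le_trans ?_ le_self_add
      refine le_trans ?_ le_add_self
      exact le_add_self
    · by_cases hT : ω ∈ Tl
      · have h3 : F * (ne S false ω / q) ≤ s / q * 1 := by
          simp only [div_eq_mul_inv]
          calc F * (ne S false ω * q⁻¹) ≤ F * ((s * sz S ω 1) * q⁻¹) := by gcongr
            _ = (F * sz S ω 1) * (s * q⁻¹) := by ring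
            _ ≤ 1 * (s * q⁻¹) := by gcongr
            _ = s * q⁻¹ * 1 := by ring
        refine h3.trans ?_
        rw [Set.indicator_of_mem hT]
        exact le_add_self
      · have h4 : ne S false ω / q ≤ ne S true ω / p + l * sz S ω 1 := by
          rw [hTl] at hT
          have h5 : ¬ ((clus S ω 1).Finite ∧ (m : ℝ≥0∞) ≤ sz S ω 1 ∧
            ne S true ω / p + l * sz S ω 1 ≤ ne S false ω / (1 - p : ℝ≥0)) := hT
          rw [hq]
          by_contra h6
          exact h5 ⟨hfin, (not_le.1 hm).le, (not_le.1 h6).le⟩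
        have h3 : F * (ne S false ω / q) ≤ F * (ne S true ω / p) + l := by
          calc F * (ne S false ω / q) ≤ F * (ne S true ω / p + l * sz S ω 1) := by gcongr
            _ = F * (ne S true ω / p) + l * (F * sz S ω 1) := by ring
            _ ≤ F * (ne S true ω / p) + l * 1 := by gcongr
            _ = F * (ne S true ω / p) + l := by rw [mul_one]
        refine h3.trans ?_
        refine le_trans ?_ le_self_add
        gcongr
        exact le_self_add
  have hmeasF : Measurable fun ω : Cfg Γ => FF (1 - h : ℝ≥0) S ω 1 * (ne S true ω / p) :=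
    (meas_FF _ S 1).mul ((ghost_bound_meas_ne S true).div_const _)
  have hIf : ∫⁻ ω, FF (1 - h : ℝ≥0) S ω 1 * (ne S false ω / q) ∂(bP Γ p hp) ≤
      (∫⁻ ω, FF (1 - h : ℝ≥0) S ω 1 * (ne S true ω / p) ∂(bP Γ p hp)) +
        (l + s / q * (h * m)) + s / q * bP Γ p hp Tl := by
    refine (lintegral_mono_ae (hae.mono hpt)).trans ?_
    rw [lintegral_add_left (hmeasF.add_const _), lintegral_add_right _ measurable_const,
      lintegral_const, measure_univ, mul_one, lintegral_const_mul' _ _ hsq]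
    gcongr
    exact lintegral_indicator_one_le Tl
  -- finiteness of the cancelled term
  have hItfin : ∫⁻ ω, FF (1 - h : ℝ≥0) S ω 1 * (ne S true ω / p) ∂(bP Γ p hp) ≠ ⊤ := by
    have hp0 : (p : ℝ≥0∞) ≠ 0 := by exact_mod_cast h0.ne'
    refine ne_top_of_le_ne_top (ENNReal.div_ne_top hst hp0) ?_
    have : ∫⁻ ω, FF (1 - h : ℝ≥0) S ω 1 * (ne S true ω / p) ∂(bP Γ p hp) ≤
        ∫⁻ _ω : Cfg Γ, s / p ∂(bP Γ p hp) := by
      refine lintegral_mono_ae (hae.mono fun ω hfin => ?_)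
      obtain ⟨hF1, hF2⟩ := ghost_bound_FF S h hh ω hfin
      have hA := ne_le S hS true ω
      rw [← hs] at hA
      simp only [div_eq_mul_inv]
      calc FF (1 - h : ℝ≥0) S ω 1 * (ne S true ω * (p : ℝ≥0∞)⁻¹) ≤
            FF (1 - h : ℝ≥0) S ω 1 * ((s * sz S ω 1) * (p : ℝ≥0∞)⁻¹) := by gcongr
        _ = (FF (1 - h : ℝ≥0) S ω 1 * sz S ω 1) * (s * (p : ℝ≥0∞)⁻¹) := by ring
        _ ≤ 1 * (s * (p : ℝ≥0∞)⁻¹) := by gcongr
        _ = s * (p : ℝ≥0∞)⁻¹ := by rw [one_mul]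
    refine this.trans ?_
    rw [lintegral_const, measure_univ, mul_one]
  rw [← hq] at hid ⊢
  rw [← hs]
  refine ENNReal.le_of_add_le_add_right (ENNReal.mul_ne_top ENNReal.ofNat_ne_top hItfin) ?_
    (a := 2 * ∫⁻ ω, FF (1 - h : ℝ≥0) S ω 1 * (ne S true ω / p) ∂(bP Γ p hp))
  rw [hid]
  calc 2 * ∫⁻ ω, FF (1 - h : ℝ≥0) S ω 1 * (ne S false ω / q) ∂(bP Γ p hp)
      ≤ 2 * ((∫⁻ ω, FF (1 - h : ℝ≥0) S ω 1 * (ne S true ω / p) ∂(bP Γ p hp)) +
        (l + s / q * (h * m)) + s / q * bP Γ p hp Tl) := by gcongr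
    _ = _ := by ring



/-- two distinct clusters of size at least `m` -/
def D2 (S : Finset Γ) (m : ℕ) (x y : Γ) : Set (Cfg Γ) :=
  {ω | y ∉ clus S ω x ∧ (m : ℝ≥0∞) ≤ sz S ω x ∧ (m : ℝ≥0∞) ≤ sz S ω y}

--DONE meas_D2


theorem meas_D2 [Countable Γ] (S : Finset Γ) (m : ℕ) (x y : Γ) :
    MeasurableSet (D2 S m x y) := by
  have h1 := (meas_clus S x y).compl
  have h2 : MeasurableSet {ω : Cfg Γ | (m : ℝ≥0∞) ≤ sz S ω x} := measurableSet_le measurable_const (meas_sz S x)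
  have h3 : MeasurableSet {ω : Cfg Γ | (m : ℝ≥0∞) ≤ sz S ω y} := measurableSet_le measurable_const (meas_sz S y)
  exact h1.inter (h2.inter h3)




--DONE shift_D2


theorem shift_D2 [Countable Γ] (S : Finset Γ) (m : ℕ) (p : ℝ≥0) (hp : p ≤ 1) (g x y : Γ) :
    bP Γ p hp (D2 S m (g * x) (g * y)) = bP Γ p hp (D2 S m x y) := by
  have h := (shift_mp (Γ := Γ) p hp g).measure_preimage (meas_D2 S m (g * x) (g * y)).nullMeasurableSet
  rw [← h]
  congr 1
  ext ω
  simp only [D2, Set.mem_preimage, Set.mem_setOf_eq, mem_clus_shift, sz_shift]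



--DONE ghost_ge


theorem ghost_ge_pow (m : ℕ) (hm : 1 ≤ m) :
    (((1 - (m : ℝ≥0)⁻¹ : ℝ≥0) : ℝ≥0∞)) ^ m ≤ 2⁻¹ := by
  have hm0 : (0 : ℝ) < m := by exact_mod_cast hm
  have h1 : (m : ℝ≥0)⁻¹ ≤ 1 := by
    rw [← inv_one]
    exact inv_anti₀ one_pos (by exact_mod_cast hm)
  have h2 : ((1 - (m : ℝ≥0)⁻¹ : ℝ≥0) : ℝ) = 1 - (m : ℝ)⁻¹ := by
    rw [NNReal.coe_sub h1]; simp
  have h3 : (1 - (m : ℝ)⁻¹) ^ m ≤ 1 / 2 := by
    have a1 : 1 - (m : ℝ)⁻¹ ≤ Real.exp (-(m : ℝ)⁻¹) := by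
      have := Real.add_one_le_exp (-(m : ℝ)⁻¹)
      linarith
    have a0 : 0 ≤ 1 - (m : ℝ)⁻¹ := by rw [← h2]; exact NNReal.coe_nonneg _
    have a2 : (1 - (m : ℝ)⁻¹) ^ m ≤ Real.exp (-(m : ℝ)⁻¹) ^ m := pow_le_pow_left₀ a0 a1 m
    have a3 : Real.exp (-(m : ℝ)⁻¹) ^ m = Real.exp (-1) := by
      rw [← Real.exp_nat_mul]
      congr 1
      field_simp
    have a4 : Real.exp (-1) ≤ 1 / 2 := by
      rw [Real.exp_neg, one_div]
      refine inv_anti₀ (by norm_num) ?_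
      have := Real.add_one_le_exp (1 : ℝ)
      linarith
    linarith
  have h4 : (1 - (m : ℝ≥0)⁻¹ : ℝ≥0) ^ m ≤ 2⁻¹ := by
    rw [← NNReal.coe_le_coe, NNReal.coe_pow, h2]
    simpa using h3
  have h5 : ((((1 - (m : ℝ≥0)⁻¹ : ℝ≥0) ^ m : ℝ≥0)) : ℝ≥0∞) ≤ ((2⁻¹ : ℝ≥0) : ℝ≥0∞) :=
    ENNReal.coe_le_coe.2 h4
  rw [ENNReal.coe_pow, ENNReal.coe_inv two_ne_zero] at h5
  exact h5

theorem ghost_ge_gg (S : Finset Γ) (m : ℕ) (hm : 1 ≤ m) (ω : Cfg Γ) (x : Γ)
    (hfin : (clus S ω x).Finite) (h : (m : ℝ≥0∞) ≤ sz S ω x) :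
    2⁻¹ ≤ gg (1 - (m : ℝ≥0)⁻¹ : ℝ≥0) S ω x := by
  have hn : m ≤ (clus S ω x).ncard := by
    unfold sz at h
    rw [← hfin.cast_ncard_eq] at h
    have h' : (m : ℝ≥0∞) ≤ (((clus S ω x).ncard : ℕ) : ℝ≥0∞) := by simpa using h
    exact_mod_cast h'
  have ha : ((1 - (m : ℝ≥0)⁻¹ : ℝ≥0) : ℝ≥0∞) ≤ 1 := by
    have : (1 - (m : ℝ≥0)⁻¹ : ℝ≥0) ≤ 1 := tsub_le_self
    exact_mod_cast this
  unfold gg
  have h1 : ((1 - (m : ℝ≥0)⁻¹ : ℝ≥0) : ℝ≥0∞) ^ (clus S ω x).ncard ≤ 2⁻¹ :=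
    (pow_le_pow_right_of_le_one' ha hn).trans (ghost_ge_pow m hm)
  calc (2⁻¹ : ℝ≥0∞) = 1 - 2⁻¹ := ENNReal.one_sub_inv_two.symm
    _ ≤ _ := tsub_le_tsub_left h1 1

theorem ghost_ge_opn (S : Finset Γ) (s : Γ) (ω : Cfg Γ) (h : s ∉ clus S ω 1) :
    opn S (upd ω s(1, s) false) = opn S ω := by
  classical
  have hupd : ∀ f : Sym2 Γ, upd ω s(1, s) false f = if f = s(1, s) then false else ω f := by
    intro f
    unfold upd ovr
    simp only [Finset.mem_singleton]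
  ext x y
  show ((cay S).Adj x y ∧ upd ω s(1, s) false s(x, y) = true) ↔
    ((cay S).Adj x y ∧ ω s(x, y) = true)
  rw [hupd]
  by_cases he : s(x, y) = s(1, s)
  · rw [if_pos he]
    constructor
    · rintro ⟨_, h2⟩; exact absurd h2 (by simp)
    · rintro ⟨h1, h2⟩
      exfalso
      apply h
      rw [Sym2.eq_iff] at he
      rcases he with ⟨rfl, rfl⟩ | ⟨rfl, rfl⟩
      · exact SimpleGraph.Adj.reachable (G := opn S ω) ⟨h1, h2⟩
      · exact (SimpleGraph.Adj.reachable (G := opn S ω) ⟨h1, h2⟩).symm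
  · rw [if_neg he]

/-- with `h = 1/m`: the two-ghost functional dominates the event `D2` -/
theorem ghost_ge [Countable Γ] (S : Finset Γ) (hS : Symm S) (p : ℝ≥0) (hp : p ≤ 1)
    (hf : Fin0 S p hp) (m : ℕ) (hm : 1 ≤ m) (s : Γ) (hs : s ≠ 1) :
    bP Γ p hp (D2 S m 1 s) ≤ 4 * ∫⁻ ω in {ω | s ∉ clus S (upd ω s(1, s) false) 1},
        gg (1 - (m : ℝ≥0)⁻¹ : ℝ≥0) S (upd ω s(1, s) false) 1
          * gg (1 - (m : ℝ≥0)⁻¹ : ℝ≥0) S (upd ω s(1, s) false) s ∂(bP Γ p hp) := by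
  set A : Set (Cfg Γ) := {ω | s ∉ clus S (upd ω s(1, s) false) 1} with hA
  have hAm : MeasurableSet A := ((meas_clus S 1 s).preimage (meas_upd s(1, s) false)).compl
  have hDm := meas_D2 S m 1 s
  rw [← lintegral_indicator_one hDm, ← lintegral_const_mul' _ _ (by norm_num),
    ← lintegral_indicator hAm]
  refine lintegral_mono_ae ?_
  filter_upwards [fin_all p hp S hf] with ω hω
  by_cases hD : ω ∈ D2 S m 1 s
  · obtain ⟨h1, h2, h3⟩ := hD
    have ho := ghost_ge_opn S s ω h1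
    have hc : ∀ x, clus S (upd ω s(1, s) false) x = clus S ω x := by
      intro x; unfold clus; rw [ho]
    have hsz : ∀ x, sz S (upd ω s(1, s) false) x = sz S ω x := by
      intro x; unfold sz; rw [hc]
    have hωA : ω ∈ A := by
      show s ∉ clus S (upd ω s(1, s) false) 1
      rw [hc]; exact h1
    rw [Set.indicator_of_mem (show ω ∈ D2 S m 1 s from ⟨h1, h2, h3⟩),
      Set.indicator_of_mem hωA]
    have g1 : 2⁻¹ ≤ gg (1 - (m : ℝ≥0)⁻¹ : ℝ≥0) S (upd ω s(1, s) false) 1 :=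
      ghost_ge_gg S m hm _ _ (by rw [hc]; exact hω 1) (by rw [hsz]; exact h2)
    have g2 : 2⁻¹ ≤ gg (1 - (m : ℝ≥0)⁻¹ : ℝ≥0) S (upd ω s(1, s) false) s :=
      ghost_ge_gg S m hm _ _ (by rw [hc]; exact hω s) (by rw [hsz]; exact h3)
    have e1 : (4 : ℝ≥0∞) * (2⁻¹ * 2⁻¹) = 1 := by
      rw [← ENNReal.mul_inv (Or.inl two_ne_zero) (Or.inl ENNReal.ofNat_ne_top),
        show (2 : ℝ≥0∞) * 2 = 4 by norm_num]
      exact ENNReal.mul_inv_cancel (by norm_num) (by norm_num)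
    calc (1 : Cfg Γ → ℝ≥0∞) ω = 4 * (2⁻¹ * 2⁻¹) := by rw [e1]; rfl
      _ ≤ _ := mul_le_mul_right (mul_le_mul' g1 g2) 4
  · rw [Set.indicator_of_notMem hD]
    exact bot_le



--DONE ghost_small


theorem ghost_small [Countable Γ] (S : Finset Γ) (hS : Symm S) (p0 p1 : ℝ≥0) (h0 : 0 < p0)
    (h1 : p1 < 1) (ε : ℝ≥0) (hε : 0 < ε) :
    ∃ M : ℕ, ∀ m : ℕ, M ≤ m → ∀ (p : ℝ≥0) (hp : p ≤ 1), p0 ≤ p → p ≤ p1 → Fin0 S p hp →
      ∀ s ∈ S, bP Γ p hp (D2 S m 1 s) ≤ ε := by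
  have hl : 0 < ε / 32 := by positivity
  obtain ⟨c, hc, hcher⟩ := cher_closed S hS p0 p1 h0 h1 (ε / 32) hl
  have hp1 : 0 < 1 - p1 := tsub_pos_of_lt h1
  set A : ℝ≥0 := (S.card : ℝ≥0) / (1 - p1) with hA
  have hεR : (0 : ℝ) < ε := hε
  obtain ⟨m', hm'⟩ := exists_nat_gt ((A : ℝ) * 32 / (ε * c))
  obtain ⟨M, hM⟩ := exists_nat_gt ((A : ℝ) * m' * 32 / ε)
  have hexp : (A : ℝ) * Real.exp (-c * m') ≤ ε / 32 := by
    have e1 : (1 : ℝ) + c * m' ≤ Real.exp (c * m') := by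
      have := Real.add_one_le_exp (c * m')
      linarith
    have e2 : (A : ℝ) * 32 ≤ ε * (c * m') := by
      rw [div_lt_iff₀ (by positivity)] at hm'
      nlinarith
    have e3 : Real.exp (-c * m') = (Real.exp (c * m'))⁻¹ := by
      rw [← Real.exp_neg]
      congr 1
      ring
    rw [e3, ← div_eq_mul_inv, div_le_div_iff₀ (Real.exp_pos _) (by norm_num)]
    have e4 : (ε : ℝ) * (c * m') ≤ ε * Real.exp (c * m') := by
      apply mul_le_mul_of_nonneg_left _ hεR.le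
      linarith
    linarith
  refine ⟨M + 1, ?_⟩
  intro m hm p hp hp0 hpp1 hf s hs
  by_cases hs1 : s = 1
  · subst hs1
    have : D2 S m (1 : Γ) 1 = ∅ := by
      ext ω
      simp only [D2, Set.mem_setOf_eq, Set.mem_empty_iff_false, iff_false]
      rintro ⟨h, _, _⟩
      exact h (SimpleGraph.Reachable.refl _)
    rw [this, measure_empty]
    exact zero_le
  · have hm1 : 1 ≤ m := by omega
    have hmR : (0 : ℝ) < m := by exact_mod_cast hm1
    have hmN : (0 : ℝ≥0) < m := by exact_mod_cast hm1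
    have hp0' : 0 < p := lt_of_lt_of_le h0 hp0
    have hplt : p < 1 := lt_of_le_of_lt hpp1 h1
    have hh : (m : ℝ≥0)⁻¹ ≤ 1 := by
      apply inv_le_one_of_one_le₀
      exact_mod_cast hm1
    have hge := ghost_ge S hS p hp hf m hm1 s hs1
    have hbd := ghost_bound S hS p hp hp0' hplt hf ((m : ℝ≥0)⁻¹) hh (ε / 32) m'
    have hmem : s ∈ S1 S := (mem_S1 S s).2 ⟨hs, hs1⟩
    have hsing := Finset.single_le_sum (f := fun s : Γ =>
      ∫⁻ ω in {ω | s ∉ clus S (upd ω s(1, s) false) 1},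
        gg (1 - (m : ℝ≥0)⁻¹ : ℝ≥0) S (upd ω s(1, s) false) 1
          * gg (1 - (m : ℝ≥0)⁻¹ : ℝ≥0) S (upd ω s(1, s) false) s ∂(bP Γ p hp))
      (fun _ _ => zero_le) hmem
    have hB : (S.card : ℝ≥0∞) / ((1 - p : ℝ≥0) : ℝ≥0∞) ≤ (A : ℝ≥0∞) := by
      rw [hA, ENNReal.coe_div hp1.ne']
      simp only [ENNReal.coe_natCast]
      apply ENNReal.div_le_div_left
      exact_mod_cast tsub_le_tsub_left hpp1 1
    have ht1 : (S.card : ℝ≥0∞) / ((1 - p : ℝ≥0) : ℝ≥0∞) *
        ((((m : ℝ≥0)⁻¹ : ℝ≥0) : ℝ≥0∞) * m') ≤ ((ε / 32 : ℝ≥0) : ℝ≥0∞) := by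
      refine (mul_le_mul_left hB _).trans ?_
      have : A * ((m : ℝ≥0)⁻¹ * m') ≤ ε / 32 := by
        rw [← NNReal.coe_le_coe]
        push_cast
        have h5 : (A : ℝ) * m' * 32 < ε * m := by
          have h6 : (M : ℝ) ≤ m := by
            have : M ≤ m := by omega
            exact_mod_cast this
          rw [div_lt_iff₀ hεR] at hM
          nlinarith
        have h7 : (A : ℝ) * ((m : ℝ)⁻¹ * m') = (A * m') / m := by
          field_simp
        rw [h7, div_le_div_iff₀ hmR (by norm_num)]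
        linarith
      have h8 : ((A * ((m : ℝ≥0)⁻¹ * m') : ℝ≥0) : ℝ≥0∞) ≤ ((ε / 32 : ℝ≥0) : ℝ≥0∞) := by
        exact_mod_cast this
      simpa only [ENNReal.coe_mul, ENNReal.coe_natCast] using h8
    have ht2 : (S.card : ℝ≥0∞) / ((1 - p : ℝ≥0) : ℝ≥0∞) *
        bP Γ p hp {ω | (clus S ω 1).Finite ∧ (m' : ℝ≥0∞) ≤ sz S ω 1 ∧
          ne S true ω / p + ((ε / 32 : ℝ≥0) : ℝ≥0∞) * sz S ω 1 ≤
            ne S false ω / ((1 - p : ℝ≥0) : ℝ≥0∞)} ≤ ((ε / 32 : ℝ≥0) : ℝ≥0∞) := by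
      refine (mul_le_mul' hB (hcher p hp hp0 hpp1 m')).trans ?_
      have h9 : (A : ℝ≥0∞) = ENNReal.ofReal (A : ℝ) := by
        rw [ENNReal.ofReal_coe_nnreal]
      have h10 : ((ε / 32 : ℝ≥0) : ℝ≥0∞) = ENNReal.ofReal ((ε / 32 : ℝ≥0) : ℝ) := by
        rw [ENNReal.ofReal_coe_nnreal]
      rw [h9, ← ENNReal.ofReal_mul (NNReal.coe_nonneg A), h10]
      apply ENNReal.ofReal_le_ofReal
      push_cast
      exact hexp
    calc bP Γ p hp (D2 S m 1 s) ≤ 4 * (2 * (((ε / 32 : ℝ≥0) : ℝ≥0∞) + ((ε / 32 : ℝ≥0) : ℝ≥0∞)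
          + ((ε / 32 : ℝ≥0) : ℝ≥0∞))) := by
          refine hge.trans (mul_le_mul_right (hsing.trans (hbd.trans ?_)) _)
          exact mul_le_mul_right (add_le_add (add_le_add le_rfl ht1) ht2) _
      _ = ((4 * (2 * (ε / 32 + ε / 32 + ε / 32)) : ℝ≥0) : ℝ≥0∞) := by
          push_cast
          rfl
      _ ≤ (ε : ℝ≥0∞) := by
          rw [ENNReal.coe_le_coe, ← NNReal.coe_le_coe]
          push_cast
          linarith



--DONE open_step


theorem open_step_upd_self (ω : Cfg Γ) (e : Sym2 Γ) (b : Bool) (h : ω e = b) : upd ω e b = ω := by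
  classical
  funext e'
  unfold upd ovr
  by_cases he : e' ∈ ({e} : Finset (Sym2 Γ))
  · rw [if_pos he]
    rw [Finset.mem_singleton] at he
    rw [he, h]
  · rw [if_neg he]

theorem open_step_self_mem (S : Finset Γ) (ω : Cfg Γ) (x : Γ) : x ∈ clus S ω x :=
  SimpleGraph.Reachable.refl x

theorem open_step_symm {S : Finset Γ} {ω : Cfg Γ} {x y : Γ} (h : y ∈ clus S ω x) :
    x ∈ clus S ω y := SimpleGraph.Reachable.symm h

theorem open_step_sub (S : Finset Γ) (hS : Symm S) (m : ℕ) (y s x : Γ) (hs : s ∈ S) (hs1 : s ≠ 1)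
    (ω : Cfg Γ) (hω : ω ∈ D2 S m y x) :
    ω ∈ D2 S m y (y * s) ∨ upd ω s(y, y * s) true ∈ D2 S m (y * s) x := by
  obtain ⟨hx, hy, hxm⟩ := hω
  have hadj : (cay S).Adj y (y * s) := by
    rw [cay_adj hS]
    refine ⟨?_, ?_⟩
    · intro h
      exact hs1 (mul_eq_left.1 h.symm)
    · rw [inv_mul_cancel_left]
      exact hs
  have he : s(y, y * s) ∈ (cay S).edgeSet := hadj
  have hszeq : ∀ {a b : Γ} {η : Cfg Γ}, b ∈ clus S η a → sz S η b = sz S η a := by
    intro a b η h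
    unfold sz
    rw [clus_eq_of_mem h]
  by_cases hA : y * s ∈ clus S ω y
  · right
    have hall : ∀ z, clus S (upd ω s(y, y * s) true) z = clus S ω z := by
      intro z
      cases hb : ω s(y, y * s) with
      | true => rw [open_step_upd_self ω _ true hb]
      | false =>
        have hf := open_step_upd_self ω _ false hb
        have hns : ¬ sep S s(y, y * s) ω := by
          rw [sep_iff, hf]
          exact fun h => h hA
        rw [clus_upd_con _ he z ω hns, hf]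
    have hsz : ∀ z, sz S (upd ω s(y, y * s) true) z = sz S ω z := by
      intro z
      unfold sz
      rw [hall]
    refine ⟨?_, ?_, ?_⟩
    · rw [hall, clus_eq_of_mem hA]
      exact hx
    · rw [hsz, hszeq hA]
      exact hy
    · rw [hsz]
      exact hxm
  · by_cases hB : (m : ℝ≥0∞) ≤ sz S ω (y * s)
    · left
      exact ⟨hA, hy, hB⟩
    · right
      have hb : ω s(y, y * s) = false := by
        by_contra h
        rw [Bool.not_eq_false] at h
        exact hA (SimpleGraph.Adj.reachable (G := opn S ω) ⟨hadj, h⟩)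
      have hf := open_step_upd_self ω _ false hb
      have hbr := clus_upd_bridge y (y * s) y hadj ω (open_step_self_mem S _ y)
      rw [hf] at hbr
      have hmem : y * s ∈ clus S (upd ω s(y, y * s) true) y := by
        rw [hbr]
        exact Or.inr (open_step_self_mem S ω _)
      have hcl : clus S (upd ω s(y, y * s) true) (y * s) = clus S ω y ∪ clus S ω (y * s) := by
        rw [clus_eq_of_mem hmem, hbr]
      have hxs : x ∉ clus S ω (y * s) := by
        intro h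
        rw [hszeq h] at hxm
        exact hB hxm
      refine ⟨?_, ?_, ?_⟩
      · rw [hcl]
        rintro (h | h)
        · exact hx h
        · exact hxs h
      · refine hy.trans ?_
        unfold sz
        rw [hcl]
        exact_mod_cast Set.encard_le_encard Set.subset_union_left
      · have hfar : clus S (upd ω s(y, y * s) true) x = clus S (upd ω s(y, y * s) false) x := by
          apply clus_upd_far
          rw [hf]
          intro v hv
          rw [Sym2.mem_iff] at hv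
          rcases hv with rfl | rfl
          · exact fun h => hx (open_step_symm h)
          · exact fun h => hxs (open_step_symm h)
        have : sz S (upd ω s(y, y * s) true) x = sz S ω x := by
          unfold sz
          rw [hfar, hf]
        rw [this]
        exact hxm

theorem open_step_flip (p : ℝ≥0) (hp : p ≤ 1) (h0 : 0 < p) (e : Sym2 Γ) (B : Set (Cfg Γ))
    (hB : MeasurableSet B) :
    bP Γ p hp {ω | upd ω e true ∈ B} ≤ (p : ℝ≥0∞)⁻¹ * bP Γ p hp B := by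
  have hp0 : (p : ℝ≥0∞) ≠ 0 := by
    rw [Ne, ENNReal.coe_eq_zero]
    exact h0.ne'
  have hpt : (p : ℝ≥0∞) ≠ ⊤ := ENNReal.coe_ne_top
  have h := flip_true p hp e (B.indicator 1) (measurable_one.indicator hB)
  have h1 : ∫⁻ ω, B.indicator 1 (upd ω e true) ∂(bP Γ p hp) = bP Γ p hp {ω | upd ω e true ∈ B} := by
    have : (fun ω => B.indicator (1 : Cfg Γ → ℝ≥0∞) (upd ω e true))
        = ({ω | upd ω e true ∈ B}).indicator 1 := by
      funext ω
      by_cases hω : upd ω e true ∈ B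
      · rw [Set.indicator_of_mem hω, Set.indicator_of_mem (by exact hω)]
        rfl
      · rw [Set.indicator_of_notMem hω, Set.indicator_of_notMem (by exact hω)]
    rw [this]
    exact lintegral_indicator_one (meas_upd e true hB)
  have h2 : (p : ℝ≥0∞) * bP Γ p hp {ω | upd ω e true ∈ B} ≤ bP Γ p hp B := by
    rw [← h1, ← h]
    calc _ ≤ ∫⁻ ω, B.indicator 1 ω ∂(bP Γ p hp) := setLIntegral_le_lintegral _ _
      _ = bP Γ p hp B := lintegral_indicator_one hB
  calc bP Γ p hp {ω | upd ω e true ∈ B}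
      = (p : ℝ≥0∞)⁻¹ * ((p : ℝ≥0∞) * bP Γ p hp {ω | upd ω e true ∈ B}) := by
        rw [← mul_assoc, ENNReal.inv_mul_cancel hp0 hpt, one_mul]
    _ ≤ (p : ℝ≥0∞)⁻¹ * bP Γ p hp B := by gcongr

theorem open_step [Countable Γ] (S : Finset Γ) (hS : Symm S) (m : ℕ) (p : ℝ≥0) (hp : p ≤ 1)
    (h0 : 0 < p) (y s x : Γ) (hs : s ∈ S) :
    bP Γ p hp (D2 S m y x)
      ≤ bP Γ p hp (D2 S m y (y * s)) + (p : ℝ≥0∞)⁻¹ * bP Γ p hp (D2 S m (y * s) x) := by
  by_cases hs1 : s = 1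
  · subst hs1
    rw [mul_one]
    have h1 : (1 : ℝ≥0∞) ≤ (p : ℝ≥0∞)⁻¹ := by
      rw [ENNReal.one_le_inv]
      exact_mod_cast hp
    calc bP Γ p hp (D2 S m y x) = 1 * bP Γ p hp (D2 S m y x) := (one_mul _).symm
      _ ≤ (p : ℝ≥0∞)⁻¹ * bP Γ p hp (D2 S m y x) := by gcongr
      _ ≤ _ := le_add_self
  · calc bP Γ p hp (D2 S m y x)
        ≤ bP Γ p hp (D2 S m y (y * s) ∪ {ω | upd ω s(y, y * s) true ∈ D2 S m (y * s) x}) :=
          measure_mono fun ω hω => open_step_sub S hS m y s x hs hs1 ω hω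
      _ ≤ bP Γ p hp (D2 S m y (y * s)) + bP Γ p hp {ω | upd ω s(y, y * s) true ∈ D2 S m (y * s) x} :=
          measure_union_le _ _
      _ ≤ _ := by
          gcongr
          exact open_step_flip p hp h0 _ _ (meas_D2 S m _ _)



--DONE walk_bound


theorem walk_bound [Countable Γ] (S : Finset Γ) (hS : Symm S) (m : ℕ) (p : ℝ≥0) (hp : p ≤ 1)
    (h0 : 0 < p) (ε : ℝ≥0∞) (hε : ∀ s ∈ S, bP Γ p hp (D2 S m 1 s) ≤ ε) (l : List Γ)
    (hl : ∀ s ∈ l, s ∈ S) (y : Γ) :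
    bP Γ p hp (D2 S m y (y * l.prod)) ≤ l.length * (p : ℝ≥0∞)⁻¹ ^ l.length * ε := by
  induction l generalizing y with
  | nil =>
    have h1 : D2 S m y (y * ([] : List Γ).prod) = ∅ := by
      rw [List.prod_nil, mul_one]
      ext ω
      simp only [Set.mem_empty_iff_false, iff_false]
      intro hω
      exact hω.1 (SimpleGraph.Reachable.refl y)
    rw [h1, measure_empty]
    exact zero_le
  | cons s l ih =>
    have hs : s ∈ S := hl s (by simp)
    have ih' := ih (fun t ht => hl t (by simp [ht])) (y * s)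
    have h1 : y * (s :: l).prod = y * s * l.prod := by rw [List.prod_cons, mul_assoc]
    rw [h1]
    have h2 : bP Γ p hp (D2 S m y (y * s)) ≤ ε := by
      have h4 := shift_D2 S m p hp y 1 s
      rw [mul_one] at h4
      rw [h4]; exact hε s hs
    have hp1 : (1 : ℝ≥0∞) ≤ (p : ℝ≥0∞)⁻¹ := by
      rw [ENNReal.one_le_inv]; exact_mod_cast hp
    have h3 : (1 : ℝ≥0∞) ≤ (p : ℝ≥0∞)⁻¹ ^ (l.length + 1) := one_le_pow₀ hp1
    calc bP Γ p hp (D2 S m y (y * s * l.prod))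
        ≤ bP Γ p hp (D2 S m y (y * s)) +
          (p : ℝ≥0∞)⁻¹ * bP Γ p hp (D2 S m (y * s) (y * s * l.prod)) :=
          open_step S hS m p hp h0 y s _ hs
      _ ≤ ε + (p : ℝ≥0∞)⁻¹ * (l.length * (p : ℝ≥0∞)⁻¹ ^ l.length * ε) := by gcongr
      _ ≤ (p : ℝ≥0∞)⁻¹ ^ (l.length + 1) * ε +
            l.length * (p : ℝ≥0∞)⁻¹ ^ (l.length + 1) * ε := by
          refine add_le_add ?_ (le_of_eq (by ring))
          calc ε = 1 * ε := (one_mul _).symm
            _ ≤ _ := by gcongr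
      _ = _ := by rw [List.length_cons]; push_cast; ring



--DONE avg_exists


theorem avg_exists_aux {S : Finset Γ} (hne : S.Nonempty) (k : ℕ) (f : Γ → ℝ≥0∞) (x : Γ) :
    ∃ w : List Γ, w.length = k ∧ (∀ s ∈ w, s ∈ S) ∧ f (x * w.prod) ≤ avg S k f x := by
  induction k generalizing x with
  | zero =>
    refine ⟨[], rfl, fun s hs => absurd hs (List.not_mem_nil), ?_⟩
    rw [List.prod_nil, mul_one]
    exact le_refl _
  | succ k ih =>
    obtain ⟨s, hs, hmin⟩ := Finset.exists_min_image S (fun s => avg S k f (x * s)) hne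
    obtain ⟨w, hw1, hw2, hw3⟩ := ih (x * s)
    refine ⟨s :: w, by rw [List.length_cons, hw1], ?_, ?_⟩
    · intro t ht
      rcases List.mem_cons.1 ht with h | h
      · rw [h]; exact hs
      · exact hw2 t h
    · rw [List.prod_cons, ← mul_assoc]
      refine hw3.trans ?_
      show avg S k f (x * s) ≤ (∑ s ∈ S, avg S k f (x * s)) / S.card
      have hc : (S.card : ℝ≥0∞) ≠ 0 := by
        rw [Nat.cast_ne_zero]
        exact (Finset.card_pos.2 hne).ne'
      rw [ENNReal.le_div_iff_mul_le (Or.inl hc) (Or.inl (ENNReal.natCast_ne_top _)), mul_comm,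
        ← nsmul_eq_mul]
      exact Finset.card_nsmul_le_sum S _ _ hmin


theorem avg_exists (S : Finset Γ) (hne : S.Nonempty) (k : ℕ) (f : Γ → ℝ≥0∞) (h : Γ) (c : ℝ≥0∞)
    (hc : avg S k f h ≤ c) :
    ∃ l : List Γ, (∀ s ∈ l, s ∈ S) ∧ l.length = k ∧ f (h * l.prod) ≤ c := by
  obtain ⟨w, h1, h2, h3⟩ := avg_exists_aux hne k f h
  exact ⟨w, h2, h1, h3.trans hc⟩



--DONE big_sq


theorem big_sq [Countable Γ] (S : Finset Γ) (hS : Symm S) (hne : S.Nonempty) (m : ℕ) (p : ℝ≥0)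
    (hp : p ≤ 1) (h0 : 0 < p) (ε : ℝ≥0∞) (hε : ∀ s ∈ S, bP Γ p hp (D2 S m 1 s) ≤ ε)
    (k : ℕ) (ρ : ℝ≥0)
    (hρ : avg S k (fun u => bP Γ p hp {ω | (1 : Γ) ∈ clus S ω u}) 1 ≤ (ρ : ℝ≥0∞) ^ k) :
    (bP Γ p hp {ω | (m : ℝ≥0∞) ≤ sz S ω 1}) ^ 2
      ≤ (ρ : ℝ≥0∞) ^ k + k * (p : ℝ≥0∞)⁻¹ ^ k * ε := by
  obtain ⟨l, hlS, hlk, hlf⟩ := avg_exists S hne k _ 1 _ hρ
  rw [one_mul] at hlf
  have hmA : ∀ x : Γ, MeasurableSet {ω : Cfg Γ | (m : ℝ≥0∞) ≤ sz S ω x} := fun x =>
    measurableSet_le measurable_const (meas_sz S x)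
  have hinc : ∀ x : Γ, ∀ ω ω' : Cfg Γ, (∀ e, ω e = true → ω' e = true) →
      ω ∈ {ω : Cfg Γ | (m : ℝ≥0∞) ≤ sz S ω x} → ω' ∈ {ω : Cfg Γ | (m : ℝ≥0∞) ≤ sz S ω x} := by
    intro x ω ω' h hω
    have h1 : sz S ω x ≤ sz S ω' x := by
      unfold sz
      exact_mod_cast Set.encard_le_encard (clus_mono h x)
    exact le_trans hω h1
  have hPB : bP Γ p hp {ω | (m : ℝ≥0∞) ≤ sz S ω l.prod} =
      bP Γ p hp {ω | (m : ℝ≥0∞) ≤ sz S ω 1} := by
    have h1 := (shift_mp p hp l.prod).measure_preimage (hmA l.prod).nullMeasurableSet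
    rw [← h1]
    congr 1
    ext ω
    show (m : ℝ≥0∞) ≤ sz S (shift l.prod ω) l.prod ↔ (m : ℝ≥0∞) ≤ sz S ω 1
    have h2 := sz_shift (S := S) l.prod ω 1
    rw [mul_one] at h2
    rw [h2]
  have h1 := harris_ev p hp _ _ (hmA 1) (hmA l.prod) (hinc 1) (hinc l.prod)
  rw [hPB, ← sq] at h1
  refine h1.trans ?_
  have hsub : {ω : Cfg Γ | (m : ℝ≥0∞) ≤ sz S ω 1} ∩ {ω | (m : ℝ≥0∞) ≤ sz S ω l.prod} ⊆
      {ω | (1 : Γ) ∈ clus S ω l.prod} ∪ D2 S m 1 l.prod := by
    rintro ω ⟨ha, hb⟩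
    by_cases hx : l.prod ∈ clus S ω 1
    · left
      exact SimpleGraph.Reachable.symm hx
    · right
      exact ⟨hx, ha, hb⟩
  have h2 := walk_bound S hS m p hp h0 ε hε l hlS 1
  rw [one_mul, hlk] at h2
  calc bP Γ p hp ({ω : Cfg Γ | (m : ℝ≥0∞) ≤ sz S ω 1} ∩ {ω | (m : ℝ≥0∞) ≤ sz S ω l.prod})
      ≤ bP Γ p hp ({ω | (1 : Γ) ∈ clus S ω l.prod} ∪ D2 S m 1 l.prod) := measure_mono hsub
    _ ≤ bP Γ p hp {ω | (1 : Γ) ∈ clus S ω l.prod} + bP Γ p hp (D2 S m 1 l.prod) :=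
        measure_union_le _ _
    _ ≤ _ := add_le_add hlf h2



--DONE big_local


theorem big_local_aux [Countable Γ] (S : Finset Γ) (hS : Symm S) (hg : Gen S) (m : ℕ)
    (ω ω' : Cfg Γ) (h : ∀ e ∈ T S (ball S 1 m), ω e = ω' e) (hlt : sz S ω 1 < m) :
    sz S ω' 1 < m := by
  have hfin : (clus S ω 1).Finite := by
    by_contra hinf
    have h1 : (clus S ω 1).encard = ⊤ := Set.encard_eq_top_iff.mpr hinf
    unfold sz at hlt
    rw [h1] at hlt
    simp at hlt
  set H : Finset Γ := hfin.toFinset with hH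
  have hcl : clus S ω 1 = ↑H := by rw [hH, Set.Finite.coe_toFinset]
  have hsub : ∀ v ∈ H, v ∈ ball S 1 m := by
    intro v hv
    rw [mem_ball hS hg]
    have hv' : v ∈ clus S ω 1 := by rw [hcl]; exact_mod_cast hv
    exact (dist_lt_of_sz m 1 v ω hv' hlt.le).le
  have hkp : kp S H ω = kp S H ω' := by
    funext e
    unfold kp
    by_cases he : e ∈ T S H
    · simp only [he, if_true]
      apply h
      rw [mem_T hS] at he ⊢
      obtain ⟨h1, v, hve, hvH⟩ := he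
      exact ⟨h1, v, hve, hsub v hvH⟩
    · simp only [he, if_false]
  have h1 := (clus_kp hS H ω 1).mp hcl
  rw [hkp] at h1
  have h2 := (clus_kp hS H ω' 1).mpr h1
  unfold sz at hlt ⊢
  rw [h2, ← hcl]
  exact hlt

theorem big_local [Countable Γ] (S : Finset Γ) (hS : Symm S) (hg : Gen S) (m : ℕ) :
    ∃ q : Polynomial ℝ, ∀ (p : ℝ≥0) (hp : p ≤ 1),
      (bP Γ p hp {ω | (m : ℝ≥0∞) ≤ sz S ω 1}).toReal = q.eval (p : ℝ) := by
  apply local_prob (T S (ball S 1 m))
  intro ω ω' h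
  simp only [Set.mem_setOf_eq]
  constructor
  · intro h1
    by_contra h2
    push Not at h2
    exact absurd (big_local_aux S hS hg m ω' ω (fun e he => (h e he).symm) h2) (not_lt.mpr h1)
  · intro h1
    by_contra h2
    push Not at h2
    exact absurd (big_local_aux S hS hg m ω ω' h h2) (not_lt.mpr h1)



--DONE theta_pc


theorem theta_pc [Countable Γ] (S : Finset Γ) (hS : Symm S) (hg : Gen S) (hna : Nonamenable S) :
    0 < pc S ∧ pc S < 1 ∧ Fin0 S (pc S) (pc_le_one S) := by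
  have h0 := pc_pos S hS
  have h1 := pc_lt_one S hS hg hna
  refine ⟨h0, h1, ?_⟩
  have hne : S.Nonempty := by
    by_contra h
    rw [Finset.not_nonempty_iff_eq_empty] at h
    have hinf : Infinite Γ := infinite_of_nonam hna
    have hg' : Subgroup.closure (S : Set Γ) = ⊤ := hg
    rw [h, Finset.coe_empty, Subgroup.closure_empty] at hg'
    have h2 : Subsingleton (Subgroup Γ) := subsingleton_of_bot_eq_top hg'
    have h3 : Subsingleton Γ := Subgroup.subsingleton_iff.1 h2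
    exact not_finite Γ
  obtain ⟨ρ, hρ1, hρ⟩ := conn_avg_one S hS hg hna
  obtain ⟨p0, hp0, hp0lt⟩ : ∃ p0 : ℝ≥0, 0 < p0 ∧ p0 < pc S := exists_between h0
  have hp0r : (0 : ℝ) < (p0 : ℝ) := by exact_mod_cast hp0
  have main : ∀ (k : ℕ) (ε : ℝ≥0), 0 < ε →
      (bP Γ (pc S) (pc_le_one S) {ω | (clus S ω 1).Infinite}).toReal ^ 2
        ≤ (ρ : ℝ) ^ k + (k * ((p0 : ℝ)⁻¹) ^ k) * ε := by
    intro k ε hε
    obtain ⟨M, hM⟩ := ghost_small S hS p0 (pc S) hp0 h1 ε hε
    obtain ⟨q, hq⟩ := big_local S hS hg M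
    have hx : Set.Ico (p0 : ℝ) (pc S : ℝ) ⊆
        {x : ℝ | (q.eval x) ^ 2 ≤ (ρ : ℝ) ^ k + (k * ((p0 : ℝ)⁻¹) ^ k) * ε} := by
      intro x hx
      have hx0 : 0 ≤ x := le_trans p0.2 hx.1
      lift x to ℝ≥0 using hx0
      have hx1 : p0 ≤ x := by exact_mod_cast hx.1
      have hx2 : x < pc S := by exact_mod_cast hx.2
      have hxle : x ≤ 1 := hx2.le.trans (pc_le_one S)
      have hfin := fin0_of_lt S x hxle hx2
      have hxpos : 0 < x := hp0.trans_le hx1
      have hD := hM M le_rfl x hxle hx1 hx2.le hfin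
      have hsq := big_sq S hS hne M x hxle hxpos (ε : ℝ≥0∞) hD k ρ (hρ x hxle hfin k 1 1)
      have hco : (ρ : ℝ≥0∞) ^ k + k * (x : ℝ≥0∞)⁻¹ ^ k * ε
          = ((ρ ^ k + k * x⁻¹ ^ k * ε : ℝ≥0) : ℝ≥0∞) := by
        rw [ENNReal.coe_add, ENNReal.coe_mul, ENNReal.coe_mul, ENNReal.coe_pow, ENNReal.coe_pow,
          ENNReal.coe_inv hxpos.ne', ENNReal.coe_natCast]
      rw [hco] at hsq
      have h3 := ENNReal.toReal_mono ENNReal.coe_ne_top hsq
      rw [ENNReal.toReal_pow, hq, ENNReal.coe_toReal] at h3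
      refine h3.trans ?_
      push_cast
      have h4 : ((x : ℝ)⁻¹) ^ k ≤ ((p0 : ℝ)⁻¹) ^ k :=
        pow_le_pow_left₀ (inv_nonneg.2 x.2) (inv_anti₀ hp0r (by exact_mod_cast hx1)) k
      have h5 : (k : ℝ) * ((x : ℝ)⁻¹) ^ k * ε ≤ (k : ℝ) * ((p0 : ℝ)⁻¹) ^ k * ε :=
        mul_le_mul_of_nonneg_right (mul_le_mul_of_nonneg_left h4 (Nat.cast_nonneg k)) ε.2
      linarith
    have hclosed : IsClosed {x : ℝ | (q.eval x) ^ 2 ≤ (ρ : ℝ) ^ k + (k * ((p0 : ℝ)⁻¹) ^ k) * ε} :=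
      isClosed_le (by fun_prop) continuous_const
    have hmem : (pc S : ℝ) ∈ closure (Set.Ico (p0 : ℝ) (pc S : ℝ)) := by
      have hlt : (p0 : ℝ) < (pc S : ℝ) := by exact_mod_cast hp0lt
      rw [closure_Ico hlt.ne]
      exact ⟨hlt.le, le_rfl⟩
    have h6 : (q.eval ((pc S : ℝ≥0) : ℝ)) ^ 2 ≤ (ρ : ℝ) ^ k + (k * ((p0 : ℝ)⁻¹) ^ k) * ε :=
      hclosed.closure_subset_iff.2 hx hmem
    refine le_trans ?_ h6
    rw [← hq (pc S) (pc_le_one S)]
    refine pow_le_pow_left₀ ENNReal.toReal_nonneg ?_ 2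
    refine ENNReal.toReal_mono (measure_ne_top _ _) (measure_mono ?_)
    intro ω hω
    have h7 : sz S ω 1 = ⊤ := (inf_iff_sz S ω 1).1 hω
    change (M : ℝ≥0∞) ≤ sz S ω 1
    rw [h7]
    exact le_top
  have main2 : ∀ k : ℕ, (bP Γ (pc S) (pc_le_one S) {ω | (clus S ω 1).Infinite}).toReal ^ 2
        ≤ (ρ : ℝ) ^ k := by
    intro k
    have hC : 0 ≤ (k * ((p0 : ℝ)⁻¹) ^ k) := by positivity
    refine le_of_forall_pos_le_add fun δ hδ => ?_
    have hε : 0 < δ / ((k * ((p0 : ℝ)⁻¹) ^ k) + 1) := by positivity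
    have h8 := main k ⟨δ / ((k * ((p0 : ℝ)⁻¹) ^ k) + 1), hε.le⟩ (by exact_mod_cast hε)
    refine h8.trans ?_
    have h9 : (k * ((p0 : ℝ)⁻¹) ^ k) * (δ / ((k * ((p0 : ℝ)⁻¹) ^ k) + 1)) ≤ δ := by
      rw [mul_div_assoc', div_le_iff₀ (by positivity)]
      nlinarith
    change (ρ : ℝ) ^ k + (k * ((p0 : ℝ)⁻¹) ^ k) * (δ / ((k * ((p0 : ℝ)⁻¹) ^ k) + 1)) ≤ _
    linarith
  have hlim : Filter.Tendsto (fun k : ℕ => (ρ : ℝ) ^ k) Filter.atTop (nhds 0) :=
    tendsto_pow_atTop_nhds_zero_of_lt_one ρ.2 (by exact_mod_cast hρ1)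
  have h10 := ge_of_tendsto' hlim main2
  have h11 : (bP Γ (pc S) (pc_le_one S) {ω | (clus S ω 1).Infinite}).toReal = 0 := by
    nlinarith [sq_nonneg (bP Γ (pc S) (pc_le_one S) {ω | (clus S ω 1).Infinite}).toReal,
      pow_eq_zero_iff (two_ne_zero) |>.1 (le_antisymm h10 (sq_nonneg _))]
  rcases (ENNReal.toReal_eq_zero_iff _).1 h11 with h12 | h12
  · exact h12
  · exact absurd h12 (measure_ne_top _ _)




end Pool.Agent.IIC.Th

namespace Pool.Agent.IIC

open MeasureTheory ProbabilityTheory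
open scoped ENNReal NNReal

variable {Γ : Type} [Group Γ]

theorem theta_pc {S : Finset Γ} (hS : Symm S) (hg : Gen S) (hna : Nonamenable S) :
    Fin0 S (pc S) (pc_le_one S) ∧ 0 < pc S ∧ pc S < 1 := by
  haveI : Countable Γ := countable_of_gen hg
  obtain ⟨h1, h2, h3⟩ := Th.theta_pc S hS hg hna
  exact ⟨h3, h1, h2⟩

/-- below `p_c` all clusters are finite -/
theorem fin0_of_lt_pc [Countable Γ] (S : Finset Γ) (p : ℝ≥0) (hp : p ≤ 1) (h : p < pc S) :
    Fin0 S p hp := Th.fin0_of_lt S p hp h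

end Pool.Agent.IIC
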